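import Mathlib

set_option autoImplicit false

namespace Pool.Agent.Lib.helper27.ChainTower

open Filter

section basic
variable {T : Type} [LinearOrder T]

/-- bounded support -/
def Bdd (f : T ≃o T) : Prop := ∃ t1 t2 : T, (∀ s, s < t1 → f s = s) ∧ (∀ s, t2 < s → f s = s)

/-- pointwise maximum -/
noncomputable def omax (f g : T ≃o T) : T ≃o T :=
  StrictMono.orderIsoOfSurjective (fun x => max (f x) (g x))
    (fun _ _ h => max_lt_max (f.strictMono h) (g.strictMono h))
    (fun y => by
      rcases le_total (f.symm y) (g.symm y) with h | h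
      · refine ⟨f.symm y, ?_⟩
        have := g.monotone h
        simp only [OrderIso.apply_symm_apply] at this ⊢
        exact max_eq_left this
      · refine ⟨g.symm y, ?_⟩
        have := f.monotone h
        simp only [OrderIso.apply_symm_apply] at this ⊢
        exact max_eq_right this)

theorem omax_apply (f g : T ≃o T) (x : T) : omax f g x = max (f x) (g x) := rfl

/-- pointwise minimum -/
noncomputable def omin (f g : T ≃o T) : T ≃o T :=
  StrictMono.orderIsoOfSurjective (fun x => min (f x) (g x))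
    (fun _ _ h => min_lt_min (f.strictMono h) (g.strictMono h))
    (fun y => by
      rcases le_total (f.symm y) (g.symm y) with h | h
      · refine ⟨g.symm y, ?_⟩
        have := f.monotone h
        simp only [OrderIso.apply_symm_apply] at this ⊢
        exact min_eq_right this
      · refine ⟨f.symm y, ?_⟩
        have := g.monotone h
        simp only [OrderIso.apply_symm_apply] at this ⊢
        exact min_eq_left this)

theorem omin_apply (f g : T ≃o T) (x : T) : omin f g x = min (f x) (g x) := rfl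

theorem Bdd.of_fix {f g h : T ≃o T} (hf : Bdd f) (hg : Bdd g)
    (H : ∀ s, f s = s → g s = s → h s = s) : Bdd h := by
  obtain ⟨a, b, h1, h2⟩ := hf
  obtain ⟨c, d, h3, h4⟩ := hg
  exact ⟨min a c, max b d,
    fun s hs => H s (h1 s (lt_min_iff.mp hs).1) (h3 s (lt_min_iff.mp hs).2),
    fun s hs => H s (h2 s (max_lt_iff.mp hs).1) (h4 s (max_lt_iff.mp hs).2)⟩

theorem Bdd.mul {f g : T ≃o T} (hf : Bdd f) (hg : Bdd g) : Bdd (f * g) :=
  hf.of_fix hg fun s h1 h2 => by show f (g s) = s; rw [h2, h1]

theorem Bdd.inv {f : T ≃o T} (hf : Bdd f) : Bdd f⁻¹ :=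
  hf.of_fix hf fun s h1 _ => by
    show f.symm s = s
    rw [OrderIso.symm_apply_eq, h1]

/-- two-transitivity of the bounded automorphisms -/
def Good (T : Type) [LinearOrder T] : Prop :=
  ∀ r1 r2 s1 s2 : T, r1 < r2 → s1 < s2 → ∃ f : T ≃o T, Bdd f ∧ f r1 = s1 ∧ f r2 = s2

open Classical in
/-- gluing two automorphisms along an invariant lower set -/
noncomputable def glue (D : Set T) (hD : ∀ x y, x ≤ y → y ∈ D → x ∈ D) (F G : T ≃o T)
    (hF : ∀ y, F y ∈ D ↔ y ∈ D) (hG : ∀ y, G y ∈ D ↔ y ∈ D) : T ≃o T :=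
  StrictMono.orderIsoOfSurjective (fun x => if x ∈ D then F x else G x)
    (fun x y h => by
      by_cases hy : y ∈ D
      · have hx := hD x y h.le hy
        simp only [if_pos hx, if_pos hy]
        exact F.strictMono h
      · by_cases hx : x ∈ D
        · simp only [if_pos hx, if_neg hy]
          by_contra hc
          exact hy ((hG y).mp (hD _ _ (not_lt.mp hc) ((hF x).mpr hx)))
        · simp only [if_neg hx, if_neg hy]
          exact G.strictMono h)
    (fun y => by
      by_cases hy : y ∈ D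
      · refine ⟨F.symm y, ?_⟩
        have : F.symm y ∈ D := (hF _).mp (by simpa using hy)
        simp only [if_pos this, OrderIso.apply_symm_apply]
      · refine ⟨G.symm y, ?_⟩
        have : G.symm y ∉ D := fun h => hy (by simpa using (hG _).mpr h)
        simp only [if_neg this, OrderIso.apply_symm_apply])

open Classical in
theorem glue_apply (D : Set T) (hD : ∀ x y, x ≤ y → y ∈ D → x ∈ D) (F G : T ≃o T)
    (hF : ∀ y, F y ∈ D ↔ y ∈ D) (hG : ∀ y, G y ∈ D ↔ y ∈ D) (x : T) :
    glue D hD F G hF hG x = if x ∈ D then F x else G x := rfl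

/-- `F` splits as a join of two disjoint bounded nontrivial automorphisms -/
def Splits (F : T ≃o T) : Prop :=
  ∃ f1 f2 : T ≃o T, Bdd f1 ∧ Bdd f2 ∧ f1 ≠ 1 ∧ f2 ≠ 1 ∧ (∀ t, min (f1 t) (f2 t) = t) ∧
    (∀ t, max (f1 t) (f2 t) = F t)

theorem splits_of (F : T ≃o T) (hB : Bdd F) (hpos : ∀ t, t ≤ F t) (x y : T) (hx : F x ≠ x)
    (hy : F y ≠ y) (hxy : ∀ n : ℕ, (F ^ n) x < y) : Splits F := by
  classical
  let D : Set T := {z | ∃ n : ℕ, z ≤ (F ^ n) x}
  have hD : ∀ a b, a ≤ b → b ∈ D → a ∈ D := fun a b hab ⟨n, hn⟩ => ⟨n, hab.trans hn⟩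
  have hF : ∀ z, F z ∈ D ↔ z ∈ D := by
    intro z
    refine ⟨fun h => hD _ _ (hpos z) h, fun ⟨n, hn⟩ => ⟨n + 1, ?_⟩⟩
    rw [pow_succ']
    exact F.monotone hn
  have h1 : ∀ z, (1 : T ≃o T) z ∈ D ↔ z ∈ D := fun z => Iff.rfl
  have hxD : x ∈ D := ⟨0, le_rfl⟩
  have hyD : y ∉ D := fun ⟨n, hn⟩ => absurd (hxy n) (not_lt.mpr hn)
  refine ⟨glue D hD F 1 hF h1, glue D hD 1 F h1 hF, ?_, ?_, ?_, ?_, ?_, ?_⟩
  · refine hB.of_fix hB fun s h _ => ?_
    rw [glue_apply]; split_ifs
    · exact h
    · rfl
  · refine hB.of_fix hB fun s h _ => ?_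
    rw [glue_apply]; split_ifs
    · rfl
    · exact h
  · intro h
    have := congrArg (fun f : T ≃o T => f x) h
    simp only [glue_apply, if_pos hxD] at this
    exact hx this
  · intro h
    have := congrArg (fun f : T ≃o T => f y) h
    simp only [glue_apply, if_neg hyD] at this
    exact hy this
  · intro t
    rw [glue_apply, glue_apply]; split_ifs
    · exact min_eq_right (hpos t)
    · exact min_eq_left (hpos t)
  · intro t
    rw [glue_apply, glue_apply]; split_ifs
    · exact max_eq_left (hpos t)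
    · exact max_eq_right (hpos t)

end basic

section rat

/-- affine map fixing `c` with positive slope -/
noncomputable def aff (c l : ℚ) (hl : 0 < l) : ℚ ≃o ℚ :=
  StrictMono.orderIsoOfSurjective (fun x => c + l * (x - c))
    (fun x y h => by simp only; nlinarith)
    (fun y => ⟨c + (y - c) / l, by simp only; field_simp; ring⟩)

theorem aff_apply (c l : ℚ) (hl : 0 < l) (x : ℚ) : aff c l hl x = c + l * (x - c) := rfl

theorem move_up (a b r s : ℚ) (h1 : a < r) (h2 : r ≤ s) (h3 : s < b) :
    ∃ f : ℚ ≃o ℚ, (∀ x, x ≤ a → f x = x) ∧ (∀ x, b ≤ x → f x = x) ∧ f r = s := by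
  have p1 : 0 < r - a := by linarith
  have p2 : 0 < b - r := by linarith
  have l1 : 0 < (s - a) / (r - a) := div_pos (by linarith) p1
  have l2 : 0 < (b - s) / (b - r) := div_pos (by linarith) p2
  have g1 : 1 ≤ (s - a) / (r - a) := by rw [le_div_iff₀ p1]; linarith
  have g2 : (b - s) / (b - r) ≤ 1 := by rw [div_le_iff₀ p2]; linarith
  refine ⟨omax 1 (omin (aff a _ l1) (aff b _ l2)), ?_, ?_, ?_⟩
  · intro x hx
    rw [omax_apply, omin_apply, aff_apply, aff_apply]
    apply max_eq_left
    apply (min_le_left _ _).trans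
    show _ ≤ x
    nlinarith
  · intro x hx
    rw [omax_apply, omin_apply, aff_apply, aff_apply]
    apply max_eq_left
    apply (min_le_right _ _).trans
    show _ ≤ x
    nlinarith
  · rw [omax_apply, omin_apply, aff_apply, aff_apply]
    have e1 : a + (s - a) / (r - a) * (r - a) = s := by field_simp; ring
    have e2 : b + (b - s) / (b - r) * (r - b) = s := by field_simp; ring
    rw [e1, e2, min_self]
    exact max_eq_right h2

theorem move (a b r s : ℚ) (h1 : a < r) (h2 : r < b) (h3 : a < s) (h4 : s < b) :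
    ∃ f : ℚ ≃o ℚ, (∀ x, x ≤ a → f x = x) ∧ (∀ x, b ≤ x → f x = x) ∧ f r = s := by
  rcases le_total r s with h | h
  · exact move_up a b r s h1 h h4
  · obtain ⟨f, k1, k2, k3⟩ := move_up a b s r h3 h h2
    refine ⟨f.symm, fun x hx => ?_, fun x hx => ?_, ?_⟩
    · rw [OrderIso.symm_apply_eq, k1 x hx]
    · rw [OrderIso.symm_apply_eq, k2 x hx]
    · rw [OrderIso.symm_apply_eq, k3]

theorem good_rat : Good ℚ := by
  intro r1 r2 s1 s2 hr hs
  have a1 := min_le_left r1 s1
  have a2 := min_le_right r1 s1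
  have a3 := le_max_left r2 s2
  have a4 := le_max_right r2 s2
  obtain ⟨f1, k1, k2, k3⟩ := move r1 (max r2 s2 + 2) r2 (max r2 s2 + 1) hr (by linarith)
    (by linarith) (by linarith)
  obtain ⟨f2, m1, m2, m3⟩ := move (min r1 s1 - 1) (max r2 s2 + 1) r1 s1 (by linarith)
    (by linarith) (by linarith) (by linarith)
  obtain ⟨f3, n1, n2, n3⟩ := move s1 (max r2 s2 + 2) (max r2 s2 + 1) s2 (by linarith)
    (by linarith) hs (by linarith)
  have b : ∀ (f : ℚ ≃o ℚ) (a c : ℚ), (∀ x, x ≤ a → f x = x) → (∀ x, c ≤ x → f x = x) → Bdd f :=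
    fun f a c h1 h2 => ⟨a, c, fun s hs => h1 s hs.le, fun s hs => h2 s hs.le⟩
  refine ⟨f3 * (f2 * f1), (b _ _ _ n1 n2).mul ((b _ _ _ m1 m2).mul (b _ _ _ k1 k2)), ?_, ?_⟩
  · show f3 (f2 (f1 r1)) = s1
    rw [k1 r1 le_rfl, m3, n1 s1 le_rfl]
  · show f3 (f2 (f1 r2)) = s2
    rw [k3, m2 _ le_rfl, n3]

end rat

section ultra
variable {T : Type} [LinearOrder T]

/-- the ultrapower -/
abbrev Ult (T : Type) : Type := Germ (hyperfilter ℕ : Filter ℕ) T

/-- internal maps -/
noncomputable def umap (φ : ℕ → T → T) : Ult T → Ult T :=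
  Germ.map' (fun x n => φ n (x n)) (fun _ _ h => h.mono fun n hn => by simp only [hn])

omit [LinearOrder T] in
theorem umap_coe (φ : ℕ → T → T) (x : ℕ → T) :
    umap φ (x : Ult T) = ((fun n => φ n (x n) : ℕ → T) : Ult T) := rfl

/-- internal automorphisms -/
noncomputable def ult (φ : ℕ → T ≃o T) : Ult T ≃o Ult T where
  toFun := umap fun n => φ n
  invFun := umap fun n => (φ n).symm
  left_inv x := by
    induction x using Germ.inductionOn with
    | h x => simp [umap_coe]
  right_inv x := by
    induction x using Germ.inductionOn with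
    | h x => simp [umap_coe]
  map_rel_iff' := by
    intro x y
    induction x using Germ.inductionOn with
    | h x =>
      induction y using Germ.inductionOn with
      | h y =>
        simp only [Equiv.coe_fn_mk, umap_coe, Germ.coe_le, EventuallyLE, OrderIso.le_iff_le]

theorem ult_coe (φ : ℕ → T ≃o T) (x : ℕ → T) :
    ult φ (x : Ult T) = ((fun n => φ n (x n) : ℕ → T) : Ult T) := rfl

theorem ult_fix (φ : ℕ → T ≃o T) (t1 t2 : ℕ → T)
    (h : ∀ n, (∀ s, s < t1 n → φ n s = s) ∧ (∀ s, t2 n < s → φ n s = s)) :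
    (∀ s, s < (t1 : Ult T) → ult φ s = s) ∧ (∀ s, (t2 : Ult T) < s → ult φ s = s) := by
  constructor
  · intro s hs
    induction s using Germ.inductionOn with
    | h s =>
      rw [Germ.coe_lt] at hs
      rw [ult_coe, Germ.coe_eq]
      exact hs.mono fun n hn => (h n).1 _ hn
  · intro s hs
    induction s using Germ.inductionOn with
    | h s =>
      rw [Germ.coe_lt] at hs
      rw [ult_coe, Germ.coe_eq]
      exact hs.mono fun n hn => (h n).2 _ hn

theorem good_ult (h : Good T) : Good (Ult T) := by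
  intro r1 r2 s1 s2 hr hs
  induction r1 using Germ.inductionOn with
  | h r1 =>
  induction r2 using Germ.inductionOn with
  | h r2 =>
  induction s1 using Germ.inductionOn with
  | h s1 =>
  induction s2 using Germ.inductionOn with
  | h s2 =>
  rw [Germ.coe_lt] at hr hs
  have : ∀ n, ∃ f : T ≃o T, Bdd f ∧ (r1 n < r2 n ∧ s1 n < s2 n → f (r1 n) = s1 n ∧
      f (r2 n) = s2 n) := by
    intro n
    by_cases hn : r1 n < r2 n ∧ s1 n < s2 n
    · obtain ⟨f, h1, h2⟩ := h _ _ _ _ hn.1 hn.2
      exact ⟨f, h1, fun _ => h2⟩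
    · exact ⟨1, ⟨r1 n, r1 n, fun _ _ => rfl, fun _ _ => rfl⟩, fun hh => absurd hh hn⟩
  choose φ hB hφ using this
  choose t1 t2 ht using hB
  refine ⟨ult φ, ⟨_, _, ult_fix φ t1 t2 ht⟩, ?_, ?_⟩
  · rw [ult_coe, Germ.coe_eq]
    exact (hr.and hs).mono fun n hn => (hφ n hn).1
  · rw [ult_coe, Germ.coe_eq]
    exact (hr.and hs).mono fun n hn => (hφ n hn).2

/-- the star map on automorphisms -/
noncomputable def star : (T ≃o T) →* (Ult T ≃o Ult T) where
  toFun f := ult fun _ => f
  map_one' := by
    ext x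
    induction x using Germ.inductionOn with
    | h x => rfl
  map_mul' f g := by
    ext x
    induction x using Germ.inductionOn with
    | h x => rfl

theorem star_coe (f : T ≃o T) (x : ℕ → T) :
    star f (x : Ult T) = ((fun n => f (x n) : ℕ → T) : Ult T) := rfl

theorem star_omax (f g : T ≃o T) : star (omax f g) = omax (star f) (star g) := by
  ext x
  induction x using Germ.inductionOn with
  | h x => rw [omax_apply, Germ.max_def]; rfl

theorem star_omin (f g : T ≃o T) : star (omin f g) = omin (star f) (star g) := by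
  ext x
  induction x using Germ.inductionOn with
  | h x => rw [omin_apply, Germ.min_def]; rfl

/-- the diagonal embedding -/
noncomputable def diag : T ↪o Ult T :=
  OrderEmbedding.ofMapLEIff (fun x => ((fun _ => x : ℕ → T) : Ult T))
    (fun _ _ => Germ.const_le_iff)

theorem star_diag (f : T ≃o T) (x : T) : star f (diag x) = diag (f x) := rfl

theorem star_fix (f : T ≃o T) (t1 t2 : T)
    (h : (∀ s, s < t1 → f s = s) ∧ (∀ s, t2 < s → f s = s)) :
    (∀ s, s < diag t1 → star f s = s) ∧ (∀ s, diag t2 < s → star f s = s) :=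
  ult_fix (fun _ => f) (fun _ => t1) (fun _ => t2) fun _ => h

theorem star_splits (f : T ≃o T) (hB : Bdd f) (hpos : ∀ t, t ≤ f t) (hne : f ≠ 1) :
    Splits (star f) := by
  obtain ⟨x, hx⟩ : ∃ x, f x ≠ x := by
    by_contra h
    push Not at h
    exact hne (by ext x; exact h x)
  have hlt : x < f x := lt_of_le_of_ne (hpos x) hx.symm
  have hs : StrictMono fun n : ℕ => (f ^ n) x := by
    apply strictMono_nat_of_lt_succ
    intro n
    rw [pow_succ]
    exact (f ^ n).strictMono hlt
  obtain ⟨t1, t2, ht⟩ := hB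
  apply splits_of (star f) ⟨_, _, star_fix f t1 t2 ht⟩ _ (diag x)
    ((fun n => (f ^ n) x : ℕ → T) : Ult T)
  · rw [star_diag]
    exact fun h => hx (diag.injective h)
  · apply ne_of_gt
    rw [star_coe, Germ.coe_lt]
    refine Eventually.of_forall fun n => ?_
    have := hs (Nat.lt_succ_self n)
    simp only [pow_succ'] at this
    exact this
  · intro m
    rw [← map_pow, star_diag]
    show ((fun _ => (f ^ m) x : ℕ → T) : Ult T) < _
    rw [Germ.coe_lt]
    exact Nat.hyperfilter_le_atTop ((eventually_gt_atTop m).mono fun n hn => hs hn)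
  · intro t
    induction t using Germ.inductionOn with
    | h t =>
      rw [star_coe, Germ.coe_le]
      exact Eventually.of_forall fun n => hpos _

end ultra

end Pool.Agent.Lib.helper27.ChainTower
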