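import Mathlib

set_option autoImplicit false

namespace Pool.Agent.Lib.helper27.CoxAn

open Filter Topology Matrix

variable {n m : ℕ}

noncomputable def nz (v : Fin n → ℝ) : Fin n → ℝ := (∑ i, v i)⁻¹ • v

def InC (y : Fin m → Fin n → ℝ) (v : Fin n → ℝ) : Prop :=
  ∃ a : Fin m → ℝ, (∀ i, 0 ≤ a i) ∧ (∃ i, 0 < a i) ∧ v = ∑ i, a i • y i

def InS (K : ℝ) (y : Fin m → Fin n → ℝ) (v : Fin n → ℝ) : Prop :=
  ∃ a : Fin m → ℝ, (∀ i, 0 < a i) ∧ (∀ i j, a i ≤ K * a j) ∧ v = ∑ i, a i • y i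

lemma InC.self (y : Fin m → Fin n → ℝ) (j : Fin m) : InC y (y j) := by
  refine ⟨Pi.single j 1, ?_, ⟨j, by simp⟩, ?_⟩
  · intro i; by_cases h : i = j
    · subst h; simp
    · simp [h]
  · rw [Finset.sum_eq_single j]
    · simp
    · intro i _ h; simp [h]
    · simp

lemma InS.inC {K : ℝ} {y : Fin m → Fin n → ℝ} {v : Fin n → ℝ} (j : Fin m) (h : InS K y v) :
    InC y v := by
  obtain ⟨a, h1, _, h3⟩ := h
  exact ⟨a, fun i => (h1 i).le, ⟨j, h1 j⟩, h3⟩

lemma InC.trans {y y' : Fin m → Fin n → ℝ} {v : Fin n → ℝ} (h : ∀ j, InC y (y' j))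
    (hv : InC y' v) : InC y v := by
  choose A h1 h2 h3 using h
  obtain ⟨b, hb1, ⟨j0, hj0⟩, hb3⟩ := hv
  refine ⟨fun i => ∑ j, b j * A j i, fun i => Finset.sum_nonneg fun j _ => mul_nonneg (hb1 j) (h1 j i),
    ?_, ?_⟩
  · obtain ⟨i, hi⟩ := h2 j0
    exact ⟨i, Finset.sum_pos' (fun j _ => mul_nonneg (hb1 j) (h1 j i))
      ⟨j0, Finset.mem_univ _, mul_pos hj0 hi⟩⟩
  · rw [hb3]
    simp_rw [Finset.sum_smul]
    rw [Finset.sum_comm]
    refine Finset.sum_congr rfl fun j _ => ?_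
    rw [h3 j, Finset.smul_sum]
    simp_rw [smul_smul]

lemma InC.map {y : Fin m → Fin n → ℝ} {v : Fin n → ℝ} (W : Matrix (Fin n) (Fin n) ℝ)
    (h : InC y v) : InC (fun j => W *ᵥ y j) (W *ᵥ v) := by
  obtain ⟨a, h1, h2, h3⟩ := h
  refine ⟨a, h1, h2, ?_⟩
  rw [h3, Matrix.mulVec_sum]
  simp_rw [Matrix.mulVec_smul]

lemma InS.map {K : ℝ} {y : Fin m → Fin n → ℝ} {v : Fin n → ℝ} (W : Matrix (Fin n) (Fin n) ℝ)
    (h : InS K y v) : InS K (fun j => W *ᵥ y j) (W *ᵥ v) := by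
  obtain ⟨a, h1, h2, h3⟩ := h
  refine ⟨a, h1, h2, ?_⟩
  rw [h3, Matrix.mulVec_sum]
  simp_rw [Matrix.mulVec_smul]

lemma sum_comb (y : Fin m → Fin n → ℝ) (a : Fin m → ℝ) :
    ∑ c, (∑ i, a i • y i) c = ∑ i, a i * ∑ c, y i c := by
  simp only [Finset.sum_apply, Pi.smul_apply, smul_eq_mul, Finset.mul_sum]
  rw [Finset.sum_comm]

lemma InC.pos {y : Fin m → Fin n → ℝ} {v : Fin n → ℝ} (hp : ∀ i, 0 < ∑ c, y i c)
    (h : InC y v) : 0 < ∑ c, v c := by
  obtain ⟨a, h1, ⟨j, hj⟩, h3⟩ := h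
  rw [h3, sum_comb]
  exact Finset.sum_pos' (fun i _ => mul_nonneg (h1 i) (hp i).le)
    ⟨j, Finset.mem_univ _, mul_pos hj (hp j)⟩

def Bd (c : Fin n) (lo hi : ℝ) (v : Fin n → ℝ) : Prop :=
  lo * ∑ d, v d ≤ v c ∧ v c ≤ hi * ∑ d, v d

lemma InC.bd {y : Fin m → Fin n → ℝ} {v : Fin n → ℝ} {c : Fin n} {lo hi : ℝ}
    (hb : ∀ i, Bd c lo hi (y i)) (h : InC y v) : Bd c lo hi v := by
  obtain ⟨a, h1, _, h3⟩ := h
  unfold Bd
  rw [h3, sum_comb]
  simp only [Finset.sum_apply, Pi.smul_apply, smul_eq_mul, Finset.mul_sum (s := Finset.univ (α := Fin m))]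
  constructor
  · refine Finset.sum_le_sum fun i _ => ?_
    have := mul_le_mul_of_nonneg_left (hb i).1 (h1 i)
    linarith
  · refine Finset.sum_le_sum fun i _ => ?_
    have := mul_le_mul_of_nonneg_left (hb i).2 (h1 i)
    linarith

lemma key_ineq (K : ℝ) (a x h : Fin m → ℝ) (hx : ∀ i, 0 ≤ x i) (hh : ∀ i, 0 < h i)
    (ha : ∀ i j, a i ≤ K * a j) :
    (∑ i, x i) * (∑ j, a j * h j) ≤ K * (∑ j, h j) * ∑ i, a i * x i := by
  rw [Finset.sum_mul_sum, mul_assoc, mul_comm (∑ j, h j), Finset.sum_mul_sum, Finset.mul_sum]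
  refine Finset.sum_le_sum fun i _ => ?_
  rw [Finset.mul_sum]
  refine Finset.sum_le_sum fun j _ => ?_
  have := mul_le_mul_of_nonneg_left (ha j i) (mul_nonneg (hx i) (hh j).le)
  linarith

lemma shrink {K : ℝ} (hK : 0 < K) (j0 : Fin m) {y : Fin m → Fin n → ℝ} {c : Fin n} {lo hi : ℝ}
    (hp : ∀ i, 0 < ∑ c, y i c) (hb : ∀ i, Bd c lo hi (y i)) :
    ∃ lo' hi' : ℝ, hi' - lo' = (1 - 1 / K) * (hi - lo) ∧ ∀ v, InS K y v → Bd c lo' hi' v := by
  set h : Fin m → ℝ := fun i => ∑ d, y i d with hh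
  set x : Fin m → ℝ := fun i => y i c - lo * h i with hx
  set z : Fin m → ℝ := fun i => hi * h i - y i c with hz
  have hG : 0 < ∑ i, h i := Finset.sum_pos (fun i _ => hp i) ⟨j0, Finset.mem_univ _⟩
  have hxz : ∑ i, x i + ∑ i, z i = (hi - lo) * ∑ i, h i := by
    rw [← Finset.sum_add_distrib, Finset.mul_sum]
    refine Finset.sum_congr rfl fun i _ => ?_
    simp only [hx, hz]; ring
  refine ⟨lo + (∑ i, x i) / (K * ∑ i, h i), hi - (∑ i, z i) / (K * ∑ i, h i), ?_, ?_⟩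
  · have : (∑ i, z i) = (hi - lo) * ∑ i, h i - ∑ i, x i := by linarith
    rw [this]; field_simp; ring
  · rintro v ⟨a, _, h2, h3⟩
    have hs : ∑ d, v d = ∑ i, a i * h i := by rw [h3, sum_comb]
    have hc : v c = ∑ i, a i * y i c := by
      rw [h3]; simp only [Finset.sum_apply, Pi.smul_apply, smul_eq_mul]
    have k1 := key_ineq K a x h (fun i => by have := (hb i).1; simp only [hx, hh]; linarith) hp h2
    have k2 := key_ineq K a z h (fun i => by have := (hb i).2; simp only [hz, hh]; linarith) hp h2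
    have e1 : ∑ i, a i * x i = v c - lo * ∑ d, v d := by
      rw [hs, hc, Finset.mul_sum, ← Finset.sum_sub_distrib]
      refine Finset.sum_congr rfl fun i _ => ?_
      simp only [hx]; ring
    have e2 : ∑ i, a i * z i = hi * ∑ d, v d - v c := by
      rw [hs, hc, Finset.mul_sum, ← Finset.sum_sub_distrib]
      refine Finset.sum_congr rfl fun i _ => ?_
      simp only [hz]; ring
    rw [← hs, e1] at k1
    rw [← hs, e2] at k2
    have hKG : 0 < K * ∑ i, h i := mul_pos hK hG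
    constructor
    · have : (∑ i, x i) / (K * ∑ i, h i) * ∑ d, v d ≤ v c - lo * ∑ d, v d := by
        rw [div_mul_eq_mul_div, div_le_iff₀ hKG]; linarith
      linarith
    · have : (∑ i, z i) / (K * ∑ i, h i) * ∑ d, v d ≤ hi * ∑ d, v d - v c := by
        rw [div_mul_eq_mul_div, div_le_iff₀ hKG]; linarith
      linarith

lemma chain {y : ℕ → Fin m → Fin n → ℝ} (hmono : ∀ N j, InC (y N) (y (N + 1) j)) {N N' : ℕ}
    (h : N ≤ N') : ∀ j, InC (y N) (y N' j) := by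
  induction N', h using Nat.le_induction with
  | base => exact InC.self _
  | succ k _ ih => exact fun j => InC.trans ih (hmono k j)

lemma small {K : ℝ} (hK : 1 ≤ K) (j0 : Fin m) {y : ℕ → Fin m → Fin n → ℝ}
    (hpos : ∀ N i, 0 < ∑ c, y N i c) (hmono : ∀ N j, InC (y N) (y (N + 1) j))
    (hstrict : ∀ N, ∃ N', N ≤ N' ∧ ∃ N'', ∀ j, InS K (y N') (y N'' j)) (c : Fin n) (ε : ℝ)
    (hε : 0 < ε) : ∃ N lo hi, hi - lo < ε ∧ ∀ i, Bd c lo hi (y N i) := by
  have hK0 : 0 < K := by linarith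
  obtain ⟨R, hR⟩ : ∃ R : ℝ, ∀ i, |y 0 i c / ∑ d, y 0 i d| ≤ R :=
    ⟨∑ i, |y 0 i c / ∑ d, y 0 i d|, fun i =>
      Finset.single_le_sum (f := fun i => |y 0 i c / ∑ d, y 0 i d|) (fun _ _ => abs_nonneg _)
        (Finset.mem_univ i)⟩
  have hall : ∀ r : ℕ, ∃ N lo hi, hi - lo = (1 - 1 / K) ^ r * (2 * R) ∧ ∀ i, Bd c lo hi (y N i) := by
    intro r
    induction r with
    | zero =>
      refine ⟨0, -R, R, by ring, fun i => ?_⟩
      have h1 := abs_le.mp (hR i)
      have h2 := hpos 0 i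
      exact ⟨(le_div_iff₀ h2).mp h1.1, (div_le_iff₀ h2).mp h1.2⟩
    | succ r ih =>
      obtain ⟨N, lo, hi, h1, h2⟩ := ih
      obtain ⟨N', hN', N'', hs⟩ := hstrict N
      have h3 : ∀ i, Bd c lo hi (y N' i) := fun i => InC.bd h2 (chain hmono hN' i)
      obtain ⟨lo', hi', h4, h5⟩ := shrink hK0 j0 (hpos N') h3
      exact ⟨N'', lo', hi', by rw [h4, h1]; ring, fun i => h5 _ (hs i)⟩
  have h0 : 0 ≤ 1 - 1 / K := by
    have : 1 / K ≤ 1 := by rw [div_le_one hK0]; exact hK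
    linarith
  have h1 : 1 - 1 / K < 1 := by
    have : 0 < 1 / K := by positivity
    linarith
  have ht := (tendsto_pow_atTop_nhds_zero_of_lt_one h0 h1).mul_const (2 * R)
  rw [zero_mul] at ht
  obtain ⟨r, hr⟩ := (ht.eventually (gt_mem_nhds hε)).exists
  obtain ⟨N, lo, hi, h2, h3⟩ := hall r
  exact ⟨N, lo, hi, by rw [h2]; exact hr, h3⟩

lemma bd_nz {c : Fin n} {lo hi : ℝ} {v : Fin n → ℝ} (hp : 0 < ∑ d, v d) (h : Bd c lo hi v) :
    lo ≤ nz v c ∧ nz v c ≤ hi := by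
  have : nz v c = v c / ∑ d, v d := by simp [nz, div_eq_inv_mul]
  rw [this]
  exact ⟨(le_div_iff₀ hp).mpr h.1, (div_le_iff₀ hp).mpr h.2⟩

theorem conv {K : ℝ} (hK : 1 ≤ K) (j0 : Fin m) {y : ℕ → Fin m → Fin n → ℝ}
    (hpos : ∀ N i, 0 < ∑ c, y N i c) (hmono : ∀ N j, InC (y N) (y (N + 1) j))
    (hstrict : ∀ N, ∃ N', N ≤ N' ∧ ∃ N'', ∀ j, InS K (y N') (y N'' j)) :
    ∃ p : Fin n → ℝ, ∀ v : ℕ → Fin n → ℝ, (∀ N, ∀ᶠ k in atTop, InC (y N) (v k)) →
      Tendsto (fun k => nz (v k)) atTop (𝓝 p) := by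
  have hint : ∀ v : ℕ → Fin n → ℝ, (∀ N, ∀ᶠ k in atTop, InC (y N) (v k)) → ∀ N c lo hi,
      (∀ i, Bd c lo hi (y N i)) → ∀ᶠ k in atTop, lo ≤ nz (v k) c ∧ nz (v k) c ≤ hi := by
    intro v hv N c lo hi hb
    filter_upwards [hv N] with k hk
    exact bd_nz (InC.pos (hpos N) hk) (InC.bd hb hk)
  have href : ∀ N, ∀ᶠ k in atTop, InC (y N) (y k j0) := by
    intro N
    filter_upwards [eventually_ge_atTop N] with k hk
    exact chain hmono hk j0
  have hcau : ∀ c, ∃ pc : ℝ, Tendsto (fun k => nz (y k j0) c) atTop (𝓝 pc) := by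
    intro c
    apply cauchySeq_tendsto_of_complete
    rw [Metric.cauchySeq_iff]
    intro ε hε
    obtain ⟨N, lo, hi, h1, h2⟩ := small hK j0 hpos hmono hstrict c ε hε
    obtain ⟨k0, hk0⟩ := eventually_atTop.mp (hint _ href N c lo hi h2)
    refine ⟨k0, fun a ha b hb => ?_⟩
    have := hk0 a ha
    have := hk0 b hb
    rw [Real.dist_eq, abs_lt]
    constructor <;> linarith
  choose p hp using hcau
  refine ⟨p, fun v hv => ?_⟩
  rw [tendsto_pi_nhds]
  intro c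
  rw [Metric.tendsto_nhds]
  intro ε hε
  obtain ⟨N, lo, hi, h1, h2⟩ := small hK j0 hpos hmono hstrict c ε hε
  have h3 := hint _ href N c lo hi h2
  have h4 : lo ≤ p c := ge_of_tendsto (hp c) (h3.mono fun k hk => hk.1)
  have h5 : p c ≤ hi := le_of_tendsto (hp c) (h3.mono fun k hk => hk.2)
  filter_upwards [hint v hv N c lo hi h2] with k hk
  rw [Real.dist_eq, abs_lt]
  constructor <;> linarith [hk.1, hk.2]

theorem final (u : ℕ → Fin n → ℝ) (p : Fin n → ℝ) (hu : Tendsto u atTop (𝓝 p))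
    (hne : ∀ k, u k ≠ p) : ∃! x, AccPt x (𝓟 (Set.range u)) := by
  refine ⟨p, ?_, ?_⟩
  · show AccPt p _
    rw [accPt_iff_nhds]
    intro U hU
    obtain ⟨k, hk⟩ := (hu.eventually hU).exists
    exact ⟨u k, ⟨hk, k, rfl⟩, hne k⟩
  · intro x hx
    by_contra hxp
    obtain ⟨U, V, hU, hV, hxU, hpV, hd⟩ := t2_separation hxp
    have h1 := hx.nhds_inter (hU.mem_nhds hxU)
    have h2 := Set.Infinite.of_accPt h1
    apply h2
    obtain ⟨k0, hk0⟩ := eventually_atTop.mp (hu.eventually (hV.mem_nhds hpV))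
    refine ((Set.finite_lt_nat k0).image u).subset ?_
    rintro w ⟨hw, k, rfl⟩
    refine ⟨k, ?_, rfl⟩
    by_contra hk
    exact Set.disjoint_left.mp hd hw (hk0 k (not_lt.mp hk))

noncomputable def bq (G : Matrix (Fin n) (Fin n) ℝ) (v : Fin n → ℝ) : ℝ :=
  ∑ a, v a * ∑ b, G a b * v b

lemma bq_cont (G : Matrix (Fin n) (Fin n) ℝ) : Continuous (bq G) := by
  unfold bq; fun_prop

lemma bq_smul (G : Matrix (Fin n) (Fin n) ℝ) (t : ℝ) (v : Fin n → ℝ) :
    bq G (t • v) = t ^ 2 * bq G v := by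
  unfold bq
  simp only [Pi.smul_apply, smul_eq_mul, Finset.mul_sum]
  refine Finset.sum_congr rfl fun a _ => Finset.sum_congr rfl fun b _ => by ring

lemma bq_nz_pos (G : Matrix (Fin n) (Fin n) ℝ) {v : Fin n → ℝ} (hp : 0 < ∑ d, v d)
    (h : 0 < bq G v) : 0 < bq G (nz v) := by
  unfold nz; rw [bq_smul]; positivity

lemma bq_nz_nonpos (G : Matrix (Fin n) (Fin n) ℝ) {v : Fin n → ℝ}
    (h : bq G v ≤ 0) : bq G (nz v) ≤ 0 := by
  unfold nz; rw [bq_smul]; exact mul_nonpos_of_nonneg_of_nonpos (sq_nonneg _) h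

lemma refl_apply (G σ : Matrix (Fin n) (Fin n) ℝ) (i : Fin n)
    (hσ : ∀ a b, σ a b = (if a = b then (1 : ℝ) else 0) - (if a = i then 2 * G i b else 0))
    (v : Fin n → ℝ) (a : Fin n) :
    (σ *ᵥ v) a = v a - (if a = i then 2 * ∑ b, G i b * v b else 0) := by
  simp only [Matrix.mulVec, dotProduct, hσ, sub_mul, Finset.sum_sub_distrib]
  congr 1
  · simp
  · split_ifs
    · rw [Finset.mul_sum]; exact Finset.sum_congr rfl fun b _ => by ring
    · simp

lemma bq_refl (G σ : Matrix (Fin n) (Fin n) ℝ) (i : Fin n) (hs : ∀ a b, G a b = G b a)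
    (hd : G i i = 1)
    (hσ : ∀ a b, σ a b = (if a = b then (1 : ℝ) else 0) - (if a = i then 2 * G i b else 0))
    (v : Fin n → ℝ) : bq G (σ *ᵥ v) = bq G v := by
  unfold bq
  simp only [refl_apply G σ i hσ]
  set t := ∑ b, G i b * v b with ht
  have h1 : ∀ a, ∑ b, G a b * (v b - if b = i then 2 * t else 0) =
      ∑ b, G a b * v b - G a i * (2 * t) := by
    intro a
    simp only [mul_sub, Finset.sum_sub_distrib]
    congr 1
    simp
  simp only [h1]
  simp only [sub_mul, mul_sub, Finset.sum_sub_distrib]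
  have h2 : ∑ a, v a * (G a i * (2 * t)) = t * (2 * t) := by
    rw [ht, Finset.sum_mul]
    exact Finset.sum_congr rfl fun a _ => by rw [hs a i]; ring
  have h3 : ∑ a, (if a = i then 2 * t else 0) * ∑ b, G a b * v b = 2 * t * t := by
    simp [← ht]
  have h4 : ∑ a, (if a = i then 2 * t else 0) * (G a i * (2 * t)) = 2 * t * (2 * t) := by
    simp [hd]
  rw [h2, h3, h4]; ring

lemma lim_par (b D : Fin n → ℝ) (hD : 0 < ∑ c, D c) :
    Tendsto (fun j : ℕ => nz (b + (j : ℝ) • D)) atTop (𝓝 (nz D)) := by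
  have hc : ContinuousAt (nz : (Fin n → ℝ) → Fin n → ℝ) D := by
    unfold nz
    exact (ContinuousAt.inv₀ (by fun_prop) hD.ne').smul continuousAt_id
  have h1 : Tendsto (fun j : ℕ => (1 / (j : ℝ)) • b + D) atTop (𝓝 D) := by
    have := ((tendsto_one_div_atTop_nhds_zero_nat (𝕜 := ℝ)).smul_const b).add_const D
    simpa using this
  refine (hc.tendsto.comp h1).congr' ?_
  filter_upwards [eventually_gt_atTop 0] with j hj
  have hj' : (j : ℝ) ≠ 0 := by positivity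
  have : b + (j : ℝ) • D = (j : ℝ) • ((1 / (j : ℝ)) • b + D) := by
    rw [smul_add, smul_smul]; field_simp; simp
  simp only [Function.comp, this, nz, Pi.smul_apply, smul_eq_mul, ← Finset.mul_sum, smul_smul]
  congr 1
  rw [mul_inv, mul_assoc, mul_comm _ (j : ℝ), ← mul_assoc, inv_mul_cancel₀ hj', one_mul]

lemma red_contra {B W : Type} [Group W] {M : CoxeterMatrix B} (cs : CoxeterSystem M W)
    (s : ℕ → B) (hred : ∀ k : ℕ, cs.IsReduced (List.ofFn fun j : Fin k => s j)) (i k : ℕ)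
    (hik : i < k) (he : s i = s k)
    (hc : ∀ l, i < l → l < k → Commute (cs.simple (s l)) (cs.simple (s k))) : False := by
  set P : ℕ → W := fun k => cs.wordProd (List.ofFn fun j : Fin k => s j) with hP
  have hsucc : ∀ k, P (k + 1) = P k * cs.simple (s k) := by
    intro k
    simp only [hP]
    rw [List.ofFn_succ', cs.wordProd_concat]
    rfl
  have hlen : ∀ k, cs.length (P k) = k := by
    intro k
    have := hred k
    unfold CoxeterSystem.IsReduced at this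
    simpa using this
  have key : ∀ l, i + 1 ≤ l → l ≤ k → ∃ Q : W, P l = P i * cs.simple (s k) * Q ∧
      Commute Q (cs.simple (s k)) ∧ cs.length Q + i + 1 ≤ l := by
    intro l hl
    induction l, hl using Nat.le_induction with
    | base => intro _; exact ⟨1, by rw [hsucc, he, mul_one], Commute.one_left _, by simp⟩
    | succ l hl ih =>
      intro hlk
      obtain ⟨Q, h1, h2, h3⟩ := ih (by omega)
      refine ⟨Q * cs.simple (s l), by rw [hsucc, h1, mul_assoc], h2.mul_left (hc l (by omega) (by omega)), ?_⟩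
      have := cs.length_mul_le Q (cs.simple (s l))
      rw [cs.length_simple] at this
      omega
  obtain ⟨Q, h1, h2, h3⟩ := key k (by omega) le_rfl
  have h4 : P (k + 1) = P i * Q := by
    rw [hsucc, h1, mul_assoc, h2.eq, mul_assoc, ← mul_assoc (cs.simple (s k)),
      cs.simple_mul_simple_self, one_mul]
  have h5 := cs.length_mul_le (P i) Q
  rw [← h4, hlen, hlen] at h5
  omega

end Pool.Agent.Lib.helper27.CoxAn
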