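import Mathlib
import Pool.Agent.Lib.helper27.CoxData

set_option autoImplicit false

namespace Pool.Agent.Lib.helper27.CoxCert

open Pool.Agent.Lib.helper27.CoxData

def rz {n : ℕ} (G : Fin n → Fin n → ℤ) (s : Fin n) (v : Fin n → ℤ) : Fin n → ℤ :=
  fun a => v a - (if a = s then 2 * ∑ b, G s b * v b else 0)

def ez {n : ℕ} (s : Fin n) : Fin n → ℤ := fun a => if a = s then 1 else 0

def bz {n : ℕ} (G : Fin n → Fin n → ℤ) (v : Fin n → ℤ) : ℤ := ∑ a, v a * ∑ b, G a b * v b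

def look (L : List (List (List ℤ))) (i j k : ℕ) : ℤ := ((L.getD i []).getD j []).getD k 0

def RepC {n m : ℕ} (E : Fin m → Fin n → ℤ) (v : Fin n → ℤ) (d : ℤ) (A : Fin m → ℤ) : Prop :=
  0 < d ∧ (∀ i, 0 ≤ A i) ∧ (∃ i, 0 < A i) ∧ ∀ c, d * v c = ∑ i, A i * E i c

def RepS {n m : ℕ} (K : ℤ) (E : Fin m → Fin n → ℤ) (v : Fin n → ℤ) (d : ℤ) (A : Fin m → ℤ) :
    Prop :=
  0 < d ∧ (∀ i, 0 < A i) ∧ (∀ i j, A i ≤ K * A j) ∧ ∀ c, d * v c = ∑ i, A i * E i c

instance {n m : ℕ} (E : Fin m → Fin n → ℤ) (v : Fin n → ℤ) (d : ℤ) (A : Fin m → ℤ) :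
    Decidable (RepC E v d A) := by unfold RepC; infer_instance

instance {n m : ℕ} (K : ℤ) (E : Fin m → Fin n → ℤ) (v : Fin n → ℤ) (d : ℤ) (A : Fin m → ℤ) :
    Decidable (RepS K E v d A) := by unfold RepS; infer_instance

def GA (i j : Fin 4) : ℤ :=
  if i = j then 1
  else if (i = 0 ∧ j = 1) ∨ (i = 1 ∧ j = 0) then -2
  else if (i = 2 ∧ j = 3) ∨ (i = 3 ∧ j = 2) then -6
  else -1

def GB (i j : Fin 5) : ℤ :=
  if i = j then 1
  else if i - j = 1 ∨ j - i = 1 then -2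
  else 0

def eA (s : Fin 4) (j : Fin 6) (c : Fin 4) : ℤ := look EA s j c

lemma A_step : ∀ s t : Fin 4, s ≠ t → ∀ j : Fin 6,
    RepC (eA s) (rz GA s (eA t j)) (look A1 (s * 4 + t) j 0)
      (fun i => look A1 (s * 4 + t) j (i + 1)) := by decide +kernel

lemma A_strict : ∀ s t u : Fin 4, s ≠ t → t ≠ u → ¬ (s = u ∧ GA s t = -1) → ∀ j : Fin 6,
    RepS 429 (eA s) (rz GA s (rz GA t (eA u j))) (look A2 (s * 16 + t * 4 + u) j 0)
      (fun i => look A2 (s * 16 + t * 4 + u) j (i + 1)) := by decide +kernel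

lemma A_pos : ∀ s : Fin 4, ∀ j : Fin 6, 0 < ∑ c, eA s j c := by decide +kernel

lemma A_zero : ∀ s c : Fin 4, eA s 0 c = ez s c := by decide +kernel

lemma A_neg : ∀ s : Fin 4, bz GA (eA s 1) ≤ 0 := by decide +kernel

lemma A_par : ∀ s t : Fin 4, GA s t = -1 → (∃ j : Fin 6, ∀ c, eA s j c = ez s c + ez t c) ∧
    (∀ c, rz GA s (ez t) c = ez s c + (ez s c + ez t c)) ∧
    (∀ c, rz GA s (fun a => ez t a + ez s a) c = ez s c + ez t c) ∧
    bz GA (fun a => ez s a + ez t a) = 0 := by decide +kernel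

lemma A_symm : ∀ s t : Fin 4, GA s t = GA t s := by decide +kernel

lemma A_diag : ∀ s : Fin 4, GA s s = 1 := by decide +kernel

def code (D : Finset (Fin 5)) : ℕ := ∑ i ∈ D, 2 ^ (i : ℕ)

def eB (D : Finset (Fin 5)) (j : Fin 8) (c : Fin 5) : ℤ := look EB (code D) j c

def step (D : Finset (Fin 5)) (t : Fin 5) : Finset (Fin 5) :=
  insert t (D.filter (fun u => GB t u = 0))

def Good (D : Finset (Fin 5)) : Prop := D ≠ ∅ ∧ ∀ u ∈ D, ∀ u' ∈ D, u ≠ u' → GB u u' = 0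

instance (D : Finset (Fin 5)) : Decidable (Good D) := by unfold Good; infer_instance

lemma B_step : ∀ D : Finset (Fin 5), Good D → ∀ t : Fin 5, t ∉ D → ∀ j : Fin 8,
    RepS 130 (eB (step D t)) (rz GB t (eB D j)) (look B1 (code D * 5 + t) j 0)
      (fun i => look B1 (code D * 5 + t) j (i + 1)) := by decide +kernel

lemma B_init : ∀ D : Finset (Fin 5), Good D → ∀ t : Fin 5, t ∉ D → ∀ s ∈ D, GB t s ≠ 0 →
    RepC (eB (step D t)) (rz GB t (ez s)) (look B2 (code D * 5 + t) s 0)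
      (fun i => look B2 (code D * 5 + t) s (i + 1)) := by decide +kernel

lemma B_pos : ∀ D : Finset (Fin 5), Good D → ∀ j : Fin 8, 0 < ∑ c, eB D j c := by
  decide +kernel

lemma B_neg : ∀ D : Finset (Fin 5), Good D → bz GB (eB D 0) ≤ 0 := by decide +kernel

lemma B_symm : ∀ s t : Fin 5, GB s t = GB t s := by decide +kernel

lemma B_diag : ∀ s : Fin 5, GB s s = 1 := by decide +kernel

lemma B_fix : ∀ s t : Fin 5, GB t s = 0 → ∀ c, rz GB t (ez s) c = ez s c := by decide +kernel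

end Pool.Agent.Lib.helper27.CoxCert
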