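import Mathlib
import Pool.Agent.Lib.helper27.CoxAn
import Pool.Agent.Lib.helper27.CoxCert

set_option autoImplicit false

namespace Pool.Agent.Lib.helper27.CoxMain

open Filter Topology Matrix
open Pool.Agent.Lib.helper27.CoxAn Pool.Agent.Lib.helper27.CoxCert

variable {n m : ℕ}

def cv (v : Fin n → ℤ) : Fin n → ℝ := fun a => (v a : ℝ)

lemma repC_inC {E : Fin m → Fin n → ℤ} {v : Fin n → ℤ} {d : ℤ} {A : Fin m → ℤ}
    (h : RepC E v d A) : InC (fun j => cv (E j)) (cv v) := by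
  obtain ⟨hd, h1, ⟨j, hj⟩, h3⟩ := h
  have hd' : (0 : ℝ) < d := by exact_mod_cast hd
  refine ⟨fun i => (A i : ℝ) / d, fun i => div_nonneg (by exact_mod_cast h1 i) hd'.le,
    ⟨j, div_pos (by exact_mod_cast hj) hd'⟩, ?_⟩
  funext c
  have h4 : (d : ℝ) * v c = ∑ i, (A i : ℝ) * E i c := by exact_mod_cast h3 c
  simp only [cv, Finset.sum_apply, Pi.smul_apply, smul_eq_mul, div_mul_eq_mul_div]
  rw [← Finset.sum_div, ← h4]; field_simp

lemma repS_inS {K : ℤ} {E : Fin m → Fin n → ℤ} {v : Fin n → ℤ} {d : ℤ} {A : Fin m → ℤ}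
    (h : RepS K E v d A) : InS (K : ℝ) (fun j => cv (E j)) (cv v) := by
  obtain ⟨hd, h1, h2, h3⟩ := h
  have hd' : (0 : ℝ) < d := by exact_mod_cast hd
  refine ⟨fun i => (A i : ℝ) / d, fun i => div_pos (by exact_mod_cast h1 i) hd', ?_, ?_⟩
  · intro i j
    have : (A i : ℝ) ≤ K * A j := by exact_mod_cast h2 i j
    rw [← mul_div_assoc]
    exact div_le_div_of_nonneg_right this hd'.le
  · funext c
    have h4 : (d : ℝ) * v c = ∑ i, (A i : ℝ) * E i c := by exact_mod_cast h3 c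
    simp only [cv, Finset.sum_apply, Pi.smul_apply, smul_eq_mul, div_mul_eq_mul_div]
    rw [← Finset.sum_div, ← h4]; field_simp

lemma sum_cv_pos {v : Fin n → ℤ} (h : 0 < ∑ c, v c) : 0 < ∑ c, cv v c := by
  unfold cv; exact_mod_cast h

lemma single_eq (t : Fin n) : (Pi.single t (1 : ℝ) : Fin n → ℝ) = cv (ez t) := by
  funext a
  by_cases h : a = t
  · subst h; simp [cv, ez]
  · simp [cv, ez, h]

structure Sys (n : ℕ) where
  Gz : Fin n → Fin n → ℤ
  G : Matrix (Fin n) (Fin n) ℝ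
  σ : Fin n → Matrix (Fin n) (Fin n) ℝ
  s : ℕ → Fin n
  hG : ∀ i j, G i j = (Gz i j : ℝ)
  hσ : ∀ i a b, σ i a b = (if a = b then (1 : ℝ) else 0) - (if a = i then 2 * G i b else 0)
  symm : ∀ i j, Gz i j = Gz j i
  diag : ∀ i, Gz i i = 1

noncomputable def Sys.W (S : Sys n) (k : ℕ) : Matrix (Fin n) (Fin n) ℝ :=
  (List.ofFn fun j : Fin k => S.σ (S.s j)).prod

noncomputable def Sys.β (S : Sys n) (k : ℕ) : Fin n → ℝ := S.W k *ᵥ cv (ez (S.s k))

lemma Sys.W_zero (S : Sys n) : S.W 0 = 1 := by simp [Sys.W]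

lemma Sys.σ_cv (S : Sys n) (i : Fin n) (v : Fin n → ℤ) : S.σ i *ᵥ cv v = cv (rz S.Gz i v) := by
  funext a
  rw [refl_apply S.G (S.σ i) i (S.hσ i)]
  simp only [cv, rz, S.hG]
  split_ifs <;> push_cast <;> rfl

lemma Sys.W_succ (S : Sys n) (k : ℕ) : S.W (k + 1) = S.W k * S.σ (S.s k) := by
  unfold Sys.W
  rw [List.ofFn_succ', List.prod_concat]
  rfl

lemma Sys.W_succ_cv (S : Sys n) (k : ℕ) (v : Fin n → ℤ) :
    S.W (k + 1) *ᵥ cv v = S.W k *ᵥ cv (rz S.Gz (S.s k) v) := by
  rw [S.W_succ, ← Matrix.mulVec_mulVec, S.σ_cv]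

lemma Sys.bq_W (S : Sys n) (k : ℕ) (v : Fin n → ℝ) : bq S.G (S.W k *ᵥ v) = bq S.G v := by
  induction k generalizing v with
  | zero => rw [S.W_zero, Matrix.one_mulVec]
  | succ k ih =>
    rw [S.W_succ, ← Matrix.mulVec_mulVec, ih,
      bq_refl S.G (S.σ (S.s k)) (S.s k) (fun a b => by rw [S.hG, S.hG, S.symm])
        (by rw [S.hG, S.diag]; simp) (S.hσ _)]

lemma Sys.bq_cv (S : Sys n) (v : Fin n → ℤ) : bq S.G (cv v) = (bz S.Gz v : ℝ) := by
  simp only [bq, bz, cv, S.hG]; push_cast; rfl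

lemma Sys.bq_β (S : Sys n) (k : ℕ) : 0 < bq S.G (S.β k) := by
  unfold Sys.β
  rw [S.bq_W, S.bq_cv]
  have : bz S.Gz (ez (S.s k)) = 1 := by simp [bz, ez, S.diag]
  rw [this]; simp

lemma Sys.finish (S : Sys n) (p : Fin n → ℝ) (hp : Tendsto (fun k => nz (S.β k)) atTop (𝓝 p))
    (hb : bq S.G p ≤ 0) (hpos : ∀ k, 0 < ∑ c, S.β k c) :
    ∃! x, AccPt x (𝓟 (Set.range fun k => nz (S.β k))) := by
  refine final _ p hp fun k hk => ?_
  have := bq_nz_pos S.G (hpos k) (S.bq_β k)
  rw [hk] at this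
  linarith

lemma pos_of_mono {y : ℕ → Fin m → Fin n → ℝ} (h0 : ∀ i, 0 < ∑ c, y 0 i c)
    (hmono : ∀ N j, InC (y N) (y (N + 1) j)) (N : ℕ) (i : Fin m) : 0 < ∑ c, y N i c :=
  InC.pos h0 (chain hmono (Nat.zero_le N) i)

lemma Sys.finish' (S : Sys n) {K : ℝ} (hK : 1 ≤ K) (j0 : Fin m) {y : ℕ → Fin m → Fin n → ℝ}
    (h0 : ∀ i, 0 < ∑ c, y 0 i c) (hmono : ∀ N j, InC (y N) (y (N + 1) j))
    (hstrict : ∀ N, ∃ N', N ≤ N' ∧ ∃ N'', ∀ j, InS K (y N') (y N'' j))
    (hβ : ∀ N, ∀ᶠ k in atTop, InC (y N) (S.β k)) (hz : ∀ N, bq S.G (y N j0) ≤ 0)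
    (hpos : ∀ k, 0 < ∑ c, S.β k c) :
    ∃! x, AccPt x (𝓟 (Set.range fun k => nz (S.β k))) := by
  obtain ⟨p, hp⟩ := conv hK j0 (pos_of_mono h0 hmono) hmono hstrict
  refine S.finish p (hp _ hβ) ?_ hpos
  have h1 : Tendsto (fun k => nz (y k j0)) atTop (𝓝 p) := by
    apply hp
    intro N
    filter_upwards [eventually_ge_atTop N] with k hk
    exact chain hmono hk j0
  exact le_of_tendsto' (((bq_cont S.G).tendsto p).comp h1) fun k => bq_nz_nonpos S.G (hz k)

theorem sysA (S : Sys 4) (hG : S.Gz = GA) (hs : ∀ k, S.s k ≠ S.s (k + 1)) :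
    ∃! x, AccPt x (𝓟 (Set.range fun k => nz (S.β k))) := by
  set y : ℕ → Fin 6 → Fin 4 → ℝ := fun N j => S.W N *ᵥ cv (eA (S.s N) j) with hy
  have h0 : ∀ i, 0 < ∑ c, y 0 i c := by
    intro i
    simp only [hy, S.W_zero, Matrix.one_mulVec]
    exact sum_cv_pos (A_pos _ _)
  have hmono : ∀ N j, InC (y N) (y (N + 1) j) := by
    intro N j
    simp only [hy]
    rw [S.W_succ_cv, hG]
    exact (repC_inC (A_step _ _ (hs N) j)).map _
  have hβ : ∀ k, S.β k = y k 0 := by
    intro k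
    simp only [hy, Sys.β]
    congr 2
    funext c
    exact (A_zero _ _).symm
  have hpos : ∀ k, 0 < ∑ c, S.β k c := fun k => by rw [hβ]; exact pos_of_mono h0 hmono k 0
  by_cases hcase : ∀ N, ∃ N', N ≤ N' ∧ ¬ (S.s N' = S.s (N' + 2) ∧ GA (S.s N') (S.s (N' + 1)) = -1)
  · refine S.finish' (K := ((429 : ℤ) : ℝ)) (by norm_num) 1 h0 hmono ?_ ?_ ?_ hpos
    · intro N
      obtain ⟨N', h1, h2⟩ := hcase N
      refine ⟨N', h1, N' + 2, fun j => ?_⟩
      simp only [hy]
      rw [S.W_succ_cv, S.W_succ_cv, hG]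
      exact (repS_inS (A_strict _ _ _ (hs N') (hs (N' + 1)) h2 j)).map _
    · intro N
      filter_upwards [eventually_ge_atTop N] with k hk
      rw [hβ]
      exact chain hmono hk 0
    · intro N
      simp only [hy]
      rw [S.bq_W, S.bq_cv, hG]
      exact_mod_cast A_neg _
  · push Not at hcase
    obtain ⟨N0, hN0⟩ := hcase
    set D : ℕ → Fin 4 → ℝ := fun N => S.W N *ᵥ cv (fun a => ez (S.s N) a + ez (S.s (N + 1)) a)
      with hD
    have hD1 : ∀ N, N0 ≤ N → D (N + 1) = D N := by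
      intro N hN
      obtain ⟨h1, h2⟩ := hN0 N hN
      simp only [hD]
      rw [S.W_succ_cv, hG, ← h1]
      congr 2
      funext c
      exact (A_par _ _ h2).2.2.1 c
    have hβ1 : ∀ N, N0 ≤ N → S.β (N + 1) = S.β N + D N := by
      intro N hN
      obtain ⟨h1, h2⟩ := hN0 N hN
      simp only [hD, Sys.β]
      rw [S.W_succ_cv, hG, ← Matrix.mulVec_add]
      congr 1
      funext c
      simp only [cv, Pi.add_apply]
      exact_mod_cast (A_par _ _ h2).2.1 c
    have hD2 : ∀ j, D (N0 + j) = D N0 := by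
      intro j
      induction j with
      | zero => rfl
      | succ j ih => rw [← add_assoc, hD1 _ (by omega), ih]
    have hβ2 : ∀ j : ℕ, S.β (j + N0) = S.β N0 + (j : ℝ) • D N0 := by
      intro j
      rw [add_comm]
      induction j with
      | zero => simp
      | succ j ih =>
        rw [← add_assoc, hβ1 _ (by omega), ih, hD2]
        push_cast
        rw [add_smul, one_smul, add_assoc]
    obtain ⟨h1, h2⟩ := hN0 N0 le_rfl
    have hDpos : 0 < ∑ c, D N0 c := by
      obtain ⟨j, hj⟩ := (A_par _ _ h2).1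
      have : D N0 = y N0 j := by
        simp only [hD, hy]
        congr 2
        funext c
        exact (hj c).symm
      rw [this]
      exact pos_of_mono h0 hmono N0 j
    refine S.finish (nz (D N0)) ?_ ?_ hpos
    · rw [← tendsto_add_atTop_iff_nat N0]
      simp only [hβ2]
      exact lim_par _ _ hDpos
    · apply bq_nz_nonpos
      simp only [hD]
      rw [S.bq_W, S.bq_cv, hG, (A_par _ _ h2).2.2.2]
      simp

theorem sysB (S : Sys 5) (hG : S.Gz = GB)
    (hs : ∀ i k, i < k → S.s i = S.s k → (∀ l, i < l → l < k → GB (S.s l) (S.s k) = 0) → False) :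
    ∃! x, AccPt x (𝓟 (Set.range fun k => nz (S.β k))) := by
  classical
  set D : ℕ → Finset (Fin 5) := fun j => Finset.univ.filter
    (fun t => ∃ k, j ≤ k ∧ S.s k = t ∧ ∀ l, j ≤ l → l < k → GB (S.s l) t = 0) with hD
  have hmem : ∀ j t, t ∈ D j ↔
      ∃ k, j ≤ k ∧ S.s k = t ∧ ∀ l, j ≤ l → l < k → GB (S.s l) t = 0 := by
    intro j t; simp [hD]
  have hself : ∀ j, S.s j ∈ D j := fun j =>
    (hmem _ _).mpr ⟨j, le_rfl, rfl, fun l h1 h2 => by omega⟩
  have hgood : ∀ j, Good (D j) := by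
    intro j
    refine ⟨Finset.ne_empty_of_mem (hself j), fun u hu u' hu' hne => ?_⟩
    obtain ⟨k, h1, h2, h3⟩ := (hmem _ _).mp hu
    obtain ⟨k', h1', h2', h3'⟩ := (hmem _ _).mp hu'
    rcases lt_trichotomy k k' with h | h | h
    · rw [← h2]; exact h3' k h1 h
    · exact absurd (by rw [← h2, ← h2', h]) hne
    · rw [B_symm, ← h2']; exact h3 k' h1' h
  have hnot : ∀ j, S.s j ∉ D (j + 1) := by
    intro j h
    obtain ⟨k, h1, h2, h3⟩ := (hmem _ _).mp h
    exact hs j k (by omega) h2.symm fun l a b => by rw [h2]; exact h3 l (by omega) b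
  have hstep : ∀ j, D j = step (D (j + 1)) (S.s j) := by
    intro j
    ext t
    simp only [step, Finset.mem_insert, Finset.mem_filter, hmem]
    constructor
    · rintro ⟨k, h1, h2, h3⟩
      rcases Nat.eq_or_lt_of_le h1 with h | h
      · left; rw [← h2, h]
      · right
        exact ⟨⟨k, h, h2, fun l a b => h3 l (by omega) b⟩, h3 j le_rfl h⟩
    · rintro (h | ⟨⟨k, h1, h2, h3⟩, h4⟩)
      · exact ⟨j, le_rfl, h.symm, fun l h1 h2 => by omega⟩
      · refine ⟨k, by omega, h2, fun l a b => ?_⟩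
        rcases Nat.eq_or_lt_of_le a with h | h
        · rw [← h]; exact h4
        · exact h3 l h b
  set y : ℕ → Fin 8 → Fin 5 → ℝ := fun N j => S.W N *ᵥ cv (eB (D N) j) with hy
  have h0 : ∀ i, 0 < ∑ c, y 0 i c := by
    intro i
    simp only [hy, S.W_zero, Matrix.one_mulVec]
    exact sum_cv_pos (B_pos _ (hgood 0) _)
  have hstr : ∀ N j, InS ((130 : ℤ) : ℝ) (y N) (y (N + 1) j) := by
    intro N j
    simp only [hy]
    rw [S.W_succ_cv, hG, hstep N]
    exact (repS_inS (B_step _ (hgood _) _ (hnot N) j)).map _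
  have hmono : ∀ N j, InC (y N) (y (N + 1) j) := fun N j => (hstr N j).inC 0
  have hdown : ∀ k d j, j + d = k →
      (S.β k = S.W j *ᵥ cv (ez (S.s k)) ∧ ∀ l, j ≤ l → l < k → GB (S.s l) (S.s k) = 0) ∨
        InC (y j) (S.β k) := by
    intro k d
    induction d with
    | zero =>
      intro j hj
      left
      rw [add_zero] at hj
      subst hj
      exact ⟨rfl, fun l a b => by omega⟩
    | succ d ih =>
      intro j hj
      rcases ih (j + 1) (by omega) with ⟨h1, h2⟩ | h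
      · rw [S.W_succ_cv, hG] at h1
        by_cases hc : GB (S.s j) (S.s k) = 0
        · left
          refine ⟨?_, fun l a b => ?_⟩
          · rw [h1]
            congr 2
            funext c
            exact B_fix _ _ hc c
          · rcases Nat.eq_or_lt_of_le a with h | h
            · rw [← h]; exact hc
            · exact h2 l h b
        · right
          have hk : S.s k ∈ D (j + 1) := (hmem _ _).mpr ⟨k, by omega, rfl, h2⟩
          simp only [hy]
          rw [h1, hstep j]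
          exact (repC_inC (B_init _ (hgood _) _ (hnot j) _ hk hc)).map _
      · right
        exact InC.trans (hmono j) h
  refine S.finish' (K := ((130 : ℤ) : ℝ)) (by norm_num) 0 h0 hmono
    (fun N => ⟨N, le_rfl, N + 1, hstr N⟩) ?_ ?_ ?_
  · intro N
    have hev : ∀ᶠ k in atTop, ∀ t : Fin 5, S.s k = t → ∃ i, N ≤ i ∧ i < k ∧ S.s i = t := by
      rw [eventually_all]
      intro t
      by_cases ht : ∃ i, N ≤ i ∧ S.s i = t
      · obtain ⟨i, h1, h2⟩ := ht
        filter_upwards [eventually_gt_atTop i] with k hk _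
        exact ⟨i, h1, hk, h2⟩
      · filter_upwards [eventually_ge_atTop N] with k hk h
        exact absurd ⟨k, hk, h⟩ ht
    filter_upwards [hev] with k hk
    obtain ⟨i, h1, h2, h3⟩ := hk _ rfl
    rcases hdown k (k - N) N (by omega) with ⟨_, h⟩ | h
    · have := h i h1 h2
      rw [h3, B_diag] at this
      exact absurd this one_ne_zero
    · exact h
  · intro N
    simp only [hy]
    rw [S.bq_W, S.bq_cv, hG]
    exact_mod_cast B_neg _ (hgood N)
  · intro k
    rcases hdown k k 0 (by omega) with ⟨h, _⟩ | h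
    · rw [h, S.W_zero, Matrix.one_mulVec]
      apply sum_cv_pos
      simp [ez]
    · exact InC.pos h0 h

end Pool.Agent.Lib.helper27.CoxMain
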