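import Mathlib

set_option autoImplicit false

namespace Pool.Agent.Lib.helper27.D18

open Finsupp

abbrev W : Type := ℤ →₀ ZMod 3

def e (n : ℤ) : ℤ := (n.negOnePow : ℤ)

lemma e_add (n m : ℤ) : e (n + m) = e n * e m := by
  simp [e, Int.negOnePow_add]

lemma e_zero : e 0 = 1 := by simp [e]

lemma e_one : e 1 = -1 := by simp [e]

lemma e_cases (n : ℤ) : e n = 1 ∨ e n = -1 := by
  rcases Int.units_eq_one_or n.negOnePow with h | h <;> simp [e, h]

open Classical in
/-- A lacunary indicator sequence, supported on the numbers `j! + j`. -/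
noncomputable def c (x : ℤ) : ZMod 3 := if ∃ j : ℕ, x = (j.factorial : ℤ) + j then 1 else 0

noncomputable def b (i j : ℤ) : ZMod 3 := (e i : ZMod 3) * c (j - i)

noncomputable def β : W →ₗ[ZMod 3] W →ₗ[ZMod 3] ZMod 3 :=
  Finsupp.linearCombination (ZMod 3) (fun i => Finsupp.linearCombination (ZMod 3) (fun j => b i j))

noncomputable def T (n : ℤ) : W →ₗ[ZMod 3] W := Finsupp.lmapDomain (ZMod 3) (ZMod 3) (· + n)

noncomputable def ψ : W →ₗ[ZMod 3] ZMod 3 :=
  Finsupp.linearCombination (ZMod 3) (fun i => (e i : ZMod 3))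

lemma T_single (n i : ℤ) (x : ZMod 3) : T n (single i x) = single (i + n) x := by
  simp [T, Finsupp.mapDomain_single]

lemma β_single (i j : ℤ) (x y : ZMod 3) : β (single i x) (single j y) = x * (y * b i j) := by
  simp [β, Finsupp.linearCombination_single]

lemma T_zero (u : W) : T 0 u = u := by
  induction u using Finsupp.induction_linear with
  | zero => simp
  | add f g hf hg => simp [hf, hg]
  | single i x => simp [T_single]

lemma T_add (n m : ℤ) (u : W) : T n (T m u) = T (n + m) u := by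
  induction u using Finsupp.induction_linear with
  | zero => simp
  | add f g hf hg => simp [hf, hg]
  | single i x => simp only [T_single]; congr 1; ring

lemma β_T (n : ℤ) (u v : W) : β (T n u) (T n v) = (e n : ZMod 3) * β u v := by
  induction u using Finsupp.induction_linear with
  | zero => simp
  | add f g hf hg => simp [hf, hg, mul_add]
  | single i x =>
    induction v using Finsupp.induction_linear with
    | zero => simp
    | add f g hf hg => simp only [map_add, hf, hg, mul_add]
    | single j y =>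
      simp only [T_single, β_single, b, e_add]
      have : j + n - (i + n) = j - i := by ring
      rw [this]; push_cast; ring

lemma ψ_T (n : ℤ) (u : W) : ψ (T n u) = (e n : ZMod 3) * ψ u := by
  induction u using Finsupp.induction_linear with
  | zero => simp
  | add f g hf hg => simp [hf, hg, mul_add]
  | single i x =>
    simp only [T_single, ψ, Finsupp.linearCombination_single, e_add, smul_eq_mul]
    push_cast; ring

lemma β_sum (f : W) (n m : ℤ) : β (T n f) (T m f) =
    ∑ i ∈ f.support, ∑ j ∈ f.support, f i * (f j * b (i + n) (j + m)) := by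
  have h : f = ∑ i ∈ f.support, single i (f i) := (Finsupp.sum_single f).symm
  conv_lhs => rw [h]
  simp only [map_sum, T_single, LinearMap.sum_apply, β_single]
  rw [Finset.sum_comm]

lemma fact_gap (j j' D : ℕ) (hj : D + 2 ≤ j) (h1 : j'.factorial + j' ≤ j.factorial + j)
    (h2 : j.factorial + j ≤ j'.factorial + j' + D) : j' = j := by
  rcases lt_trichotomy j' j with h | h | h
  · exfalso
    obtain ⟨t, rfl⟩ : ∃ t, j = t + 1 := ⟨j - 1, by omega⟩
    have h3 : j'.factorial ≤ t.factorial := Nat.factorial_le (by omega)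
    have h4 : (t + 1).factorial = (t + 1) * t.factorial := Nat.factorial_succ t
    have h5 : 1 ≤ t.factorial := Nat.factorial_pos t
    have h6 : t ≤ t * t.factorial := Nat.le_mul_of_pos_right t h5
    have h7 : (t + 1) * t.factorial = t * t.factorial + t.factorial := by ring
    omega
  · exact h
  · exfalso
    have h3 : j.factorial ≤ j'.factorial := Nat.factorial_le h.le
    omega

lemma key (f : W) (hf : f ≠ 0) (k : ℤ) (hk : k ≠ 0) :
    ∃ m : ℤ, β f (T (k * m) f) - β (T (k * m) f) f ≠ 0 := by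
  have hne : f.support.Nonempty := Finsupp.support_nonempty_iff.mpr hf
  set i0 := f.support.min' hne with hi0
  set j0 := f.support.max' hne with hj0
  have hlo : ∀ i ∈ f.support, i0 ≤ i := fun i hi => f.support.min'_le i hi
  have hhi : ∀ i ∈ f.support, i ≤ j0 := fun i hi => f.support.le_max' i hi
  have hi0m : i0 ∈ f.support := f.support.min'_mem hne
  have hj0m : j0 ∈ f.support := f.support.max'_mem hne
  obtain ⟨d, hd⟩ : ∃ d : ℕ, j0 - i0 = d := ⟨(j0 - i0).toNat, by have := hlo j0 hj0m; omega⟩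
  obtain ⟨K, hK, hKpos⟩ : ∃ K : ℕ, (k = K ∨ k = -K) ∧ 0 < K := ⟨k.natAbs, by omega, by omega⟩
  set J : ℕ := d + K * (d + 2) with hJ
  have hJ1 : d + 2 ≤ K * (d + 2) := Nat.le_mul_of_pos_left _ hKpos
  have hJ2 : K ≤ K * (d + 2) := Nat.le_mul_of_pos_right _ (by omega)
  have hdiv : K ∣ J.factorial := Nat.dvd_factorial hKpos (by omega)
  obtain ⟨q, hq⟩ := hdiv
  obtain ⟨m, hm⟩ : ∃ m : ℤ, k * m = (J.factorial : ℤ) + J - d := by
    have : (J.factorial : ℤ) + J - d = K * (q + (d + 2)) := by
      rw [hq, hJ]; push_cast; ring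
    rcases hK with h | h
    · exact ⟨q + (d + 2), by rw [this, h]⟩
    · exact ⟨-(q + (d + 2)), by rw [this, h]; ring⟩
  refine ⟨m, ?_⟩
  rw [hm]
  set n : ℤ := (J.factorial : ℤ) + J - d with hn
  have hfp : (1 : ℤ) ≤ J.factorial := by exact_mod_cast Nat.factorial_pos J
  have hJd : (2 * d + 2 : ℤ) ≤ J := by
    have : 2 * d + 2 ≤ J := by omega
    exact_mod_cast this
  have h1 : β (T n f) f = 0 := by
    have := β_sum f n 0
    rw [T_zero] at this
    rw [this]
    refine Finset.sum_eq_zero fun i hi => Finset.sum_eq_zero fun j hj => ?_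
    have hc : c (j + 0 - (i + n)) = 0 := by
      unfold c
      rw [if_neg]
      rintro ⟨t, ht⟩
      have := hlo i hi
      have := hhi j hj
      have : (1 : ℤ) ≤ t.factorial := by exact_mod_cast Nat.factorial_pos t
      omega
    simp [b] at hc ⊢
    simp [hc]
  have h2 : β f (T n f) = f i0 * (f j0 * (e i0 : ZMod 3)) := by
    have := β_sum f 0 n
    rw [T_zero] at this
    rw [this]
    have hz : ∀ i ∈ f.support, ∀ j ∈ f.support, ¬ (i = i0 ∧ j = j0) → c (j + n - (i + 0)) = 0 := by
      intro i hi j hj hij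
      unfold c
      rw [if_neg]
      rintro ⟨t, ht⟩
      have a1 := hlo i hi
      have a2 := hhi j hj
      have a3 := hlo j hj
      have a4 := hhi i hi
      have : t = J := by
        apply fact_gap J t (2 * d) (by omega)
        · have : (t.factorial : ℤ) + t ≤ J.factorial + J := by omega
          exact_mod_cast this
        · have : (J.factorial : ℤ) + J ≤ t.factorial + t + 2 * d := by omega
          exact_mod_cast this
      subst this
      apply hij
      constructor <;> omega
    rw [Finset.sum_eq_single i0, Finset.sum_eq_single j0]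
    · have hc : c (j0 + n - (i0 + 0)) = 1 := by
        unfold c
        rw [if_pos]
        exact ⟨J, by omega⟩
      unfold b
      rw [hc]; simp
    · intro j hj hne'
      unfold b
      rw [hz i0 hi0m j hj (fun h => hne' h.2)]; simp
    · intro h; exact absurd hj0m h
    · intro i hi hne'
      refine Finset.sum_eq_zero fun j hj => ?_
      unfold b
      rw [hz i hi j hj (fun h => hne' h.1)]; simp
    · intro h; exact absurd hi0m h
  rw [h1, h2, sub_zero]
  haveI : Fact (Nat.Prime 3) := ⟨by norm_num⟩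
  have e1 : f i0 ≠ 0 := Finsupp.mem_support_iff.mp hi0m
  have e2 : f j0 ≠ 0 := Finsupp.mem_support_iff.mp hj0m
  have e3 : (e i0 : ZMod 3) ≠ 0 := by
    rcases e_cases i0 with h | h <;> rw [h] <;> simp
  exact mul_ne_zero e1 (mul_ne_zero e2 e3)

def ι (a : ZMod 3) : ZMod 9 := 3 * (a.val : ZMod 9)

def π : ZMod 9 →+* ZMod 3 := ZMod.castHom (by norm_num : 3 ∣ 9) (ZMod 3)

lemma ι_add (a b : ZMod 3) : ι (a + b) = ι a + ι b := by revert a b; decide
lemma ι_neg (a : ZMod 3) : ι (-a) = -ι a := by revert a; decide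
lemma ι_zero : ι 0 = 0 := by decide
lemma π_ι (a : ZMod 3) : π (ι a) = 0 := by revert a; decide
lemma ι_π (y : ZMod 9) : ι (π y) = 3 * y := by revert y; decide
lemma ι_three (a : ZMod 3) : 3 * ι a = 0 := by revert a; decide
lemma ι_e (n : ℤ) (a : ZMod 3) : ι ((e n : ZMod 3) * a) = (e n : ZMod 9) * ι a := by
  rcases e_cases n with h | h <;> rw [h] <;> simp [ι_neg]

@[ext] structure G where
  u : W
  y : ZMod 9
  n : ℤ

noncomputable instance : Mul G :=
  ⟨fun p q => ⟨p.u + T p.n q.u, p.y + (e p.n : ZMod 9) * q.y + ι (β p.u (T p.n q.u)), p.n + q.n⟩⟩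

noncomputable instance : One G := ⟨⟨0, 0, 0⟩⟩

noncomputable instance : Inv G :=
  ⟨fun p => ⟨-T (-p.n) p.u, -((e (-p.n) : ZMod 9) * p.y) + ι (β (T (-p.n) p.u) (T (-p.n) p.u)),
    -p.n⟩⟩

lemma mul_u (p q : G) : (p * q).u = p.u + T p.n q.u := rfl
lemma mul_y (p q : G) :
    (p * q).y = p.y + (e p.n : ZMod 9) * q.y + ι (β p.u (T p.n q.u)) := rfl
lemma mul_n (p q : G) : (p * q).n = p.n + q.n := rfl
lemma one_u : (1 : G).u = 0 := rfl
lemma one_y : (1 : G).y = 0 := rfl
lemma one_n : (1 : G).n = 0 := rfl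
lemma inv_u (p : G) : (p⁻¹).u = -T (-p.n) p.u := rfl
lemma inv_y (p : G) : (p⁻¹).y =
    -((e (-p.n) : ZMod 9) * p.y) + ι (β (T (-p.n) p.u) (T (-p.n) p.u)) := rfl
lemma inv_n (p : G) : (p⁻¹).n = -p.n := rfl

noncomputable instance : Group G :=
  Group.ofLeftAxioms
    (by
      intro p q r
      ext1
      · simp only [mul_u, mul_n, map_add, T_add, add_assoc]
      · have h := β_T p.n q.u (T q.n r.u)
        rw [T_add] at h
        simp only [mul_u, mul_y, mul_n, map_add, T_add, LinearMap.add_apply, ι_add, h, ι_e, e_add]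
        push_cast; ring
      · simp only [mul_n, add_assoc])
    (by
      intro p
      ext1
      · simp [mul_u, one_u, one_n, T_zero]
      · simp [mul_y, one_u, one_n, one_y, e_zero, ι_zero]
      · simp [mul_n, one_n])
    (by
      intro p
      ext1
      · simp [mul_u, inv_u, inv_n, one_u]
      · simp only [mul_y, inv_u, inv_n, inv_y, one_y, map_neg, LinearMap.neg_apply, ι_neg]
        ring
      · simp [mul_n, inv_n, one_n])

noncomputable def deg : G →* Multiplicative ℤ where
  toFun p := Multiplicative.ofAdd p.n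
  map_one' := rfl
  map_mul' _ _ := rfl

lemma zpow_n (g : G) (m : ℤ) : (g ^ m).n = g.n * m := by
  have h := map_zpow deg g m
  have h2 : (deg (g ^ m)).toAdd = (deg g ^ m).toAdd := by rw [h]
  rw [toAdd_zpow] at h2
  have h3 : (g ^ m).n = m • g.n := h2
  rw [h3, smul_eq_mul, mul_comm]

/-- central elements -/
def z (a : ZMod 3) : G := ⟨0, ι a, 0⟩

lemma z_zero : z 0 = 1 := by
  ext1
  · rfl
  · exact ι_zero
  · rfl

lemma z_add (a a' : ZMod 3) : z (a + a') = z a * z a' := by
  ext1
  · simp [z, mul_u]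
  · simp [z, mul_y, ι_add, e_zero, ι_zero]
  · simp [z, mul_n]

lemma z_comm (a : ZMod 3) (g : G) (hg : g.n = 0) : g * z a = z a * g := by
  ext1
  · simp [z, mul_u, T_zero]
  · simp [z, mul_y, hg, e_zero, ι_zero, add_comm]
  · simp [z, mul_n]

lemma cube (p : G) (hp : p.n = 0) : p ^ 3 = z (π p.y) := by
  have h3 : p ^ 3 = p * p * p := by rw [pow_succ, pow_two]
  rw [h3]
  ext1
  · simp only [mul_u, mul_n, hp, add_zero, T_zero, z]
    ext i
    simp only [Finsupp.add_apply, Finsupp.zero_apply]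
    generalize p.u i = x
    revert x; decide
  · simp only [mul_u, mul_y, mul_n, hp, add_zero, T_zero, z, e_zero, map_add, LinearMap.add_apply,
      ι_add, ι_π]
    have := ι_three (β p.u p.u)
    push_cast
    linear_combination this
  · simp [mul_n, hp, z]

lemma comm_eq (p q : G) (hp : p.n = 0) (hq : q.n = 0) :
    p * q = z (β p.u q.u - β q.u p.u) * (q * p) := by
  ext1
  · simp [mul_u, hp, hq, T_zero, z, add_comm]
  · simp only [mul_u, mul_y, hp, hq, T_zero, z, e_zero, sub_eq_add_neg, ι_add, ι_neg, map_zero,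
      LinearMap.zero_apply, ι_zero]
    push_cast; ring
  · simp [mul_n, hp, hq, z]

lemma conj_n (g v : G) (hv : v.n = 0) : (g * v * g⁻¹).n = 0 := by
  simp [mul_n, inv_n, hv]

lemma conj_u (g v : G) (hv : v.n = 0) : (g * v * g⁻¹).u = T g.n v.u := by
  simp [mul_u, mul_n, inv_u, hv, T_add, T_zero]

/-- The subgroup cut out by a twisted-invariant linear form. -/
def S (l : W →ₗ[ZMod 3] ZMod 3) (hl : ∀ n u, l (T n u) = (e n : ZMod 3) * l u) : Subgroup G where
  carrier := {p | π p.y = l p.u}
  mul_mem' := by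
    intro p q hp hq
    simp only [Set.mem_ofPred_eq] at hp hq ⊢
    simp [mul_u, mul_y, π_ι, hl, hp, hq]
  one_mem' := by simp [one_u, one_y]
  inv_mem' := by
    intro p hp
    simp only [Set.mem_ofPred_eq] at hp ⊢
    simp [inv_u, inv_y, π_ι, hl, hp]

noncomputable def A : Subgroup G := S 0 (by simp)
noncomputable def B : Subgroup G := S ψ ψ_T

open DihedralGroup

lemma exists_v {U : Type} [Group U] (j : U →* G) (φ : U →* DihedralGroup 9)
    (hφ : Function.Surjective φ) : ∃ v : U, (j v).n = 0 ∧ φ v = r 2 := by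
  obtain ⟨x, hx⟩ := hφ (r 1)
  obtain ⟨g, hg⟩ := hφ (sr 0)
  refine ⟨x * g * x⁻¹ * g⁻¹, ?_, ?_⟩
  · simp [mul_n, inv_n]
  · simp only [map_mul, map_inv, hx, hg]; decide

lemma noA (U : Subgroup A) (φ : U →* DihedralGroup 9) (hφ : Function.Surjective φ) : False := by
  set j : U →* G := A.subtype.comp U.subtype with hj
  have hinj : Function.Injective j :=
    A.subtype_injective.comp U.subtype_injective
  obtain ⟨v, hv, hφv⟩ := exists_v j φ hφ
  have hm : π (j v).y = 0 := v.1.2
  have h3 : j (v ^ 3) = j 1 := by rw [map_pow, cube _ hv, hm, z_zero, map_one]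
  have h4 := congrArg φ (hinj h3)
  rw [map_pow, hφv, map_one] at h4
  revert h4; decide

lemma noB (U : Subgroup B) (φ : U →* DihedralGroup 9) (hφ : Function.Surjective φ) : False := by
  set j : U →* G := B.subtype.comp U.subtype with hj
  have hinj : Function.Injective j :=
    B.subtype_injective.comp U.subtype_injective
  obtain ⟨v, hv, hφv⟩ := exists_v j φ hφ
  obtain ⟨g, hg⟩ := hφ (sr 0)
  have hm : π (j v).y = ψ (j v).u := v.1.2
  have hc : j (v ^ 3) = z (π (j v).y) := by rw [map_pow, cube _ hv]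
  have hy : π (j v).y ≠ 0 := by
    intro h0
    have h3 : j (v ^ 3) = j 1 := by rw [hc, h0, z_zero, map_one]
    have h4 := congrArg φ (hinj h3)
    rw [map_pow, hφv, map_one] at h4
    revert h4; decide
  have hf : (j v).u ≠ 0 := by
    intro h0
    apply hy
    rw [hm, h0, map_zero]
  have hk : (j g).n ≠ 0 := by
    intro h0
    have h3 : j (g * v ^ 3) = j (v ^ 3 * g) := by
      rw [map_mul, map_mul, hc, z_comm _ _ h0]
    have h4 := congrArg φ (hinj h3)
    rw [map_mul, map_mul, map_pow, hφv, hg] at h4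
    revert h4; decide
  obtain ⟨m, hω⟩ := key _ hf _ hk
  set v' : U := g ^ m * v * (g ^ m)⁻¹ with hv'
  have hjv' : j v' = j (g ^ m) * j v * (j (g ^ m))⁻¹ := by rw [hv', map_mul, map_mul, map_inv]
  have hn' : (j v').n = 0 := by rw [hjv']; exact conj_n _ _ hv
  have hu' : (j v').u = T ((j g).n * m) (j v).u := by
    rw [hjv', conj_u _ _ hv, map_zpow, zpow_n]
  have hce := comm_eq (j v) (j v') hv hn'
  rw [hu'] at hce
  have hφv' : φ v' = φ (g ^ m) * r 2 * (φ (g ^ m))⁻¹ := by
    rw [hv', map_mul, map_mul, map_inv, hφv]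
  have hcases : ∀ a a' : ZMod 3, a ≠ 0 → a' ≠ 0 → a = a' ∨ a = a' + a' := by decide
  rcases hcases _ _ hω hy with h | h
  · rw [h, ← hc, ← map_mul, ← map_mul, ← map_mul] at hce
    have h4 := congrArg φ (hinj hce)
    simp only [map_mul, map_pow, hφv, hφv'] at h4
    generalize φ (g ^ m) = d at h4
    revert h4 d; decide
  · rw [h, z_add, ← hc, ← map_mul, ← map_mul, ← map_mul, ← map_mul] at hce
    have h4 := congrArg φ (hinj hce)
    simp only [map_mul, map_pow, hφv, hφv'] at h4
    generalize φ (g ^ m) = d at h4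
    revert h4 d; decide

def H : Subgroup (A × B) where
  carrier := {p | p.1.1.u = p.2.1.u ∧ p.1.1.n = p.2.1.n}
  mul_mem' := by
    rintro p q ⟨h1, h2⟩ ⟨h3, h4⟩
    constructor
    · simp [mul_u, h1, h2, h3]
    · simp [mul_n, h2, h4]
  one_mem' := ⟨rfl, rfl⟩
  inv_mem' := by
    rintro p ⟨h1, h2⟩
    constructor
    · simp [inv_u, h1, h2]
    · simp [inv_n, h2]

lemma s_zpow (n : ℤ) (a : ZMod 9) :
    (sr 0 : DihedralGroup 9) ^ n * r a = r ((e n : ZMod 9) * a) * (sr 0) ^ n := by
  have h2 : (sr 0 : DihedralGroup 9) ^ (2 : ℤ) = 1 := by decide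
  rcases Int.even_or_odd' n with ⟨t, h | h⟩
  · have he : e n = 1 := by
      unfold e
      rw [Int.negOnePow_even n ⟨t, by omega⟩]; rfl
    rw [he, h, zpow_mul, h2]; simp
  · have he : e n = -1 := by
      unfold e
      rw [Int.negOnePow_odd n ⟨t, by omega⟩]; rfl
    rw [he, h, zpow_add, zpow_mul, h2]; simp

noncomputable def φ : H →* DihedralGroup 9 :=
  MonoidHom.mk' (fun p => r (p.1.2.1.y - p.1.1.1.y) * (sr 0) ^ p.1.1.1.n) (by
    rintro ⟨p, h1, h2⟩ ⟨q, h3, h4⟩
    have e1 : ((p * q).2.1.y - (p * q).1.1.y) =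
        (p.2.1.y - p.1.1.y) + (e p.1.1.n : ZMod 9) * (q.2.1.y - q.1.1.y) := by
      simp only [Prod.fst_mul, Prod.snd_mul, Subgroup.coe_mul, mul_y, h1, h2, h3]
      ring
    have e2 : (p * q).1.1.n = p.1.1.n + q.1.1.n := rfl
    show r ((p * q).2.1.y - (p * q).1.1.y) * (sr 0) ^ (p * q).1.1.n =
      r (p.2.1.y - p.1.1.y) * (sr 0) ^ p.1.1.n * (r (q.2.1.y - q.1.1.y) * (sr 0) ^ q.1.1.n)
    rw [e1, e2, zpow_add, ← r_mul_r, mul_assoc, mul_assoc, ← mul_assoc ((sr 0) ^ p.1.1.n), s_zpow,
      mul_assoc])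

lemma φ_surj : Function.Surjective φ := by
  have hex : ∀ (a : ZMod 9) (n : ℤ), ∃ p : H, φ p = r a * (sr 0) ^ n := by
    intro a n
    have hA : (⟨single 0 (π a), 0, n⟩ : G) ∈ A := by
      show π 0 = 0
      simp
    have hB : (⟨single 0 (π a), a, n⟩ : G) ∈ B := by
      show π a = ψ (single 0 (π a))
      simp [ψ, Finsupp.linearCombination_single, e_zero]
    refine ⟨⟨(⟨_, hA⟩, ⟨_, hB⟩), rfl, rfl⟩, ?_⟩
    show r (a - 0) * (sr 0) ^ n = _
    rw [sub_zero]
  rintro (a | a)
  · obtain ⟨p, hp⟩ := hex a 0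
    exact ⟨p, by rw [hp]; simp⟩
  · obtain ⟨p, hp⟩ := hex (-a) 1
    exact ⟨p, by rw [hp]; simp⟩

end Pool.Agent.Lib.helper27.D18
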