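import Mathlib

namespace Pool.Agent.Lib.helper27.GenMin

open Polynomial Matrix

section jacobi

variable {R : Type*} [CommRing R]

theorem der_prod {T : Type*} [CommRing T] [Algebra T R] {ι : Type*} [DecidableEq ι]
    (D : Derivation T R R) (s : Finset ι) (f : ι → R) :
    D (∏ i ∈ s, f i) = ∑ i ∈ s, D (f i) * ∏ j ∈ s.erase i, f j := by
  induction s using Finset.induction_on with
  | empty => simp
  | insert a s ha ih =>
    rw [Finset.prod_insert ha, Finset.sum_insert ha, Derivation.leibniz, ih,
      Finset.erase_insert ha, smul_eq_mul, smul_eq_mul, Finset.mul_sum, add_comm, mul_comm]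
    congr 1
    refine Finset.sum_congr rfl fun i hi => ?_
    have hne : a ≠ i := fun h => ha (h ▸ hi)
    rw [Finset.erase_insert_of_ne hne, Finset.prod_insert (fun h => ha (Finset.mem_of_mem_erase h))]
    ring

theorem jacobi {T : Type*} [CommRing T] [Algebra T R] {n : Type*} [Fintype n] [DecidableEq n]
    (D : Derivation T R R) (M : Matrix n n R) :
    D M.det = ∑ j, ∑ i, M.adjugate j i * D (M i j) := by
  have h1 : ∀ j, ∑ i, M.adjugate j i * D (M i j) =
      (M.updateCol j (fun i => D (M i j))).det := fun j => by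
    rw [← cramer_apply, cramer_eq_adjugate_mulVec]; rfl
  simp only [h1, det_apply', map_sum]
  rw [Finset.sum_comm]
  refine Finset.sum_congr rfl fun σ _ => ?_
  rw [Derivation.leibniz, Derivation.map_intCast, smul_zero, add_zero, smul_eq_mul, der_prod,
    Finset.mul_sum]
  refine Finset.sum_congr rfl fun j _ => ?_
  rw [← Finset.mul_prod_erase Finset.univ _ (Finset.mem_univ j), updateCol_self]
  congr 2
  refine Finset.prod_congr rfl fun i hi => ?_
  rw [updateCol_ne (Finset.ne_of_mem_erase hi)]

theorem sqfree_dec [IsDomain R] [WfDvdMonoid R] (x : R) (hx : x ≠ 0) :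
    ∃ S W : R, x = S * W ^ 2 ∧ Squarefree S := by
  induction x using (wellFounded_dvdNotUnit (α := R)).induction with
  | _ x ih =>
  by_cases h : Squarefree x
  · exact ⟨x, 1, by simp, h⟩
  · unfold Squarefree at h
    push Not at h
    obtain ⟨q, ⟨r, rfl⟩, hq⟩ := h
    have hr : r ≠ 0 := right_ne_zero_of_mul hx
    obtain ⟨S, W, h1, h2⟩ := ih r ⟨hr, q * q, fun h => hq (isUnit_of_mul_isUnit_left h),
      mul_comm _ _⟩ hr
    exact ⟨S, q * W, by rw [h1]; ring, h2⟩

theorem sqfree_monic [IsDomain R] [WfDvdMonoid R[X]] {p : R[X]} (hp : p.Monic) :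
    ∃ S W : R[X], p = S * W ^ 2 ∧ Squarefree S ∧ S.Monic ∧ W ≠ 0 := by
  obtain ⟨S, W, h1, h2⟩ := sqfree_dec p hp.ne_zero
  have h3 : S.leadingCoeff * W.leadingCoeff ^ 2 = 1 := by
    rw [← leadingCoeff_pow, ← leadingCoeff_mul, ← h1, hp.leadingCoeff]
  have h4 : C S.leadingCoeff * C W.leadingCoeff ^ 2 = (1 : R[X]) := by
    rw [← C_pow, ← C_mul, h3, C_1]
  have e : p = S * C W.leadingCoeff ^ 2 * (W * (C S.leadingCoeff * C W.leadingCoeff)) ^ 2 := by
    rw [h1]
    linear_combination (-(S * W ^ 2) * (C S.leadingCoeff * C W.leadingCoeff ^ 2 + 1)) * h4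
  refine ⟨_, _, e, ?_, ?_, ?_⟩
  · refine h2.squarefree_of_dvd ⟨C S.leadingCoeff, ?_⟩
    linear_combination (-S) * h4
  · rw [Monic, leadingCoeff_mul, leadingCoeff_pow, leadingCoeff_C, h3]
  · intro h0
    rw [h0] at e
    exact hp.ne_zero (by rw [e]; simp)

theorem charpoly_dvd {n : Type*} [Fintype n] [DecidableEq n] (M : Matrix n n R) (p : R[X])
    (hp : aeval M p = 0) : M.charpoly ∣ p ^ Fintype.card n := by
  have h1 : ∃ Q : (Matrix n n R)[X], (X - C M) * Q = p.map (algebraMap R (Matrix n n R)) := by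
    have h2 : ∀ q : R[X], ∃ Q : (Matrix n n R)[X],
        (X - C M) * Q = q.map (algebraMap R (Matrix n n R)) - C (aeval M q) := by
      intro q
      induction q using Polynomial.induction_on with
      | C a => exact ⟨0, by simp⟩
      | add p q hp hq =>
        obtain ⟨P, hP⟩ := hp
        obtain ⟨Q, hQ⟩ := hq
        exact ⟨P + Q, by rw [mul_add, hP, hQ, Polynomial.map_add, map_add, map_add]; abel⟩
      | monomial k a h =>
        obtain ⟨Q, hQ⟩ := h
        refine ⟨Q * X + C (aeval M (C a * X ^ k)), ?_⟩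
        have hc : M * aeval M (C a * X ^ k) = aeval M (C a * X ^ (k + 1)) := by
          have : (C a * X ^ (k + 1) : R[X]) = X * (C a * X ^ k) := by ring
          rw [this, map_mul (aeval M) X, aeval_X]
        rw [mul_add, ← mul_assoc, hQ, sub_mul, sub_mul, ← C_mul, hc, X_mul, pow_succ, ← mul_assoc,
          Polynomial.map_mul _ (q := X), map_X]
        abel
    obtain ⟨Q, hQ⟩ := h2 p
    exact ⟨Q, by rw [hQ, hp, map_zero, sub_zero]⟩
  obtain ⟨Q, hQ⟩ := h1
  have h3 : charmatrix M * matPolyEquiv.symm Q = p • (1 : Matrix n n R[X]) := by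
    apply matPolyEquiv.injective
    rw [map_mul, matPolyEquiv_charmatrix, AlgEquiv.apply_symm_apply, hQ, matPolyEquiv_smul_one]
  have h4 := congrArg Matrix.det h3
  rw [det_mul, det_smul, det_one, mul_one] at h4
  exact ⟨_, h4.symm⟩

theorem aeval_of_mul {n : Type*} [Fintype n] [DecidableEq n] (M : Matrix n n R) (p : R[X])
    (V : Matrix n n R[X]) (h : V * charmatrix M = p • (1 : Matrix n n R[X])) : aeval M p = 0 := by
  apply_fun matPolyEquiv at h
  simp only [map_mul, matPolyEquiv_charmatrix] at h
  apply_fun fun p => p.eval M at h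
  rw [eval_mul_X_sub_C, matPolyEquiv_smul_one, eval_map] at h
  exact h.symm

end jacobi

section lm

variable {S : Type*} [CommRing S] {H : Type*} [Group H] [Fintype H] [DecidableEq H]

/-- matrix of left multiplication -/
def lm (y : H → S) : Matrix H H S := Matrix.of fun a b => y (a * b⁻¹)

omit [CommRing S] [Fintype H] [DecidableEq H] in
theorem lm_apply (y : H → S) (a b : H) : lm y a b = y (a * b⁻¹) := rfl

omit [DecidableEq H] in
theorem lm_mul (y z : H → S) : lm y * lm z = lm (lm y *ᵥ z) := by
  ext a c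
  simp only [Matrix.mul_apply, lm_apply, Matrix.mulVec, dotProduct]
  refine Fintype.sum_equiv (Equiv.mulRight c⁻¹) _ _ fun b => ?_
  simp [mul_assoc]

omit [Fintype H] in
theorem lm_single_one (r : S) : lm (Pi.single (1 : H) r) = r • (1 : Matrix H H S) := by
  ext a b
  simp [lm_apply, Pi.single_apply, Matrix.one_apply, mul_inv_eq_one]

theorem lm_mulVec_e (y : H → S) : lm y *ᵥ Pi.single 1 1 = y := by
  ext a
  simp [lm_apply]

theorem lm_single_mul (c d : H) :
    lm (Pi.single c (1 : S)) * lm (Pi.single d (1 : S)) = lm (Pi.single (c * d) (1 : S)) := by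
  rw [lm_mul]
  congr 1
  ext a
  simp [lm_apply, Pi.single_apply, mul_inv_eq_iff_eq_mul]

end lm

variable {K : Type} [Field K] [CharP K 2] {I : Type} [Fintype I] [DecidableEq I]
  {H : Type} [Group H] [Fintype H] [DecidableEq H]

theorem core (π : I ≃ H) (hodd : Odd (Fintype.card H)) :
    ∃ S : (MvPolynomial I K)[X], S.Monic ∧
      S.map (algebraMap _ (FractionRing (MvPolynomial I K))) =
        minpoly (FractionRing (MvPolynomial I K))
          ((lm fun a => (MvPolynomial.X (π.symm a) : MvPolynomial I K)).map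
            (algebraMap _ (FractionRing (MvPolynomial I K)))) ∧
      aeval (lm fun a => (MvPolynomial.X (π.symm a) : MvPolynomial I K)) S = 0 ∧
      ∀ j, (fun a => MvPolynomial.pderiv (π.symm a⁻¹) (S.coeff j)) =
        lm (fun a => (MvPolynomial.X (π.symm a) : MvPolynomial I K)) *ᵥ
          (fun a => MvPolynomial.pderiv (π.symm a⁻¹) (S.coeff (j + 1))) +
          S.coeff (j + 1) • Pi.single 1 1 := by
  set M := lm fun a => (MvPolynomial.X (π.symm a) : MvPolynomial I K) with hM
  have h2 : (2 : (MvPolynomial I K)[X]) = 0 := by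
    have : ((2 : ℕ) : (MvPolynomial I K)[X]) = 0 := CharP.cast_eq_zero _ 2
    exact_mod_cast this
  obtain ⟨D, hD⟩ : ∃ D : I → Derivation ℤ (MvPolynomial I K)[X] (MvPolynomial I K)[X],
      ∀ i p j, (D i p).coeff j = MvPolynomial.pderiv i (p.coeff j) :=
    ⟨fun i => @Differential.mapCoeffs _ _ ⟨(MvPolynomial.pderiv i).restrictScalars ℤ⟩,
      fun _ _ _ => rfl⟩
  have hDX : ∀ i, D i X = 0 := fun i => by
    ext1 j
    rw [hD, coeff_X]
    split_ifs <;> simp
  have hDC : ∀ i a, D i (C a) = C (MvPolynomial.pderiv i a) := fun i a => by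
    ext1 j
    rw [hD, coeff_C, coeff_C]
    split_ifs <;> simp
  have hχ : M.charpoly.Monic := charpoly_monic M
  let n : H → (MvPolynomial I K)[X] := fun a =>
    (if a = 1 then X else 0) - C (MvPolynomial.X (π.symm a))
  have hN : charmatrix M = lm n := by
    ext1 a b
    rw [charmatrix_apply, lm_apply, diagonal_apply]
    simp only [n, mul_inv_eq_one, hM, lm_apply]
  let u : H → (MvPolynomial I K)[X] := fun a => (charmatrix M).adjugate a 1
  have hu : charmatrix M *ᵥ u = Pi.single 1 M.charpoly := by
    ext1 a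
    have := congrFun (congrFun (mul_adjugate (charmatrix M)) a) 1
    rw [Matrix.mul_apply] at this
    simp only [Matrix.mulVec, dotProduct, u, this]
    simp [Pi.single_apply, Matrix.one_apply, charpoly]
  have cancel : ∀ V W : Matrix H H (MvPolynomial I K)[X],
      charmatrix M * V = charmatrix M * W → V = W := by
    intro V W h
    have := congrArg ((charmatrix M).adjugate * ·) h
    simp only [← Matrix.mul_assoc, adjugate_mul, Matrix.smul_mul, Matrix.one_mul] at this
    ext1 a b
    exact mul_left_cancel₀ hχ.ne_zero (congrFun (congrFun this a) b)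
  have hadj : (charmatrix M).adjugate = lm u := cancel _ _ (by
    rw [mul_adjugate]
    conv_rhs => rw [hN, lm_mul, ← hN, hu, lm_single_one]
    rfl)
  have hDχ : ∀ a, D (π.symm a⁻¹) M.charpoly = u a := by
    intro a
    have e1 : ∀ b c : H, D (π.symm a⁻¹) (charmatrix M c b) = if c = a⁻¹ * b then -1 else 0 := by
      intro b c
      rw [hN, lm_apply]
      simp only [n]
      rw [map_sub, hDC, MvPolynomial.pderiv_X, Pi.single_apply]
      have : D (π.symm a⁻¹) (if c * b⁻¹ = 1 then X else 0) = 0 := by
        split_ifs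
        · exact hDX _
        · exact map_zero _
      rw [this]
      simp only [EmbeddingLike.apply_eq_iff_eq, mul_inv_eq_iff_eq_mul]
      split_ifs <;> simp
    rw [charpoly, jacobi]
    simp only [e1, hadj, lm_apply, mul_ite, mul_zero, Finset.sum_ite_eq', Finset.mem_univ,
      if_true, _root_.mul_inv_rev, inv_inv, mul_inv_cancel_left, Finset.sum_const,
      Finset.card_univ, nsmul_eq_mul]
    obtain ⟨k, hk⟩ := hodd
    rw [hk]
    push_cast
    linear_combination (-(k + 1 : (MvPolynomial I K)[X]) * u a) * h2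
  obtain ⟨S, W, hSW, hsq, hS, hW⟩ := sqfree_monic hχ
  let v : H → (MvPolynomial I K)[X] := fun a => D (π.symm a⁻¹) S
  have huv : u = W ^ 2 • v := by
    ext1 a
    rw [← hDχ, hSW, Derivation.leibniz, Derivation.leibniz_pow]
    simp only [v, Pi.smul_apply, smul_eq_mul, nsmul_eq_mul]
    push_cast
    linear_combination (S * (W ^ (2 - 1) * D (π.symm a⁻¹) W)) * h2
  have hv : charmatrix M *ᵥ v = Pi.single 1 S := by
    ext1 a
    have := congrFun hu a
    rw [huv, mulVec_smul, hSW] at this
    refine mul_left_cancel₀ (pow_ne_zero 2 hW) ?_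
    rw [Pi.smul_apply, smul_eq_mul] at this
    rw [this, Pi.single_apply, Pi.single_apply]
    split_ifs <;> ring
  have hNV : charmatrix M * lm v = S • (1 : Matrix H H _) := by
    conv_lhs => rw [hN, lm_mul, ← hN, hv, lm_single_one]
  have hS0 : aeval M S = 0 := aeval_of_mul M S (lm v) (cancel _ _ (by
    rw [← Matrix.mul_assoc, hNV]; simp))
  have hinj := IsFractionRing.injective (MvPolynomial I K) (FractionRing (MvPolynomial I K))
  have hmap : ∀ p : (MvPolynomial I K)[X],
      aeval (M.map (algebraMap _ (FractionRing (MvPolynomial I K))))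
        (p.map (algebraMap _ (FractionRing (MvPolynomial I K)))) =
      (aeval M p).map (algebraMap _ (FractionRing (MvPolynomial I K))) := by
    intro p
    rw [aeval_map_algebraMap]
    exact Polynomial.aeval_algHom_apply (AlgHom.mapMatrix (Algebra.ofId _ _)) M p
  have hint : IsIntegral (FractionRing (MvPolynomial I K))
      (M.map (algebraMap _ (FractionRing (MvPolynomial I K)))) := Matrix.isIntegral _
  have hPS := minpoly.dvd (FractionRing (MvPolynomial I K)) _
    ((hmap S).trans (by rw [hS0]; simp))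
  obtain ⟨P, hP⟩ := IsIntegrallyClosed.eq_map_mul_C_of_dvd (FractionRing (MvPolynomial I K)) hS hPS
  rw [(minpoly.monic hint).leadingCoeff, C_1, mul_one] at hP
  have hPm : P.Monic := monic_of_injective hinj (hP ▸ minpoly.monic hint)
  have hP0 : aeval M P = 0 := by
    have := hmap P
    rw [hP, minpoly.aeval] at this
    ext1 a b
    apply hinj
    have h3 := congrFun (congrFun this a) b
    simpa using h3.symm
  have d1 : P ∣ S := (map_dvd_map _ hinj hPm).mp (hP ▸ hPS)
  have d2 : S ∣ P := hsq.isRadical _ _ ((Dvd.intro _ hSW.symm).trans (charpoly_dvd M P hP0))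
  have hPS' : P = S := eq_of_monic_of_associated hPm hS (associated_of_dvd_dvd d1 d2)
  refine ⟨S, hS, hPS' ▸ hP, hS0, fun j => ?_⟩
  ext1 a
  have h3 := congrArg (fun p => p.coeff (j + 1)) (congrFun hv a)
  simp only [Matrix.mulVec, dotProduct, charmatrix_apply, diagonal_apply, sub_mul,
    Finset.sum_sub_distrib, ite_mul, zero_mul, Finset.sum_ite_eq, Finset.mem_univ, if_true,
    coeff_sub, coeff_X_mul, finset_sum_coeff, coeff_C_mul, v, hD, Pi.single_apply] at h3
  simp only [Pi.add_apply, Matrix.mulVec, dotProduct, Pi.smul_apply, Pi.single_apply, smul_eq_mul]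
  rw [sub_eq_iff_eq_add'] at h3
  rw [h3]
  split_ifs <;> simp

end Pool.Agent.Lib.helper27.GenMin
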