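import Mathlib
import Pool.Agent.Lib.helper27.GenMin

namespace Pool.Agent.Lib.helper27.GenMin2

open Polynomial Matrix GenMin

section groups

variable {G H : Type*} [Group G] [Group H]

theorem sq_root [Fintype G] (h : Odd (Fintype.card G)) : ∃ k : ℕ, ∀ g : G, (g * g) ^ k = g := by
  obtain ⟨k, hk⟩ := h
  refine ⟨k + 1, fun g => ?_⟩
  rw [← pow_two, ← pow_mul, show 2 * (k + 1) = Fintype.card G + 1 by omega, pow_succ,
    pow_card_eq_one, one_mul]

theorem half_iso (f : G ≃ H) (k : ℕ) (hG : ∀ g : G, (g * g) ^ k = g)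
    (hH : ∀ g : H, (g * g) ^ k = g) (hinv : ∀ g, f g⁻¹ = (f g)⁻¹)
    (hsq : ∀ g, f (g * g) = f g * f g) (hU : ∀ g h, f (g * h * g) = f g * f h * f g)
    (hc : ∀ g h, g * h = h * g ↔ f g * f h = f h * f g)
    (hn : ∀ g h, g * h ≠ h * g → f (g * h) = f g * f h ∨ f (g * h) = f h * f g) :
    Nonempty (G ≃* H) := by
  have sqc : ∀ a c : H, Commute (c * c) a → Commute c a := fun a c h => by
    rw [← hH c]; exact h.pow_left k
  have hcomm : ∀ g h, g * h = h * g → f (g * h) = f g * f h := by
    intro g h hgh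
    have c1 : Commute (g ^ k) h := Commute.pow_left hgh k
    have e1 : g ^ k * g ^ k = g := by rw [← Commute.mul_pow (Commute.refl g), hG]
    have e2 : g * h = g ^ k * h * g ^ k := by rw [mul_assoc, ← c1.eq, ← mul_assoc, e1]
    rw [e2, hU, mul_assoc, ← (hc _ _).mp c1.eq, ← mul_assoc, ← hsq, e1]
  have hall : ∀ g h, f (g * h) = f g * f h ∨ f (g * h) = f h * f g := fun g h => by
    by_cases h0 : g * h = h * g
    · exact Or.inl (hcomm g h h0)
    · exact hn g h h0
  have symP : ∀ g h, f (g * h) = f g * f h → f (h * g) = f h * f g := fun g h h1 => by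
    by_cases h0 : g * h = h * g
    · exact hcomm h g h0.symm
    · exact (hall h g).resolve_right fun h2 => h0 (f.injective (h1.trans h2.symm))
  have symR : ∀ g h, f (g * h) = f h * f g → f (h * g) = f g * f h := fun g h h1 => by
    by_cases h0 : g * h = h * g
    · rw [← h0]; exact hcomm g h h0
    · exact (hall h g).resolve_left fun h2 => h0 (f.injective (h1.trans h2.symm))
  have invR : ∀ a c, f (a * c) = f c * f a → f (a * c⁻¹) = f c⁻¹ * f a := fun a c h1 => by
    have h2 := hU c (a * c⁻¹)
    rw [show c * (a * c⁻¹) * c = c * a by group, symR a c h1] at h2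
    rw [hinv, eq_inv_mul_iff_mul_eq]
    exact (mul_right_cancel h2).symm
  have dich : ∀ a b c, f (a * b) = f a * f b → f a * f b ≠ f b * f a →
      f (a * c) = f c * f a → f a * f c ≠ f c * f a →
      f b * f c = f c * f b ∨ f b * f a * f c = f c * f a * f b := by
    intro a b c h1 h2 h3 h4
    have e1 := hall (b * a) c
    have e2 := hall b (a * c)
    rw [symP a b h1] at e1
    rw [h3, ← mul_assoc] at e2
    rcases e1 with e1 | e1 <;> rcases e2 with e2 | e2
    · rw [e1, mul_assoc] at e2
      exact absurd (mul_left_cancel e2) h4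
    · exact Or.inr (e1.symm.trans e2)
    · rw [e1, ← mul_assoc, ← mul_assoc] at e2
      exact Or.inl (mul_right_cancel e2).symm
    · rw [e1, mul_assoc] at e2
      exact absurd (mul_left_cancel e2).symm h2
  have comm1 : ∀ a b c, f (a * b) = f a * f b → f a * f b ≠ f b * f a →
      f (a * c) = f c * f a → f a * f c ≠ f c * f a → f b * f c = f c * f b →
      Commute (f a) (f b * f c) := by
    intro a b c h1 h2 h3 h4 h5
    have hbc : b * c = c * b := (hc _ _).mpr h5
    have e1 := hall (a * b) c
    have e2 := hall a (b * c)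
    have e3 := hall (a * c) b
    rw [h1] at e1
    rw [hcomm b c hbc, ← mul_assoc] at e2
    rw [h3, mul_assoc a, ← hbc, ← mul_assoc a] at e3
    rcases e1 with e1 | e1
    · rcases e3 with e3 | e3
      · rw [e1, mul_assoc, h5, ← mul_assoc] at e3
        exact absurd (mul_right_cancel e3) h4
      · rw [e1] at e3
        change f a * (f b * f c) = f b * f c * f a
        rw [← mul_assoc, e3, mul_assoc]
    · rcases e2 with e2 | e2
      · rw [e1, h5, ← mul_assoc, ← mul_assoc] at e2
        exact absurd (mul_right_cancel e2).symm h4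
      · rw [e1, h5, mul_assoc] at e2
        exact absurd (mul_left_cancel e2) h2
  have key : ∀ a b c, f (a * b) = f a * f b → f a * f b ≠ f b * f a →
      f (a * c) = f c * f a → f a * f c ≠ f c * f a → False := by
    intro a b c h1 h2 h3 h4
    have h3' := invR a c h3
    have h4' : f a * f c⁻¹ ≠ f c⁻¹ * f a := fun h => h4 (by
      rw [hinv] at h
      exact (Commute.inv_right_iff.mp h).eq)
    by_cases h5 : f b * f c = f c * f b
    · have h5' : f b * f c⁻¹ = f c⁻¹ * f b := by
        rw [hinv]; exact (Commute.inv_right h5).eq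
      have c1 := comm1 a b c h1 h2 h3 h4 h5
      have c2 := comm1 a b c⁻¹ h1 h2 h3' h4' h5'
      rw [hinv] at c2
      have c3 := c2.inv_right.mul_right c1
      rw [show (f b * (f c)⁻¹)⁻¹ * (f b * f c) = f c * f c by group] at c3
      exact h4 (sqc _ _ c3.symm).symm.eq
    · have h5' : f b * f c⁻¹ ≠ f c⁻¹ * f b := fun h => h5 (by
        rw [hinv] at h
        exact (Commute.inv_right_iff.mp h).eq)
      have d1 := (dich a b c h1 h2 h3 h4).resolve_left h5
      have d2 := (dich a b c⁻¹ h1 h2 h3' h4').resolve_left h5'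
      rw [hinv] at d2
      have e1 : f a * f b = (f c)⁻¹ * (f b * f a) * f c := by
        rw [mul_assoc, d1]; group
      have e2 : f a * f b = f c * (f b * f a) * (f c)⁻¹ := by
        rw [mul_assoc, d2]; group
      have c3 : Commute (f c * f c) (f b * f a) := by
        have := e1.symm.trans e2
        change f c * f c * (f b * f a) = f b * f a * (f c * f c)
        calc f c * f c * (f b * f a) = f c * (f c * (f b * f a) * (f c)⁻¹) * f c := by group
          _ = f c * ((f c)⁻¹ * (f b * f a) * f c) * f c := by rw [this]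
          _ = f b * f a * (f c * f c) := by group
      apply h2
      rw [e2, (sqc _ _ c3).eq]; group
  by_cases hP : ∀ g h, f (g * h) = f g * f h
  · exact ⟨{ f with map_mul' := hP }⟩
  · push Not at hP
    obtain ⟨c, d, hcd⟩ := hP
    have r1 : f (c * d) = f d * f c := (hall c d).resolve_left hcd
    have r2 : f c * f d ≠ f d * f c := fun h => hcd (r1.trans h.symm)
    have hR : ∀ a b, f (a * b) = f b * f a := by
      intro a b
      by_contra hab
      have p1 : f (a * b) = f a * f b := (hall a b).resolve_right hab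
      have p2 : f a * f b ≠ f b * f a := fun h => hab (p1.trans h)
      have cc : ∀ a b c d, f (a * b) = f a * f b → f a * f b ≠ f b * f a →
          f (c * d) = f d * f c → f c * f d ≠ f d * f c → f a * f c = f c * f a := by
        intro a b c d p1 p2 r1 r2
        by_contra hne
        rcases hall a c with h | h
        · exact key c a d (symP a c h) (Ne.symm hne) r1 r2
        · exact key a b c p1 p2 h hne
      have ac := cc a b c d p1 p2 r1 r2
      have bc := cc b a c d (symP a b p1) p2.symm r1 r2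
      have ad := cc a b d c p1 p2 (symR c d r1) r2.symm
      have fac : f (a * c) = f a * f c := hcomm a c ((hc _ _).mpr ac)
      have n1 : f (a * c) * f b ≠ f b * f (a * c) := fun h => p2 (by
        rw [fac, mul_assoc, ← bc, ← mul_assoc, ← mul_assoc] at h
        exact mul_right_cancel h)
      have n2 : f (a * c) * f d ≠ f d * f (a * c) := fun h => r2 (by
        rw [fac, ← mul_assoc, ← ad, mul_assoc, mul_assoc] at h
        exact mul_left_cancel h)
      have q1 : f (a * c * b) = f (a * c) * f b := (hall (a * c) b).resolve_right fun h =>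
        key b a (a * c) (symP a b p1) p2.symm (symR _ _ h) n1.symm
      have q2 : f (a * c * d) = f d * f (a * c) := (hall (a * c) d).resolve_left fun h =>
        key d (a * c) c (symP _ _ h) n2.symm (symR _ _ r1) r2.symm
      exact key (a * c) b d q1 n1 q2 n2
    refine ⟨{ (f.trans (Equiv.inv H)) with map_mul' := fun a b => ?_ }⟩
    change (f (a * b))⁻¹ = (f a)⁻¹ * (f b)⁻¹
    rw [hR, _root_.mul_inv_rev]

end groups

variable {K : Type} [Field K] [CharP K 2] {I : Type} [Fintype I] [DecidableEq I]
  {H : Type} [Group H] [Fintype H] [DecidableEq H]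

omit [CharP K 2] [Fintype I] in
theorem spec_lm (π : I ≃ H) (g h : I) :
    (lm fun a => (MvPolynomial.X (π.symm a) : MvPolynomial I K)).map
      (MvPolynomial.aeval (R := K) (Pi.single g (1 : K[X]) + Pi.single h X : I → K[X])) =
      lm (Pi.single (π g) (1 : K[X])) + (X : K[X]) • lm (Pi.single (π h) (1 : K[X])) := by
  ext1 a b
  simp only [Matrix.map_apply, lm_apply, MvPolynomial.aeval_X, Pi.add_apply, Matrix.add_apply,
    Matrix.smul_apply, Pi.single_apply, Equiv.symm_apply_eq, smul_eq_mul, mul_ite, mul_one,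
    mul_zero]

theorem cube_gen {A B : Type*} [CommRing A] [Ring B] [Algebra A B] (P Q : B) (t : A) :
    (P + t • Q) ^ 3 = P * P * P + t • (P * P * Q + P * Q * P + Q * P * P) +
      t ^ 2 • (P * Q * Q + Q * P * Q + Q * Q * P) + t ^ 3 • (Q * Q * Q) := by
  simp only [pow_succ, pow_zero, one_mul, add_mul, mul_add, smul_mul_assoc, mul_smul_comm,
    smul_add, smul_smul, mul_assoc t]
  abel

omit [CharP K 2] in
theorem sq_exp (g h : H) :
    (lm (Pi.single g (1 : K[X])) + (X : K[X]) • lm (Pi.single h 1)) ^ 2 =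
      lm (Pi.single (g * g) 1) + (X : K[X]) • (lm (Pi.single (g * h) 1) + lm (Pi.single (h * g) 1))
        + (X ^ 2 : K[X]) • lm (Pi.single (h * h) 1) := by
  simp only [pow_two, add_mul, mul_add, smul_mul_assoc, mul_smul_comm, lm_single_mul, smul_add,
    smul_smul]
  abel

omit [CharP K 2] in
theorem cube_exp (g h : H) :
    (lm (Pi.single g (1 : K[X])) + (X : K[X]) • lm (Pi.single h 1)) ^ 3 =
      lm (Pi.single (g * g * g) 1) + (X : K[X]) • (lm (Pi.single (g * g * h) 1) +
        lm (Pi.single (g * h * g) 1) + lm (Pi.single (h * g * g) 1))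
        + (X ^ 2 : K[X]) • (lm (Pi.single (g * h * h) 1) +
        lm (Pi.single (h * g * h) 1) + lm (Pi.single (h * h * g) 1))
        + (X ^ 3 : K[X]) • lm (Pi.single (h * h * h) 1) := by
  rw [cube_gen]
  simp only [lm_single_mul]

omit [Fintype H] [CharP K 2] in
theorem ent (c a : H) : lm (Pi.single c (1 : K[X])) a 1 = C (if a = c then (1 : K) else 0) := by
  rw [lm_apply, inv_one, mul_one, Pi.single_apply]
  split_ifs <;> simp

theorem chain {A : Type*} [CommRing A] (M : Matrix H H A) (v : ℕ → H → A) (s : ℕ → A) (d : ℕ)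
    (h : ∀ j, v j = M *ᵥ v (j + 1) + s (j + 1) • Pi.single 1 1) (h0 : v (d + 5) = 0)
    (h1 : s (d + 5) = 1) (a : H) :
    v (d + 4) a = (1 : Matrix H H A) a 1 ∧
    v (d + 3) a = M a 1 + s (d + 4) * (1 : Matrix H H A) a 1 ∧
    v (d + 2) a = (M ^ 2) a 1 + s (d + 4) * M a 1 + s (d + 3) * (1 : Matrix H H A) a 1 ∧
    v (d + 1) a = (M ^ 3) a 1 + s (d + 4) * (M ^ 2) a 1 + s (d + 3) * M a 1 +
      s (d + 2) * (1 : Matrix H H A) a 1 := by
  have e4 : v (d + 4) = (1 : Matrix H H A) *ᵥ Pi.single 1 1 := by
    rw [h, h0, h1, mulVec_zero, zero_add, one_smul, one_mulVec]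
  have e3 : v (d + 3) = (M + s (d + 4) • (1 : Matrix H H A)) *ᵥ Pi.single 1 1 := by
    rw [h, e4, add_mulVec, smul_mulVec, one_mulVec]
  have e2 : v (d + 2) =
      (M ^ 2 + s (d + 4) • M + s (d + 3) • (1 : Matrix H H A)) *ᵥ Pi.single 1 1 := by
    rw [h, e3, mulVec_mulVec, add_mulVec (M ^ 2 + _), smul_mulVec, one_mulVec, mul_add,
      mul_smul_comm, mul_one, pow_two]
  have e1 : v (d + 1) = (M ^ 3 + s (d + 4) • M ^ 2 + s (d + 3) • M +
      s (d + 2) • (1 : Matrix H H A)) *ᵥ Pi.single 1 1 := by
    rw [h, e2, mulVec_mulVec, add_mulVec (M ^ 3 + _ + _), smul_mulVec, one_mulVec, mul_add,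
      mul_add, mul_smul_comm, mul_smul_comm, mul_one, ← pow_succ', ← pow_two]
  rw [e4, e3, e2, e1]
  simp

theorem quartic {A B : Type*} [CommRing A] [Ring B] [Algebra A B] (Y : B) (p : A[X])
    (hp : p.Monic) (hd : p.natDegree ≤ 4) (h : aeval Y p = 0) :
    ∃ c : ℕ → A, Y ^ 4 + c 3 • Y ^ 3 + c 2 • Y ^ 2 + c 1 • Y + c 0 • (1 : B) = 0 := by
  rcases subsingleton_or_nontrivial A with hA | hA
  · have := Module.subsingleton A B
    exact ⟨0, Subsingleton.elim _ _⟩
  let q := p * X ^ (4 - p.natDegree)
  have hq : q.Monic := hp.mul (monic_X_pow _)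
  have hqd : q.natDegree = 4 := by
    rw [hp.natDegree_mul (monic_X_pow _), natDegree_X_pow]; omega
  have h1 : aeval Y q = 0 := by rw [map_mul, h, zero_mul]
  have h4 : q.coeff 4 = 1 := by rw [← hqd]; exact hq.coeff_natDegree
  rw [aeval_eq_sum_range, hqd] at h1
  simp only [Finset.sum_range_succ, Finset.range_zero, Finset.sum_empty, h4, one_smul, pow_zero,
    pow_one, zero_add] at h1
  exact ⟨q.coeff, by rw [← h1]; abel⟩

theorem small (hodd : Odd (Fintype.card H)) (S : (MvPolynomial H K)[X]) (hS : S.Monic)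
    (hd : S.natDegree ≤ 4)
    (h0 : aeval (lm fun a => (MvPolynomial.X ((Equiv.refl H).symm a) : MvPolynomial H K)) S = 0) :
    Fintype.card H = 1 ∨ Fintype.card H = 3 := by
  obtain ⟨c, hc⟩ := quartic _ S hS hd h0
  have spec : ∀ g h : H, ∃ c : ℕ → K[X],
      (lm (Pi.single g (1 : K[X])) + (X : K[X]) • lm (Pi.single h 1)) ^ 4 +
      c 3 • (lm (Pi.single g (1 : K[X])) + (X : K[X]) • lm (Pi.single h 1)) ^ 3 +
      c 2 • (lm (Pi.single g (1 : K[X])) + (X : K[X]) • lm (Pi.single h 1)) ^ 2 +
      c 1 • (lm (Pi.single g (1 : K[X])) + (X : K[X]) • lm (Pi.single h 1)) +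
      c 0 • (1 : Matrix H H K[X]) = 0 := by
    intro g h
    let φ := MvPolynomial.aeval (R := K) (Pi.single g (1 : K[X]) + Pi.single h X : H → K[X])
    have e := spec_lm (K := K) (Equiv.refl H) g h
    have := congrArg (AlgHom.mapMatrix (m := H) φ) hc
    have sm : ∀ (r : MvPolynomial H K) (N : Matrix H H (MvPolynomial H K)),
        AlgHom.mapMatrix φ (r • N) = φ r • AlgHom.mapMatrix φ N := fun r N => by
      ext1 a b; simp
    simp only [map_add, sm, map_pow, map_one, map_zero] at this
    rw [AlgHom.mapMatrix_apply, e] at this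
    exact ⟨fun i => φ (c i), this⟩
  obtain ⟨k, hk⟩ := sq_root hodd
  have sq1 : ∀ g : H, g * g = 1 → g = 1 := fun g h => by rw [← hk g, h, one_pow]
  have h2 : (2 : K[X]) = 0 := by
    have : ((2 : ℕ) : K[X]) = 0 := CharP.cast_eq_zero _ 2
    exact_mod_cast this
  have four : ∀ g h : H, g * h = h * g →
      (lm (Pi.single g (1 : K[X])) + (X : K[X]) • lm (Pi.single h 1)) ^ 4 =
      lm (Pi.single (g * g * (g * g)) 1) + (X ^ 4 : K[X]) • lm (Pi.single (h * h * (h * h)) 1) := by
    intro g h hgh
    have t2 : ∀ N : Matrix H H K[X], N + N = 0 := fun N => by rw [← two_smul K[X] N, h2, zero_smul]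
    have hc2 : g * g * (h * h) = h * h * (g * g) :=
      ((Commute.mul_left hgh hgh).mul_right (Commute.mul_left hgh hgh)).eq
    rw [show 4 = 2 * 2 from rfl, pow_mul, sq_exp, hgh, t2, smul_zero, add_zero, pow_two]
    simp only [add_mul, mul_add, smul_mul_assoc, mul_smul_comm, lm_single_mul, smul_add,
      smul_smul, hc2]
    rw [add_assoc, ← add_assoc ((X ^ 2 : K[X]) • _), t2, zero_add, ← pow_add]
  have cube : ∀ g : H, g * g * g = 1 := by
    intro g
    by_contra hg
    have n1 : g ≠ 1 := fun h => hg (by simp [h])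
    have n2 : g * g ≠ 1 := fun h => n1 (sq1 _ h)
    have n4 : g * g * (g * g) ≠ 1 := fun h => n2 (sq1 _ h)
    obtain ⟨c, hc⟩ := spec g 1
    rw [four g 1 (by simp), cube_exp, sq_exp] at hc
    have e := congrFun (congrFun hc (g * g * (g * g))) 1
    have m1 : g * g * (g * g) ≠ g := fun h => hg (by
      have : g * g * g * g = 1 * g := by rw [one_mul, mul_assoc (g * g), h]
      exact mul_right_cancel this)
    have m2 : g * g * (g * g) ≠ g * g := fun h => n2 (by simpa using h)
    have m3 : g * g * (g * g) ≠ g * g * g := fun h => n1 (by simpa using h)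
    simp [ent, Matrix.one_apply, n4, m1, m2, m3] at e
  by_contra hcon
  have h3 : IsPGroup 3 H := fun g => ⟨1, by rw [pow_one, pow_three', cube]⟩
  have hnt : Nontrivial H := Fintype.one_lt_card_iff_nontrivial.mp (by
    have := Fintype.card_pos (α := H)
    omega)
  haveI : Fact (Nat.Prime 3) := ⟨by norm_num⟩
  obtain ⟨⟨a, ha⟩, ha1⟩ := @exists_ne _ h3.center_nontrivial 1
  have a1 : a ≠ 1 := fun h => ha1 (Subtype.ext h)
  obtain ⟨b, hb⟩ : ∃ b : H, b ∉ ({1, a, a * a} : Finset H) := by
    by_contra hall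
    push Not at hall
    have h1 : Fintype.card H ≤ 3 := by
      rw [← Finset.card_univ]
      exact (Finset.card_le_card fun b _ => hall b).trans Finset.card_le_three
    obtain ⟨k, hk⟩ := hodd
    omega
  simp only [Finset.mem_insert, Finset.mem_singleton, not_or] at hb
  obtain ⟨b1, b2, b3⟩ := hb
  have hab : a * b = b * a := (Subgroup.mem_center_iff.mp ha b).symm
  obtain ⟨c, hc⟩ := spec a b
  have f4 : ∀ g : H, g * g * (g * g) = g := fun g => by rw [← mul_assoc, cube, one_mul]
  have inv : ∀ g : H, g * g = g⁻¹ := fun g => eq_inv_of_mul_eq_one_left (cube g)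
  have w1 : a * b * a = a⁻¹ * b := by rw [mul_assoc, ← hab, ← mul_assoc, inv]
  have w2 : b * a * a = a⁻¹ * b := by rw [← hab, w1]
  have w3 : b * a * b = a * b⁻¹ := by rw [← hab, mul_assoc, inv]
  have w4 : b * b * a = a * b⁻¹ := by rw [mul_assoc, ← hab, ← mul_assoc, w3]
  have w5 : a * b * b = a * b⁻¹ := by rw [mul_assoc, inv]
  rw [four a b hab, cube_exp, sq_exp, f4, f4, cube, cube, w1, w2, w3, w4, w5, ← hab, inv a,
    inv b] at hc
  rw [inv a] at b3
  have ninv : ∀ g : H, g ≠ 1 → g ≠ g⁻¹ := fun g h1 h => h1 (sq1 g (by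
    nth_rewrite 1 [h]; exact inv_mul_cancel g))
  have x1 : a ≠ b⁻¹ := fun h => b3 (by rw [h, inv_inv])
  have x2 : a ≠ a⁻¹ * b := fun h => b3 (by rw [← inv a]; exact (eq_inv_mul_iff_mul_eq.mp h).symm)
  have x3 : b ≠ a * b⁻¹ := fun h => x1 (by rw [← inv b]; exact (eq_mul_inv_iff_mul_eq.mp h).symm)
  have ea := congrFun (congrFun hc a) 1
  have eb := congrFun (congrFun hc b) 1
  have t2 : ∀ r : K[X], r + r = 0 := fun r => by rw [← two_mul, h2, zero_mul]
  simp [ent, Matrix.one_apply, a1, b1, b2, b3, Ne.symm b2, ninv a a1, ninv b b1, x1, x2, x3]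
    at ea eb
  have : (X ^ 4 : K[X]) = X := by linear_combination eb - X * ea
  have := congrArg (fun p : K[X] => p.coeff 1) this
  simp [coeff_X_pow] at this

theorem main {G : Type} [Group G] [Fintype G] [DecidableEq G] (hodd : Odd (Fintype.card G))
    (π : G ≃ H)
    (hdeg : (minpoly (FractionRing (MvPolynomial G K))
          ((lm fun a => (MvPolynomial.X ((Equiv.refl G).symm a) : MvPolynomial G K)).map
            (algebraMap _ (FractionRing (MvPolynomial G K))))).natDegree =
        (minpoly (FractionRing (MvPolynomial G K))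
          ((lm fun a => (MvPolynomial.X (π.symm a) : MvPolynomial G K)).map
            (algebraMap _ (FractionRing (MvPolynomial G K))))).natDegree)
    (hco : ∀ j, 1 ≤ j → j < (minpoly (FractionRing (MvPolynomial G K))
          ((lm fun a => (MvPolynomial.X ((Equiv.refl G).symm a) : MvPolynomial G K)).map
            (algebraMap _ (FractionRing (MvPolynomial G K))))).natDegree →
        (minpoly (FractionRing (MvPolynomial G K))
          ((lm fun a => (MvPolynomial.X ((Equiv.refl G).symm a) : MvPolynomial G K)).map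
            (algebraMap _ (FractionRing (MvPolynomial G K))))).coeff j =
        (minpoly (FractionRing (MvPolynomial G K))
          ((lm fun a => (MvPolynomial.X (π.symm a) : MvPolynomial G K)).map
            (algebraMap _ (FractionRing (MvPolynomial G K))))).coeff j) :
    Nonempty (G ≃* H) := by
  have hcard : Fintype.card G = Fintype.card H := Fintype.card_congr π
  have hoddH : Odd (Fintype.card H) := hcard ▸ hodd
  obtain ⟨S, hS, hS1, hS2, hS3⟩ := core (K := K) (Equiv.refl G) hodd
  obtain ⟨T, hT, hT1, -, hT3⟩ := core (K := K) π hoddH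
  have hinj := IsFractionRing.injective (MvPolynomial G K) (FractionRing (MvPolynomial G K))
  rw [← hS1, ← hT1, natDegree_map_eq_of_injective hinj, natDegree_map_eq_of_injective hinj]
    at hdeg
  rw [← hS1, ← hT1, natDegree_map_eq_of_injective hinj] at hco
  have hco' : ∀ j, 1 ≤ j → j < S.natDegree → S.coeff j = T.coeff j := fun j h1 h2 => by
    have := hco j h1 h2
    rw [coeff_map, coeff_map] at this
    exact hinj this
  by_cases hd : S.natDegree ≤ 4
  · have hc : ∀ (L : Type) [Group L] [Fintype L], Fintype.card L = 1 ∨ Fintype.card L = 3 →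
        IsCyclic L := by
      intro L _ _ h
      rcases h with h | h
      · haveI := Fintype.card_le_one_iff_subsingleton.mp h.le
        exact isCyclic_of_subsingleton
      · haveI : Fact (Nat.Prime 3) := ⟨by norm_num⟩
        exact isCyclic_of_prime_card (p := 3) (by rw [Nat.card_eq_fintype_card, h])
    have h1 := small hodd S hS hd hS2
    haveI := hc G h1
    haveI := hc H (hcard ▸ h1)
    exact ⟨mulEquivOfCyclicCardEq (by
      rw [Nat.card_eq_fintype_card, Nat.card_eq_fintype_card, hcard])⟩
  obtain ⟨d, hd'⟩ : ∃ d, S.natDegree = d + 5 := ⟨S.natDegree - 5, by omega⟩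
  have s5 : S.coeff (d + 5) = 1 := by rw [← hd']; exact hS.coeff_natDegree
  have t5 : T.coeff (d + 5) = 1 := by rw [← hd', hdeg]; exact hT.coeff_natDegree
  have cG := chain _ (fun j a => MvPolynomial.pderiv ((Equiv.refl G).symm a⁻¹) (S.coeff j))
    S.coeff d hS3 (by ext1 a; simp [s5]) s5
  have cH := chain _ (fun j a => MvPolynomial.pderiv (π.symm a⁻¹) (T.coeff j))
    T.coeff d hT3 (by ext1 a; simp [t5]) t5
  rw [← hco' (d + 4) (by omega) (by omega), ← hco' (d + 3) (by omega) (by omega),
    ← hco' (d + 2) (by omega) (by omega), ← hco' (d + 1) (by omega) (by omega)] at cH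
  set MG := lm fun a => (MvPolynomial.X ((Equiv.refl G).symm a) : MvPolynomial G K) with hMG
  set MH := lm fun a => (MvPolynomial.X (π.symm a) : MvPolynomial G K) with hMH
  have all : ∀ g : G,
      (1 : Matrix G G (MvPolynomial G K)) g⁻¹ 1 = (1 : Matrix H H (MvPolynomial G K)) (π g)⁻¹ 1 ∧
      MG g⁻¹ 1 = MH (π g)⁻¹ 1 ∧ (MG ^ 2) g⁻¹ 1 = (MH ^ 2) (π g)⁻¹ 1 ∧
      (MG ^ 3) g⁻¹ 1 = (MH ^ 3) (π g)⁻¹ 1 := by
    intro g
    obtain ⟨a4, a3, a2, a1⟩ := cG g⁻¹
    obtain ⟨b4, b3, b2, b1⟩ := cH (π g)⁻¹
    simp only [inv_inv, Equiv.symm_apply_apply, Equiv.refl_symm, Equiv.refl_apply]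
      at a4 a3 a2 a1 b4 b3 b2 b1
    have e0 := a4.symm.trans b4
    have e1 := a3.symm.trans b3
    have e2 := a2.symm.trans b2
    have e3 := a1.symm.trans b1
    rw [e0, add_left_inj] at e1
    rw [e0, e1, add_left_inj, add_left_inj] at e2
    rw [e0, e1, e2, add_left_inj, add_left_inj, add_left_inj] at e3
    exact ⟨e0, e1, e2, e3⟩
  have hinv : ∀ g, π g⁻¹ = (π g)⁻¹ := fun g => by
    have := (all g).2.1
    simp only [hMG, hMH, lm_apply, inv_one, mul_one, Equiv.refl_symm, Equiv.refl_apply] at this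
    rw [MvPolynomial.X_injective this, Equiv.apply_symm_apply]
  have pw : ∀ k : ℕ, (∀ g : G, (MG ^ k) g⁻¹ 1 = (MH ^ k) (π g)⁻¹ 1) → ∀ g h a : G,
      ((lm (Pi.single g (1 : K[X])) + (X : K[X]) • lm (Pi.single h 1)) ^ k : Matrix G G K[X]) a 1 =
      ((lm (Pi.single (π g) (1 : K[X])) + (X : K[X]) • lm (Pi.single (π h) 1)) ^ k :
        Matrix H H K[X]) (π a) 1 := by
    intro k hk g h a
    let φ := MvPolynomial.aeval (R := K) (Pi.single g (1 : K[X]) + Pi.single h X : G → K[X])
    have e1 := spec_lm (K := K) (Equiv.refl G) g h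
    have e2 := spec_lm (K := K) π g h
    have e3 := congrArg φ (hk a⁻¹)
    rw [hinv, inv_inv, inv_inv] at e3
    have m1 : (MG ^ k).map φ = (MG.map φ) ^ k := map_pow (AlgHom.mapMatrix (m := G) φ) MG k
    have m2 : (MH ^ k).map φ = (MH.map φ) ^ k := map_pow (AlgHom.mapMatrix (m := H) φ) MH k
    rw [e1] at m1
    rw [e2] at m2
    exact (congrFun (congrFun m1 a) 1).symm.trans (e3.trans (congrFun (congrFun m2 (π a)) 1))
  have p2 := pw 2 fun g => (all g).2.2.1
  have p3 := pw 3 fun g => (all g).2.2.2
  have hsq : ∀ g, π (g * g) = π g * π g := fun g => by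
    have e := p2 g g (g * g)
    rw [sq_exp, sq_exp] at e
    have := congrArg (fun p : K[X] => p.coeff 0) e
    simp only [Matrix.add_apply, Matrix.smul_apply, ent, smul_eq_mul, coeff_add,
      coeff_C_zero, pow_two, mul_assoc, mul_coeff_zero,
      coeff_X_zero, zero_mul, add_zero, if_true] at this
    by_contra hne
    rw [if_neg hne] at this
    exact one_ne_zero this
  have hJ : ∀ g h a : G, (if a = g * h then (1 : K) else 0) + (if a = h * g then 1 else 0) =
      (if π a = π g * π h then 1 else 0) + (if π a = π h * π g then 1 else 0) := fun g h a => by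
    have e := p2 g h a
    rw [sq_exp, sq_exp] at e
    have := congrArg (fun p : K[X] => p.coeff 1) e
    simp only [Matrix.add_apply, Matrix.smul_apply, ent, smul_eq_mul, coeff_add,
      coeff_X_mul, coeff_C_zero, coeff_C_succ, pow_two, mul_assoc, mul_coeff_zero,
      coeff_X_zero, zero_mul, zero_add, add_zero] at this
    exact this
  have hC : ∀ g h a : G, (if a = g * g * h then (1 : K) else 0) +
      (if a = g * h * g then 1 else 0) + (if a = h * g * g then 1 else 0) =
      (if π a = π g * π g * π h then 1 else 0) + (if π a = π g * π h * π g then 1 else 0) +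
      (if π a = π h * π g * π g then 1 else 0) := fun g h a => by
    have e := p3 g h a
    rw [cube_exp, cube_exp] at e
    have := congrArg (fun p : K[X] => p.coeff 1) e
    simp only [Matrix.add_apply, Matrix.smul_apply, ent, smul_eq_mul, coeff_add,
      coeff_X_mul, coeff_C_zero, coeff_C_succ, pow_succ, pow_zero, one_mul,
      mul_assoc (X : K[X]), mul_assoc (X * X : K[X]), mul_coeff_zero,
      coeff_X_zero, zero_mul, zero_add, add_zero] at this
    exact this
  have two : (1 : K) + 1 = 0 := CharTwo.add_self_eq_zero 1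
  obtain ⟨k, hk⟩ : ∃ k : ℕ, (∀ g : G, (g * g) ^ k = g) ∧ ∀ g : H, (g * g) ^ k = g := by
    obtain ⟨k, hk⟩ := hodd
    refine ⟨k + 1, fun g => ?_, fun g => ?_⟩
    · rw [← pow_two, ← pow_mul, show 2 * (k + 1) = Fintype.card G + 1 by omega, pow_succ,
        pow_card_eq_one, one_mul]
    · rw [← pow_two, ← pow_mul, show 2 * (k + 1) = Fintype.card H + 1 by omega, pow_succ,
        pow_card_eq_one, one_mul]
  refine half_iso π k hk.1 hk.2 hinv hsq (fun g h => ?_) (fun g h => ⟨fun h1 => ?_, fun h1 => ?_⟩)
    (fun g h h1 => ?_)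
  · have e1 := hC g h (g * h * g)
    have e2 := hJ (g * g) h (g * h * g)
    rw [hsq, ← mul_assoc h, ← mul_assoc (π h)] at e2
    rw [if_pos rfl] at e1
    by_contra hne
    rw [if_neg hne] at e1
    exact one_ne_zero (α := K) (by linear_combination e1 - e2)
  · have e := hJ g h (π.symm (π g * π h))
    rw [h1, CharTwo.add_self_eq_zero, Equiv.apply_symm_apply, if_pos rfl] at e
    by_contra hne
    rw [if_neg hne, add_zero] at e
    exact zero_ne_one e
  · have e := hJ g h (g * h)
    rw [h1, CharTwo.add_self_eq_zero, if_pos rfl] at e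
    by_contra hne
    rw [if_neg hne, add_zero] at e
    exact one_ne_zero e
  · have e := hJ g h (g * h)
    rw [if_pos rfl, if_neg h1, add_zero] at e
    by_contra hne
    rw [not_or] at hne
    rw [if_neg hne.1, if_neg hne.2, add_zero] at e
    exact one_ne_zero e

omit [CharP K 2] [DecidableEq I] in
theorem minpoly_eq (π : I ≃ H) :
    minpoly (FractionRing (MvPolynomial I K))
      (∑ g : I, (algebraMap (MvPolynomial I K) (FractionRing (MvPolynomial I K))
        (MvPolynomial.X g)) • MonoidAlgebra.single (π g) (1 : FractionRing (MvPolynomial I K))) =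
    minpoly (FractionRing (MvPolynomial I K))
      ((lm fun a => (MvPolynomial.X (π.symm a) : MvPolynomial I K)).map
        (algebraMap _ (FractionRing (MvPolynomial I K)))) := by
  rw [← minpoly.algHom_eq _ (Algebra.leftMulMatrix_injective
    (MonoidAlgebra.basis H (FractionRing (MvPolynomial I K))))]
  congr 1
  ext a b
  rw [Algebra.leftMulMatrix_eq_repr_mul, MonoidAlgebra.basis_apply, Matrix.map_apply, lm_apply]
  have hr : ∀ y : MonoidAlgebra (FractionRing (MvPolynomial I K)) H,
      (MonoidAlgebra.basis H (FractionRing (MvPolynomial I K))).repr y = y.coeff := fun _ => rfl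
  rw [hr, MonoidAlgebra.coeff_mul_single_apply, mul_one, ← π.symm.sum_comp]
  simp [Finsupp.single_apply, Algebra.smul_def]

end Pool.Agent.Lib.helper27.GenMin2
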