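import Mathlib

set_option autoImplicit false

namespace Pool.Agent.Lib.helper27.GradedStandard

open scoped TensorProduct

section abstract
variable {R : Type} [Ring R]

theorem closure_mul {S T : Set R} {U : AddSubgroup R} (h : ∀ a ∈ S, ∀ b ∈ T, a * b ∈ U) :
    ∀ a ∈ AddSubgroup.closure S, ∀ b ∈ AddSubgroup.closure T, a * b ∈ U := by
  intro a ha b hb
  induction ha using AddSubgroup.closure_induction with
  | mem a ha =>
    induction hb using AddSubgroup.closure_induction with
    | mem b hb => exact h a ha b hb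
    | zero => simp
    | add x y _ _ hx hy => rw [mul_add]; exact U.add_mem hx hy
    | neg x _ hx => rw [mul_neg]; exact U.neg_mem hx
  | zero => simp
  | add x y _ _ hx hy => rw [add_mul]; exact U.add_mem hx hy
  | neg x _ hx => rw [neg_mul]; exact U.neg_mem hx

theorem closure_rel {S T : Set R} (ε : R) (h : ∀ a ∈ S, ∀ b ∈ T, a * b = ε * (b * a)) :
    ∀ a ∈ AddSubgroup.closure S, ∀ b ∈ AddSubgroup.closure T, a * b = ε * (b * a) := by
  intro a ha b hb
  induction ha using AddSubgroup.closure_induction with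
  | mem a ha =>
    induction hb using AddSubgroup.closure_induction with
    | mem b hb => exact h a ha b hb
    | zero => simp
    | add x y _ _ hx hy => rw [mul_add, add_mul, mul_add, hx, hy]
    | neg x _ hx => rw [mul_neg, neg_mul, mul_neg, hx]
  | zero => simp
  | add x y _ _ hx hy => rw [mul_add, add_mul, mul_add, hx, hy]
  | neg x _ hx => rw [mul_neg, neg_mul, mul_neg, hx]

theorem pow_eq_zero_super {p : ℕ} (hp : p.Prime) (hR : (p : R) = 0) (S T : Set R)
    (hSS : ∀ a ∈ S, ∀ b ∈ S, a * b = 1 * (b * a)) (hST : ∀ a ∈ S, ∀ b ∈ T, a * b = 1 * (b * a))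
    (hTT : ∀ a ∈ T, ∀ b ∈ T, a * b = (-1) * (b * a))
    (hS : ∀ a ∈ S, a * a = 0) (hT : ∀ a ∈ T, a * a = 0) :
    ∀ z ∈ AddSubgroup.closure (S ∪ T), z ^ p = 0 := by
  have sq : ∀ a : R, a * a = 0 → a ^ p = 0 := by
    intro a ha
    obtain ⟨k, hk⟩ := Nat.exists_eq_add_of_le hp.two_le
    rw [hk, pow_add, pow_two, ha, zero_mul]
  have add : ∀ a b : R, a * b = 1 * (b * a) → a ^ p = 0 → b ^ p = 0 → (a + b) ^ p = 0 := by
    intro a b hab ha hb
    have hc : Commute a b := by rw [one_mul] at hab; exact hab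
    obtain ⟨r, hr⟩ := hc.exists_add_pow_prime_eq hp
    rw [hr, ha, hb, hR]; simp
  have h0 : ∀ z ∈ AddSubgroup.closure S, z ^ p = 0 := by
    intro z hz
    induction hz using AddSubgroup.closure_induction with
    | mem a ha => exact sq a (hS a ha)
    | zero => exact zero_pow hp.ne_zero
    | add x y hx hy ix iy => exact add x y (closure_rel 1 hSS x hx y hy) ix iy
    | neg x _ ix => rw [neg_pow, ix, mul_zero]
  have h1 : ∀ z ∈ AddSubgroup.closure T, z * z = 0 := by
    intro z hz
    induction hz using AddSubgroup.closure_induction with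
    | mem a ha => exact hT a ha
    | zero => simp
    | add x y hx hy ix iy =>
      rw [add_mul, mul_add, mul_add, ix, iy, closure_rel (-1) hTT x hx y hy]; simp
    | neg x _ ix => rw [neg_mul_neg, ix]
  intro z hz
  rw [AddSubgroup.closure_union] at hz
  obtain ⟨a, ha, b, hb, rfl⟩ := AddSubgroup.mem_sup.mp hz
  exact add a b (closure_rel 1 hST a ha b hb) (h0 a ha) (sq b (h1 b hb))

variable {G : Type} [AddCommGroup G] [Fintype G] [DecidableEq G]

theorem pow_mem_H (H : ℕ → G → AddSubgroup R) (h1 : (1 : R) ∈ H 0 0)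
    (hm : ∀ m m' g g', ∀ a ∈ H m g, ∀ b ∈ H m' g', a * b ∈ H (m + m') (g + g'))
    (Y : Matrix G G R) (hY : ∀ g h, Y g h ∈ H 1 (h - g)) (m : ℕ) :
    ∀ g h, (Y ^ m) g h ∈ H m (h - g) := by
  induction m with
  | zero =>
    intro g h
    by_cases e : g = h
    · subst e; simpa using h1
    · simp [Matrix.one_apply_ne e]
  | succ m ih =>
    intro g h
    rw [pow_succ, Matrix.mul_apply]
    refine sum_mem fun k _ => ?_
    have := hm _ _ _ _ _ (ih g k) _ (hY k h)
    rwa [show k - g + (h - k) = h - g by abel] at this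

omit [AddCommGroup G] in
theorem pow_mem_D (D : ℕ → AddSubgroup R) (h1 : (1 : R) ∈ D 0)
    (hm : ∀ m m', ∀ a ∈ D m, ∀ b ∈ D m', a * b ∈ D (m + m'))
    (Y : Matrix G G R) (d : ℕ) (hY : ∀ g h, Y g h ∈ D d) (m : ℕ) :
    ∀ g h, (Y ^ m) g h ∈ D (m * d) := by
  induction m with
  | zero =>
    intro g h
    by_cases e : g = h
    · subst e; simpa using h1
    · simp [Matrix.one_apply_ne e]
  | succ m ih =>
    intro g h
    rw [pow_succ, Matrix.mul_apply]
    refine sum_mem fun k _ => ?_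
    have := hm _ _ _ (ih g k) _ (hY k h)
    rwa [show m * d + d = (m + 1) * d by ring] at this

theorem degree_bound {p N : ℕ} (H : ℕ → G → AddSubgroup R) (h1 : (1 : R) ∈ H 0 0)
    (hm : ∀ m m' g g', ∀ a ∈ H m g, ∀ b ∈ H m' g', a * b ∈ H (m + m') (g + g'))
    (hN : ∀ g, ∀ a ∈ H N g, a = 0) (Z : AddSubgroup R) (hZ : ∀ m, H (m + 1) 0 ≤ Z)
    (hp : ∀ z ∈ Z, z ^ p = 0)
    (D : ℕ → AddSubgroup R) (d1 : (1 : R) ∈ D 0)
    (dm : ∀ m m', ∀ a ∈ D m, ∀ b ∈ D m', a * b ∈ D (m + m')) (dmono : Monotone D)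
    (v : G) (Y : Matrix G G R) (hY : ∀ g h, Y g h ∈ H 1 (h - g))
    (dY : ∀ g h, Y g h ∈ D (if h = v then 1 else 0)) :
    (∀ g h, (∑ m ∈ Finset.range N, Y ^ m) g h ∈ D p) ∧
    (∀ h, (∑ m ∈ Finset.range N, Y ^ m) v h ∈ D (p - 1)) := by
  let Y0 : Matrix G G R := Matrix.of fun g h => if h = v then 0 else Y g h
  let Y1 : Matrix G G R := Matrix.of fun g h => if h = v then Y g h else 0
  have hsum : Y = Y0 + Y1 := by
    ext g h
    by_cases e : h = v <;> simp [Y0, Y1, e]
  have hY0 : ∀ g h, Y0 g h ∈ H 1 (h - g) := by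
    intro g h
    by_cases e : h = v
    · simp [Y0, e]
    · simpa [Y0, e] using hY g h
  have nil : ∀ X : Matrix G G R, (∀ g h, X g h ∈ H 1 (h - g)) → X ^ N = 0 := by
    intro X hX
    ext g h
    exact hN _ _ (pow_mem_H H h1 hm X hX N g h)
  let R0 : Matrix G G R := ∑ m ∈ Finset.range N, Y0 ^ m
  have e0 : (1 - Y0) * R0 = 1 := by
    rw [mul_neg_geom_sum, nil Y0 hY0, sub_zero]
  have e1 : (∑ m ∈ Finset.range N, Y ^ m) * (1 - Y) = 1 := by
    rw [geom_sum_mul_neg, nil Y hY, sub_zero]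
  let W : Matrix G G R := Y1 * R0
  have hW : ∀ g h, W g h = Y g v * R0 v h := by
    intro g h
    simp only [W, Matrix.mul_apply]
    rw [Finset.sum_eq_single v]
    · simp [Y1]
    · intro k _ hk; simp [Y1, hk]
    · simp
  let z : R := ∑ k, R0 v k * Y k v
  have hz : z ^ p = 0 := by
    apply hp
    refine sum_mem fun k _ => ?_
    simp only [R0, Matrix.sum_apply, Finset.sum_mul]
    refine sum_mem fun m _ => hZ m ?_
    have := hm _ _ _ _ _ (pow_mem_H H h1 hm Y0 hY0 m v k) _ (hY k v)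
    rwa [show k - v + (v - k) = 0 by abel] at this
  have key : ∀ j h, (R0 * W ^ j) v h = z ^ j * R0 v h := by
    intro j
    induction j with
    | zero => intro h; simp
    | succ j ih =>
      intro h
      rw [pow_succ, ← mul_assoc, Matrix.mul_apply]
      simp only [ih, hW]
      rw [pow_succ, mul_assoc, Finset.sum_mul, Finset.mul_sum]
      refine Finset.sum_congr rfl fun k _ => ?_
      simp only [mul_assoc]
  have Wnil : W ^ (p + 1) = 0 := by
    ext g h
    rw [pow_succ', Matrix.mul_apply]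
    simp only [hW, mul_assoc]
    rw [← Finset.mul_sum, ← Matrix.mul_apply, key, hz]
    simp
  have e2 : (1 - Y) * (R0 * ∑ j ∈ Finset.range (p + 1), W ^ j) = 1 := by
    have : (1 - Y) * R0 = 1 - W := by
      rw [hsum, ← sub_sub, sub_mul, e0]
    rw [← mul_assoc, this, mul_neg_geom_sum, Wnil, sub_zero]
  have e3 : (∑ m ∈ Finset.range N, Y ^ m) = ∑ j ∈ Finset.range (p + 1), R0 * W ^ j := by
    rw [← Finset.mul_sum]
    exact left_inv_eq_right_inv e1 e2
  have dR0 : ∀ g h, R0 g h ∈ D 0 := by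
    intro g h
    simp only [R0, Matrix.sum_apply]
    refine sum_mem fun m _ => ?_
    have := pow_mem_D D d1 dm Y0 0 (by
      intro g h
      by_cases e : h = v
      · simp [Y0, e]
      · simpa [Y0, e] using dY g h) m g h
    simpa using this
  have dW : ∀ j g h, (R0 * W ^ j) g h ∈ D j := by
    intro j g h
    rw [Matrix.mul_apply]
    refine sum_mem fun k _ => ?_
    have := dm _ _ _ (dR0 g k) _ (pow_mem_D D d1 dm W 1 (by
      intro g h
      rw [hW]
      have := dm _ _ _ (dY g v) _ (dR0 v h)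
      simpa using this) j k h)
    simpa using this
  rw [e3]
  constructor
  · intro g h
    rw [Matrix.sum_apply]
    refine sum_mem fun j hj => dmono ?_ (dW j g h)
    have := Finset.mem_range.mp hj
    omega
  · intro h
    rw [Matrix.sum_apply, Finset.sum_range_succ, key p, hz, zero_mul, add_zero]
    refine sum_mem fun j hj => dmono ?_ (dW j v h)
    have := Finset.mem_range.mp hj
    omega

end abstract

section ext
variable {F : Type} [Field F] {n : ℕ}

/-- exterior algebra on `n` generators -/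
abbrev E (F : Type) [Field F] (n : ℕ) : Type := ExteriorAlgebra F (Fin n → F)

/-- monomial in the generators -/
noncomputable def mon (F : Type) [Field F] {n : ℕ} (l : List (Fin n)) : E F n :=
  (l.map fun i => ExteriorAlgebra.ι F (Pi.single i (1 : F) : Fin n → F)).prod

theorem mon_nil : mon F ([] : List (Fin n)) = 1 := rfl

theorem mon_append (l l' : List (Fin n)) : mon F (l ++ l') = mon F l * mon F l' := by
  simp [mon]

theorem mon_cons (i : Fin n) (l : List (Fin n)) : mon F (i :: l) = mon F [i] * mon F l :=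
  mon_append [i] l

theorem mon_swap1 (i j : Fin n) : mon F [i] * mon F [j] = - (mon F [j] * mon F [i]) := by
  simp only [mon, List.map_cons, List.map_nil, List.prod_cons, List.prod_nil, mul_one]
  exact eq_neg_of_add_eq_zero_left (ExteriorAlgebra.ι_add_mul_swap _ _)

theorem mon_sq1 (i : Fin n) : mon F [i] * mon F [i] = 0 := by
  simp [mon]

theorem mon_swap2 (i : Fin n) (l : List (Fin n)) :
    mon F [i] * mon F l = (-1 : ℤ) ^ l.length • (mon F l * mon F [i]) := by
  induction l with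
  | nil => simp [mon_nil]
  | cons j l ih =>
    rw [mon_cons j l, ← mul_assoc, mon_swap1, neg_mul, mul_assoc, ih, mul_smul_comm,
      List.length_cons, pow_succ, mul_assoc]
    simp

theorem mon_swap (l l' : List (Fin n)) :
    mon F l * mon F l' = (-1 : ℤ) ^ (l.length * l'.length) • (mon F l' * mon F l) := by
  induction l with
  | nil => simp [mon_nil]
  | cons j l ih =>
    rw [mon_cons j l, mul_assoc, ih, mul_smul_comm, ← mul_assoc, mon_swap2 j l', smul_mul_assoc,
      smul_smul, List.length_cons, add_mul, one_mul, pow_add, mul_assoc]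

theorem mon_sq (l : List (Fin n)) (hl : l ≠ []) : mon F l * mon F l = 0 := by
  obtain ⟨i, l, rfl⟩ := List.exists_cons_of_ne_nil hl
  rw [mon_cons i l, mul_assoc, ← mul_assoc (mon F l), mon_swap l [i], smul_mul_assoc,
    mul_smul_comm, mul_assoc, ← mul_assoc, mon_sq1]
  simp

theorem mon_ofFn {m : ℕ} (τ : Fin m → Fin n) : mon F (List.ofFn τ) =
    ExteriorAlgebra.ιMulti F m fun j => (Pi.single (τ j) (1 : F) : Fin n → F) := by
  rw [ExteriorAlgebra.ιMulti_apply, mon, List.map_ofFn]; rfl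

theorem mon_ofFn_zero {m : ℕ} (τ : Fin m → Fin n) (h : ¬ Function.Injective τ) :
    mon F (List.ofFn τ) = 0 := by
  rw [mon_ofFn]
  apply AlternatingMap.map_eq_zero_of_not_injective
  intro hi
  exact h (Function.Injective.of_comp (f := fun i => (Pi.single i (1 : F) : Fin n → F)) hi)

theorem mon_long (l : List (Fin n)) (hl : l.length = n + 1) : mon F l = 0 := by
  rw [← List.ofFn_get l]
  apply mon_ofFn_zero
  intro hi
  have := Fintype.card_le_of_injective _ hi
  simp at this
  omega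

theorem exists_functional : ∃ φ : E F n →ₗ[F] F, ∀ σ : Equiv.Perm (Fin n),
    φ (mon F (List.ofFn σ)) = (((Equiv.Perm.sign σ : ℤˣ) : ℤ) : F) := by
  classical
  refine ⟨ExteriorAlgebra.liftAlternating (Function.update 0 n (Pi.basisFun F (Fin n)).det), ?_⟩
  intro σ
  rw [mon_ofFn, ExteriorAlgebra.liftAlternating_apply_ιMulti, Function.update_self]
  have : (fun j => (Pi.single (σ j) (1 : F) : Fin n → F)) = (Pi.basisFun F (Fin n)) ∘ σ := by
    funext j; simp
  rw [this, AlternatingMap.map_perm, Module.Basis.det_self]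
  simp [Units.smul_def]

end ext

section main
variable {F : Type} [Field F] {G : Type} [AddCommGroup G] [Fintype G] [DecidableEq G]
  {A : Type} [Ring A] [Algebra F A] (𝒜 : G → Submodule F A) [GradedAlgebra 𝒜] {n : ℕ}

omit [AddCommGroup G] [DecidableEq G] in
theorem coeff_zero_of {B : Type} [Ring B] {S : Set (AddMonoidAlgebra B (G → ℕ))}
    (P : (G → ℕ) → Prop) (hS : ∀ r ∈ S, ∃ c b, P c ∧ r = AddMonoidAlgebra.single c b) :
    ∀ r ∈ AddSubgroup.closure S, ∀ c, ¬ P c → r.coeff c = 0 := by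
  classical
  intro r hr c hc
  induction hr using AddSubgroup.closure_induction with
  | mem a ha =>
    obtain ⟨c', b, h1, rfl⟩ := hS a ha
    rw [AddMonoidAlgebra.coeff_single, Finsupp.single_apply, if_neg]
    rintro rfl
    exact hc h1
  | zero => rfl
  | add x y _ _ hx hy => rw [AddMonoidAlgebra.coeff_add, Finsupp.add_apply, hx, hy, add_zero]
  | neg x _ hx => rw [AddMonoidAlgebra.coeff_neg, Finsupp.neg_apply, hx, neg_zero]

theorem pow_zero_main {p : ℕ} (hp : p.Prime) (hF : (p : F) = 0)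
    (hc : ∀ a ∈ 𝒜 0, ∀ b ∈ 𝒜 0, a * b = b * a) (hn : n = Fintype.card G * p) (x : Fin n → A) :
    (∑ i, x i ⊗ₜ[F] mon F [i] : A ⊗[F] E F n) ^ n = 0 := by
  classical
  let B := A ⊗[F] E F n
  let R := AddMonoidAlgebra B (G → ℕ)
  let gen : ℕ → G → Set R := fun m g => {r | ∃ (c : G → ℕ) (a : A) (l : List (Fin n)),
    a ∈ 𝒜 g ∧ l.length = m ∧ ∑ k, c k = m ∧ r = AddMonoidAlgebra.single c (a ⊗ₜ[F] mon F l)}
  let H : ℕ → G → AddSubgroup R := fun m g => AddSubgroup.closure (gen m g)
  have h1 : (1 : R) ∈ H 0 0 :=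
    AddSubgroup.subset_closure ⟨0, 1, [], SetLike.one_mem_graded 𝒜, rfl, by simp, rfl⟩
  have hm : ∀ m m' g g', ∀ a ∈ H m g, ∀ b ∈ H m' g', a * b ∈ H (m + m') (g + g') := by
    intro m m' g g'
    apply closure_mul
    rintro _ ⟨c, a, l, a1, a2, a3, rfl⟩ _ ⟨c', a', l', b1, b2, b3, rfl⟩
    refine AddSubgroup.subset_closure ⟨c + c', a * a', l ++ l', SetLike.mul_mem_graded a1 b1,
      by simp [a2, b2], by simp [Finset.sum_add_distrib, a3, b3], ?_⟩
    rw [AddMonoidAlgebra.single_mul_single, Algebra.TensorProduct.tmul_mul_tmul, mon_append]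
  have hN : ∀ g, ∀ a ∈ H (n + 1) g, a = 0 := by
    intro g a ha
    have : H (n + 1) g ≤ ⊥ := by
      rw [AddSubgroup.closure_le]
      rintro _ ⟨c, a, l, -, a2, -, rfl⟩
      simp [mon_long l a2]
    exact AddSubgroup.mem_bot.mp (this ha)
  let gz : ℕ → Set R := fun e => {r | ∃ (c : G → ℕ) (a : A) (l : List (Fin n)),
    a ∈ 𝒜 0 ∧ l ≠ [] ∧ l.length % 2 = e ∧ r = AddMonoidAlgebra.single c (a ⊗ₜ[F] mon F l)}
  have rel : ∀ (c c' : G → ℕ) (a a' : A) (l l' : List (Fin n)), a ∈ 𝒜 0 → a' ∈ 𝒜 0 →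
      (AddMonoidAlgebra.single c (a ⊗ₜ[F] mon F l) : R) *
        AddMonoidAlgebra.single c' (a' ⊗ₜ[F] mon F l') =
      (-1 : ℤ) ^ (l.length * l'.length) • (AddMonoidAlgebra.single c' (a' ⊗ₜ[F] mon F l') *
        AddMonoidAlgebra.single c (a ⊗ₜ[F] mon F l)) := by
    intro c c' a a' l l' ha ha'
    rw [AddMonoidAlgebra.single_mul_single, AddMonoidAlgebra.single_mul_single,
      Algebra.TensorProduct.tmul_mul_tmul, Algebra.TensorProduct.tmul_mul_tmul, mon_swap l l',
      hc a ha a' ha', add_comm c c', TensorProduct.tmul_smul, AddMonoidAlgebra.smul_single]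
  have sq : ∀ e, ∀ a ∈ gz e, a * a = 0 := by
    rintro e _ ⟨c, a, l, -, a2, -, rfl⟩
    rw [AddMonoidAlgebra.single_mul_single, Algebra.TensorProduct.tmul_mul_tmul, mon_sq l a2]
    simp
  have hR : (p : R) = 0 := by
    have : (p : B) = 0 := by rw [← map_natCast (algebraMap F B), hF, map_zero]
    rw [← map_natCast (AddMonoidAlgebra.singleZeroRingHom : B →+* R), this, map_zero]
  have hZ := pow_eq_zero_super hp hR (gz 0) (gz 1)
    (by
      rintro _ ⟨c, a, l, a1, -, a3, rfl⟩ _ ⟨c', a', l', b1, -, -, rfl⟩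
      rw [rel c c' a a' l l' a1 b1, ((Nat.even_iff.mpr a3).mul_right _).neg_one_pow]
      rw [one_smul, one_mul])
    (by
      rintro _ ⟨c, a, l, a1, -, a3, rfl⟩ _ ⟨c', a', l', b1, -, -, rfl⟩
      rw [rel c c' a a' l l' a1 b1, ((Nat.even_iff.mpr a3).mul_right _).neg_one_pow]
      rw [one_smul, one_mul])
    (by
      rintro _ ⟨c, a, l, a1, -, a3, rfl⟩ _ ⟨c', a', l', b1, -, b3, rfl⟩
      rw [rel c c' a a' l l' a1 b1,
        ((Nat.odd_iff.mpr a3).mul (Nat.odd_iff.mpr b3)).neg_one_pow]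
      rw [neg_smul, one_smul]
      exact (neg_one_mul (_ : R)).symm)
    (sq 0) (sq 1)
  have hHZ : ∀ m, H (m + 1) 0 ≤ AddSubgroup.closure (gz 0 ∪ gz 1) := by
    intro m
    apply AddSubgroup.closure_mono
    rintro _ ⟨c, a, l, a1, a2, -, rfl⟩
    have hl : l ≠ [] := by rintro rfl; simp at a2
    rcases Nat.mod_two_eq_zero_or_one l.length with e | e
    · exact Or.inl ⟨c, a, l, a1, hl, e, rfl⟩
    · exact Or.inr ⟨c, a, l, a1, hl, e, rfl⟩
  let y : G → B := fun g => ∑ i, (DirectSum.decompose 𝒜 (x i) g : A) ⊗ₜ[F] mon F [i]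
  let Y : Matrix G G R := Matrix.of fun g h => AddMonoidAlgebra.single (Pi.single h 1) (y (h - g))
  have hY : ∀ g h, Y g h ∈ H 1 (h - g) := by
    intro g h
    have : Y g h = ∑ i, AddMonoidAlgebra.single (Pi.single h 1)
        ((DirectSum.decompose 𝒜 (x i) (h - g) : A) ⊗ₜ[F] mon F [i]) :=
      map_sum (AddMonoidAlgebra.singleAddHom (Pi.single h 1 : G → ℕ)) _ _
    rw [this]
    exact sum_mem fun i _ => AddSubgroup.subset_closure
      ⟨_, _, [i], Subtype.coe_prop _, rfl, by simp, rfl⟩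
  let D : G → ℕ → AddSubgroup R := fun v j =>
    AddSubgroup.closure {r | ∃ c b, c v ≤ j ∧ r = AddMonoidAlgebra.single c b}
  have main := fun v => degree_bound (p := p) H h1 hm hN _ hHZ hZ (D v)
    (AddSubgroup.subset_closure ⟨0, 1, le_rfl, rfl⟩)
    (by
      intro m m'
      apply closure_mul
      rintro _ ⟨c, a, a1, rfl⟩ _ ⟨c', a', b1, rfl⟩
      exact AddSubgroup.subset_closure ⟨c + c', a * a', add_le_add a1 b1,
        AddMonoidAlgebra.single_mul_single _ _ _ _⟩)
    (by
      intro j j' hj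
      apply AddSubgroup.closure_mono
      rintro _ ⟨c, a, a1, rfl⟩
      exact ⟨c, a, a1.trans hj, rfl⟩) v Y hY
    (by
      intro g h
      refine AddSubgroup.subset_closure ⟨_, _, ?_, rfl⟩
      by_cases e : h = v
      · simp [e]
      · simp [e])
  have hH : ∀ m g h c, ∑ k, c k ≠ m → ((Y ^ m) g h).coeff c = 0 := by
    intro m g h c hc
    refine coeff_zero_of (fun c => ∑ k, c k = m) ?_ _ (pow_mem_H H h1 hm Y hY m g h) c hc
    rintro _ ⟨c, a, l, -, -, a3, rfl⟩
    exact ⟨c, _, a3, rfl⟩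
  have hYn : ∀ h, (Y ^ n) 0 h = 0 := by
    intro h
    ext c
    by_cases hcn : ∑ k, c k = n
    swap
    · exact hH n 0 h c hcn
    have e : ((∑ m ∈ Finset.range (n + 1), Y ^ m) 0 h).coeff c = ((Y ^ n) 0 h).coeff c := by
      rw [Matrix.sum_apply, AddMonoidAlgebra.coeff_sum, Finsupp.finsetSum_apply,
        Finset.sum_range_succ, Finset.sum_eq_zero, zero_add]
      intro m hm
      apply hH
      have := Finset.mem_range.mp hm
      omega
    rw [← e]
    by_contra hne
    have b1 : ∀ v, c v ≤ p := by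
      intro v
      by_contra hv
      exact hne (coeff_zero_of (fun c => c v ≤ p) (fun r hr => hr) _ ((main v).1 0 h) c hv)
    have b2 : c 0 ≤ p - 1 := by
      by_contra hv
      exact hne (coeff_zero_of (fun c => c 0 ≤ p - 1) (fun r hr => hr) _ ((main 0).2 h) c hv)
    have b3 : ∑ k, c k < ∑ _k : G, p :=
      Finset.sum_lt_sum (fun v _ => b1 v) ⟨0, Finset.mem_univ _, by have := hp.pos; omega⟩
    simp only [Finset.sum_const, Finset.card_univ, smul_eq_mul] at b3
    omega
  let ev : R →+* B := AddMonoidAlgebra.liftNCRingHom (RingHom.id B) 1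
    (fun _ _ => Commute.one_right _)
  have row : ∀ m g, ∑ h, ev ((Y ^ m) g h) = (∑ g, y g) ^ m := by
    intro m
    induction m with
    | zero =>
      intro g
      rw [Finset.sum_eq_single g]
      · simp
      · intro k _ hk
        simp [Matrix.one_apply_ne (Ne.symm hk)]
      · simp
    | succ m ih =>
      intro g
      simp only [pow_succ, Matrix.mul_apply, map_sum, map_mul]
      rw [Finset.sum_comm, ← ih g, Finset.sum_mul]
      refine Finset.sum_congr rfl fun k _ => ?_
      rw [← Finset.mul_sum]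
      congr 1
      rw [← Equiv.sum_comp (Equiv.subRight k) y]
      refine Finset.sum_congr rfl fun h _ => ?_
      exact (AddMonoidAlgebra.liftNCRingHom_single _ _ _ _ _).trans (mul_one _)
  have fin := row n 0
  simp only [hYn, map_zero, Finset.sum_const_zero] at fin
  have ey : ∑ g, y g = ∑ i, x i ⊗ₜ[F] mon F [i] := by
    rw [Finset.sum_comm]
    refine Finset.sum_congr rfl fun i _ => ?_
    rw [← TensorProduct.sum_tmul]
    congr 1
    conv_rhs => rw [← DirectSum.sum_support_decompose 𝒜 (x i)]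
    refine (Finset.sum_subset (Finset.subset_univ _) fun g _ hg => ?_).symm
    simpa using hg
  rw [← ey, ← fin]

theorem prod_tmul (x : Fin n → A) (l : List (Fin n)) :
    (l.map fun i => (x i ⊗ₜ[F] mon F [i] : A ⊗[F] E F n)).prod =
      (l.map x).prod ⊗ₜ[F] mon F l := by
  induction l with
  | nil => rfl
  | cons i l ih =>
    rw [List.map_cons, List.prod_cons, ih, Algebra.TensorProduct.tmul_mul_tmul, ← mon_cons,
      List.map_cons, List.prod_cons]

theorem standard_of_pow (x : Fin n → A)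
    (h : (∑ i, x i ⊗ₜ[F] mon F [i] : A ⊗[F] E F n) ^ n = 0) :
    ∑ σ : Equiv.Perm (Fin n),
      ((Equiv.Perm.sign σ : ℤˣ) : ℤ) • (List.ofFn (fun i => x (σ i))).prod = 0 := by
  classical
  obtain ⟨φ, hφ⟩ := exists_functional (F := F) (n := n)
  let Φ : A ⊗[F] E F n →ₗ[F] A := (TensorProduct.rid F A).toLinearMap ∘ₗ φ.lTensor A
  have hΦ : ∀ a e, Φ (a ⊗ₜ[F] e) = φ e • a := fun a e => by simp [Φ]
  rw [← MultilinearMap.mkPiAlgebraFin_apply_const (R := F), MultilinearMap.map_sum] at h
  have h2 := congrArg Φ h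
  rw [map_sum, map_zero] at h2
  rw [← h2]
  have term : ∀ τ : Fin n → Fin n, Φ (MultilinearMap.mkPiAlgebraFin F n (A ⊗[F] E F n)
      fun j => x (τ j) ⊗ₜ[F] mon F [τ j]) =
      φ (mon F (List.ofFn τ)) • (List.ofFn (fun i => x (τ i))).prod := by
    intro τ
    rw [MultilinearMap.mkPiAlgebraFin_apply, ← hΦ]
    have := prod_tmul (F := F) x (List.ofFn τ)
    rw [List.map_ofFn, List.map_ofFn] at this
    exact congrArg Φ this
  simp only [term]
  refine Fintype.sum_of_injective (fun σ : Equiv.Perm (Fin n) => (σ : Fin n → Fin n))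
    (fun _ _ e => Equiv.ext (congrFun e)) _ _ ?_ ?_
  · intro τ hτ
    rw [mon_ofFn_zero τ, map_zero, zero_smul]
    intro hi
    exact hτ ⟨Equiv.ofBijective τ (Finite.injective_iff_bijective.mp hi), rfl⟩
  · intro σ
    rw [hφ, Int.cast_smul_eq_zsmul]

end main

end Pool.Agent.Lib.helper27.GradedStandard
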