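import Mathlib

namespace Pool.Agent.Lib.helper27.GrassLin

open Polynomial

variable {F : Type*} [Field F]

theorem inter {X Y : Type*} [AddCommGroup X] [Module F X] [AddCommGroup Y] [Module F Y]
    (h2 : (2 : F) ≠ 0) (A : Module.End F X) (B : Module.End F Y)
    (hA : IsNilpotent (A - 1)) (hB : IsNilpotent (B - 1)) (T : X →ₗ[F] Y)
    (h : ∀ x, T (A (A x)) = B (B (T x))) : ∀ x, T (A x) = B (T x) := by
  let L : Module.End F (X →ₗ[F] Y) := LinearMap.llcomp F X Y Y (B - 1)
  let R : Module.End F (X →ₗ[F] Y) := LinearMap.lcomp F Y (A - 1)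
  have hL : ∀ (n : ℕ) (S : X →ₗ[F] Y) (x : X), (L ^ n) S x = ((B - 1) ^ n) (S x) := by
    intro n
    induction n with
    | zero => intro S x; simp
    | succ n ih =>
      intro S x
      rw [pow_succ, pow_succ, Module.End.mul_apply, Module.End.mul_apply, ih]
      rfl
  have hR : ∀ (n : ℕ) (S : X →ₗ[F] Y) (x : X), (R ^ n) S x = S (((A - 1) ^ n) x) := by
    intro n
    induction n with
    | zero => intro S x; simp
    | succ n ih =>
      intro S x
      rw [pow_succ, pow_succ', Module.End.mul_apply, Module.End.mul_apply, ih]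
      rfl
  have nL : IsNilpotent L := by
    obtain ⟨n, hn⟩ := hB
    refine ⟨n, ?_⟩
    ext S x
    rw [hL, hn]; simp
  have nR : IsNilpotent R := by
    obtain ⟨n, hn⟩ := hA
    refine ⟨n, ?_⟩
    ext S x
    rw [hR, hn]; simp
  have hc : Commute L R := by
    ext S x
    rfl
  obtain ⟨n, hn⟩ := hc.isNilpotent_add nL nR
  let S : X →ₗ[F] Y := T ∘ₗ A - B ∘ₗ T
  have hS : (L + R) S = (-2 : F) • S := by
    ext x
    have e1 : L S x = B (S x) - S x := rfl
    have e2 : R S x = S (A x - x) := rfl
    have e3 : ∀ y, S y = T (A y) - B (T y) := fun y => rfl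
    rw [LinearMap.add_apply, LinearMap.add_apply, e1, e2, LinearMap.smul_apply, map_sub,
      e3 (A x), h x, e3 x, map_sub]
    rw [neg_smul, two_smul]
    abel
  have hk : ∀ k : ℕ, ((L + R) ^ k) S = (-2 : F) ^ k • S := by
    intro k
    induction k with
    | zero => simp
    | succ k ih =>
      rw [pow_succ', Module.End.mul_apply, ih, map_smul, hS, smul_smul, pow_succ]
  have h0 := hk n
  rw [hn, LinearMap.zero_apply] at h0
  have hne : (-2 : F) ^ n ≠ 0 := pow_ne_zero _ (neg_ne_zero.mpr h2)
  have hS0 : S = 0 := (smul_eq_zero.mp h0.symm).resolve_left hne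
  intro x
  have : S x = 0 := by rw [hS0]; rfl
  exact sub_eq_zero.mp this

theorem poly_sqrt (h2 : (2 : F) ≠ 0) (k : ℕ) :
    ∃ p q : F[X], (1 + X * p) ^ 2 = 1 + X + X ^ (k + 1) * q := by
  induction k with
  | zero => exact ⟨0, -1, by ring⟩
  | succ k ih =>
    obtain ⟨p, q, h⟩ := ih
    have hc : (C (2⁻¹ : F)) * 2 = 1 := by
      have : (2 : F[X]) = C (2 : F) := rfl
      rw [this, ← C_mul, inv_mul_cancel₀ h2, C_1]
    refine ⟨p - C 2⁻¹ * X ^ k * q, -(q * p) + X ^ k * (C 2⁻¹ * q) ^ 2, ?_⟩
    linear_combination h - (X ^ (k + 1) * q * (1 + X * p)) * hc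

theorem exists_sqrt {R : Type*} [Ring R] [Algebra F R] (h2 : (2 : F) ≠ 0) (n : R)
    (hn : IsNilpotent (n - 1)) : ∃ r : R, r * r = n ∧ IsNilpotent (r - 1) := by
  obtain ⟨k, hk⟩ := hn
  obtain ⟨p, q, h⟩ := poly_sqrt h2 k
  refine ⟨aeval (n - 1) (1 + X * p), ?_, ?_⟩
  · rw [← map_mul, ← pow_two, h]
    simp [pow_succ, hk]
  · have e : aeval (n - 1) (1 + X * p) - 1 = aeval (n - 1) (X * p) := by simp
    rw [e]
    refine ⟨k, ?_⟩
    rw [← map_pow, mul_pow, map_mul]
    simp [hk]

/-- square root of a unipotent algebra endomorphism -/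
theorem alg_sqrt {D : Type*} [Ring D] [Algebra F D] (h2 : (2 : F) ≠ 0) (n : D →ₐ[F] D)
    (hn : IsNilpotent ((n.toLinearMap : Module.End F D) - 1)) :
    ∃ r : D ≃ₐ[F] D, (∀ x, r (r x) = n x) ∧
      IsNilpotent ((r.toLinearMap : Module.End F D) - 1) ∧
      IsNilpotent ((r.symm.toLinearMap : Module.End F D) - 1) := by
  obtain ⟨r, hr, hn'⟩ := exists_sqrt h2 (n.toLinearMap : Module.End F D) hn
  have hrr : ∀ x, r (r x) = n x := fun x => by
    have := congrArg (fun f : Module.End F D => f x) hr
    simpa using this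
  have h1 : r 1 = 1 := by
    have := inter h2 (1 : Module.End F F) r (by simp) hn' (LinearMap.toSpanSingleton F D 1)
      (fun x => by simp [hrr]) 1
    simpa using this.symm
  have hA : IsNilpotent ((TensorProduct.map r r : Module.End F (TensorProduct F D D)) - 1) := by
    have e : (TensorProduct.map r r : Module.End F (TensorProduct F D D)) - 1 =
        TensorProduct.map (r - 1) r + TensorProduct.map (1 : Module.End F D) (r - 1) := by
      ext x y
      simp [TensorProduct.sub_tmul, TensorProduct.tmul_sub]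
    rw [e]
    obtain ⟨k, hk⟩ := hn'
    refine Commute.isNilpotent_add ?_ ⟨k, ?_⟩ ⟨k, ?_⟩
    · ext x y
      simp
    · rw [TensorProduct.map_pow, hk]; simp
    · rw [TensorProduct.map_pow, hk]; simp
  have hmul : ∀ x y, r (x * y) = r x * r y := by
    intro x y
    have := inter h2 _ r hA hn' (LinearMap.mul' F D) (fun z => by
      induction z using TensorProduct.induction_on with
      | zero => simp
      | tmul a b => simp [hrr]
      | add a b ha hb => simp only [map_add, ha, hb]) (x ⊗ₜ y)
    simpa using this.symm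
  have hu : IsUnit r := by
    have := hn'.isUnit_one_add
    simpa using this
  have hb : Function.Bijective r := (Module.End.isUnit_iff r).mp hu
  let r0 : D →ₐ[F] D := AlgHom.ofLinearMap r h1 hmul
  let r1 : D ≃ₐ[F] D := AlgEquiv.ofBijective r0 hb
  have e1 : (r1.toLinearMap : Module.End F D) = r := rfl
  refine ⟨r1, hrr, hn', ?_⟩
  have e2 : (r1.symm.toLinearMap : Module.End F D) - 1 =
      -((r1.symm.toLinearMap : Module.End F D) * (r - 1)) := by
    ext x
    have : r1.symm (r x) = x := r1.symm_apply_apply x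
    simp [this]
  rw [e2]
  refine IsNilpotent.neg (Commute.isNilpotent_mul_left ?_ hn')
  ext x
  have a1 : r1.symm (r x) = x := r1.symm_apply_apply x
  have a2 : r (r1.symm x) = x := r1.apply_symm_apply x
  simp [a1, a2]

theorem bij_of_nil {D : Type*} [Ring D] [Algebra F D] (n : D →ₐ[F] D)
    (hn : IsNilpotent ((n.toLinearMap : Module.End F D) - 1)) : Function.Bijective n := by
  have hu : IsUnit (n.toLinearMap : Module.End F D) := by
    have := hn.isUnit_one_add
    simpa using this
  exact (Module.End.isUnit_iff _).mp hu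

end Pool.Agent.Lib.helper27.GrassLin
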