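import Mathlib
import Pool.Agent.Lib.helper27.GrassLin

namespace Pool.Agent.Lib.helper27.GrassBasic

open ExteriorAlgebra Module

variable {F : Type*} [Field F] {V : Type*} [AddCommGroup V] [Module F V]
  {V' : Type*} [AddCommGroup V'] [Module F V'] {V'' : Type*} [AddCommGroup V''] [Module F V'']

/-- parity automorphism -/
noncomputable def par : ExteriorAlgebra F V →ₐ[F] ExteriorAlgebra F V := CliffordAlgebra.involute

@[simp] theorem par_ι (v : V) : par (ι F v) = -ι F v := CliffordAlgebra.involute_ι v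

@[simp] theorem par_par (x : ExteriorAlgebra F V) : par (par x) = x :=
  CliffordAlgebra.involute_involute x

theorem ι_mul (v : V) (x : ExteriorAlgebra F V) : ι F v * x = par x * ι F v := by
  induction x using ExteriorAlgebra.induction with
  | algebraMap r => rw [AlgHom.commutes, Algebra.commutes]
  | ι w =>
    rw [par_ι, neg_mul]
    exact eq_neg_of_add_eq_zero_left (ι_add_mul_swap v w)
  | mul a b ha hb => rw [← mul_assoc, ha, mul_assoc, hb, map_mul, mul_assoc]
  | add a b ha hb => rw [mul_add, ha, hb, map_add, add_mul]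

theorem mul_ι (v : V) (x : ExteriorAlgebra F V) : x * ι F v = ι F v * par x := by
  rw [ι_mul, par_par]

theorem even_comm {x : ExteriorAlgebra F V} (hx : par x = x) (y : ExteriorAlgebra F V) :
    y * x = x * y := by
  induction y using ExteriorAlgebra.induction with
  | algebraMap r => rw [Algebra.commutes]
  | ι w => rw [ι_mul, hx]
  | mul a b ha hb => rw [mul_assoc, hb, ← mul_assoc, ha, mul_assoc]
  | add a b ha hb => rw [mul_add, add_mul, ha, hb]

theorem odd_comm {x : ExteriorAlgebra F V} (hx : par x = -x) (y : ExteriorAlgebra F V) :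
    y * x = x * par y := by
  induction y using ExteriorAlgebra.induction with
  | algebraMap r => rw [AlgHom.commutes, Algebra.commutes]
  | ι w => rw [ι_mul, hx, par_ι, neg_mul, mul_neg]
  | mul a b ha hb => rw [mul_assoc, hb, ← mul_assoc, ha, mul_assoc, map_mul]
  | add a b ha hb => rw [map_add, mul_add, add_mul, ha, hb]

theorem eq_zero_of_eq_neg {X : Type*} [AddCommGroup X] [Module F X] (h2 : (2 : F) ≠ 0) {x : X}
    (h : x = -x) : x = 0 := by
  have : (2 : F) • x = 0 := by
    rw [two_smul]; nth_rewrite 1 [h]; exact neg_add_cancel x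
  exact (smul_eq_zero.mp this).resolve_left h2

theorem odd_sq (h2 : (2 : F) ≠ 0) {x : ExteriorAlgebra F V} (hx : par x = -x) : x * x = 0 := by
  have := odd_comm hx x
  rw [hx, mul_neg] at this
  exact eq_zero_of_eq_neg h2 this

/-- parity preserving homomorphisms -/
def Par (α : ExteriorAlgebra F V →ₐ[F] ExteriorAlgebra F V') : Prop :=
  ∀ x, α (par x) = par (α x)

theorem Par.odd {α : ExteriorAlgebra F V →ₐ[F] ExteriorAlgebra F V'} (h : Par α)
    {x : ExteriorAlgebra F V} (hx : par x = -x) : par (α x) = -α x := by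
  rw [← h, hx, map_neg]

theorem Par.comp {α : ExteriorAlgebra F V' →ₐ[F] ExteriorAlgebra F V''}
    {β : ExteriorAlgebra F V →ₐ[F] ExteriorAlgebra F V'} (h : Par α) (h' : Par β) :
    Par (α.comp β) := fun x => by
  rw [AlgHom.comp_apply, AlgHom.comp_apply, h', h]

theorem par_id : Par (AlgHom.id F (ExteriorAlgebra F V)) := fun _ => rfl

theorem par_of_ι {α : ExteriorAlgebra F V →ₐ[F] ExteriorAlgebra F V'}
    (h : ∀ v, par (α (ι F v)) = -α (ι F v)) : Par α := by
  have : α.comp par = par.comp α := by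
    ext v
    simp [h]
  exact fun x => AlgHom.congr_fun this x

section basis

variable {I : Type*}

/-- generators attached to a basis -/
noncomputable def e (b : Basis I F V) (i : I) : ExteriorAlgebra F V := ι F (b i)

theorem par_e (b : Basis I F V) (i : I) : par (e b i) = -e b i := par_ι _

theorem hom_ext_b {A : Type*} [Ring A] [Algebra F A] (b : Basis I F V)
    {f g : ExteriorAlgebra F V →ₐ[F] A} (h : ∀ i, f (e b i) = g (e b i)) : f = g := by
  apply ExteriorAlgebra.hom_ext
  apply b.ext
  intro i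
  exact h i

theorem par_of_e (b : Basis I F V) {α : ExteriorAlgebra F V →ₐ[F] ExteriorAlgebra F V'}
    (h : ∀ i, par (α (e b i)) = -α (e b i)) : Par α := by
  have : α.comp par = par.comp α := by
    apply hom_ext_b b
    intro i
    simp [h, par_e]
  exact fun x => AlgHom.congr_fun this x

theorem constr_odd (b : Basis I F V) (w : I → ExteriorAlgebra F V')
    (hw : ∀ i, par (w i) = -w i) (v : V) : par (b.constr F w v) = -b.constr F w v := by
  have : (par (F := F) (V := V')).toLinearMap ∘ₗ b.constr F w = -b.constr F w := by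
    apply b.ext
    intro i
    simp [hw]
  exact LinearMap.congr_fun this v

/-- the homomorphism sending the generators to a given odd family -/
noncomputable def mk (h2 : (2 : F) ≠ 0) (b : Basis I F V) (w : I → ExteriorAlgebra F V')
    (hw : ∀ i, par (w i) = -w i) : ExteriorAlgebra F V →ₐ[F] ExteriorAlgebra F V' :=
  ExteriorAlgebra.lift F ⟨b.constr F w, fun v => odd_sq h2 (constr_odd b w hw v)⟩

theorem mk_e (h2 : (2 : F) ≠ 0) (b : Basis I F V) (w : I → ExteriorAlgebra F V')
    (hw : ∀ i, par (w i) = -w i) (i : I) : mk h2 b w hw (e b i) = w i := by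
  unfold mk e
  rw [lift_ι_apply]
  simp

theorem exists_hom (h2 : (2 : F) ≠ 0) (b : Basis I F V) (w : I → ExteriorAlgebra F V')
    (hw : ∀ i, par (w i) = -w i) :
    ∃ α : ExteriorAlgebra F V →ₐ[F] ExteriorAlgebra F V', Par α ∧ ∀ i, α (e b i) = w i :=
  ⟨mk h2 b w hw, par_of_e b (fun i => by rw [mk_e, hw]), mk_e h2 b w hw⟩

end basis

/-- filtration attached to a subspace -/
noncomputable def Fil (W : Submodule F V) : ℕ → Submodule F (ExteriorAlgebra F V)
  | 0 => ⊤
  | p + 1 => W.map (ι F) * Fil W p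

theorem Fil_succ (W : Submodule F V) (p : ℕ) : Fil W (p + 1) = W.map (ι F) * Fil W p := rfl

theorem mem_Fil_succ {W : Submodule F V} {p : ℕ} {w : V} (hw : w ∈ W) {y : ExteriorAlgebra F V}
    (hy : y ∈ Fil W p) : ι F w * y ∈ Fil W (p + 1) :=
  Submodule.mul_mem_mul (Submodule.mem_map_of_mem hw) hy

theorem Fil_ind {W : Submodule F V} {p : ℕ} {C : ExteriorAlgebra F V → Prop}
    (hm : ∀ w ∈ W, ∀ y ∈ Fil W p, C (ι F w * y)) (ha : ∀ x y, C x → C y → C (x + y))
    {x : ExteriorAlgebra F V} (hx : x ∈ Fil W (p + 1)) : C x := by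
  refine Submodule.mul_induction_on hx ?_ ha
  rintro _ ⟨w, hw, rfl⟩ y hy
  exact hm w hw y hy

theorem Fil_left {W : Submodule F V} (p : ℕ) : ∀ (x y : ExteriorAlgebra F V),
    y ∈ Fil W p → x * y ∈ Fil W p := by
  induction p with
  | zero => intro x y _; exact Submodule.mem_top
  | succ p ih =>
    intro x y hy
    refine Fil_ind (C := fun y => x * y ∈ Fil W (p + 1)) ?_ ?_ hy
    · intro w hw y hy
      rw [← mul_assoc, mul_ι, mul_assoc]
      exact mem_Fil_succ hw (ih _ _ hy)
    · intro a b ha hb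
      rw [mul_add]; exact add_mem ha hb

theorem Fil_mul {W : Submodule F V} (p q : ℕ) : ∀ (x y : ExteriorAlgebra F V),
    x ∈ Fil W p → y ∈ Fil W q → x * y ∈ Fil W (q + p) := by
  induction p with
  | zero => intro x y _ hy; exact Fil_left q x y hy
  | succ p ih =>
    intro x y hx hy
    refine Fil_ind (C := fun x => x * y ∈ Fil W (q + (p + 1))) ?_ ?_ hx
    · intro w hw z hz
      rw [mul_assoc]
      exact mem_Fil_succ hw (ih _ _ hz hy)
    · intro a b ha hb
      rw [add_mul]; exact add_mem ha hb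

theorem Fil_right {W : Submodule F V} (p : ℕ) (x y : ExteriorAlgebra F V)
    (hx : x ∈ Fil W p) : x * y ∈ Fil W p := by
  have := Fil_mul p 0 x y hx Submodule.mem_top
  rwa [zero_add] at this

theorem Fil_succ_le {W : Submodule F V} (p : ℕ) : Fil W (p + 1) ≤ Fil W p := by
  intro x hx
  refine Fil_ind (C := fun x => x ∈ Fil W p) ?_ ?_ hx
  · intro w _ y hy; exact Fil_left p _ _ hy
  · intro a b ha hb; exact add_mem ha hb

theorem Fil_mono {W W' : Submodule F V} (h : W ≤ W') (p : ℕ) : Fil W p ≤ Fil W' p := by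
  induction p with
  | zero => exact le_rfl
  | succ p ih => exact mul_le_mul' (Submodule.map_mono h) ih

theorem Fil_insert (T : Set V) (t : V) (p : ℕ) : ∀ x ∈ Fil (Submodule.span F (insert t T)) (p + 1),
    ∃ y ∈ Fil (Submodule.span F T) (p + 1), ∃ z ∈ Fil (Submodule.span F T) p,
      x = y + ι F t * z := by
  induction p with
  | zero =>
    intro x hx
    refine Fil_ind (C := fun x => ∃ y ∈ Fil (Submodule.span F T) (0 + 1),
      ∃ z ∈ Fil (Submodule.span F T) 0, x = y + ι F t * z) ?_ ?_ hx
    · intro w hw y _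
      obtain ⟨c, u, hu, rfl⟩ := Submodule.mem_span_insert.mp hw
      refine ⟨ι F u * y, mem_Fil_succ hu Submodule.mem_top, c • y, Submodule.mem_top, ?_⟩
      rw [map_add, map_smul, add_mul, smul_mul_assoc, mul_smul_comm, add_comm]
    · rintro a b ⟨y, hy, z, hz, rfl⟩ ⟨y', hy', z', hz', rfl⟩
      exact ⟨y + y', add_mem hy hy', z + z', add_mem hz hz', by rw [mul_add]; abel⟩
  | succ p ih =>
    intro x hx
    refine Fil_ind (C := fun x => ∃ y ∈ Fil (Submodule.span F T) (p + 1 + 1),
      ∃ z ∈ Fil (Submodule.span F T) (p + 1), x = y + ι F t * z) ?_ ?_ hx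
    · intro w hw y0 hy0
      obtain ⟨c, u, hu, rfl⟩ := Submodule.mem_span_insert.mp hw
      obtain ⟨y, hy, z, hz, rfl⟩ := ih y0 hy0
      refine ⟨ι F u * y, mem_Fil_succ hu hy, c • y - ι F u * z,
        sub_mem (Submodule.smul_mem _ _ hy) (mem_Fil_succ hu hz), ?_⟩
      have h1 : ι F t * (ι F t * z) = 0 := by rw [← mul_assoc, ι_sq_zero, zero_mul]
      have h2 : ι F u * (ι F t * z) = -(ι F t * (ι F u * z)) := by
        rw [← mul_assoc, ← mul_assoc, ← neg_mul]
        congr 1
        exact eq_neg_of_add_eq_zero_left (ι_add_mul_swap u t)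
      rw [map_add, map_smul, add_mul, smul_mul_assoc, mul_add, mul_add, h1, h2, mul_sub,
        mul_smul_comm, add_zero]
      abel
    · rintro a b ⟨y, hy, z, hz, rfl⟩ ⟨y', hy', z', hz', rfl⟩
      exact ⟨y + y', add_mem hy hy', z + z', add_mem hz hz', by rw [mul_add]; abel⟩

theorem Fil_fin (T : Finset V) : ∃ p, Fil (Submodule.span F (T : Set V)) p = ⊥ := by
  classical
  induction T using Finset.induction_on with
  | empty =>
    refine ⟨1, ?_⟩
    rw [Fil_succ]; simp
  | insert t T _ ih =>
    obtain ⟨p, hp⟩ := ih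
    refine ⟨p + 1, ?_⟩
    rw [eq_bot_iff]
    intro x hx
    rw [Finset.coe_insert] at hx
    obtain ⟨y, hy, z, hz, rfl⟩ := Fil_insert _ _ _ x hx
    have hy' := Fil_succ_le p hy
    rw [hp, Submodule.mem_bot] at hy' hz
    rw [hy', hz]; simp

theorem Fil_top_fin (p : ℕ) : ∀ x ∈ Fil (⊤ : Submodule F V) p,
    ∃ T : Finset V, x ∈ Fil (Submodule.span F (T : Set V)) p := by
  classical
  induction p with
  | zero => intro x _; exact ⟨∅, Submodule.mem_top⟩
  | succ p ih =>
    intro x hx
    refine Fil_ind (C := fun x => ∃ T : Finset V,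
      x ∈ Fil (Submodule.span F (T : Set V)) (p + 1)) ?_ ?_ hx
    · intro w _ y hy
      obtain ⟨T, hT⟩ := ih y hy
      refine ⟨insert w T, mem_Fil_succ (Submodule.subset_span (by simp)) ?_⟩
      exact Fil_mono (Submodule.span_mono (by simp)) p hT
    · rintro a b ⟨T, hT⟩ ⟨T', hT'⟩
      refine ⟨T ∪ T', add_mem ?_ ?_⟩
      · exact Fil_mono (Submodule.span_mono (by simp)) _ hT
      · exact Fil_mono (Submodule.span_mono (by simp)) _ hT'

theorem sub_mem_Fil {W : Submodule F V} (p : ℕ) (n m : ExteriorAlgebra F V' →ₐ[F] ExteriorAlgebra F V)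
    (h : ∀ v, n (ι F v) - m (ι F v) ∈ Fil W p) (x : ExteriorAlgebra F V') :
    n x - m x ∈ Fil W p := by
  induction x using ExteriorAlgebra.induction with
  | algebraMap r => simp
  | ι w => exact h w
  | mul a b ha hb =>
    have : n (a * b) - m (a * b) = (n a - m a) * n b + m a * (n b - m b) := by
      rw [map_mul, map_mul, sub_mul, mul_sub]; abel
    rw [this]
    exact add_mem (Fil_right _ _ _ ha) (Fil_left _ _ _ hb)
  | add a b ha hb =>
    have : n (a + b) - m (a + b) = (n a - m a) + (n b - m b) := by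
      rw [map_add, map_add]; abel
    rw [this]
    exact add_mem ha hb

theorem sub_mem_Fil_b {I : Type*} (b : Basis I F V') {W : Submodule F V} (p : ℕ)
    (n m : ExteriorAlgebra F V' →ₐ[F] ExteriorAlgebra F V)
    (h : ∀ i, n (e b i) - m (e b i) ∈ Fil W p) (x : ExteriorAlgebra F V') :
    n x - m x ∈ Fil W p := by
  refine sub_mem_Fil p n m (fun v => ?_) x
  have : (⊤ : Submodule F V') ≤ (Fil W p).comap ((n.toLinearMap - m.toLinearMap) ∘ₗ ι F) := by
    rw [← b.span_eq, Submodule.span_le]
    rintro _ ⟨i, rfl⟩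
    exact h i
  exact this Submodule.mem_top

theorem nil_of_Fil {W : Submodule F V} (n : ExteriorAlgebra F V →ₐ[F] ExteriorAlgebra F V)
    (h : ∀ x, n x - x ∈ Fil W 2) (p : ℕ) : ∀ x ∈ Fil W p, n x - x ∈ Fil W (p + 1) := by
  induction p with
  | zero => intro x _; exact Fil_succ_le 1 (h x)
  | succ p ih =>
    intro x hx
    refine Fil_ind (C := fun x => n x - x ∈ Fil W (p + 1 + 1)) ?_ ?_ hx
    · intro w hw y hy
      have e1 : n (ι F w * y) - ι F w * y = (n (ι F w) - ι F w) * n y + ι F w * (n y - y) := by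
        rw [map_mul, sub_mul, mul_sub]; abel
      have hny : n y ∈ Fil W p := by
        have := add_mem (Fil_succ_le p (ih y hy)) hy
        rwa [sub_add_cancel] at this
      rw [e1]
      exact add_mem (Fil_mul 2 p _ _ (h _) hny) (mem_Fil_succ hw (ih y hy))
    · intro a b ha hb
      have : n (a + b) - (a + b) = (n a - a) + (n b - b) := by rw [map_add]; abel
      rw [this]
      exact add_mem ha hb

/-- endomorphisms moving finitely many generators by terms of order two are unipotent -/
theorem nil_of_fin {I : Type*} (b : Basis I F V) (S : Finset I)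
    (n : ExteriorAlgebra F V →ₐ[F] ExteriorAlgebra F V) (h1 : ∀ i, i ∉ S → n (e b i) = e b i)
    (h2 : ∀ i ∈ S, n (e b i) - e b i ∈ Fil (⊤ : Submodule F V) 2) :
    IsNilpotent ((n.toLinearMap : Module.End F (ExteriorAlgebra F V)) - 1) := by
  classical
  choose! T hT using fun i (hi : i ∈ S) => Fil_top_fin 2 _ (h2 i hi)
  let W : Submodule F V := Submodule.span F ((S.biUnion T : Finset V) : Set V)
  have hW : ∀ x, n x - x ∈ Fil W 2 := by
    refine sub_mem_Fil_b b 2 n (AlgHom.id F _) (fun i => ?_)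
    by_cases hi : i ∈ S
    · refine Fil_mono (Submodule.span_mono ?_) 2 (hT i hi)
      exact Finset.coe_subset.mpr (Finset.subset_biUnion_of_mem T hi)
    · simp [h1 i hi]
  obtain ⟨p, hp⟩ := Fil_fin (F := F) (S.biUnion T)
  have key : ∀ k x, (((n.toLinearMap : Module.End F (ExteriorAlgebra F V)) - 1) ^ k) x ∈
      Fil W k := by
    intro k
    induction k with
    | zero => intro x; exact Submodule.mem_top
    | succ k ih =>
      intro x
      rw [pow_succ', Module.End.mul_apply]
      exact nil_of_Fil n hW k _ (ih x)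
  refine ⟨p, LinearMap.ext fun x => ?_⟩
  have := key p x
  rw [hp, Submodule.mem_bot] at this
  exact this

theorem decomp (x : ExteriorAlgebra F V) : ∃ (a : F) (v : V),
    x - algebraMap F _ a - ι F v ∈ Fil (⊤ : Submodule F V) 2 := by
  induction x using ExteriorAlgebra.induction with
  | algebraMap r => exact ⟨r, 0, by simp⟩
  | ι w => exact ⟨0, w, by simp⟩
  | mul x y hx hy =>
    obtain ⟨a, v, h⟩ := hx
    obtain ⟨c, w, h'⟩ := hy
    refine ⟨a * c, a • w + c • v, ?_⟩
    have e1 : x * y - algebraMap F _ (a * c) - ι F (a • w + c • v) =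
        (x - algebraMap F _ a - ι F v) * y + (algebraMap F _ a + ι F v) *
          (y - algebraMap F _ c - ι F w) + ι F v * (ι F w * 1) := by
      simp only [map_add, map_smul, Algebra.algebraMap_eq_smul_one, mul_sub, sub_mul, add_mul,
        smul_mul_assoc, mul_smul_comm, one_mul, mul_one, smul_smul, smul_add,
        mul_comm c a]
      abel
    rw [e1]
    exact add_mem (add_mem (Fil_right _ _ _ h) (Fil_left _ _ _ h'))
      (mem_Fil_succ Submodule.mem_top (mem_Fil_succ Submodule.mem_top Submodule.mem_top))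
  | add x y hx hy =>
    obtain ⟨a, v, h⟩ := hx
    obtain ⟨c, w, h'⟩ := hy
    refine ⟨a + c, v + w, ?_⟩
    have := add_mem h h'
    convert this using 1
    rw [map_add, map_add]; abel

theorem aug_ι (v : V) : algebraMapInv (ι F v) = 0 := by
  simp [algebraMapInv]

theorem aug_Fil {p : ℕ} {x : ExteriorAlgebra F V} (hx : x ∈ Fil (⊤ : Submodule F V) (p + 1)) :
    algebraMapInv x = 0 := by
  refine Fil_ind (C := fun x => algebraMapInv x = 0) ?_ ?_ hx
  · intro w _ y _; rw [map_mul, aug_ι, zero_mul]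
  · intro a b ha hb; rw [map_add, ha, hb, add_zero]

theorem aug_par (x : ExteriorAlgebra F V) : algebraMapInv (par x) = algebraMapInv x := by
  have : (algebraMapInv (R := F) (M := V)).comp par = algebraMapInv := by
    ext v
    simp [aug_ι]
  exact AlgHom.congr_fun this x

theorem odd_decomp (h2 : (2 : F) ≠ 0) {x : ExteriorAlgebra F V} (hx : par x = -x) :
    ∃ v : V, x - ι F v ∈ Fil (⊤ : Submodule F V) 2 := by
  obtain ⟨a, v, h⟩ := decomp x
  have h0 : algebraMapInv x = 0 := by
    have := aug_par x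
    rw [hx, map_neg] at this
    exact eq_zero_of_eq_neg h2 this.symm
  have h1 := aug_Fil h
  rw [map_sub, map_sub, h0, aug_ι, AlgHom.commutes] at h1
  have ha : a = 0 := by simpa using h1
  refine ⟨v, ?_⟩
  simpa [ha] using h

theorem odd_mem_Fil (h2 : (2 : F) ≠ 0) {x : ExteriorAlgebra F V} (hx : par x = -x) :
    x ∈ Fil (⊤ : Submodule F V) 1 := by
  obtain ⟨v, h⟩ := odd_decomp h2 hx
  have h1 : ι F v * 1 ∈ Fil (⊤ : Submodule F V) (0 + 1) :=
    mem_Fil_succ Submodule.mem_top Submodule.mem_top
  rw [mul_one] at h1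
  have := add_mem (Fil_succ_le 1 h) h1
  rwa [sub_add_cancel] at this

theorem Par.Fil (h2 : (2 : F) ≠ 0) {α : ExteriorAlgebra F V →ₐ[F] ExteriorAlgebra F V'}
    (h : Par α) (p : ℕ) : ∀ x ∈ Fil (⊤ : Submodule F V) p, α x ∈ Fil (⊤ : Submodule F V') p := by
  induction p with
  | zero => intro x _; exact Submodule.mem_top
  | succ p ih =>
    intro x hx
    refine Fil_ind (C := fun x => α x ∈ GrassBasic.Fil (⊤ : Submodule F V') (p + 1)) ?_ ?_ hx
    · intro w _ y hy
      rw [map_mul]
      exact Fil_mul 1 p _ _ (odd_mem_Fil h2 (h.odd (par_ι w))) (ih y hy)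
    · intro a b ha hb
      rw [map_add]; exact add_mem ha hb

theorem ιInv_Fil {x : ExteriorAlgebra F V} (hx : x ∈ Fil (⊤ : Submodule F V) 2) :
    ιInv x = 0 := by
  letI : Module Fᵐᵒᵖ V := Module.compHom _ ((RingHom.id F).fromOpposite mul_comm)
  haveI : IsCentralScalar F V := ⟨fun r m => rfl⟩
  have key : toTrivSqZeroExt x = 0 := by
    refine Fil_ind (C := fun x => toTrivSqZeroExt x = 0) ?_ ?_ hx
    · intro w _ y hy
      refine Fil_ind (C := fun y => toTrivSqZeroExt (ι F w * y) = 0) ?_ ?_ hy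
      · intro u _ z _
        rw [map_mul, map_mul, ← mul_assoc, toTrivSqZeroExt_ι, toTrivSqZeroExt_ι,
          TrivSqZeroExt.inr_mul_inr, zero_mul]
      · intro a b ha hb; rw [mul_add, map_add, ha, hb, add_zero]
    · intro a b ha hb; rw [map_add, ha, hb, add_zero]
  have : ιInv x = TrivSqZeroExt.snd (toTrivSqZeroExt x) := rfl
  rw [this, key]; rfl

theorem odd_lin (h2 : (2 : F) ≠ 0) {x : ExteriorAlgebra F V} (hx : par x = -x) :
    x - ι F (ιInv x) ∈ Fil (⊤ : Submodule F V) 2 := by
  obtain ⟨v, h⟩ := odd_decomp h2 hx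
  have := ιInv_Fil h
  rw [map_sub, ι_leftInverse v, sub_eq_zero] at this
  rwa [this]

end Pool.Agent.Lib.helper27.GrassBasic
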