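import Mathlib
import Pool.Agent.Lib.helper27.GrassBasic

namespace Pool.Agent.Lib.helper27.GrassStep

open ExteriorAlgebra Module GrassBasic GrassLin

variable {F : Type*} [Field F] {V : Type*} [AddCommGroup V] [Module F V]
  {V' : Type*} [AddCommGroup V'] [Module F V'] {I : Type*}

noncomputable def kk : ExteriorAlgebra F V →ₐ[F] ExteriorAlgebra F (V × V) :=
  ExteriorAlgebra.map (LinearMap.inl F V V)

noncomputable def jj : ExteriorAlgebra F V →ₐ[F] ExteriorAlgebra F (V × V) :=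
  ExteriorAlgebra.map (LinearMap.inr F V V)

theorem par_kk : Par (kk (F := F) (V := V)) :=
  par_of_ι fun v => by unfold kk; rw [map_apply_ι, par_ι]

theorem par_jj : Par (jj (F := F) (V := V)) :=
  par_of_ι fun v => by unfold jj; rw [map_apply_ι, par_ι]

theorem e_inl (b : Basis I F V) (i : I) : e (b.prod b) (Sum.inl i) = kk (e b i) := by
  unfold e kk
  rw [map_apply_ι, Basis.prod_apply]
  rfl

theorem e_inr (b : Basis I F V) (i : I) : e (b.prod b) (Sum.inr i) = jj (e b i) := by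
  unfold e jj
  rw [map_apply_ι, Basis.prod_apply]
  rfl

theorem pair_ext {A : Type*} [Ring A] [Algebra F A] (b : Basis I F V)
    {f g : ExteriorAlgebra F (V × V) →ₐ[F] A} (h1 : ∀ i, f (kk (e b i)) = g (kk (e b i)))
    (h2 : ∀ i, f (jj (e b i)) = g (jj (e b i))) (x : ExteriorAlgebra F (V × V)) : f x = g x := by
  have : f = g := by
    apply hom_ext_b (b.prod b)
    rintro (i | i)
    · rw [e_inl, h1]
    · rw [e_inr, h2]
  rw [this]

theorem hom_ext_x {A : Type*} [Ring A] [Algebra F A] (b : Basis I F V)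
    {f g : ExteriorAlgebra F V →ₐ[F] A} (h : ∀ i, f (e b i) = g (e b i))
    (x : ExteriorAlgebra F V) : f x = g x := by
  rw [hom_ext_b b h]

theorem exists_pair (h2 : (2 : F) ≠ 0) (b : Basis I F V)
    {α β : ExteriorAlgebra F V →ₐ[F] ExteriorAlgebra F V'} (hα : Par α) (hβ : Par β) :
    ∃ P : ExteriorAlgebra F (V × V) →ₐ[F] ExteriorAlgebra F V',
      Par P ∧ (∀ x, P (kk x) = α x) ∧ ∀ x, P (jj x) = β x := by
  obtain ⟨P, hP, hP'⟩ := exists_hom h2 (b.prod b)
    (Sum.elim (fun i => α (e b i)) (fun i => β (e b i))) (by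
      rintro (i | i)
      · exact hα.odd (par_e b i)
      · exact hβ.odd (par_e b i))
  refine ⟨P, hP, ?_, ?_⟩
  · exact hom_ext_x b (f := P.comp kk) (fun i => by
      rw [AlgHom.comp_apply, ← e_inl, hP']; rfl)
  · exact hom_ext_x b (f := P.comp jj) (fun i => by
      rw [AlgHom.comp_apply, ← e_inr, hP']; rfl)

theorem nil_pair (b : Basis I F V) (S : Finset I)
    (n : ExteriorAlgebra F (V × V) →ₐ[F] ExteriorAlgebra F (V × V))
    (h0 : ∀ i, n (jj (e b i)) = jj (e b i)) (h1 : ∀ i, i ∉ S → n (kk (e b i)) = kk (e b i))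
    (h2 : ∀ i ∈ S, n (kk (e b i)) - kk (e b i) ∈ Fil (⊤ : Submodule F (V × V)) 2) :
    IsNilpotent ((n.toLinearMap : Module.End F (ExteriorAlgebra F (V × V))) - 1) ∧
      ∀ x, n x - x ∈ Fil (⊤ : Submodule F (V × V)) 2 := by
  constructor
  · refine nil_of_fin (b.prod b) (S.map ⟨Sum.inl, Sum.inl_injective⟩) n ?_ ?_
    · rintro (i | i) hi
      · rw [e_inl]
        exact h1 i (fun h => hi (Finset.mem_map_of_mem _ h))
      · rw [e_inr, h0]
    · rintro (i | i) hi
      · rw [e_inl]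
        refine h2 i ?_
        simpa using hi
      · simp at hi
  · refine sub_mem_Fil_b (b.prod b) 2 n (AlgHom.id F _) ?_
    rintro (i | i)
    · rw [e_inl]
      by_cases hi : i ∈ S
      · exact h2 i hi
      · simp [h1 i hi]
    · rw [e_inr]
      simp [h0]

open Classical in
/-- projection killing the generators outside `S` -/
noncomputable def proj (h2 : (2 : F) ≠ 0) (b : Basis I F V) (S : Finset I) :
    ExteriorAlgebra F V →ₐ[F] ExteriorAlgebra F V :=
  GrassBasic.mk h2 b (fun i => if i ∈ S then e b i else 0) (fun i => by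
    split_ifs
    · exact par_e b i
    · simp)

theorem proj_mem (h2 : (2 : F) ≠ 0) (b : Basis I F V) {S : Finset I} {i : I} (hi : i ∈ S) :
    proj h2 b S (e b i) = e b i := by
  unfold proj; rw [mk_e, if_pos hi]

theorem proj_not (h2 : (2 : F) ≠ 0) (b : Basis I F V) {S : Finset I} {i : I} (hi : i ∉ S) :
    proj h2 b S (e b i) = 0 := by
  unfold proj; rw [mk_e, if_neg hi]

theorem par_proj (h2 : (2 : F) ≠ 0) (b : Basis I F V) (S : Finset I) : Par (proj h2 b S) :=
  par_of_e b fun i => by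
    by_cases hi : i ∈ S
    · rw [proj_mem h2 b hi, par_e]
    · rw [proj_not h2 b hi]; simp

theorem agree (h2 : (2 : F) ≠ 0) {A : Type*} [Ring A] [Algebra F A] (b : Basis I F V)
    {S : Finset I} (f g : ExteriorAlgebra F V →ₐ[F] A) (h : ∀ i ∈ S, f (e b i) = g (e b i))
    {x : ExteriorAlgebra F V} (hx : proj h2 b S x = x) : f x = g x := by
  have := hom_ext_x b (f := f.comp (proj h2 b S)) (g := g.comp (proj h2 b S)) (fun i => by
    by_cases hi : i ∈ S
    · simp only [AlgHom.comp_apply, proj_mem h2 b hi, h i hi]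
    · simp only [AlgHom.comp_apply, proj_not h2 b hi, map_zero]) x
  simpa only [AlgHom.comp_apply, hx] using this

theorem proj_mono (h2 : (2 : F) ≠ 0) (b : Basis I F V) {S T : Finset I} (h : S ⊆ T)
    {x : ExteriorAlgebra F V} (hx : proj h2 b S x = x) : proj h2 b T x = x :=
  agree h2 b (proj h2 b T) (AlgHom.id F _) (fun _ hi => proj_mem h2 b (h hi)) hx

theorem exists_proj (h2 : (2 : F) ≠ 0) (b : Basis I F V) (x : ExteriorAlgebra F V) :
    ∃ S : Finset I, proj h2 b S x = x := by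
  classical
  induction x using ExteriorAlgebra.induction with
  | algebraMap r => exact ⟨∅, AlgHom.commutes _ _⟩
  | ι w =>
    refine ⟨(b.repr w).support, ?_⟩
    have hw : ι F w = ∑ i ∈ (b.repr w).support, b.repr w i • e b i := by
      conv_lhs => rw [← b.linearCombination_repr w]
      rw [Finsupp.linearCombination_apply, Finsupp.sum, map_sum]
      simp [e]
    rw [hw, map_sum]
    refine Finset.sum_congr rfl fun i hi => ?_
    rw [map_smul, proj_mem h2 b hi]
  | mul x y hx hy =>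
    obtain ⟨S, hS⟩ := hx
    obtain ⟨T, hT⟩ := hy
    refine ⟨S ∪ T, ?_⟩
    rw [map_mul, proj_mono h2 b Finset.subset_union_left hS,
      proj_mono h2 b Finset.subset_union_right hT]
  | add x y hx hy =>
    obtain ⟨S, hS⟩ := hx
    obtain ⟨T, hT⟩ := hy
    refine ⟨S ∪ T, ?_⟩
    rw [map_add, proj_mono h2 b Finset.subset_union_left hS,
      proj_mono h2 b Finset.subset_union_right hT]

section roots

variable {D : Type*} [Ring D] [Algebra F D]

theorem fix_root (h2 : (2 : F) ≠ 0) (r : D →ₗ[F] D)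
    (hr : IsNilpotent ((r : Module.End F D) - 1)) {x : D} (hx : r (r x) = x) : r x = x := by
  have := inter h2 (1 : Module.End F F) r (by simp) hr (LinearMap.toSpanSingleton F D x)
    (fun c => by simp [hx]) 1
  simpa using this.symm

theorem abs_root (h2 : (2 : F) ≠ 0) {Y : Type*} [AddCommGroup Y] [Module F Y] (r : D →ₗ[F] D)
    (hr : IsNilpotent ((r : Module.End F D) - 1)) (T : D →ₗ[F] Y)
    (h : ∀ x, T (r (r x)) = T x) (x : D) : T (r x) = T x :=
  inter h2 r (1 : Module.End F Y) hr (by simp) T h x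

theorem sub_root (h2 : (2 : F) ≠ 0) (r : D →ₗ[F] D)
    (hr : IsNilpotent ((r : Module.End F D) - 1)) (G : Submodule F D)
    (h : ∀ x, r (r x) - x ∈ G) (x : D) : r x - x ∈ G := by
  have := abs_root h2 r hr G.mkQ (fun x => by
    simpa [Submodule.Quotient.eq] using h x) x
  simpa [Submodule.Quotient.eq] using this

end roots

/-- First half of the key step: an involution of the doubled algebra lifting `ψ`. -/
theorem step_a (h2 : (2 : F) ≠ 0) (b : Basis I F V) (S : Finset I)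
    (ψ : ExteriorAlgebra F V →ₐ[F] ExteriorAlgebra F V) (hψ : Par ψ) (hψ2 : ∀ x, ψ (ψ x) = x)
    (ε : I → F) (hε : ∀ i, ε i * ε i = 1)
    (hlin : ∀ i, ψ (e b i) - ε i • e b i ∈ Fil (⊤ : Submodule F V) 2)
    (μ : ExteriorAlgebra F (V × V) →ₐ[F] ExteriorAlgebra F V)
    (hμk : ∀ x, μ (kk x) = proj h2 b S x) (hμj : ∀ x, μ (jj x) = x)
    (q : ExteriorAlgebra F (V × V) →ₐ[F] ExteriorAlgebra F (V × V))
    (hqk : ∀ x, q (kk x) = kk (proj h2 b S x)) (hqj : ∀ x, q (jj x) = jj x) :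
    ∃ γ : ExteriorAlgebra F (V × V) →ₐ[F] ExteriorAlgebra F (V × V), Par γ ∧
      (∀ x, γ (γ x) = x) ∧ (∀ x, μ (γ x) = ψ (μ x)) ∧ (∀ x, γ (jj x) = jj (ψ x)) ∧
      (∀ x, q (γ x) = γ (q x)) ∧ (∀ i, i ∉ S → γ (kk (e b i)) = kk (e b i)) ∧
      (∀ i ∈ S, γ (kk (e b i)) - ε i • kk (e b i) ∈ Fil (⊤ : Submodule F (V × V)) 2) ∧
      ∀ (h : ExteriorAlgebra F V) (δ : F), δ * δ = 1 → proj h2 b S h = h → ψ h = δ • h →
        γ (kk h) = δ • kk h := by
  classical
  obtain ⟨s, hs, hse⟩ := exists_hom h2 b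
    (fun i => if i ∈ S then kk (e b i) else jj (e b i)) (fun i => by
      split_ifs
      · exact par_kk.odd (par_e b i)
      · exact par_jj.odd (par_e b i))
  have hs1 : ∀ i ∈ S, s (e b i) = kk (e b i) := fun i hi => by rw [hse, if_pos hi]
  have hs2 : ∀ i, i ∉ S → s (e b i) = jj (e b i) := fun i hi => by rw [hse, if_neg hi]
  have hμs : ∀ x, μ (s x) = x := hom_ext_x b (f := μ.comp s) (g := AlgHom.id F _) fun i => by
    by_cases hi : i ∈ S
    · simp [hs1 i hi, hμk, proj_mem h2 b hi]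
    · simp [hs2 i hi, hμj]
  have hqs : ∀ x, q (s x) = s x := hom_ext_x b (f := q.comp s) (g := s) fun i => by
    by_cases hi : i ∈ S
    · simp [hs1 i hi, hqk, proj_mem h2 b hi]
    · simp [hs2 i hi, hqj]
  obtain ⟨t, ht, hte⟩ := exists_hom h2 b
    (fun i => if i ∈ S then s (ψ (e b i)) else kk (e b i)) (fun i => by
      split_ifs
      · exact hs.odd (hψ.odd (par_e b i))
      · exact par_kk.odd (par_e b i))
  have ht1 : ∀ i ∈ S, t (e b i) = s (ψ (e b i)) := fun i hi => by rw [hte, if_pos hi]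
  have ht2 : ∀ i, i ∉ S → t (e b i) = kk (e b i) := fun i hi => by rw [hte, if_neg hi]
  obtain ⟨γ, hγ, hγk, hγj⟩ := exists_pair h2 b ht (par_jj.comp hψ)
  have hγj' : ∀ x, γ (jj x) = jj (ψ x) := hγj
  have hμγ : ∀ x, μ (γ x) = ψ (μ x) :=
    pair_ext b (f := μ.comp γ) (g := ψ.comp μ) (fun i => by
      by_cases hi : i ∈ S
      · simp [hγk, ht1 i hi, hμs, hμk, proj_mem h2 b hi]
      · simp [hγk, ht2 i hi, hμk, proj_not h2 b hi]) (fun i => by simp [hγj', hμj])
  have hqγ : ∀ x, q (γ x) = γ (q x) :=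
    pair_ext b (f := q.comp γ) (g := γ.comp q) (fun i => by
      by_cases hi : i ∈ S
      · simp [hγk, ht1 i hi, hqs, hqk, proj_mem h2 b hi]
      · simp [hγk, ht2 i hi, hqk, proj_not h2 b hi]) (fun i => by simp [hγj', hqj])
  have hγl : ∀ i ∈ S, γ (kk (e b i)) - ε i • kk (e b i) ∈ Fil (⊤ : Submodule F (V × V)) 2 := by
    intro i hi
    have := hs.Fil h2 2 _ (hlin i)
    rwa [map_sub, map_smul, hs1 i hi, ← ht1 i hi, ← hγk] at this
  have hγh : ∀ (h : ExteriorAlgebra F V) (δ : F), proj h2 b S h = h → ψ h = δ • h →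
      γ (kk h) = δ • kk h := by
    intro h δ hp hh
    have a1 : t h = (s.comp ψ) h := agree h2 b _ _ (fun i hi => ht1 i hi) hp
    have a2 : s h = kk h := agree h2 b _ _ hs1 hp
    rw [hγk, a1, AlgHom.comp_apply, hh, map_smul, a2]
  obtain ⟨hnil, hfil⟩ := nil_pair b S (γ.comp γ) (fun i => by simp [hγj', hψ2])
    (fun i hi => by simp [hγk, ht2 i hi]) (fun i hi => by
      have a1 := hγ.Fil h2 2 _ (hγl i hi)
      have a2 := Submodule.smul_mem _ (ε i) (hγl i hi)
      have := add_mem a1 a2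
      rw [map_sub, map_smul, smul_sub, smul_smul, hε, one_smul] at this
      simpa using this)
  obtain ⟨r, hr, hn1, hn2⟩ := alg_sqrt h2 (γ.comp γ) hnil
  have hr' : ∀ x, r (r x) = γ (γ x) := hr
  have comm : ∀ T : ExteriorAlgebra F (V × V) →ₐ[F] ExteriorAlgebra F (V × V),
      (∀ x, T (γ x) = γ (T x)) → ∀ x, T (r.symm x) = r.symm (T x) := by
    intro T hT x
    have := inter h2 _ _ hn1 hn1 T.toLinearMap (fun x => by
      change T (r (r x)) = r (r (T x))
      rw [hr', hr', hT, hT]) (r.symm x)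
    change T (r (r.symm x)) = r (T (r.symm x)) at this
    rw [r.apply_symm_apply] at this
    rw [this, r.symm_apply_apply]
  have fix : ∀ x, γ (γ x) = x → r.symm x = x := by
    intro x hx
    have : r x = x := fix_root h2 r.toLinearMap hn1 ((hr' x).trans hx)
    conv_lhs => rw [← this]
    exact r.symm_apply_apply x
  have hμr : ∀ x, μ (r.symm x) = μ x := by
    intro x
    have := abs_root h2 r.toLinearMap hn1 μ.toLinearMap (fun x => by
      change μ (r (r x)) = μ x
      rw [hr', hμγ, hμγ, hψ2]) (r.symm x)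
    change μ (r (r.symm x)) = μ (r.symm x) at this
    rw [r.apply_symm_apply] at this
    exact this.symm
  have hfr : ∀ x, r.symm x - x ∈ Fil (⊤ : Submodule F (V × V)) 2 := by
    intro x
    have := sub_root h2 r.toLinearMap hn1 (Fil (⊤ : Submodule F (V × V)) 2) (fun x => by
      change r (r x) - x ∈ _
      rw [hr']; exact hfil x) (r.symm x)
    change r (r.symm x) - r.symm x ∈ _ at this
    rw [r.apply_symm_apply] at this
    have := neg_mem this
    rwa [neg_sub] at this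
  refine ⟨γ.comp r.symm, ?_, ?_, ?_, ?_, ?_, ?_, ?_, ?_⟩
  · intro x
    change γ (r.symm (par x)) = par (γ (r.symm x))
    rw [← comm par (fun x => (hγ x).symm), hγ]
  · intro x
    change γ (r.symm (γ (r.symm x))) = x
    rw [← comm γ (fun _ => rfl), ← hr', r.apply_symm_apply, r.apply_symm_apply]
  · intro x
    change μ (γ (r.symm x)) = ψ (μ x)
    rw [hμγ, hμr]
  · intro x
    change γ (r.symm (jj x)) = jj (ψ x)
    rw [fix _ (by rw [hγj', hγj', hψ2]), hγj']
  · intro x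
    change q (γ (r.symm x)) = γ (r.symm (q x))
    rw [hqγ, comm q hqγ]
  · intro i hi
    change γ (r.symm (kk (e b i))) = kk (e b i)
    have a : γ (kk (e b i)) = kk (e b i) := by rw [hγk, ht2 i hi]
    rw [fix _ (by rw [a, a]), a]
  · intro i hi
    change γ (r.symm (kk (e b i))) - _ ∈ _
    have := add_mem (hγ.Fil h2 2 _ (hfr (kk (e b i)))) (hγl i hi)
    rwa [map_sub, sub_add_sub_cancel] at this
  · intro h δ hδ hp hh
    change γ (r.symm (kk h)) = _
    have a := hγh h δ hp hh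
    rw [fix _ (by rw [a, map_smul, a, smul_smul, hδ, one_smul]), a]

/-- The key step. -/
theorem step (h2 : (2 : F) ≠ 0) (b : Basis I F V) (S : Finset I)
    (ψ : ExteriorAlgebra F V →ₐ[F] ExteriorAlgebra F V) (hψ : Par ψ) (hψ2 : ∀ x, ψ (ψ x) = x)
    (ε : I → F) (hε : ∀ i, ε i * ε i = 1)
    (hlin : ∀ i, ψ (e b i) - ε i • e b i ∈ Fil (⊤ : Submodule F V) 2) :
    ∃ g : ExteriorAlgebra F V ≃ₐ[F] ExteriorAlgebra F V, Par g.toAlgHom ∧
      (∀ x, g x - x ∈ Fil (⊤ : Submodule F V) 2) ∧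
      (∀ i ∈ S, ψ (g (e b i)) = ε i • g (e b i)) ∧
      (∀ i ∈ S, ψ (e b i) = ε i • e b i → g (e b i) = e b i) ∧
      ∀ (h : ExteriorAlgebra F V) (δ : F), δ * δ = 1 → proj h2 b S h = h → ψ h = δ • h →
        ∃ Q, proj h2 b S Q = Q ∧ g Q = h := by
  classical
  obtain ⟨μ, hμ, hμk, hμj⟩ := exists_pair h2 b (par_proj h2 b S) par_id
  have hμj' : ∀ x, μ (jj x) = x := hμj
  obtain ⟨q, hq, hqk, hqj⟩ := exists_pair h2 b (par_kk.comp (par_proj h2 b S)) par_jj
  have hqk' : ∀ x, q (kk x) = kk (proj h2 b S x) := hqk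
  obtain ⟨γ, hγ, hγ2, hμγ, hγj, hqγ, hγn, hγl, hγh⟩ :=
    step_a h2 b S ψ hψ hψ2 ε hε hlin μ hμk hμj' q hqk' hqj
  obtain ⟨ρ, hρ, hρk, hρj⟩ := exists_pair h2 b par_id (par_proj h2 b ∅)
  have hρk' : ∀ x, ρ (kk x) = x := hρk
  have hz : ∀ x, par x = -x → proj h2 b ∅ x = 0 := by
    intro x hx
    have a : ∀ y, proj h2 b ∅ (par y) = proj h2 b ∅ y :=
      hom_ext_x b (f := (proj h2 b ∅).comp par) fun i => by
        simp [par_e, proj_not h2 b (Finset.notMem_empty i)]
    have := a x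
    rw [hx, map_neg] at this
    exact eq_zero_of_eq_neg h2 this.symm
  let σ : ExteriorAlgebra F V →ₐ[F] ExteriorAlgebra F V := ρ.comp (γ.comp kk)
  have hσd : ∀ x, σ x = ρ (γ (kk x)) := fun _ => rfl
  have hσ : Par σ := hρ.comp (hγ.comp par_kk)
  have hργ : ∀ x, ρ (γ x) = σ (ρ x) :=
    pair_ext b (f := ρ.comp γ) (g := σ.comp ρ) (fun i => by simp [hρk', hσd]) (fun i => by
      simp [hγj, hρj, hz _ (par_e b i), hz _ (hψ.odd (par_e b i))])
  have hσ2 : ∀ x, σ (σ x) = x := fun x => by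
    rw [hσd x, ← hργ, hγ2, hρk']
  have hρq : ∀ x, ρ (q x) = proj h2 b S (ρ x) :=
    pair_ext b (f := ρ.comp q) (g := (proj h2 b S).comp ρ) (fun i => by simp [hρk', hqk'])
      (fun i => by simp [hqj, hρj, hz _ (par_e b i)])
  have hσp : ∀ x, σ (proj h2 b S x) = proj h2 b S (σ x) := fun x => by
    rw [hσd, hσd, ← hqk', ← hqγ, hρq]
  have hσn : ∀ i, i ∉ S → σ (e b i) = e b i := fun i hi => by rw [hσd, hγn i hi, hρk']
  have hσl : ∀ i ∈ S, σ (e b i) - ε i • e b i ∈ Fil (⊤ : Submodule F V) 2 := fun i hi => by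
    have := hρ.Fil h2 2 _ (hγl i hi)
    rwa [map_sub, map_smul, hρk'] at this
  have hσh : ∀ (h : ExteriorAlgebra F V) (δ : F), δ * δ = 1 → proj h2 b S h = h → ψ h = δ • h →
      σ h = δ • h := fun h δ h1 h3 h4 => by
    rw [hσd, hγh h δ h1 h3 h4, map_smul, hρk']
  -- averaging
  obtain ⟨a, ha, hae⟩ := exists_hom h2 b
    (fun i => if i ∈ S then (2⁻¹ : F) • (e b i + ε i • σ (e b i)) else e b i) (fun i => by
      split_ifs
      · rw [map_smul, map_add, map_smul, par_e, hσ.odd (par_e b i), ← smul_neg, neg_add,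
          smul_neg (ε i)]
      · exact par_e b i)
  have ha1 : ∀ i ∈ S, a (e b i) = (2⁻¹ : F) • (e b i + ε i • σ (e b i)) :=
    fun i hi => by rw [hae, if_pos hi]
  have ha2 : ∀ i, i ∉ S → a (e b i) = e b i := fun i hi => by rw [hae, if_neg hi]
  have half : ∀ x : ExteriorAlgebra F V, (2⁻¹ : F) • (x + x) = x := fun x => by
    rw [← two_smul F x, smul_smul, inv_mul_cancel₀ h2, one_smul]
  have hal : ∀ i ∈ S, a (e b i) - e b i ∈ Fil (⊤ : Submodule F V) 2 := fun i hi => by
    have := Submodule.smul_mem _ (2⁻¹ : F) (Submodule.smul_mem _ (ε i) (hσl i hi))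
    rw [smul_sub (ε i), smul_smul (ε i), hε, one_smul] at this
    have e1 : a (e b i) - e b i = (2⁻¹ : F) • (ε i • σ (e b i) - e b i) := by
      rw [ha1 i hi]
      nth_rewrite 3 [← half (e b i)]
      rw [← smul_sub]
      congr 1
      abel
    rwa [e1]
  have habij := bij_of_nil a (nil_of_fin b S a ha2 hal)
  have hσa : ∀ i ∈ S, σ (a (e b i)) = ε i • a (e b i) := fun i hi => by
    rw [ha1 i hi, map_smul, map_add, map_smul, hσ2, smul_comm (ε i), smul_add (ε i), smul_smul (ε i),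
      hε, one_smul, add_comm]
  have hap : ∀ x, a (proj h2 b S x) = proj h2 b S (a x) :=
    hom_ext_x b (f := a.comp (proj h2 b S)) (g := (proj h2 b S).comp a) fun i => by
      by_cases hi : i ∈ S
      · simp [proj_mem h2 b hi, ha1 i hi, ← hσp]
      · simp [proj_not h2 b hi, ha2 i hi]
  -- the second involution
  obtain ⟨Ψ, hΨ, hΨk, hΨj⟩ := exists_pair h2 b (par_kk.comp hσ) (par_jj.comp hψ)
  have hΨk' : ∀ x, Ψ (kk x) = kk (σ x) := hΨk
  have hΨj' : ∀ x, Ψ (jj x) = jj (ψ x) := hΨj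
  have hΨ2 : ∀ x, Ψ (Ψ x) = x :=
    pair_ext b (f := Ψ.comp Ψ) (g := AlgHom.id F _) (fun i => by simp [hΨk', hσ2])
      (fun i => by simp [hΨj', hψ2])
  obtain ⟨hnil, hfil⟩ := nil_pair b S (γ.comp Ψ) (fun i => by simp [hγj, hΨj', hψ2])
    (fun i hi => by simp [hΨk', hσn i hi, hγn i hi]) (fun i hi => by
      have a1 := hγ.Fil h2 2 _ (par_kk.Fil h2 2 _ (hσl i hi))
      have a2 := Submodule.smul_mem _ (ε i) (hγl i hi)
      have := add_mem a1 a2
      rw [map_sub, map_smul, map_sub, map_smul, smul_sub, smul_smul, hε, one_smul] at this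
      simpa [hΨk'] using this)
  obtain ⟨c, hc, hn1, hn2⟩ := alg_sqrt h2 (γ.comp Ψ) hnil
  have hc' : ∀ x, c (c x) = γ (Ψ x) := hc
  have hcp : ∀ x, c (par x) = par (c x) := fun x =>
    (inter h2 _ _ hn1 hn1 (par (F := F) (V := V × V)).toLinearMap (fun x => by
      change par (c (c x)) = c (c (par x))
      rw [hc', hc', hΨ, hγ]) x).symm
  have hΨc : ∀ x, Ψ (c x) = c.symm (Ψ x) :=
    inter h2 _ _ hn1 hn2 Ψ.toLinearMap (fun x => by
      change Ψ (c (c x)) = c.symm (c.symm (Ψ x))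
      apply c.injective
      apply c.injective
      rw [c.apply_symm_apply, c.apply_symm_apply, hc', hΨ2, hc', hγ2])
  have hγc : ∀ x, γ (c x) = c (Ψ x) := fun x => by
    rw [← hΨ2 (c x), ← hc', hΨc, c.apply_symm_apply]
  have hcf : ∀ x, c x - x ∈ Fil (⊤ : Submodule F (V × V)) 2 :=
    sub_root h2 c.toLinearMap hn1 _ (fun x => by
      change c (c x) - x ∈ _
      rw [hc']; exact hfil x)
  have hch : ∀ (h : ExteriorAlgebra F V) (δ : F), δ * δ = 1 → proj h2 b S h = h → ψ h = δ • h →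
      μ (c (kk h)) = h := fun h δ h1 h3 h4 => by
    have : c (kk h) = kk h := fix_root h2 c.toLinearMap hn1 (by
      change c (c (kk h)) = kk h
      rw [hc', hΨk', hσh h δ h1 h3 h4, map_smul, map_smul, hγh h δ h1 h3 h4, smul_smul, h1,
        one_smul])
    rw [this, hμk, h3]
  let f : ExteriorAlgebra F V →ₐ[F] ExteriorAlgebra F V := μ.comp (c.toAlgHom.comp (kk.comp a))
  have hfd : ∀ x, f x = μ (c (kk (a x))) := fun _ => rfl
  have hf : Par f := hμ.comp (Par.comp hcp (par_kk.comp ha))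
  obtain ⟨g, hg, hge⟩ := exists_hom h2 b
    (fun i => if i ∈ S then f (e b i) else e b i) (fun i => by
      split_ifs
      · exact hf.odd (par_e b i)
      · exact par_e b i)
  have hg1 : ∀ i ∈ S, g (e b i) = f (e b i) := fun i hi => by rw [hge, if_pos hi]
  have hg2 : ∀ i, i ∉ S → g (e b i) = e b i := fun i hi => by rw [hge, if_neg hi]
  have hgl : ∀ i ∈ S, g (e b i) - e b i ∈ Fil (⊤ : Submodule F V) 2 := fun i hi => by
    have a1 := hμ.Fil h2 2 _ (hcf (kk (a (e b i))))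
    have a2 := hμ.Fil h2 2 _ (par_kk.Fil h2 2 _ (hal i hi))
    have := add_mem a1 a2
    rw [map_sub, map_sub, map_sub, sub_add_sub_cancel, hμk (e b i), proj_mem h2 b hi] at this
    rwa [hg1 i hi, hfd]
  have hgbij := bij_of_nil g (nil_of_fin b S g hg2 hgl)
  refine ⟨AlgEquiv.ofBijective g hgbij, hg, ?_, ?_, ?_, ?_⟩
  · refine sub_mem_Fil_b b 2 g (AlgHom.id F _) (fun i => ?_)
    by_cases hi : i ∈ S
    · exact hgl i hi
    · simp [hg2 i hi]
  · intro i hi
    change ψ (g (e b i)) = ε i • g (e b i)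
    rw [hg1 i hi, hfd, ← hμγ, hγc, hΨk', hσa i hi, map_smul, map_smul, map_smul]
  · intro i hi hh
    change g (e b i) = e b i
    have : a (e b i) = e b i := by
      rw [ha1 i hi, hσh _ _ (hε i) (proj_mem h2 b hi) hh, smul_smul (ε i), hε, one_smul, half]
    rw [hg1 i hi, hfd, this, hch _ _ (hε i) (proj_mem h2 b hi) hh]
  · intro h δ h1 h3 h4
    obtain ⟨Q, rfl⟩ := habij.2 h
    have hQ : proj h2 b S Q = Q := habij.1 (by rw [hap, h3])
    refine ⟨Q, hQ, ?_⟩
    change g Q = a Q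
    rw [agree h2 b g f hg1 hQ, hfd, hch _ δ h1 h3 h4]

end Pool.Agent.Lib.helper27.GrassStep
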