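import Mathlib
import Pool.Agent.Lib.helper27.GrassStep

namespace Pool.Agent.Lib.helper27.GrassLimit

open ExteriorAlgebra Module GrassBasic GrassLin GrassStep

variable {F : Type*} [Field F] {V : Type*} [AddCommGroup V] [Module F V]

/-- the invariant carried along the construction -/
def Good (b : Basis ℕ F V) (ψ : ExteriorAlgebra F V →ₐ[F] ExteriorAlgebra F V) (ε : ℕ → F)
    (p : (ExteriorAlgebra F V ≃ₐ[F] ExteriorAlgebra F V) × Finset ℕ) : Prop :=
  Par p.1.toAlgHom ∧ (∀ x, p.1 x - x ∈ Fil (⊤ : Submodule F V) 2) ∧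
    ∀ i ∈ p.2, ψ (p.1 (e b i)) = ε i • p.1 (e b i)

theorem next (h2 : (2 : F) ≠ 0) (b : Basis ℕ F V)
    (ψ : ExteriorAlgebra F V →ₐ[F] ExteriorAlgebra F V) (hψ : Par ψ) (hψ2 : ∀ x, ψ (ψ x) = x)
    (ε : ℕ → F) (hε : ∀ i, ε i * ε i = 1)
    (hlin : ∀ i, ψ (e b i) - ε i • e b i ∈ Fil (⊤ : Submodule F V) 2) (k : ℕ)
    (p : (ExteriorAlgebra F V ≃ₐ[F] ExteriorAlgebra F V) × Finset ℕ) (hp : Good b ψ ε p) :
    ∃ p', Good b ψ ε p' ∧ p.2 ⊆ p'.2 ∧ k ∈ p'.2 ∧ (∀ i ∈ p.2, p'.1 (e b i) = p.1 (e b i)) ∧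
      ∃ Q, proj h2 b p'.2 Q = Q ∧ p'.1 Q = e b k := by
  classical
  obtain ⟨g, S⟩ := p
  obtain ⟨hg, hgf, hge⟩ := hp
  have hg' : ∀ x, g (par x) = par (g x) := hg
  have hgs : Par g.symm.toAlgHom := fun x => by
    change g.symm (par x) = par (g.symm x)
    apply g.injective
    rw [hg', g.apply_symm_apply, g.apply_symm_apply]
  let χ : ExteriorAlgebra F V →ₐ[F] ExteriorAlgebra F V :=
    g.symm.toAlgHom.comp (ψ.comp g.toAlgHom)
  have hχd : ∀ x, χ x = g.symm (ψ (g x)) := fun _ => rfl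
  have hχ : Par χ := hgs.comp (hψ.comp hg)
  have hχ2 : ∀ x, χ (χ x) = x := fun x => by
    rw [hχd, hχd, g.apply_symm_apply, hψ2, g.symm_apply_apply]
  have hχl : ∀ i, χ (e b i) - ε i • e b i ∈ Fil (⊤ : Submodule F V) 2 := fun i => by
    have a1 := hψ.Fil h2 2 _ (hgf (e b i))
    have a2 := Submodule.smul_mem _ (ε i) (hgf (e b i))
    have a3 := hgs.Fil h2 2 _ (sub_mem (add_mem a1 (hlin i)) a2)
    have e1 : ψ (g (e b i) - e b i) + (ψ (e b i) - ε i • e b i) - ε i • (g (e b i) - e b i) =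
        ψ (g (e b i)) - ε i • g (e b i) := by
      rw [map_sub, smul_sub]; abel
    change g.symm (ψ (g (e b i) - e b i) + (ψ (e b i) - ε i • e b i) -
      ε i • (g (e b i) - e b i)) ∈ _ at a3
    rwa [e1, map_sub, map_smul, g.symm_apply_apply] at a3
  let x := g.symm (e b k)
  let u := (2⁻¹ : F) • (x + χ x)
  let v := (2⁻¹ : F) • (x - χ x)
  have huv : u + v = x := by
    simp only [u, v]
    rw [← smul_add, add_add_sub_cancel, ← two_smul F x, smul_smul, inv_mul_cancel₀ h2, one_smul]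
  have hu : χ u = (1 : F) • u := by
    simp only [u]
    rw [map_smul, map_add, hχ2, one_smul, add_comm]
  have hv : χ v = (-1 : F) • v := by
    simp only [v]
    rw [map_smul, map_sub, hχ2, neg_one_smul, ← smul_neg, neg_sub]
  obtain ⟨T1, hT1⟩ := exists_proj h2 b u
  obtain ⟨T2, hT2⟩ := exists_proj h2 b v
  let S' : Finset ℕ := insert k (S ∪ (T1 ∪ T2))
  have s1 : S ⊆ S' := fun i hi => by simp [S', hi]
  have s2 : T1 ⊆ S' := fun i hi => by simp [S', hi]
  have s3 : T2 ⊆ S' := fun i hi => by simp [S', hi]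
  obtain ⟨g', h1, h3, h4, h5, h6⟩ := step h2 b S' χ hχ hχ2 ε hε hχl
  obtain ⟨Q1, hQ1, hQ1'⟩ := h6 u 1 (by simp) (proj_mono h2 b s2 hT1) hu
  obtain ⟨Q2, hQ2, hQ2'⟩ := h6 v (-1) (by simp) (proj_mono h2 b s3 hT2) hv
  refine ⟨(g'.trans g, S'), ⟨Par.comp hg h1, ?_, ?_⟩, s1, by simp [S'], ?_, Q1 + Q2, ?_, ?_⟩
  · intro y
    change g (g' y) - y ∈ _
    have := add_mem (hgf (g' y)) (h3 y)
    rwa [sub_add_sub_cancel] at this
  · intro i hi
    change ψ (g (g' (e b i))) = ε i • g (g' (e b i))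
    have := congrArg g (h4 i hi)
    rwa [hχd, g.apply_symm_apply, map_smul] at this
  · intro i hi
    change g (g' (e b i)) = g (e b i)
    rw [h5 i (s1 hi)]
    rw [hχd, hge i hi, map_smul, g.symm_apply_apply]
  · rw [map_add, hQ1, hQ2]
  · change g (g' (Q1 + Q2)) = e b k
    rw [map_add, hQ1', hQ2', huv]
    exact g.apply_symm_apply _

theorem linearize_of_lin (h2 : (2 : F) ≠ 0) (b : Basis ℕ F V)
    (ψ : ExteriorAlgebra F V →ₐ[F] ExteriorAlgebra F V) (hψ : Par ψ) (hψ2 : ∀ x, ψ (ψ x) = x)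
    (ε : ℕ → F) (hε : ∀ i, ε i * ε i = 1)
    (hlin : ∀ i, ψ (e b i) - ε i • e b i ∈ Fil (⊤ : Submodule F V) 2) :
    ∃ G : ExteriorAlgebra F V ≃ₐ[F] ExteriorAlgebra F V,
      ∀ i, ψ (G (e b i)) = ε i • G (e b i) := by
  classical
  have h0 : Good b ψ ε (AlgEquiv.refl, ∅) := ⟨fun _ => rfl, fun x => by simp, by simp⟩
  obtain ⟨s, hs⟩ : ∃ s : ℕ → {p // Good b ψ ε p}, ∀ k, (s k).1.2 ⊆ (s (k + 1)).1.2 ∧
      k ∈ (s (k + 1)).1.2 ∧ (∀ i ∈ (s k).1.2, (s (k + 1)).1.1 (e b i) = (s k).1.1 (e b i)) ∧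
      ∃ Q, proj h2 b (s (k + 1)).1.2 Q = Q ∧ (s (k + 1)).1.1 Q = e b k := by
    choose nx hn1 hn2 using next h2 b ψ hψ hψ2 ε hε hlin
    exact ⟨fun n => Nat.rec ⟨_, h0⟩ (fun k p => ⟨nx k p.1 p.2, hn1 k p.1 p.2⟩) n,
      fun k => hn2 k _ _⟩
  have mono : ∀ k l, k ≤ l → (s k).1.2 ⊆ (s l).1.2 ∧
      ∀ i ∈ (s k).1.2, (s l).1.1 (e b i) = (s k).1.1 (e b i) := by
    intro k l hkl
    induction hkl with
    | refl => exact ⟨le_rfl, fun _ _ => rfl⟩
    | step _ ih =>
      rename_i l _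
      refine ⟨ih.1.trans (hs l).1, fun i hi => ?_⟩
      rw [← ih.2 i hi]
      exact (hs l).2.2.1 i (ih.1 hi)
  have hmem : ∀ k, k ∈ (s (k + 1)).1.2 := fun k => (hs k).2.1
  obtain ⟨G, hG, hGe⟩ := exists_hom h2 b (fun i => (s (i + 1)).1.1 (e b i))
    (fun i => (s (i + 1)).2.1.odd (par_e b i))
  have hGk : ∀ k, ∀ i ∈ (s k).1.2, G (e b i) = (s k).1.1 (e b i) := by
    intro k i hi
    rw [hGe, ← (mono k (max k (i + 1)) (le_max_left _ _)).2 i hi,
      ← (mono (i + 1) (max k (i + 1)) (le_max_right _ _)).2 i (hmem i)]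
  have hGa : ∀ k x, proj h2 b (s k).1.2 x = x → G x = (s k).1.1 x := fun k x hx =>
    agree h2 b G (s k).1.1.toAlgHom (hGk k) hx
  have hinj : Function.Injective G := by
    rw [injective_iff_map_eq_zero]
    intro x hx
    obtain ⟨T, hT⟩ := exists_proj h2 b x
    have hsub : T ⊆ (s (T.sup id + 1)).1.2 := fun i hi =>
      (mono (i + 1) _ (Nat.succ_le_succ (Finset.le_sup (f := id) hi))).1 (hmem i)
    rw [hGa _ x (proj_mono h2 b hsub hT)] at hx
    exact (map_eq_zero_iff _ (AlgEquiv.injective _)).mp hx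
  have hsurj : Function.Surjective G := by
    have hk : ∀ k, e b k ∈ G.range := fun k => by
      obtain ⟨Q, hQ, hQ'⟩ := (hs k).2.2.2
      exact ⟨Q, (hGa (k + 1) Q hQ).trans hQ'⟩
    have hv : ∀ v, ι F v ∈ G.range := fun v => by
      have : (⊤ : Submodule F V) ≤ (Subalgebra.toSubmodule G.range).comap (ι F) := by
        rw [← b.span_eq, Submodule.span_le]
        rintro _ ⟨i, rfl⟩
        exact hk i
      exact this Submodule.mem_top
    intro x
    change x ∈ G.range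
    induction x using ExteriorAlgebra.induction with
    | algebraMap r => exact Subalgebra.algebraMap_mem _ r
    | ι w => exact hv w
    | mul x y hx hy => exact mul_mem hx hy
    | add x y hx hy => exact add_mem hx hy
  refine ⟨AlgEquiv.ofBijective G ⟨hinj, hsurj⟩, fun i => ?_⟩
  change ψ (G (e b i)) = ε i • G (e b i)
  rw [hGe]
  exact (s (i + 1)).2.2.2 i (hmem i)

theorem eigen_basis (h2 : (2 : F) ≠ 0) (b0 : Basis ℕ F V) (l : V →ₗ[F] V)
    (hl : ∀ v, l (l v) = v) :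
    ∃ (b : Basis ℕ F V) (ε : ℕ → F), (∀ i, ε i = 1 ∨ ε i = -1) ∧ ∀ i, l (b i) = ε i • b i := by
  classical
  let P : Submodule F V := LinearMap.ker (l - 1)
  let N : Submodule F V := LinearMap.ker (l + 1)
  have hP : ∀ v, v ∈ P ↔ l v = v := fun v => by simp [P, sub_eq_zero]
  have hN : ∀ v, v ∈ N ↔ l v = -v := fun v => by simp [N, add_eq_zero_iff_eq_neg]
  have hc : IsCompl P N := by
    constructor
    · rw [Submodule.disjoint_def]
      intro v h1 h3
      rw [hP] at h1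
      rw [hN, h1] at h3
      exact eq_zero_of_eq_neg h2 h3
    · rw [codisjoint_iff, eq_top_iff]
      intro v _
      have : v = (2⁻¹ : F) • (v + l v) + (2⁻¹ : F) • (v - l v) := by
        rw [← smul_add, add_add_sub_cancel, ← two_smul F v, smul_smul, inv_mul_cancel₀ h2,
          one_smul]
      rw [this]
      refine Submodule.add_mem_sup (P.smul_mem _ ?_) (N.smul_mem _ ?_)
      · rw [hP, map_add, hl, add_comm]
      · rw [hN, map_sub, hl, neg_sub]
  let c := ((Basis.ofVectorSpace F P).prod (Basis.ofVectorSpace F N)).map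
    (Submodule.prodEquivOfIsCompl P N hc)
  let η := c.indexEquiv b0
  have hcv : ∀ j, l (c j) = (Sum.elim (fun _ => (1 : F)) (fun _ => -1) j) • c j := by
    rintro (j | j)
    · have : c (Sum.inl j) ∈ P := by
        simp [c, Basis.prod_apply]
      simpa using (hP _).mp this
    · have : c (Sum.inr j) ∈ N := by
        simp [c, Basis.prod_apply]
      simpa using (hN _).mp this
  refine ⟨c.reindex η, fun i => Sum.elim (fun _ => (1 : F)) (fun _ => -1) (η.symm i), ?_, ?_⟩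
  · intro i
    beta_reduce
    rcases η.symm i with j | j
    · exact Or.inl rfl
    · exact Or.inr rfl
  · intro i
    rw [Basis.reindex_apply]
    exact hcv _

theorem linearize_par (h2 : (2 : F) ≠ 0) (b0 : Basis ℕ F V)
    (ψ : ExteriorAlgebra F V →ₐ[F] ExteriorAlgebra F V) (hψ : Par ψ) (hψ2 : ∀ x, ψ (ψ x) = x) :
    ∃ (b : Basis ℕ F V) (ε : ℕ → F) (G : ExteriorAlgebra F V ≃ₐ[F] ExteriorAlgebra F V),
      (∀ i, ε i = 1 ∨ ε i = -1) ∧ ∀ i, ψ (G (e b i)) = ε i • G (e b i) := by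
  let l : V →ₗ[F] V := ιInv ∘ₗ ψ.toLinearMap ∘ₗ ι F
  have hl : ∀ v, ψ (ι F v) - ι F (l v) ∈ Fil (⊤ : Submodule F V) 2 := fun v =>
    odd_lin h2 (hψ.odd (par_ι v))
  have hl2 : ∀ v, l (l v) = v := fun v => by
    have a1 := hψ.Fil h2 2 _ (hl v)
    have := ιInv_Fil (add_mem a1 (hl (l v)))
    rw [map_sub ψ, hψ2, sub_add_sub_cancel, map_sub, ι_leftInverse, ι_leftInverse,
      sub_eq_zero] at this
    exact this.symm
  obtain ⟨b, ε, hε, hb⟩ := eigen_basis h2 b0 l hl2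
  obtain ⟨G, hG⟩ := linearize_of_lin h2 b ψ hψ hψ2 ε
    (fun i => by rcases hε i with h | h <;> simp [h]) (fun i => by
      have := hl (b i)
      rwa [hb, map_smul] at this)
  exact ⟨b, ε, G, hε, hG⟩

theorem mem_even (h2 : (2 : F) ≠ 0) {x : ExteriorAlgebra F V} (hx : par x = x) :
    x ∈ CliffordAlgebra.evenOdd (0 : QuadraticForm F V) 0 := by
  have : x ∈ CliffordAlgebra.evenOdd (0 : QuadraticForm F V) 0 ⊔ CliffordAlgebra.evenOdd 0 1 := by
    rw [(CliffordAlgebra.evenOdd_isCompl _).sup_eq_top]; exact Submodule.mem_top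
  obtain ⟨y, hy, z, hz, rfl⟩ := Submodule.mem_sup.mp this
  have h1 : par y = y := CliffordAlgebra.involute_eq_of_mem_even hy
  have h3 : par z = -z := CliffordAlgebra.involute_eq_of_mem_odd hz
  rw [map_add, h1, h3, add_right_inj] at hx
  rw [eq_zero_of_eq_neg h2 hx.symm, add_zero]
  exact hy

theorem mem_odd (h2 : (2 : F) ≠ 0) {x : ExteriorAlgebra F V} (hx : par x = -x) :
    x ∈ CliffordAlgebra.evenOdd (0 : QuadraticForm F V) 1 := by
  have : x ∈ CliffordAlgebra.evenOdd (0 : QuadraticForm F V) 0 ⊔ CliffordAlgebra.evenOdd 0 1 := by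
    rw [(CliffordAlgebra.evenOdd_isCompl _).sup_eq_top]; exact Submodule.mem_top
  obtain ⟨y, hy, z, hz, rfl⟩ := Submodule.mem_sup.mp this
  have h1 : par y = y := CliffordAlgebra.involute_eq_of_mem_even hy
  have h3 : par z = -z := CliffordAlgebra.involute_eq_of_mem_odd hz
  rw [map_add, h1, h3, neg_add, add_left_inj] at hx
  rw [eq_zero_of_eq_neg h2 hx, zero_add]
  exact hz

theorem split_parity (h2 : (2 : F) ≠ 0) {x y x' y' : ExteriorAlgebra F V} (hx : par x = x)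
    (hy : par y = -y) (hx' : par x' = x') (hy' : par y' = -y') (h : x + y = x' + y') :
    x = x' ∧ y = y' := by
  have h1 := congrArg par h
  rw [map_add, map_add, hx, hy, hx', hy'] at h1
  have h3 : x - x' = -(x - x') := by
    have : x + y + (x + -y) = x' + y' + (x' + -y') := by rw [h, h1]
    have e1 : x - x' = -(x - x') + ((x + y + (x + -y)) - (x' + y' + (x' + -y'))) := by abel
    rw [this, sub_self, add_zero] at e1
    exact e1
  have h4 : x = x' := sub_eq_zero.mp (eq_zero_of_eq_neg h2 h3)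
  exact ⟨h4, by rwa [h4, add_right_inj] at h⟩

/-- every involution is conjugate to a parity preserving one -/
theorem make_par (h2 : (2 : F) ≠ 0) (φ : ExteriorAlgebra F V →ₐ[F] ExteriorAlgebra F V)
    (hφ : ∀ x, φ (φ x) = x) :
    ∃ θ ψ : ExteriorAlgebra F V →ₐ[F] ExteriorAlgebra F V, Par ψ ∧ (∀ x, ψ (ψ x) = x) ∧
      (∀ x, θ (θ x) = x) ∧ ∀ x, θ (φ x) = ψ (θ x) := by
  let o : V →ₗ[F] ExteriorAlgebra F V :=
    (2⁻¹ : F) • (φ.toLinearMap ∘ₗ ι F - par.toLinearMap ∘ₗ φ.toLinearMap ∘ₗ ι F)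
  let a : V →ₗ[F] ExteriorAlgebra F V :=
    (2⁻¹ : F) • (φ.toLinearMap ∘ₗ ι F + par.toLinearMap ∘ₗ φ.toLinearMap ∘ₗ ι F)
  have hod : ∀ v, o v = (2⁻¹ : F) • (φ (ι F v) - par (φ (ι F v))) := fun _ => rfl
  have had : ∀ v, a v = (2⁻¹ : F) • (φ (ι F v) + par (φ (ι F v))) := fun _ => rfl
  have ho : ∀ v, par (o v) = -o v := fun v => by
    rw [hod, map_smul, map_sub, par_par, ← smul_neg, neg_sub]
  have ha : ∀ v, par (a v) = a v := fun v => by
    rw [had, map_smul, map_add, par_par, add_comm]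
  have hoa : ∀ v, φ (ι F v) = o v + a v := fun v => by
    rw [hod, had, ← smul_add, sub_add_add_cancel, ← two_smul F (φ (ι F v)), smul_smul,
      inv_mul_cancel₀ h2, one_smul]
  have rel : ∀ v w, a v * a w = 0 ∧ a v * o w + a w * o v = 0 := by
    intro v w
    have h0 := congrArg φ (ι_add_mul_swap (R := F) v w)
    rw [map_add, map_mul, map_mul, map_zero, hoa, hoa] at h0
    have c1 : o w * o v = -(o v * o w) := by rw [odd_comm (ho v), ho, mul_neg]
    have c2 : o v * a w = a w * o v := even_comm (ha w) _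
    have c3 : o w * a v = a v * o w := even_comm (ha v) _
    have c4 : a w * a v = a v * a w := even_comm (ha v) _
    have h1 : (2 : F) • (a v * a w) + (2 : F) • (a v * o w + a w * o v) = 0 + 0 := by
      rw [add_zero, ← h0]
      simp only [add_mul, mul_add, c1, c2, c3, c4, two_smul]
      abel
    obtain ⟨r1, r2⟩ := split_parity h2 (by rw [map_smul, map_mul, ha, ha])
      (by rw [map_smul, map_add, map_mul, map_mul, ha, ha, ho, ho, mul_neg, mul_neg, ← neg_add,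
        smul_neg]) (map_zero _) (by simp) h1
    exact ⟨(smul_eq_zero.mp r1).resolve_left h2, (smul_eq_zero.mp r2).resolve_left h2⟩
  have prod2 : ∀ (t : F) v w, (o v + t • a v) * (o w + t • a w) = o v * o w := by
    intro t v w
    have c2 : o v * a w = a w * o v := even_comm (ha w) _
    have := (rel v w).2
    rw [add_mul, mul_add, mul_add, mul_smul_comm, smul_mul_assoc, smul_mul_assoc, mul_smul_comm,
      (rel v w).1, c2, smul_zero, smul_zero, add_zero, add_assoc, ← smul_add,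
      add_comm (a w * o v), this, smul_zero, add_zero]
  let Φ : F → (ExteriorAlgebra F V →ₐ[F] ExteriorAlgebra F V) := fun t =>
    ExteriorAlgebra.lift F ⟨o + t • a, fun v => by
      change (o v + t • a v) * (o v + t • a v) = 0
      rw [prod2, odd_sq h2 (ho v)]⟩
  have hΦ : ∀ t v, Φ t (ι F v) = o v + t • a v := fun t v => lift_ι_apply _ _ _ _
  have hΦ1 : Φ 1 = φ := by
    ext v
    simp [hΦ, hoa]
  have hpar : Par (Φ 0) := par_of_ι fun v => by rw [hΦ, zero_smul, add_zero, ho]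
  have hev : ∀ (t : F) x, par x = x → Φ t x = Φ 0 x := by
    intro t x hx
    have hm := mem_even h2 hx
    clear hx
    induction x, hm using CliffordAlgebra.even_induction with
    | algebraMap r => rw [AlgHom.commutes, AlgHom.commutes]
    | add x y _ _ hx hy => rw [map_add, map_add, hx, hy]
    | ι_mul_ι_mul v w x _ hx =>
      rw [map_mul, map_mul, map_mul, map_mul, hx, hΦ, hΦ, hΦ, hΦ, prod2, prod2]
  have hodd : ∀ x, par x = -x → ∃ d, par d = d ∧ ∀ t : F, Φ t x = Φ 0 x + t • d := by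
    intro x hx
    have hm := mem_odd h2 hx
    clear hx
    induction x, hm using CliffordAlgebra.odd_induction with
    | ι v => exact ⟨a v, ha v, fun t => by rw [hΦ, hΦ, zero_smul, add_zero]⟩
    | add x y _ _ hx hy =>
      obtain ⟨d, hd, h⟩ := hx
      obtain ⟨d', hd', h'⟩ := hy
      refine ⟨d + d', by rw [map_add, hd, hd'], fun t => ?_⟩
      rw [map_add, map_add, h t, h' t, smul_add]; abel
    | ι_mul_ι_mul v w x _ hx =>
      obtain ⟨d, hd, h⟩ := hx
      refine ⟨o v * o w * d, by rw [map_mul, map_mul, ho, ho, hd, neg_mul_neg], fun t => ?_⟩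
      rw [map_mul, map_mul, map_mul, map_mul, h t, hΦ, hΦ, hΦ, hΦ, prod2, prod2, mul_add,
        mul_smul_comm]
  have key : ∀ (s t : F) v, Φ s (Φ t (ι F v)) = ι F v + (t - s) • Φ 0 (a v) := by
    intro s t v
    obtain ⟨d, hd, h⟩ := hodd (o v) (ho v)
    have gen : ∀ s t : F, Φ s (Φ t (ι F v)) = Φ 0 (o v) + s • d + t • Φ 0 (a v) := fun s t => by
      rw [hΦ, map_add, map_smul, h s, hev s _ (ha v)]
    have h11 := gen 1 1
    rw [hΦ1, hφ, one_smul, one_smul] at h11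
    obtain ⟨r1, r2⟩ := split_parity h2 (x := 0) (y := ι F v) (x' := d + Φ 0 (a v))
      (y' := Φ 0 (o v)) (map_zero _) (par_ι v) (by rw [map_add, hd, ← hpar, ha])
      (hpar.odd (ho v)) (by rw [zero_add, h11]; abel)
    have hd' : d = -Φ 0 (a v) := eq_neg_of_add_eq_zero_left r1.symm
    rw [gen, ← r2, hd', sub_smul, smul_neg]; abel
  have inv : ∀ (t : F) x, Φ t (Φ t x) = x := fun t x => by
    have : (Φ t).comp (Φ t) = AlgHom.id F _ := by
      ext v
      simp [key]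
    exact AlgHom.congr_fun this x
  refine ⟨Φ 2⁻¹, Φ 0, hpar, inv 0, inv _, fun x => ?_⟩
  have : (Φ 2⁻¹).comp (Φ 1) = (Φ 0).comp (Φ 2⁻¹) := by
    have e1 : (1 : F) - 2⁻¹ = 2⁻¹ := by field_simp; norm_num
    ext v
    simp [key, e1]
  rw [← hΦ1]
  exact AlgHom.congr_fun this x

/-- every involution of the Grassmann algebra is conjugate to a diagonal one -/
theorem linearize (h2 : (2 : F) ≠ 0) (b0 : Basis ℕ F V)
    (φ : ExteriorAlgebra F V →ₐ[F] ExteriorAlgebra F V) (hφ : ∀ x, φ (φ x) = x) :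
    ∃ (f : ExteriorAlgebra F V ≃ₐ[F] ExteriorAlgebra F V)
      (η : ExteriorAlgebra F V →ₐ[F] ExteriorAlgebra F V), (∀ x, η (η x) = x) ∧
      (∀ i, η (e b0 i) = e b0 i ∨ η (e b0 i) = -e b0 i) ∧ ∀ x, f (φ x) = η (f x) := by
  obtain ⟨θ, ψ, hψ, hψ2, hθ, hc⟩ := make_par h2 φ hφ
  obtain ⟨b, ε, G, hε, hG⟩ := linearize_par h2 b0 ψ hψ hψ2
  obtain ⟨L, -, hL⟩ := exists_hom h2 b (e b0) (par_e b0)
  obtain ⟨L', -, hL'⟩ := exists_hom h2 b0 (e b) (par_e b)
  let L0 : ExteriorAlgebra F V ≃ₐ[F] ExteriorAlgebra F V := AlgEquiv.ofAlgHom L L'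
    (hom_ext_b b0 fun i => by simp [hL, hL']) (hom_ext_b b fun i => by simp [hL, hL'])
  let θ0 : ExteriorAlgebra F V ≃ₐ[F] ExteriorAlgebra F V := AlgEquiv.ofAlgHom θ θ
    (AlgHom.ext hθ) (AlgHom.ext hθ)
  let f := (θ0.trans G.symm).trans L0
  refine ⟨f, f.toAlgHom.comp (φ.comp f.symm.toAlgHom), fun x => ?_, fun i => ?_, fun x => ?_⟩
  · simp [hφ]
  · have e1 : f (φ (f.symm (e b0 i))) = ε i • e b0 i := by
      change L (G.symm (θ (φ (θ (G (L' (e b0 i))))))) = _
      rw [hc, hθ, hL', hG, map_smul, G.symm_apply_apply, map_smul, hL]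
    change f (φ (f.symm (e b0 i))) = _ ∨ f (φ (f.symm (e b0 i))) = _
    rw [e1]
    rcases hε i with h | h <;> simp [h]
  · simp

end Pool.Agent.Lib.helper27.GrassLimit
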