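import Mathlib

set_option autoImplicit false

namespace Pool.Agent.Lib.H27InvJoin

open Matrix Finset

/-- the inversion predicate, set form -/
def P {V : Type} (A : V → V → Prop) (m : ℕ) : Prop :=
  ∃ X : Fin m → Set V, ∃ f : V → ℕ, ∀ u v : V,
    (A u v ∧ Even (Nat.card {j : Fin m // u ∈ X j ∧ v ∈ X j})) ∨
    (A v u ∧ Odd (Nat.card {j : Fin m // u ∈ X j ∧ v ∈ X j})) → f u < f v

/-- the inversion predicate, vector form -/
def Q {V : Type} (A : V → V → Prop) (m : ℕ) : Prop :=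
  ∃ x : V → Fin m → ZMod 2, ∃ f : V → ℕ, ∀ u v : V,
    (A u v ∧ x u ⬝ᵥ x v = 0) ∨ (A v u ∧ x u ⬝ᵥ x v = 1) → f u < f v

lemma z01 (a : ZMod 2) : a = 0 ∨ a = 1 := by
  revert a; decide

lemma card_cast {V : Type} {m : ℕ} (x : V → Fin m → ZMod 2) (u v : V) :
    ((Nat.card {j : Fin m // x u j = 1 ∧ x v j = 1} : ℕ) : ZMod 2) = x u ⬝ᵥ x v := by
  classical
  rw [Nat.card_eq_fintype_card, Fintype.card_subtype, Finset.card_filter]
  push_cast
  unfold dotProduct
  refine Finset.sum_congr rfl fun j _ => ?_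
  rcases z01 (x u j) with h | h <;> rcases z01 (x v j) with h' | h' <;> simp [h, h']

lemma even_iff {V : Type} {m : ℕ} (x : V → Fin m → ZMod 2) (u v : V) :
    Even (Nat.card {j : Fin m // x u j = 1 ∧ x v j = 1}) ↔ x u ⬝ᵥ x v = 0 := by
  rw [← card_cast, ZMod.natCast_eq_zero_iff_even]

lemma odd_iff {V : Type} {m : ℕ} (x : V → Fin m → ZMod 2) (u v : V) :
    Odd (Nat.card {j : Fin m // x u j = 1 ∧ x v j = 1}) ↔ x u ⬝ᵥ x v = 1 := by
  rw [← card_cast, ZMod.natCast_eq_one_iff_odd]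

lemma P_iff_Q {V : Type} (A : V → V → Prop) (m : ℕ) : P A m ↔ Q A m := by
  classical
  constructor
  · rintro ⟨X, f, h⟩
    refine ⟨fun u j => if u ∈ X j then 1 else 0, f, fun u v huv => h u v ?_⟩
    rw [← even_iff (fun u j => if u ∈ X j then 1 else 0) u v,
      ← odd_iff (fun u j => if u ∈ X j then 1 else 0) u v] at huv
    simpa using huv
  · rintro ⟨x, f, h⟩
    refine ⟨fun j => {u | x u j = 1}, f, fun u v huv => h u v ?_⟩
    rw [← even_iff, ← odd_iff]
    simpa using huv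

lemma Q_mono {V : Type} {A B : V → V → Prop} {m : ℕ} (hAB : ∀ u v, A u v → B u v)
    (h : Q B m) : Q A m := by
  obtain ⟨x, f, h⟩ := h
  refine ⟨x, f, fun u v huv => h u v ?_⟩
  rcases huv with ⟨h1, h2⟩ | ⟨h1, h2⟩
  · exact Or.inl ⟨hAB _ _ h1, h2⟩
  · exact Or.inr ⟨hAB _ _ h1, h2⟩

lemma dot_cons {m : ℕ} (a b : ZMod 2) (x y : Fin m → ZMod 2) :
    (Fin.cons a x : Fin (m+1) → ZMod 2) ⬝ᵥ (Fin.cons b y : Fin (m+1) → ZMod 2) = a * b + x ⬝ᵥ y := by
  unfold dotProduct
  rw [Fin.sum_univ_succ]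
  simp

lemma Q_succ {V : Type} {A : V → V → Prop} {m : ℕ} (h : Q A m) : Q A (m+1) := by
  obtain ⟨x, f, h⟩ := h
  refine ⟨fun u => Fin.cons 0 (x u), f, fun u v huv => h u v ?_⟩
  simpa [dot_cons] using huv

lemma Q_le {V : Type} {A : V → V → Prop} {m k : ℕ} (hmk : m ≤ k) (h : Q A m) : Q A k := by
  induction hmk with
  | refl => exact h
  | step _ ih => exact Q_succ ih

lemma Q_inj {n : ℕ} {A : Fin n → Fin n → Prop} {m : ℕ} (h : Q A m) :
    ∃ x : Fin n → Fin m → ZMod 2, ∃ f : Fin n → ℕ, Function.Injective f ∧ ∀ u v,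
    (A u v ∧ x u ⬝ᵥ x v = 0) ∨ (A v u ∧ x u ⬝ᵥ x v = 1) → f u < f v := by
  obtain ⟨x, f, h⟩ := h
  refine ⟨x, fun u => n * f u + u, ?_, fun u v huv => ?_⟩
  · intro u v huv
    have h1 : (n * f u + u) % n = (n * f v + v) % n := by
      simp only at huv
      rw [huv]
    rw [Nat.mul_add_mod, Nat.mul_add_mod, Nat.mod_eq_of_lt u.2, Nat.mod_eq_of_lt v.2] at h1
    exact Fin.ext h1
  · have := h u v huv
    have h2 : n * (f u + 1) ≤ n * f v := Nat.mul_le_mul_left _ this
    have := u.2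
    show n * f u + u < n * f v + v
    nlinarith

lemma Q_step {n : ℕ} {A : Fin n → Fin n → Prop} (hA : ∀ a b, A a b → ¬ A b a) {m : ℕ}
    (p q : Fin n) (hpq : A p q) (h : Q (fun u v => A u v ∧ ¬ (u = p ∧ v = q)) m) :
    Q A (m+1) := by
  classical
  obtain ⟨x, f, hf, h⟩ := Q_inj h
  have hne : p ≠ q := by
    rintro rfl
    exact hA _ _ hpq hpq
  have hfne : f p ≠ f q := fun e => hne (hf e)
  -- c = 1 if the arc has to be flipped once more
  let c : ZMod 2 := x p ⬝ᵥ x q + (if f p < f q then 0 else 1)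
  refine ⟨fun u => Fin.cons (if u = p then c else if u = q then c else 0) (x u), f,
    fun u v huv => ?_⟩
  simp only [dot_cons] at huv
  have hcc : c * c = c := by rcases z01 c with e | e <;> simp [e]
  have hxx : ∀ a : ZMod 2, a + a = 0 := by decide
  by_cases h1 : u = p ∧ v = q
  · obtain ⟨rfl, rfl⟩ := h1
    simp only [if_true, hne.symm, if_false, hcc] at huv
    rcases huv with ⟨_, h2⟩ | ⟨h1, _⟩
    · by_contra hlt
      simp only [c, hlt, if_false] at h2
      rw [add_comm (x u ⬝ᵥ x v), add_assoc, hxx] at h2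
      simp at h2
    · exact absurd h1 (hA _ _ hpq)
  by_cases h2 : u = q ∧ v = p
  · obtain ⟨rfl, rfl⟩ := h2
    simp only [if_true, hne.symm, if_false, hcc] at huv
    rcases huv with ⟨h1, _⟩ | ⟨_, h2⟩
    · exact absurd h1 (hA _ _ hpq)
    · by_contra hlt
      have hlt' : f v < f u := by omega
      simp only [c, hlt', if_true] at h2
      rw [dotProduct_comm (x u), add_zero, hxx] at h2
      simp at h2
  have huv' : u ≠ v := by
    rintro rfl
    rcases huv with ⟨h1, _⟩ | ⟨h1, _⟩ <;> exact hA _ _ h1 h1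
  have hz : (if u = p then c else if u = q then c else 0) *
      (if v = p then c else if v = q then c else 0) = 0 := by
    by_cases e1 : u = p
    · have e2 : v ≠ p := fun e => huv' (e1.trans e.symm)
      have e3 : v ≠ q := fun e => h1 ⟨e1, e⟩
      simp [e2, e3]
    · by_cases e4 : u = q
      · have e2 : v ≠ p := fun e => h2 ⟨e4, e⟩
        have e3 : v ≠ q := fun e => huv' (e4.trans e.symm)
        simp [e2, e3]
      · simp [e1, e4]
  rw [hz, zero_add] at huv
  apply h u v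
  rcases huv with ⟨a, b⟩ | ⟨a, b⟩
  · exact Or.inl ⟨⟨a, h1⟩, b⟩
  · exact Or.inr ⟨⟨a, fun e => h2 ⟨e.2, e.1⟩⟩, b⟩

lemma exists_sub {n m : ℕ} : ∀ (N : ℕ) (A : Fin n → Fin n → Prop), (∀ a b, A a b → ¬ A b a) →
    Nat.card {p : Fin n × Fin n // A p.1 p.2} ≤ N → ¬ Q A m →
    ∃ B : Fin n → Fin n → Prop, (∀ u v, B u v → A u v) ∧ ¬ Q B m ∧ Q B (m+1) := by
  classical
  intro N
  induction N with
  | zero =>
    intro A hA hc hQ
    exfalso
    apply hQ
    refine ⟨fun _ _ => 0, fun _ => 0, fun u v huv => ?_⟩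
    have : ∀ u v, ¬ A u v := by
      intro u v huv
      have : 0 < Nat.card {p : Fin n × Fin n // A p.1 p.2} := by
        have : Nonempty {p : Fin n × Fin n // A p.1 p.2} := ⟨⟨(u, v), huv⟩⟩
        exact Nat.card_pos
      omega
    rcases huv with ⟨h, _⟩ | ⟨h, _⟩ <;> exact absurd h (this _ _)
  | succ N ih =>
    intro A hA hc hQ
    by_cases h0 : ∀ u v, ¬ A u v
    · exfalso
      apply hQ
      refine ⟨fun _ _ => 0, fun _ => 0, fun u v huv => ?_⟩
      rcases huv with ⟨h, _⟩ | ⟨h, _⟩ <;> exact absurd h (h0 _ _)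
    push Not at h0
    obtain ⟨p, q, hpq⟩ := h0
    by_cases h1 : Q (fun u v => A u v ∧ ¬ (u = p ∧ v = q)) m
    · exact ⟨A, fun _ _ h => h, hQ, Q_step hA p q hpq h1⟩
    · have hc' : Nat.card {r : Fin n × Fin n // A r.1 r.2 ∧ ¬ (r.1 = p ∧ r.2 = q)} ≤ N := by
        rw [Nat.card_eq_fintype_card, Fintype.card_subtype] at hc ⊢
        have : (univ.filter fun r : Fin n × Fin n => A r.1 r.2 ∧ ¬ (r.1 = p ∧ r.2 = q)).card <
            (univ.filter fun r : Fin n × Fin n => A r.1 r.2).card := by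
          apply Finset.card_lt_card
          rw [Finset.ssubset_iff_of_subset]
          · exact ⟨(p, q), by simp [hpq], by simp⟩
          · intro r hr
            simp only [mem_filter, mem_univ, true_and] at hr ⊢
            exact hr.1
        omega
      obtain ⟨B, hB, hB1, hB2⟩ := ih (fun u v => A u v ∧ ¬ (u = p ∧ v = q))
        (fun a b h h' => hA a b h.1 h'.1) hc' h1
      exact ⟨B, fun u v h => (hB u v h).1, hB1, hB2⟩

lemma sInf_eq {V : Type} {B : V → V → Prop} {m : ℕ} (h1 : ¬ Q B m) (h2 : Q B (m+1)) :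
    sInf {k : ℕ | P B k} = m + 1 := by
  apply le_antisymm
  · exact Nat.sInf_le ((P_iff_Q _ _).2 h2)
  · apply le_csInf ⟨m+1, (P_iff_Q _ _).2 h2⟩
    intro k hk
    by_contra hlt
    exact h1 (Q_le (by omega) ((P_iff_Q _ _).1 hk))

/-- tournament of a family of vectors -/
def Tour {t s : ℕ} (y : Fin t → Fin s → ZMod 2) (a b : Fin t) : Prop :=
  (a < b ∧ y a ⬝ᵥ y b = 0) ∨ (b < a ∧ y a ⬝ᵥ y b = 1)

lemma Tour_asymm {t s : ℕ} (y : Fin t → Fin s → ZMod 2) (a b : Fin t) (h : Tour y a b) :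
    ¬ Tour y b a := by
  intro h'
  rcases h with ⟨h1, h2⟩ | ⟨h1, h2⟩ <;> rcases h' with ⟨h3, h4⟩ | ⟨h3, h4⟩
  · exact absurd h1 (not_lt.2 h3.le)
  · rw [dotProduct_comm, h2] at h4; exact absurd h4 (by decide)
  · rw [dotProduct_comm, h2] at h4; exact absurd h4 (by decide)
  · exact absurd h1 (not_lt.2 h3.le)

lemma Tour_fin {t s : ℕ} (y : Fin t → Fin s → ZMod 2) (u v : Fin t)
    (h : (Tour y u v ∧ y u ⬝ᵥ y v = 0) ∨ (Tour y v u ∧ y u ⬝ᵥ y v = 1)) : u < v := by
  rcases h with ⟨⟨h1, h2⟩ | ⟨h1, h2⟩, h3⟩ | ⟨⟨h1, h2⟩ | ⟨h1, h2⟩, h3⟩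
  · exact h1
  · rw [h2] at h3; exact absurd h3 (by decide)
  · rw [dotProduct_comm, h3] at h2; exact absurd h2 (by decide)
  · exact h1

abbrev Code (m r : ℕ) : Type :=
  (Fin (m + r) → Fin (m + r)) × ((Fin m ⊕ Fin r) ≃ Fin (m + r)) × (Sym2 (Fin m) → ZMod 2) ×
    (Fin r → Fin m → ZMod 2)

def coef {m r : ℕ} (σ : (Fin m ⊕ Fin r) ≃ Fin (m + r)) (c : Fin r → Fin m → ZMod 2)
    (a : Fin (m + r)) : Fin m → ZMod 2 :=
  Sum.elim (fun l => Pi.single l 1) c (σ.symm a)

def decode {m r : ℕ} (w : Code m r) (a b : Fin (m + r)) : ZMod 2 :=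
  (∑ l, ∑ k, coef w.2.1 w.2.2.2 a l * coef w.2.1 w.2.2.2 b k * w.2.2.1 s(l, k)) +
    (if w.1 b < w.1 a then 1 else 0)

lemma exists_basis {m r : ℕ} (x : Fin (m + r) → Fin m → ZMod 2) :
    ∃ σ : (Fin m ⊕ Fin r) ≃ Fin (m + r), ∃ c : Fin r → Fin m → ZMod 2,
      ∀ a, x a = ∑ l, coef σ c a l • x (σ (Sum.inl l)) := by
  classical
  have : Fact (Nat.Prime 2) := ⟨Nat.prime_two⟩
  obtain ⟨κ, e, he, hspan, hli⟩ := exists_linearIndependent' (ZMod 2) x
  have : Finite κ := Finite.of_injective e he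
  have : Fintype κ := Fintype.ofFinite κ
  have hcard : Fintype.card κ ≤ m := by
    have := hli.fintype_card_le_finrank
    simpa using this
  obtain ⟨S, hS1, hS2⟩ : ∃ S : Finset (Fin (m + r)), univ.image e ⊆ S ∧ S.card = m := by
    apply Finset.exists_superset_card_eq
    · exact le_trans Finset.card_image_le (by simpa using hcard)
    · simp
  have e1 : Fin m ≃ {a // a ∈ S} := (Finset.equivFinOfCardEq hS2).symm
  have e2 : Fin r ≃ {a // a ∉ S} := by
    refine (Fintype.equivFinOfCardEq ?_).symm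
    rw [Fintype.card_subtype_compl]
    simp [hS2]
  let σ : (Fin m ⊕ Fin r) ≃ Fin (m + r) := (Equiv.sumCongr e1 e2).trans (Equiv.sumCompl (· ∈ S))
  have hsp : ∀ a, x a ∈ Submodule.span (ZMod 2) (Set.range fun l => x (σ (Sum.inl l))) := by
    intro a
    have h1 : x a ∈ Submodule.span (ZMod 2) (Set.range (x ∘ e)) := by
      rw [hspan]; exact Submodule.subset_span ⟨a, rfl⟩
    refine Submodule.span_mono ?_ h1
    rintro _ ⟨i, rfl⟩
    have hi : e i ∈ S := hS1 (by simp)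
    refine ⟨e1.symm ⟨e i, hi⟩, ?_⟩
    simp [σ]
  have hc : ∀ a, ∃ c : Fin m → ZMod 2, ∑ l, c l • x (σ (Sum.inl l)) = x a := fun a =>
    (Submodule.mem_span_range_iff_exists_fun _).1 (hsp a)
  choose c hc using hc
  refine ⟨σ, fun j => c (σ (Sum.inr j)), fun a => ?_⟩
  obtain ⟨z, rfl⟩ := σ.surjective a
  rcases z with l | j
  · simp [coef, Pi.single_apply]
  · simp [coef, hc]

lemma exists_code {m r s : ℕ} (y : Fin (m + r) → Fin s → ZMod 2) (h : Q (Tour y) m) :
    ∃ w : Code m r, ∀ a b, a < b → y a ⬝ᵥ y b = decode w a b := by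
  classical
  obtain ⟨x, f, hf, h⟩ := Q_inj h
  obtain ⟨σ, c, hc⟩ := exists_basis x
  let g : Fin (m + r) → Fin (m + r) := fun a => ⟨(univ.filter fun z => f z < f a).card, by
    have : (univ.filter fun z => f z < f a).card < (univ : Finset (Fin (m + r))).card := by
      apply Finset.card_lt_card
      rw [Finset.ssubset_iff_of_subset (Finset.subset_univ _)]
      exact ⟨a, by simp, by simp⟩
    simpa using this⟩
  have hg : ∀ a b, f a < f b → g a < g b := by
    intro a b hab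
    show (univ.filter fun z => f z < f a).card < (univ.filter fun z => f z < f b).card
    apply Finset.card_lt_card
    rw [Finset.ssubset_iff_of_subset]
    · exact ⟨a, by simp [hab], by simp⟩
    · intro z hz
      simp only [mem_filter, mem_univ, true_and] at hz ⊢
      omega
  let G : Sym2 (Fin m) → ZMod 2 := Sym2.lift ⟨fun l k => x (σ (Sum.inl l)) ⬝ᵥ x (σ (Sum.inl k)),
    fun l k => dotProduct_comm _ _⟩
  refine ⟨(g, σ, G, c), fun a b hab => ?_⟩
  have hdot : x a ⬝ᵥ x b = ∑ l, ∑ k, coef σ c a l * coef σ c b k * G s(l, k) := by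
    conv_lhs => rw [hc a, hc b]
    rw [sum_dotProduct]
    refine Finset.sum_congr rfl fun l _ => ?_
    rw [dotProduct_sum]
    refine Finset.sum_congr rfl fun k _ => ?_
    simp only [G, Sym2.lift_mk, smul_dotProduct, dotProduct_smul, smul_eq_mul]
    ring
  unfold decode
  simp only
  rw [← hdot]
  have h1 := h a b
  have h2 := h b a
  rw [dotProduct_comm (x b)] at h2
  have hab' : ¬ b < a := not_lt.2 hab.le
  rcases z01 (y a ⬝ᵥ y b) with e | e <;> rcases z01 (x a ⬝ᵥ x b) with e' | e'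
  · have := hg _ _ (h1 (Or.inl ⟨Or.inl ⟨hab, e⟩, e'⟩))
    rw [e, e', if_neg (not_lt.2 this.le)]; simp
  · have := hg _ _ (h2 (Or.inr ⟨Or.inl ⟨hab, e⟩, e'⟩))
    rw [e, e', if_pos this]; decide
  · have := hg _ _ (h2 (Or.inl ⟨Or.inr ⟨hab, by rw [dotProduct_comm]; exact e⟩, e'⟩))
    rw [e, e', if_pos this]; simp
  · have := hg _ _ (h1 (Or.inr ⟨Or.inr ⟨hab, by rw [dotProduct_comm]; exact e⟩, e'⟩))
    rw [e, e', if_neg (not_lt.2 this.le)]; simp

lemma card_code (m r : ℕ) : Fintype.card (Code m r) =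
    (m + r) ^ (m + r) * ((m + r).factorial * (2 ^ ((m + 1).choose 2) * (2 ^ m) ^ r)) := by
  classical
  simp only [Code, Fintype.card_prod, Fintype.card_fun, Fintype.card_fin, ZMod.card, Sym2.card]
  rw [Fintype.card_equiv finSumFinEquiv]
  simp

/-- unit triangular matrices are determined by the off-diagonal part of the Gram matrix
of the columns -/
lemma tri_inj {ι : Type} [Fintype ι] [LinearOrder ι] (U W : ι → ι → ZMod 2)
    (hU0 : ∀ i l, i < l → U i l = 0) (hU1 : ∀ i, U i i = 1)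
    (hW0 : ∀ i l, i < l → W i l = 0) (hW1 : ∀ i, W i i = 1)
    (h : ∀ i j, i < j → U i ⬝ᵥ U j = W i ⬝ᵥ W j) : U = W := by
  classical
  have key : ∀ l : ι, ∀ j, U j l = W j l := by
    intro l
    induction l using WellFoundedLT.induction with
    | ind i ih =>
      intro j
      rcases lt_trichotomy j i with hj | hj | hj
      · rw [hU0 _ _ hj, hW0 _ _ hj]
      · rw [hj, hU1, hW1]
      · have h1 := h i j hj
        unfold dotProduct at h1
        rw [← Finset.add_sum_erase _ _ (mem_univ i), ← Finset.add_sum_erase _ _ (mem_univ i),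
          hU1, hW1, one_mul, one_mul] at h1
        have h2 : ∑ l ∈ univ.erase i, U i l * U j l = ∑ l ∈ univ.erase i, W i l * W j l := by
          refine Finset.sum_congr rfl fun l hl => ?_
          rcases lt_trichotomy l i with h3 | h3 | h3
          · rw [ih l h3 i, ih l h3 j]
          · exact absurd h3 (Finset.ne_of_mem_erase hl)
          · rw [hU0 _ _ h3, hW0 _ _ h3]; simp
        rw [h2] at h1
        exact add_right_cancel h1
  funext j l
  exact key l j

/-- index type of the free entries -/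
abbrev Fam (t : ℕ) : Type := (Σ i : Fin t, Fin i.val) → ZMod 2

def LM {t : ℕ} (φ : Fam t) : Matrix (Fin t) (Fin t) (ZMod 2) :=
  fun i l => if h : l < i then φ ⟨i, ⟨l.val, h⟩⟩ else if l = i then 1 else 0

lemma LM0 {t : ℕ} (φ : Fam t) (i l : Fin t) (h : i < l) : LM φ i l = 0 := by
  simp [LM, not_lt.2 h.le, h.ne']

lemma LM1 {t : ℕ} (φ : Fam t) (i : Fin t) : LM φ i i = 1 := by
  simp [LM]

lemma LM_inj {t : ℕ} {φ ψ : Fam t} (h : LM φ = LM ψ) : φ = ψ := by
  funext ⟨i, j⟩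
  have h1 := congrFun (congrFun h i) ⟨j.val, lt_trans j.2 i.2⟩
  have h2 : (⟨j.val, lt_trans j.2 i.2⟩ : Fin t) < i := j.2
  simpa [LM, h2] using h1

def CM (t : ℕ) : Matrix (Fin t) (Fin t) (ZMod 2) := fun i j => if j ≤ i then 1 else 0

lemma tri_det {t : ℕ} (M : Matrix (Fin t) (Fin t) (ZMod 2)) (h0 : ∀ i l, i < l → M i l = 0) :
    M.det = ∏ i, M i i :=
  Matrix.det_of_lowerTriangular M (fun i l h => h0 i l h)

lemma LM_det {t : ℕ} (φ : Fam t) : (LM φ).det = 1 := by
  rw [tri_det _ (LM0 φ)]; simp [LM1]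

noncomputable def YM {t : ℕ} (φ : Fam t) : Matrix (Fin t) (Fin t) (ZMod 2) := (LM φ)⁻¹ * CM t

lemma LY {t : ℕ} (φ : Fam t) : LM φ * YM φ = CM t := by
  unfold YM
  rw [← Matrix.mul_assoc, Matrix.mul_nonsing_inv _ (by simp [LM_det]), Matrix.one_mul]

lemma YM0 {t : ℕ} (φ : Fam t) (i l : Fin t) (h : i < l) : YM φ i l = 0 := by
  have hu : IsUnit (LM φ).det := by simp [LM_det]
  have := Matrix.invertibleOfIsUnitDet _ hu
  have h1 : (LM φ).BlockTriangular OrderDual.toDual := fun i l h => LM0 φ i l h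
  have h2 : (CM t).BlockTriangular OrderDual.toDual := fun i l h => by
    have : i < l := h
    simp [CM, not_le.2 this]
  exact ((Matrix.blockTriangular_inv_of_blockTriangular h1).mul h2) (show _ from h)

lemma YM1 {t : ℕ} (φ : Fam t) (i : Fin t) : YM φ i i = 1 := by
  have h := congrFun (congrFun (LY φ) i) i
  rw [Matrix.mul_apply, Finset.sum_eq_single i] at h
  · simpa [LM1, CM] using h
  · intro l _ hl
    rcases lt_or_gt_of_ne hl with h1 | h1
    · rw [YM0 φ _ _ h1, mul_zero]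
    · rw [LM0 φ _ _ h1, zero_mul]
  · simp

lemma YM_inj {t : ℕ} {φ ψ : Fam t} (h : YM φ = YM ψ) : φ = ψ := by
  apply LM_inj
  have h1 : LM φ * YM φ = LM ψ * YM φ := by rw [LY, h, LY]
  have hu : IsUnit (YM φ).det := by
    rw [tri_det _ (YM0 φ)]; simp [YM1]
  have h2 := congrArg (· * (YM φ)⁻¹) h1
  simpa [Matrix.mul_assoc, Matrix.mul_nonsing_inv _ hu] using h2

lemma card_fam (t : ℕ) : Fintype.card (Fam t) = 2 ^ (∑ i ∈ range t, i) := by
  simp only [Fam, Fintype.card_fun, ZMod.card, Fintype.card_sigma, Fintype.card_fin]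
  rw [Fin.sum_univ_eq_sum_range (fun i => i) t]

lemma exists_good' (m r : ℕ)
    (hnum : 2 * ((m + r) ^ (m + r) * ((m + r).factorial * (2 ^ ((m + 1).choose 2) * (2 ^ m) ^ r))) <
      2 ^ (∑ i ∈ range (m + r), i)) :
    ∃ φ : Fam (m + r), ¬ Q (Tour (LM φ)) m ∧ ¬ Q (Tour (YM φ)ᵀ) m := by
  classical
  by_contra hcon
  have hcon' : ∀ φ : Fam (m + r), ∃ w : Code m r ⊕ Code m r,
      Sum.elim (fun w => ∀ a b, a < b → LM φ a ⬝ᵥ LM φ b = decode w a b)
        (fun w => ∀ a b, a < b → (YM φ)ᵀ a ⬝ᵥ (YM φ)ᵀ b = decode w a b) w := by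
    intro φ
    by_cases h1 : Q (Tour (LM φ)) m
    · obtain ⟨w, hw⟩ := exists_code _ h1
      exact ⟨Sum.inl w, hw⟩
    · by_cases h2 : Q (Tour (YM φ)ᵀ) m
      · obtain ⟨w, hw⟩ := exists_code _ h2
        exact ⟨Sum.inr w, hw⟩
      · exact absurd ⟨φ, h1, h2⟩ hcon
  choose F hF using hcon'
  have hinj : Function.Injective F := by
    intro φ ψ h
    have h1 := hF φ
    have h2 := hF ψ
    rw [← h] at h2
    rcases hw : F φ with w | w <;> rw [hw] at h1 h2 <;> simp only [Sum.elim_inl, Sum.elim_inr] at h1 h2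
    · apply LM_inj
      exact tri_inj _ _ (LM0 φ) (LM1 φ) (LM0 ψ) (LM1 ψ) fun i j hij => by
        rw [h1 i j hij, h2 i j hij]
    · apply YM_inj
      apply Matrix.transpose_injective
      refine tri_inj (ι := (Fin (m + r))ᵒᵈ) _ _ (fun i l h => YM0 φ l i h) (YM1 φ)
        (fun i l h => YM0 ψ l i h) (YM1 ψ) fun i j hij => ?_
      have e1 := h1 j i hij
      have e2 := h2 j i hij
      rw [dotProduct_comm] at e1 e2
      exact e1.trans e2.symm
  have hle := Fintype.card_le_of_injective F hinj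
  rw [card_fam, Fintype.card_sum, card_code] at hle
  omega

lemma exists_good : ∃ φ : Fam (63 + 64), ¬ Q (Tour (LM φ)) 63 ∧ ¬ Q (Tour (YM φ)ᵀ) 63 := by
  apply exists_good'
  have h1 : ∑ i ∈ range (63 + 64), i = 8001 := by decide +kernel
  have h2 : (63 + 1).choose 2 = 2016 := by
    rw [Nat.choose_two_right]
  rw [h1, h2]
  decide +kernel

end Pool.Agent.Lib.H27InvJoin
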