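import Pool.Agent.Lib.helper27.MonicPIData

set_option autoImplicit false

namespace Pool.Agent.Lib.helper27.MonicPI

theorem c60 : chk6 0 = true := by decide +kernel
theorem c61 : chk6 1 = true := by decide +kernel
theorem c62 : chk6 2 = true := by decide +kernel
theorem c63 : chk6 3 = true := by decide +kernel
theorem c64 : chk6 4 = true := by decide +kernel

theorem c6 (x : ℕ) (hx : x < 5) : chk6 x = true := by
  interval_cases x
  exacts [c60, c61, c62, c63, c64]

theorem c4 : ∀ x < 5, chk5 0 x = true := by decide +kernel

theorem cid : ((words 5).all fun w =>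
    R (val 1 w) == if w = [0, 1, 2, 3, 4] then 2 else 0) = true := by decide +kernel

theorem cid2 : okh (hs [0, 1, 2, 3, 4]) 5 = true := by decide +kernel

end Pool.Agent.Lib.helper27.MonicPI
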