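import Pool.Agent.Lib.helper27.MonicPIChkA

set_option autoImplicit false

namespace Pool.Agent.Lib.helper27.MonicPI

theorem c50 : chk5 1 0 = true := by decide +kernel
theorem c51 : chk5 1 1 = true := by decide +kernel
theorem c52 : chk5 1 2 = true := by decide +kernel
theorem c53 : chk5 1 3 = true := by decide +kernel
theorem c54 : chk5 1 4 = true := by decide +kernel

theorem c5 (x : ℕ) (hx : x < 5) : chk5 1 x = true := by
  interval_cases x
  exacts [c50, c51, c52, c53, c54]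

theorem sG0 : srt (Gw.flatMap (mid 0) ++ LK 0) = srt (DD 0 ++ DD 0) := by decide +kernel
theorem sG1 : srt (Gw.flatMap (mid 1) ++ LK 1) = srt (DD 1 ++ DD 1) := by decide +kernel
theorem sG2 : srt (Gw.flatMap (mid 2) ++ LK 2) = srt (DD 2 ++ DD 2) := by decide +kernel
theorem sG3 : srt (Gw.flatMap (mid 3) ++ LK 3) = srt (DD 3 ++ DD 3) := by decide +kernel

theorem sG (i : ℕ) (hi : i < 4) : srt (Gw.flatMap (mid i) ++ LK i) = srt (DD i ++ DD i) := by
  interval_cases i
  exacts [sG0, sG1, sG2, sG3]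

theorem pE : ∀ i < 4, ∀ w ∈ Se ++ So ++ Gw, expd i w = w :: (mid i w ++ [rep i w]) := by
  decide +kernel
theorem pM : ∀ i < 4, Se.flatMap (mid i) = [] ∧ So.flatMap (mid i) = [] := by decide +kernel
theorem pK : ∀ i < 4, ∀ k ∈ KK i, ∀ j < 4, k.2.1.getD j [] ≠ [] := by decide +kernel
theorem pSe : ∀ w ∈ Se, w.Perm [0, 1, 2, 3] := by decide +kernel
theorem pSo : ∀ w ∈ So, w.Perm [0, 1, 2, 3] := by decide +kernel
theorem pG0 : ∀ w ∈ G0, w.Perm [0, 0, 1, 2, 3] := by decide +kernel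
theorem pG1 : ∀ w ∈ G1, w.Perm [1, 0, 1, 2, 3] := by decide +kernel
theorem pG2 : ∀ w ∈ G2, w.Perm [2, 0, 1, 2, 3] := by decide +kernel
theorem pG3 : ∀ w ∈ G3, w.Perm [3, 0, 1, 2, 3] := by decide +kernel

def sw (i : ℕ) (c : ℕ) : ℕ := if c = i then i + 1 else if c = i + 1 then i else c

theorem pSw : ∀ i < 3, (Se.map (List.map (sw i))).Perm So ∧ (So.map (List.map (sw i))).Perm Se := by
  decide +kernel

end Pool.Agent.Lib.helper27.MonicPI
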