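import Mathlib

set_option autoImplicit false

namespace Pool.Agent.Lib.helper27.MonicPI

def Se : List (List ℕ) := [[0,1,2,3],[0,2,3,1],[0,3,1,2],[1,0,3,2],[1,2,0,3],[1,3,2,0],[2,0,1,3],[2,1,3,0],[2,3,0,1],[3,0,2,1],[3,1,0,2],[3,2,1,0]]
def So : List (List ℕ) := [[0,1,3,2],[0,2,1,3],[0,3,2,1],[1,0,2,3],[1,2,3,0],[1,3,0,2],[2,0,3,1],[2,1,0,3],[2,3,1,0],[3,0,1,2],[3,1,2,0],[3,2,0,1]]
def G0 : List (List ℕ) := [[0,0,1,2,3],[0,0,1,3,2],[0,0,2,1,3],[0,0,2,3,1],[0,2,3,0,1],[0,2,3,1,0],[0,3,0,2,1],[0,3,1,0,2],[0,3,1,2,0],[0,3,2,0,1],[1,0,2,0,3],[1,0,2,3,0],[1,0,3,0,2],[1,0,3,2,0],[1,2,0,3,0],[1,3,0,2,0],[2,0,1,0,3],[2,0,1,3,0],[2,1,0,3,0],[2,3,0,0,1],[2,3,0,1,0],[2,3,1,0,0],[3,0,0,1,2],[3,0,2,0,1],[3,1,0,2,0],[3,2,1,0,0]]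
def G1 : List (List ℕ) := [[0,1,1,2,3],[0,1,3,2,1],[0,2,1,3,1],[0,3,1,1,2],[1,0,1,3,2],[1,0,2,1,3],[1,0,2,3,1],[1,0,3,2,1],[1,2,0,1,3],[1,2,0,3,1],[1,2,1,3,0],[1,2,3,1,0],[1,3,0,2,1],[1,3,1,0,2],[2,0,1,3,1],[2,1,1,0,3],[2,1,3,1,0],[2,3,0,1,1],[3,0,1,1,2],[3,1,0,2,1],[3,1,1,2,0],[3,1,2,0,1],[3,1,2,1,0],[3,2,0,1,1],[3,2,1,0,1],[3,2,1,1,0]]
def G2 : List (List ℕ) := [[0,1,3,2,2],[0,2,1,2,3],[0,2,3,2,1],[0,3,1,2,2],[1,0,3,2,2],[1,2,0,3,2],[1,2,2,0,3],[1,2,3,0,2],[1,2,3,2,0],[1,3,2,0,2],[2,0,1,3,2],[2,0,3,1,2],[2,1,0,2,3],[2,1,2,3,0],[2,1,3,0,2],[2,1,3,2,0],[2,2,0,1,3],[2,2,0,3,1],[2,2,3,0,1],[2,2,3,1,0],[2,3,0,1,2],[2,3,1,2,0],[3,0,1,2,2],[3,1,2,2,0],[3,2,0,2,1],[3,2,1,0,2]]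
def G3 : List (List ℕ) := [[0,1,2,3,3],[0,2,3,3,1],[0,3,1,3,2],[0,3,2,1,3],[1,0,2,3,3],[1,2,0,3,3],[1,3,0,3,2],[1,3,2,3,0],[2,0,3,1,3],[2,1,0,3,3],[2,3,0,1,3],[2,3,0,3,1],[2,3,1,0,3],[2,3,3,1,0],[3,0,1,3,2],[3,0,2,1,3],[3,0,3,1,2],[3,0,3,2,1],[3,1,0,3,2],[3,1,2,3,0],[3,1,3,0,2],[3,1,3,2,0],[3,2,1,0,3],[3,2,3,1,0],[3,3,2,0,1],[3,3,2,1,0]]
def Gw : List (List ℕ) := G0 ++ (G1 ++ (G2 ++ G3))
def KK : ℕ → List (List ℕ × List (List ℕ) × List ℕ)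
  | 0 => [([],[[0],[2],[3,1],[4]],[]),([],[[0],[2],[3],[4]],[1]),([],[[0,4],[1],[2],[3]],[]),([1],[[0],[2],[3],[4]],[]),([],[[1],[2],[3],[4,0]],[]),([2],[[0],[1],[3],[4]],[])]
  | 1 => [([],[[0],[1],[3,2],[4]],[]),([],[[0],[1,4],[2],[3]],[]),([],[[0,2],[1],[3],[4]],[]),([],[[0],[2],[3],[4,1]],[]),([],[[1],[2,0],[3],[4]],[]),([],[[1],[2],[3],[4]],[0])]
  | 2 => [([],[[0],[1,3],[2],[4]],[]),([],[[0],[2,1],[3],[4]],[]),([],[[0],[2],[3],[4,1]],[]),([],[[0,3],[1],[2],[4]],[]),([],[[1],[2],[3,0],[4]],[]),([],[[1],[2],[3],[4]],[0])]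
  | _ => [([],[[0],[1],[2],[3,4]],[]),([],[[0],[1],[2],[4,3]],[]),([],[[0],[1],[3],[4]],[2]),([],[[0],[2,1],[3],[4]],[]),([],[[1],[2],[3],[4]],[0]),([2],[[0],[1],[3],[4]],[])]
def DD : ℕ → List (List ℕ)
  | 0 => [[0,4,1,2,3],[4,0,1,2,3],[0,4,1,3,2],[4,0,1,3,2],[0,4,2,1,3],[4,0,2,1,3],[0,4,2,3,1],[0,4,2,3,1],[4,0,2,3,1],[4,0,2,3,1],[0,2,3,4,1],[4,2,3,0,1],[0,2,3,1,4],[4,2,3,1,0],[0,3,4,2,1],[4,3,0,2,1],[0,3,1,4,2],[4,3,1,0,2],[0,3,1,2,4],[4,3,1,2,0],[0,3,2,4,1],[4,3,2,0,1],[1,0,2,4,3],[1,4,2,0,3],[1,0,2,3,4],[1,4,2,3,0],[1,0,3,4,2],[1,4,3,0,2],[1,0,3,2,4],[1,4,3,2,0],[1,2,0,3,4],[1,2,4,3,0],[1,3,0,2,4],[1,3,4,2,0],[2,0,1,4,3],[2,4,1,0,3],[2,0,1,3,4],[2,4,1,3,0],[2,1,0,3,4],[2,1,4,3,0],[2,3,0,4,1],[2,3,0,4,1],[2,3,4,0,1],[2,3,4,0,1],[2,3,0,1,4],[2,3,4,1,0],[2,3,1,0,4],[2,3,1,0,4],[2,3,1,4,0],[2,3,1,4,0],[3,0,4,1,2],[3,4,0,1,2],[3,0,2,4,1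],[3,4,2,0,1],[3,1,0,2,4],[3,1,4,2,0],[3,2,1,0,4],[3,2,1,4,0],[0,2,4,3,1],[0,4,3,1,2],[2,0,3,1,4],[2,0,4,3,1],[2,0,4,3,1],[2,4,0,3,1],[2,4,0,3,1],[2,4,3,1,0],[3,1,0,4,2],[3,1,2,0,4],[3,1,2,4,0],[3,1,4,0,2],[4,0,3,1,2],[4,2,0,3,1],[0,4,3,2,1],[2,0,3,4,1],[2,4,3,0,1],[3,0,4,2,1],[3,2,0,4,1],[3,2,4,0,1],[3,4,0,2,1],[4,0,3,2,1],[1,0,4,2,3],[1,0,4,3,2],[1,2,0,4,3],[1,2,3,0,4],[1,3,0,4,2],[1,3,2,0,4],[2,0,4,1,3],[2,1,0,4,3],[2,1,3,0,4],[1,2,3,4,0],[1,2,4,0,3],[1,3,2,4,0],[1,3,4,0,2],[1,4,0,2,3],[1,4,0,3,2],[2,1,3,4,0],[2,1,4,0,3],[2,4,0,1,3]]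
  | 1 => [[0,1,4,2,3],[0,4,1,2,3],[0,1,3,2,4],[0,4,3,2,1],[0,2,1,3,4],[0,2,4,3,1],[0,3,1,4,2],[0,3,4,1,2],[1,0,4,3,2],[4,0,1,3,2],[1,0,2,4,3],[4,0,2,1,3],[1,0,2,3,4],[4,0,2,3,1],[1,0,3,2,4],[4,0,3,2,1],[1,2,0,4,3],[4,2,0,1,3],[1,2,0,3,4],[4,2,0,3,1],[1,2,4,3,0],[4,2,1,3,0],[1,2,3,4,0],[4,2,3,1,0],[1,3,0,2,4],[4,3,0,2,1],[1,3,4,0,2],[4,3,1,0,2],[2,0,1,3,4],[2,0,4,3,1],[2,1,4,0,3],[2,4,1,0,3],[2,1,3,4,0],[2,4,3,1,0],[2,3,0,1,4],[2,3,0,4,1],[3,0,1,4,2],[3,0,4,1,2],[3,1,0,2,4],[3,4,0,2,1],[3,1,4,2,0],[3,1,4,2,0],[3,4,1,2,0],[3,4,1,2,0],[3,1,2,0,4],[3,4,2,0,1],[3,1,2,4,0],[3,4,2,1,0],[3,2,0,1,4],[3,2,0,1,4],[3,2,0,4,1],[3,2,0,4,1],[3,2,1,0,4],[3,2,4,0,1],[3,2,1,4,0],[3,2,1,4,0],[3,2,4,1,0],[3,2,4,1,0],[0,1,4,3,2],[0,3,2,1,4],[0,3,2,4,1],[0,4,1,3,2],[1,3,2,0,4],[1,3,2,4,0],[1,4,0,3,2],[1,4,3,2,0],[1,4,3,2,0],[4,1,0,3,2],[4,1,3,2,0],[4,1,3,2,0],[4,3,2,0,1],[4,3,2,1,0],[0,2,1,4,3],[0,2,3,1,4],[1,4,0,2,3],[1,4,2,0,3],[1,4,2,3,0],[1,4,3,0,2],[2,0,1,4,3],[2,0,3,1,4],[2,1,4,3,0],[2,3,1,4,0],[3,0,2,1,4],[3,1,4,0,2],[0,2,3,4,1],[0,2,4,1,3],[3,0,2,4,1],[3,4,1,0,2],[4,1,0,2,3],[4,1,3,0,2],[2,0,3,4,1],[2,0,4,1,3],[2,3,4,1,0],[2,4,1,3,0],[4,1,2,0,3],[4,1,2,3,0],[1,3,4,2,0],[4,3,1,2,0]]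
  | 2 => [[0,1,3,2,4],[0,1,3,4,2],[0,2,1,4,3],[0,4,1,2,3],[0,2,3,4,1],[0,4,3,2,1],[0,3,1,2,4],[0,3,1,4,2],[1,0,3,2,4],[1,0,3,4,2],[1,2,0,3,4],[1,4,0,3,2],[1,2,4,0,3],[1,4,2,0,3],[1,2,3,0,4],[1,4,3,0,2],[1,2,3,4,0],[1,4,3,2,0],[1,3,2,0,4],[1,3,4,0,2],[2,0,1,3,4],[4,0,1,3,2],[2,0,3,1,4],[4,0,3,1,2],[2,1,0,4,3],[4,1,0,2,3],[2,1,4,3,0],[2,1,4,3,0],[4,1,2,3,0],[4,1,2,3,0],[2,1,3,0,4],[2,1,3,0,4],[4,1,3,0,2],[4,1,3,0,2],[2,1,3,4,0],[2,1,3,4,0],[4,1,3,2,0],[4,1,3,2,0],[2,4,0,1,3],[4,2,0,1,3],[2,4,0,3,1],[4,2,0,3,1],[2,4,3,0,1],[4,2,3,0,1],[2,4,3,1,0],[4,2,3,1,0],[2,3,0,1,4],[4,3,0,1,2],[2,3,1,4,0],[4,3,1,2,0],[3,0,1,2,4],[3,0,1,4,2],[3,1,2,4,0],[3,1,4,2,0],[3,2,0,4,1],[3,4,0,2,1],[3,2,1,0,4],[3,4,1,0,2],[0,2,1,3,4],[0,2,4,1,3],[0,4,1,3,2],[0,4,2,1,3],[1,3,0,2,4],[1,3,0,4,2],[1,3,2,4,0],[1,3,4,2,0],[2,0,4,1,3],[2,4,1,3,0],[2,4,1,3,0],[4,0,2,1,3],[4,2,1,3,0],[4,2,1,3,0],[0,3,2,1,4],[0,3,4,2,1],[2,1,0,3,4],[2,1,4,0,3],[3,0,2,1,4],[3,0,4,2,1],[3,2,1,4,0],[3,4,2,1,0],[4,0,3,2,1],[4,2,1,0,3],[4,3,0,2,1],[4,3,2,1,0],[0,3,2,4,1],[0,3,4,1,2],[2,0,3,4,1],[2,3,0,4,1],[2,3,4,1,0],[2,4,1,0,3],[3,0,2,4,1],[3,0,4,1,2],[3,2,4,1,0],[3,4,1,2,0],[4,1,0,3,2],[4,1,2,0,3],[1,2,4,3,0],[1,4,2,3,0]]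
  | _ => [[0,1,2,3,4],[0,1,2,4,3],[0,2,3,4,1],[0,2,4,3,1],[0,3,1,4,2],[0,4,1,3,2],[0,3,2,1,4],[0,4,2,1,3],[1,0,2,3,4],[1,0,2,4,3],[1,2,0,3,4],[1,2,0,4,3],[1,3,0,4,2],[1,4,0,3,2],[1,3,2,4,0],[1,4,2,3,0],[2,0,3,1,4],[2,0,4,1,3],[2,1,0,3,4],[2,1,0,3,4],[2,1,0,4,3],[2,1,0,4,3],[2,3,0,1,4],[2,4,0,1,3],[2,3,0,4,1],[2,4,0,3,1],[2,3,1,0,4],[2,4,1,0,3],[2,3,4,1,0],[2,3,4,1,0],[2,4,3,1,0],[2,4,3,1,0],[3,0,1,4,2],[4,0,1,3,2],[3,0,2,1,4],[4,0,2,1,3],[3,0,4,1,2],[4,0,3,1,2],[3,0,4,2,1],[4,0,3,2,1],[3,1,0,4,2],[4,1,0,3,2],[3,1,2,4,0],[4,1,2,3,0],[3,1,4,0,2],[4,1,3,0,2],[3,1,4,2,0],[4,1,3,2,0],[3,2,1,0,4],[4,2,1,0,3],[3,2,4,1,0],[4,2,3,1,0],[3,4,2,0,1],[4,3,2,0,1],[3,4,2,1,0],[3,4,2,1,0],[4,3,2,1,0],[4,3,2,1,0],[0,1,3,4,2],[0,2,1,3,4],[0,3,4,1,2],[0,3,4,2,1],[1,0,3,4,2],[1,2,3,4,0],[1,3,4,0,2],[1,3,4,2,0],[2,0,1,3,4],[2,0,3,4,1],[2,1,3,4,0],[2,1,3,4,0],[2,3,4,0,1],[3,4,0,1,2],[3,4,0,2,1],[3,4,1,0,2],[3,4,1,2,0],[0,1,4,3,2],[0,2,1,4,3],[0,4,3,1,2],[0,4,3,2,1],[1,0,4,3,2],[1,2,4,3,0],[1,4,3,0,2],[1,4,3,2,0],[2,0,1,4,3],[2,0,4,3,1],[2,1,4,3,0],[2,1,4,3,0],[2,4,3,0,1],[4,3,0,1,2],[4,3,0,2,1],[4,3,1,0,2],[4,3,1,2,0],[2,1,3,0,4],[2,1,4,0,3],[3,2,1,4,0],[4,2,1,3,0],[2,3,1,4,0],[2,4,1,3,0]]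

def T1 : ℕ := 0x2286001f79d7006da0190185c00000165540000000130124503c038034c00b00000a2481c00000000000061440c0000000000000000000000000000000000000000000000000002000000000000000000000000000000000000000000000000000000000000000000000000000000000000000000000000000000000000000000000000000000000000000000000000000000000000000000000000000000000000001000000000000000000000000000000000000000

def T2 : ℕ := 0x80800000008000800000008088000000000000000000000000000000000040004400000000000000000044000800000000000000000000000000000000404c040000004c000c0000000000000000000000000000000000000000000000000100000000000110000001013010000000000000000000000001000000000000000000000003000002000100000000000000000000000100003000030000000000000000000000033000002000000000000000000003031010000000020000000030000030000000000000000000000000000000000000000000000800040000000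0000000000004000040000000000000000000000004000000000004000000000000000000040000c00000000000000000000000010000101000030000000000000000000000000000000000000000000000000000000000000808000000080008000000040400000000000000000000000008080000000080000000000000000000040004000000000000000000000000000000000000000000000000400008000000400c000000000000000000000000000000000040000c0000000000000000000c000000000000000000000000000000000000400004000000000000000000000000000000000000000000000000000000000000030000000000001000000300101000000000000c00000000000000000000000000000000000000000000000000000000000000400000000000000000000000000000000000000c4000000040000000000c40400000000000000c000000000000400000004000400000400000000000000000000000000000000000040004c0000000000000000004c000c000000010001300000000000000100000000000000000000000300000000000000000c0000000000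0000000000000000000000000000000000000000000000000000000000000000000000000000040000000000000000000000000000000000000010000000000000000000000000000000000000000000000000000000000000000000000000000000000000000404000000000000c0000000000040000000000000000000000404000000000000000000000000000000000000000000000000000000000000004000000000000000000000000000004000000000000000000000000000008040000000000000000000000000000000000000000004000004000400000000000000000000000000000000000000000000000000040004000004000000000000000000000000000000000000000000000000000000000000000000000000400000000000000000000000000000400000400000000000004000000000000000000000000000000000000000000000000000000000000000000000000000000000404000000000400000000000000000000000000000000000000000000020000000000000000000000000000000000000000000000000000000000000000000000000000000000000000000000000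

def R2 (s n : ℕ) : ℕ :=
  match s with
  | 0 => 0
  | s + 1 => Nat.land (Nat.shiftRight T2 (Nat.add (Nat.mul 250 (Nat.succ s))
      (Nat.mul 2 (Nat.mod n 125)))) 3

def R (n : ℕ) : ℕ := R2 (Nat.land (Nat.shiftRight T1 (Nat.mul 6 (Nat.div n 125))) 63) n

def val (n : ℕ) : List ℕ → ℕ
  | [] => n
  | x :: w => val (Nat.add (Nat.mul 5 n) x) w

def hs : List ℕ → ℕ
  | [] => 0
  | x :: w => Nat.add (Nat.pow 8 x) (hs w)

def okh (h l : ℕ) : Bool :=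
  Nat.ble l 6 && (Nat.beq h 4681 || Nat.beq h 4682 || Nat.beq h 4745)

def lam (w : List ℕ) : ℕ :=
  if (∀ x ∈ w, x < 5) ∧ okh (hs w) w.length = true then R (val 1 w) else 0

def sub (a : List ℕ) (m : ℕ → List ℕ) (b : List ℕ) (w : List ℕ) : List ℕ :=
  a ++ (w.flatMap m ++ b)

def blk {α : Type} (m0 m1 m2 m3 : α) : ℕ → α
  | 0 => m0
  | 1 => m1
  | 2 => m2
  | _ => m3

def force (n : ℕ) (k : ℕ → Bool) : Bool :=
  match n with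
  | 0 => k 0
  | m + 1 => k (Nat.succ m)

theorem force_eq (n : ℕ) (k : ℕ → Bool) : force n k = k n := by cases n <;> rfl

def forceN (n : ℕ) (k : ℕ → ℕ) : ℕ :=
  match n with
  | 0 => k 0
  | m + 1 => k (Nat.succ m)

theorem forceN_eq (n : ℕ) (k : ℕ → ℕ) : forceN n k = k n := by cases n <;> rfl

def step (v p : ℕ → ℕ) (n : ℕ) : List ℕ → ℕ
  | [] => n
  | i :: w => step v p (Nat.add (Nat.mul n (p i)) (v i)) w

def totN (n0 : ℕ) (v p : ℕ → ℕ) (vb pb : ℕ) : List (List ℕ) → ℕ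
  | [] => 0
  | w :: W => Nat.add (forceN (Nat.add (Nat.mul (step v p n0 w) pb) vb) R) (totN n0 v p vb pb W)

def words : ℕ → List (List ℕ)
  | 0 => [[]]
  | n + 1 => [0, 1, 2, 3, 4].flatMap fun x => (words n).map fun w => x :: w

def onSplit (a m0 m1 m2 m3 b : List ℕ) (P : ℕ → (ℕ → ℕ) → (ℕ → ℕ) → ℕ → ℕ → Bool) : Bool :=
  force (val 1 a) fun n0 => force (val 0 m0) fun v0 => force (val 0 m1) fun v1 =>
  force (val 0 m2) fun v2 => force (val 0 m3) fun v3 => force (val 0 b) fun vb =>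
  force (Nat.pow 5 m0.length) fun p0 => force (Nat.pow 5 m1.length) fun p1 =>
  force (Nat.pow 5 m2.length) fun p2 => force (Nat.pow 5 m3.length) fun p3 =>
  force (Nat.pow 5 b.length) fun pb =>
  P n0 (blk v0 v1 v2 v3) (blk p0 p1 p2 p3) vb pb

def allSplits (e : ℕ) (t : List ℕ)
    (P : List ℕ → List ℕ → List ℕ → List ℕ → List ℕ → List ℕ → Bool) : Bool :=
  (List.range (e + 1)).all fun i => (List.range (e + 1 - i)).all fun j0 =>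
    (List.range (e + 1 - i - j0)).all fun j1 => (List.range (e + 1 - i - j0 - j1)).all fun j2 =>
      (List.range (e + 1 - i - j0 - j1 - j2)).all fun j3 =>
        P (t.take i) ((t.drop i).take (j0 + 1)) (((t.drop i).drop (j0 + 1)).take (j1 + 1))
          ((((t.drop i).drop (j0 + 1)).drop (j1 + 1)).take (j2 + 1))
          (((((t.drop i).drop (j0 + 1)).drop (j1 + 1)).drop (j2 + 1)).take (j3 + 1))
          (((((t.drop i).drop (j0 + 1)).drop (j1 + 1)).drop (j2 + 1)).drop (j3 + 1))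

def P6 (a m0 m1 m2 m3 b : List ℕ) : Bool :=
  !(Nat.ble (val 0 m0) (val 0 m1) && Nat.ble (val 0 m1) (val 0 m2) &&
    Nat.ble (val 0 m2) (val 0 m3)) ||
  onSplit a m0 m1 m2 m3 b fun n0 v p vb pb =>
    Nat.beq ((totN n0 v p vb pb Se + 3 * totN n0 v p vb pb So) % 4) 0

def chk6 (x : ℕ) : Bool := (words 5).all fun t => !(okh (hs (x :: t)) 6) ||
  allSplits 2 (x :: t) P6

def P5 (h l : ℕ) (a m0 m1 m2 m3 b : List ℕ) : Bool :=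
  force (hs m0) fun h0 => force (hs m1) fun h1 => force (hs m2) fun h2 => force (hs m3) fun h3 =>
  (!(okh h l) && !(okh (h + h0) (l + m0.length)) && !(okh (h + h1) (l + m1.length)) &&
    !(okh (h + h2) (l + m2.length)) && !(okh (h + h3) (l + m3.length))) ||
  onSplit a m0 m1 m2 m3 b fun n0 v p vb pb =>
    Nat.beq (((bif okh h l then totN n0 v p vb pb Se + 3 * totN n0 v p vb pb So else 0) +
      2 * ((bif okh (h + h0) (l + m0.length) then totN n0 v p vb pb G0 else 0) +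
        ((bif okh (h + h1) (l + m1.length) then totN n0 v p vb pb G1 else 0) +
        ((bif okh (h + h2) (l + m2.length) then totN n0 v p vb pb G2 else 0) +
        (bif okh (h + h3) (l + m3.length) then totN n0 v p vb pb G3 else 0))))) % 4) 0

def chk5 (e x : ℕ) : Bool := (words (e + 3)).all fun t => force (hs (x :: t)) fun h =>
  allSplits e (x :: t) (P5 h (e + 4))

def expd (i : ℕ) : List ℕ → List (List ℕ)
  | [] => [[]]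
  | c :: w => if c = i then (expd i w).map (fun x => i :: x) ++ (expd i w).map (fun x => 4 :: x)
      else (expd i w).map (fun x => c :: x)

def rep (i : ℕ) (w : List ℕ) : List ℕ := w.map fun c => if c = i then 4 else c

def mid (i : ℕ) (w : List ℕ) : List (List ℕ) := (expd i w).tail.dropLast

def LK (i : ℕ) : List (List ℕ) :=
  (KK i).flatMap fun k => (Se ++ So).map (sub k.1 (fun j => k.2.1.getD j []) k.2.2)

def ins (a : List ℕ) (n : ℕ) : List (List ℕ) → List (List ℕ)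
  | [] => [a]
  | b :: l => bif Nat.ble n (val 0 b) then a :: b :: l else b :: ins a n l

def srt : List (List ℕ) → List (List ℕ)
  | [] => []
  | a :: l => ins a (val 0 a) (srt l)

end Pool.Agent.Lib.helper27.MonicPI
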