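import Pool.Agent.Lib.helper27.MonicPIWords

set_option autoImplicit false

namespace Pool.Agent.Lib.helper27.MonicPI

section generic
variable {B : Type} [Ring B]

def ev (r : ℕ → B) (w : List ℕ) : B := (w.map r).prod

def E (r : ℕ → B) (W : List (List ℕ)) : B := (W.map (ev r)).sum

theorem ev_append (r : ℕ → B) (a b : List ℕ) : ev r (a ++ b) = ev r a * ev r b := by simp [ev]

theorem ev_cons (r : ℕ → B) (c : ℕ) (b : List ℕ) : ev r (c :: b) = r c * ev r b := by simp [ev]

theorem E_append (r : ℕ → B) (a b : List (List ℕ)) : E r (a ++ b) = E r a + E r b := by simp [E]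

theorem E_cons (r : ℕ → B) (w : List ℕ) (b : List (List ℕ)) : E r (w :: b) = ev r w + E r b := by
  simp [E]

theorem E_nil (r : ℕ → B) : E r [] = 0 := rfl

theorem E_perm (r : ℕ → B) {a b : List (List ℕ)} (h : a.Perm b) : E r a = E r b :=
  (h.map _).sum_eq

theorem ev_flatMap (r : ℕ → B) (m : ℕ → List ℕ) (w : List ℕ) :
    ev r (w.flatMap m) = ev (fun j => ev r (m j)) w := by
  induction w with
  | nil => rfl
  | cons c w ih => rw [List.flatMap_cons, ev_append, ih, ev_cons]

theorem E_sub (r : ℕ → B) (a b : List ℕ) (m : ℕ → List ℕ) (W : List (List ℕ)) :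
    E r (W.map (sub a m b)) = ev r a * E (fun j => ev r (m j)) W * ev r b := by
  induction W with
  | nil => simp [E]
  | cons w W ih =>
    rw [List.map_cons, E_cons, E_cons, ih, sub, ev_append, ev_append, ev_flatMap, mul_add,
      add_mul, ← mul_assoc]

theorem ev_congr {r r' : ℕ → B} {w : List ℕ} (h : ∀ c ∈ w, r c = r' c) : ev r w = ev r' w := by
  rw [ev, ev, List.map_congr_left h]

theorem E_map_cons (r : ℕ → B) (c : ℕ) (W : List (List ℕ)) :
    E r (W.map fun x => c :: x) = r c * E r W := by
  induction W with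
  | nil => simp [E]
  | cons w W ih => rw [List.map_cons, E_cons, E_cons, ih, ev_cons, mul_add]

theorem ev_expd (r : ℕ → B) (i : ℕ) (hi : i < 4) (x y : B) (w : List ℕ) (hw : ∀ c ∈ w, c < 4) :
    ev (Function.update r i (x + y)) w =
      E (Function.update (Function.update r i x) 4 y) (expd i w) := by
  induction w with
  | nil => simp [ev, E, expd]
  | cons c w ih =>
    have h1 := ih fun d hd => hw d (List.mem_cons_of_mem _ hd)
    have hc : c ≠ 4 := (hw c (by simp)).ne
    rw [ev_cons, h1, expd]
    split_ifs with e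
    · subst e
      rw [E_append, E_map_cons, E_map_cons, Function.update_self, Function.update_self,
        Function.update_of_ne hc, Function.update_self, add_mul]
    · rw [E_map_cons, Function.update_of_ne e, Function.update_of_ne hc,
        Function.update_of_ne e]

theorem E_expd (r : ℕ → B) (i : ℕ) (hi : i < 4) (x y : B) (W : List (List ℕ))
    (hW : ∀ w ∈ W, (∀ c ∈ w, c < 4) ∧ expd i w = w :: (mid i w ++ [rep i w])) :
    E (Function.update r i (x + y)) W = E (Function.update r i x) W +
      E (Function.update (Function.update r i x) 4 y) (W.flatMap (mid i)) +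
      E (Function.update r i y) W := by
  induction W with
  | nil => simp [E]
  | cons w W ih =>
    obtain ⟨h1, h2⟩ := hW w (by simp)
    have e1 : ev (Function.update (Function.update r i x) 4 y) w =
        ev (Function.update r i x) w :=
      ev_congr fun c hc => Function.update_of_ne (h1 c hc).ne _ _
    have e2 : ev (Function.update (Function.update r i x) 4 y) (rep i w) =
        ev (Function.update r i y) w := by
      rw [ev, ev, rep, List.map_map]
      congr 1
      apply List.map_congr_left
      intro c hc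
      by_cases e : c = i
      · simp [e]
      · simp [e, (h1 c hc).ne]
    rw [E_cons, E_cons, E_cons, ih fun w hw => hW w (List.mem_cons_of_mem _ hw),
      ev_expd r i hi x y w h1, h2, E_cons, E_append, E_cons, E_nil, List.flatMap_cons, E_append,
      e1, e2]
    abel

theorem ins_perm (a : List ℕ) (n : ℕ) (l : List (List ℕ)) : (ins a n l).Perm (a :: l) := by
  induction l with
  | nil => rfl
  | cons b l ih =>
    rw [ins]
    cases Nat.ble n (val 0 b)
    · exact (ih.cons b).trans (List.Perm.swap _ _ _)
    · rfl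

theorem srt_perm (l : List (List ℕ)) : (srt l).Perm l := by
  induction l with
  | nil => rfl
  | cons a l ih => exact (ins_perm _ _ _).trans (ih.cons a)

theorem ind (Wd : Set B) (Ψ : (ℕ → B) → B)
    (hadd : ∀ i < 4, ∀ r : ℕ → B, (∀ j < 4, r j ∈ AddSubmonoid.closure Wd) →
      ∀ x ∈ AddSubmonoid.closure Wd, ∀ y ∈ AddSubmonoid.closure Wd,
      Ψ (Function.update r i (x + y)) = Ψ (Function.update r i x) + Ψ (Function.update r i y))
    (hbase : ∀ r : ℕ → B, (∀ j < 4, r j ∈ Wd) → Ψ r = 0) :
    ∀ r : ℕ → B, (∀ j < 4, r j ∈ AddSubmonoid.closure Wd) → Ψ r = 0 := by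
  have key : ∀ k ≤ 4, ∀ r : ℕ → B, (∀ j < 4, r j ∈ AddSubmonoid.closure Wd) →
      (∀ j < 4, k ≤ j → r j ∈ Wd) → Ψ r = 0 := by
    intro k
    induction k with
    | zero => exact fun _ r _ h => hbase r fun j hj => h j hj (Nat.zero_le _)
    | succ k ih =>
      intro hk r h1 h2
      have h3 : ∀ x ∈ AddSubmonoid.closure Wd, Ψ (Function.update r k x) = 0 := by
        intro x hx
        induction hx using AddSubmonoid.closure_induction with
        | mem x hx =>
          apply ih (by omega)
          · intro j hj
            by_cases e : j = k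
            · subst e; rw [Function.update_self]; exact AddSubmonoid.subset_closure hx
            · rw [Function.update_of_ne e]; exact h1 j hj
          · intro j hj hkj
            by_cases e : j = k
            · subst e; rw [Function.update_self]; exact hx
            · rw [Function.update_of_ne e]; exact h2 j hj (by omega)
        | zero =>
          have := hadd k (by omega) r h1 0 (zero_mem _) 0 (zero_mem _)
          rw [add_zero] at this
          exact left_eq_add.mp this
        | add x y hx hy ix iy => rw [hadd k (by omega) r h1 x hx y hy, ix, iy, add_zero]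
      have := h3 (r k) (h1 k (by omega))
      rwa [Function.update_eq_self] at this
  exact fun r h => key 4 le_rfl r h fun j hj hj' => by omega

theorem pK2 : ∀ i < 4, ∀ k ∈ KK i, ∀ j < 4, ∀ c ∈ k.2.1.getD j [], c < 5 := by decide +kernel

theorem pL : ∀ w ∈ Se ++ So ++ Gw, ∀ c ∈ w, c < 4 := by decide +kernel

theorem ev_mem (S : AddSubmonoid B) (hS : ∀ x ∈ S, ∀ y ∈ S, x * y ∈ S) (r : ℕ → B)
    (w : List ℕ) (hw : w ≠ []) (h : ∀ c ∈ w, r c ∈ S) : ev r w ∈ S := by
  induction w with
  | nil => exact absurd rfl hw
  | cons c w ih =>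
    rw [ev_cons]
    by_cases e : w = []
    · subst e
      simpa [ev] using h c (by simp)
    · exact hS _ (h c (by simp)) _ (ih e fun d hd => h d (List.mem_cons_of_mem _ hd))

theorem identity (Wd : Set B) (h4 : ∀ x : B, x + x + x + x = 0)
    (hS : ∀ x ∈ AddSubmonoid.closure Wd, ∀ y ∈ AddSubmonoid.closure Wd,
      x * y ∈ AddSubmonoid.closure Wd)
    (hbase : ∀ r : ℕ → B, (∀ j < 4, r j ∈ Wd) → E r Se + 3 • E r So + 2 • E r Gw = 0) :
    ∀ r : ℕ → B, (∀ j < 4, r j ∈ AddSubmonoid.closure Wd) →
      E r Se + 3 • E r So + 2 • E r Gw = 0 := by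
  have hx : ∀ i < 4, ∀ W : List (List ℕ), (∀ w ∈ W, w ∈ Se ++ So ++ Gw) →
      ∀ w ∈ W, (∀ c ∈ w, c < 4) ∧ expd i w = w :: (mid i w ++ [rep i w]) :=
    fun i hi W hW w hw => ⟨pL w (hW w hw), pE i hi w (hW w hw)⟩
  have xe := fun (r : ℕ → B) i hi x y => E_expd r i hi x y Se (hx i hi Se fun w hw =>
    List.mem_append_left _ (List.mem_append_left _ hw))
  have xo := fun (r : ℕ → B) i hi x y => E_expd r i hi x y So (hx i hi So fun w hw =>
    List.mem_append_left _ (List.mem_append_right _ hw))
  have xg := fun (r : ℕ → B) i hi x y => E_expd r i hi x y Gw (hx i hi Gw fun w hw =>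
    List.mem_append_right _ hw)
  have two : ∀ r : ℕ → B, (∀ j < 4, r j ∈ AddSubmonoid.closure Wd) →
      2 • E r (Se ++ So) = 0 := by
    apply ind Wd (fun r => 2 • E r (Se ++ So))
    · intro i hi r _ x _ y _
      rw [E_append, E_append, E_append, xe r i hi, xo r i hi, (pM i hi).1, (pM i hi).2, E_nil]
      abel
    · intro r hr
      have e : 2 • E r (Se ++ So) = 2 • (E r Se + 3 • E r So + 2 • E r Gw) -
          (E r So + E r So + E r So + E r So) - (E r Gw + E r Gw + E r Gw + E r Gw) := by
        rw [E_append]; abel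
      rw [e, hbase r hr, h4, h4]; simp
  apply ind Wd (fun r => E r Se + 3 • E r So + 2 • E r Gw) _ hbase
  intro i hi r hr x hx y hy
  have hr' : ∀ c < 5, Function.update (Function.update r i x) 4 y c ∈
      AddSubmonoid.closure Wd := by
    intro c hc
    by_cases e : c = 4
    · subst e; rw [Function.update_self]; exact hy
    · rw [Function.update_of_ne e]
      by_cases e' : c = i
      · subst e'; rw [Function.update_self]; exact hx
      · rw [Function.update_of_ne e']; exact hr c (by omega)
  have hL : ∀ K : List (List ℕ × List (List ℕ) × List ℕ), (∀ k ∈ K, k ∈ KK i) →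
      2 • E (Function.update (Function.update r i x) 4 y) (K.flatMap fun k =>
        (Se ++ So).map (sub k.1 (fun j => k.2.1.getD j []) k.2.2)) = 0 := by
    intro K hK
    induction K with
    | nil => simp [E]
    | cons k K ih =>
      have hk := hK k (by simp)
      rw [List.flatMap_cons, E_append, nsmul_add, ih fun k hk => hK k (List.mem_cons_of_mem _ hk),
        E_sub, ← smul_mul_assoc, ← mul_smul_comm, two, mul_zero, zero_mul, add_zero]
      intro j hj
      exact ev_mem _ hS _ _ (pK i hi k hk j hj) fun c hc => hr' c (pK2 i hi k hk j hj c hc)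
  have h1 := hL (KK i) fun _ h => h
  have h2 := E_perm (Function.update (Function.update r i x) 4 y)
    ((srt_perm _).symm.trans ((List.Perm.of_eq (sG i hi)).trans (srt_perm _)))
  rw [E_append, E_append] at h2
  have h3 : 2 • E (Function.update (Function.update r i x) 4 y) (Gw.flatMap (mid i)) = 0 := by
    have e : ∀ a l d : B, a + l = d + d → 2 • l = 0 → 2 • a = 0 := by
      intro a l d e1 e2
      have : 2 • a = 2 • (a + l) - 2 • l := by abel
      have e3 : 2 • (d + d) = d + d + d + d := by abel
      rw [this, e1, e2, e3, h4 d, sub_zero]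
    exact e _ _ _ h2 h1
  rw [xe r i hi, xo r i hi, xg r i hi, (pM i hi).1, (pM i hi).2, E_nil, nsmul_add, nsmul_add,
    nsmul_add, nsmul_add, h3]
  abel

end generic

/-- the free ring on countably many letters -/
abbrev A : Type := FreeAbelianGroup (FreeMonoid ℕ)

def wd (w : List ℕ) : A := FreeAbelianGroup.of (FreeMonoid.ofList w)

theorem wd_mul (a b : List ℕ) : wd a * wd b = wd (a ++ b) := rfl

noncomputable def Lam : A →+ ZMod 4 :=
  FreeAbelianGroup.lift fun w => ((lam (FreeMonoid.toList w) : ℕ) : ZMod 4)

theorem Lam_wd (w : List ℕ) : Lam (wd w) = (lam w : ℕ) := FreeAbelianGroup.lift_apply_of _ _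

/-- the syntactic congruence of the functional -/
noncomputable def con : RingCon A where
  r a b := ∀ x y : A, Lam (x * a * y) = Lam (x * b * y)
  iseqv := ⟨fun _ _ _ => rfl, fun h x y => (h x y).symm, fun h k x y => (h x y).trans (k x y)⟩
  mul' := by
    intro a b c d h k x y
    have e1 := h x (c * y)
    have e2 := k (x * b) y
    simp only [mul_assoc] at e1 e2 ⊢
    exact e1.trans e2
  add' := by
    intro a b c d h k x y
    rw [mul_add, add_mul, mul_add, add_mul, map_add, map_add, h x y, k x y]

abbrev B : Type := con.Quotient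

noncomputable def π : A →+* B := con.mk'

theorem π_eq_zero (e : A) : π e = 0 ↔ ∀ x y : A, Lam (x * e * y) = 0 := by
  have : π e = π 0 ↔ con e 0 := RingCon.eq con
  rw [map_zero] at this
  rw [this]
  constructor
  · intro h x y
    simpa using h x y
  · intro h x y
    simpa using h x y

theorem π_eq_zero_of (e : A) (h : ∀ a b, Lam (wd a * e * wd b) = 0) : π e = 0 := by
  rw [π_eq_zero]
  intro x y
  induction x using FreeAbelianGroup.induction_on with
  | zero => simp
  | of a =>
    induction y using FreeAbelianGroup.induction_on with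
    | zero => simp
    | of b => exact h (FreeMonoid.toList a) (FreeMonoid.toList b)
    | neg b ih => rw [mul_neg, map_neg, ih, neg_zero]
    | add y z iy iz => rw [mul_add, map_add, iy, iz, add_zero]
  | neg a ih => rw [neg_mul, neg_mul, map_neg, ih, neg_zero]
  | add y z iy iz => rw [add_mul, add_mul, map_add, iy, iz, add_zero]

theorem four (x : B) : x + x + x + x = 0 := by
  obtain ⟨e, rfl⟩ : ∃ e, π e = x := RingCon.mk'_surjective con x
  rw [← map_add, ← map_add, ← map_add, π_eq_zero]
  intro x y
  simp only [mul_add, add_mul, map_add]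
  generalize Lam (x * e * y) = z
  revert z
  decide

/-- classes of nonempty words -/
def Wd : Set B := {x | ∃ w : List ℕ, w ≠ [] ∧ x = π (wd w)}

theorem Wd_mul : ∀ x ∈ AddSubmonoid.closure Wd, ∀ y ∈ AddSubmonoid.closure Wd,
    x * y ∈ AddSubmonoid.closure Wd := by
  intro x hx y hy
  induction hx using AddSubmonoid.closure_induction with
  | mem x hx =>
    induction hy using AddSubmonoid.closure_induction with
    | mem y hy =>
      obtain ⟨a, ha, rfl⟩ := hx
      obtain ⟨b, -, rfl⟩ := hy
      exact AddSubmonoid.subset_closure ⟨a ++ b, by simp [ha], by rw [← map_mul, wd_mul]⟩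
    | zero => rw [mul_zero]; exact zero_mem _
    | add y z _ _ iy iz => rw [mul_add]; exact add_mem iy iz
  | zero => rw [zero_mul]; exact zero_mem _
  | add y z _ _ iy iz => rw [add_mul]; exact add_mem iy iz

theorem ev_wd (m : ℕ → List ℕ) (w : List ℕ) : ev (fun j => wd (m j)) w = wd (w.flatMap m) := by
  induction w with
  | nil => rfl
  | cons c w ih => rw [ev_cons, ih, wd_mul, List.flatMap_cons]

theorem Lam_E (a b : List ℕ) (m : ℕ → List ℕ) (W : List (List ℕ)) :
    Lam (wd a * E (fun j => wd (m j)) W * wd b) = (tot W a m b : ℕ) := by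
  induction W with
  | nil => simp [E, tot]
  | cons w W ih =>
    have h3 : tot (w :: W) a m b = lam (sub a m b w) + tot W a m b := by simp [tot]
    rw [E_cons, mul_add, add_mul, map_add, ih, ev_wd, wd_mul, wd_mul, Lam_wd, h3, sub,
      List.append_assoc, Nat.cast_add]

theorem π_E (r : ℕ → A) (W : List (List ℕ)) : π (E r W) = E (fun j => π (r j)) W := by
  simp only [E, map_list_sum, List.map_map]
  congr 1
  apply List.map_congr_left
  intro w _
  simp only [Function.comp, ev, map_list_prod, List.map_map]
  rfl

theorem base (r : ℕ → B) (h : ∀ j < 4, r j ∈ Wd) : E r Se + 3 • E r So + 2 • E r Gw = 0 := by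
  obtain ⟨m0, h0, e0⟩ := h 0 (by omega)
  obtain ⟨m1, h1, e1⟩ := h 1 (by omega)
  obtain ⟨m2, h2, e2⟩ := h 2 (by omega)
  obtain ⟨m3, h3, e3⟩ := h 3 (by omega)
  have hE : ∀ W : List (List ℕ), (∀ w ∈ W, w ∈ Se ++ So ++ Gw) →
      E r W = π (E (fun j => wd (blk m0 m1 m2 m3 j)) W) := by
    intro W hW
    rw [π_E, E, E]
    congr 1
    apply List.map_congr_left
    intro w hw
    apply ev_congr
    intro c hc
    have := pL w (hW w hw) c hc
    interval_cases c
    exacts [e0, e1, e2, e3]
  rw [hE Se fun w hw => List.mem_append_left _ (List.mem_append_left _ hw),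
    hE So fun w hw => List.mem_append_left _ (List.mem_append_right _ hw),
    hE Gw fun w hw => List.mem_append_right _ hw, ← map_nsmul, ← map_nsmul, ← map_add,
    ← map_add]
  apply π_eq_zero_of
  intro a b
  have := wordCheck a b m0 m1 m2 m3 h0 h1 h2 h3
  rw [mul_add, mul_add, add_mul, add_mul, mul_smul_comm, mul_smul_comm, smul_mul_assoc,
    smul_mul_assoc, map_add, map_add, map_nsmul, map_nsmul, Lam_E, Lam_E, Lam_E]
  have h5 := (ZMod.natCast_eq_zero_iff _ 4).mpr (Nat.dvd_of_mod_eq_zero this)
  rw [Nat.cast_add, Nat.cast_add, Nat.cast_mul, Nat.cast_mul] at h5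
  rw [nsmul_eq_mul, nsmul_eq_mul]
  exact h5

/-- the ring of the counterexample -/
noncomputable def Rr : NonUnitalSubring B where
  carrier := AddSubmonoid.closure Wd
  add_mem' := fun h k => add_mem h k
  zero_mem' := zero_mem _
  mul_mem' := fun h k => Wd_mul _ h _ k
  neg_mem' := by
    intro x hx
    have : -x = x + x + x := neg_eq_of_add_eq_zero_left (four x)
    rw [this]
    exact add_mem (add_mem hx hx) hx

theorem main_identity (r : ℕ → B) (h : ∀ j, r j ∈ Rr) : E r Se + 3 • E r So + 2 • E r Gw = 0 :=
  identity Wd four Wd_mul base r fun j _ => h j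

theorem lam5 (w : List ℕ) (h : ∀ x ∈ w, x < 5) (hl : w.length = 5) :
    lam w = if w = [0, 1, 2, 3, 4] then 2 else 0 := by
  have hm := mem_words w h
  rw [hl] at hm
  have h1 := List.all_eq_true.mp cid w hm
  rw [beq_iff_eq] at h1
  rw [lam, h1]
  by_cases e : w = [0, 1, 2, 3, 4]
  · subst e
    rw [if_pos ⟨h, cid2⟩]
  · simp [e]

end Pool.Agent.Lib.helper27.MonicPI
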