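import Pool.Agent.Lib.helper27.MonicPIChkB

set_option autoImplicit false

namespace Pool.Agent.Lib.helper27.MonicPI

theorem val_append (n : ℕ) (a b : List ℕ) : val n (a ++ b) = val (val n a) b := by
  induction a generalizing n with
  | nil => rfl
  | cons x a ih => exact ih _

theorem val_eq (n : ℕ) (w : List ℕ) : val n w = n * 5 ^ w.length + val 0 w := by
  induction w generalizing n with
  | nil => simp [val]
  | cons x w ih =>
    show val (5 * n + x) w = _ + val (5 * 0 + x) w
    rw [ih (5 * n + x), ih (5 * 0 + x), List.length_cons]; ring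

theorem val_flatMap (m : ℕ → List ℕ) (n : ℕ) (w : List ℕ) :
    val n (w.flatMap m) = step (fun i => val 0 (m i)) (fun i => 5 ^ (m i).length) n w := by
  induction w generalizing n with
  | nil => rfl
  | cons x w ih => rw [List.flatMap_cons, val_append, ih, val_eq]; rfl

theorem hs_append (a b : List ℕ) : hs (a ++ b) = hs a + hs b := by
  induction a with
  | nil => simp [hs]
  | cons x a ih =>
    show 8 ^ x + hs (a ++ b) = 8 ^ x + hs a + hs b
    rw [ih, add_assoc]

theorem hs_perm {a b : List ℕ} (h : a.Perm b) : hs a = hs b := by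
  induction h with
  | nil => rfl
  | cons x _ ih => show 8 ^ x + _ = 8 ^ x + _; rw [ih]
  | swap x y l => show 8 ^ y + (8 ^ x + _) = 8 ^ x + (8 ^ y + _); ring
  | trans _ _ i1 i2 => exact i1.trans i2

def tot (W : List (List ℕ)) (a : List ℕ) (m : ℕ → List ℕ) (b : List ℕ) : ℕ :=
  (W.map fun w => lam (sub a m b w)).sum

theorem tot_eq (W : List (List ℕ)) (a : List ℕ) (m : ℕ → List ℕ) (b : List ℕ) (w0 u : List ℕ)
    (hW : ∀ w ∈ W, w.Perm w0) (hu : (sub a m b w0).Perm u) :
    tot W a m b = if (∀ x ∈ u, x < 5) ∧ okh (hs u) u.length = true then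
      totN (val 1 a) (fun i => val 0 (m i)) (fun i => 5 ^ (m i).length) (val 0 b)
        (5 ^ b.length) W else 0 := by
  induction W with
  | nil => simp [tot, totN]
  | cons w W ih =>
    have h1 : (sub a m b w).Perm u :=
      (((List.Perm.flatMap_right m (hW w (by simp))).append_right b).append_left a).trans hu
    have h2 := ih fun w hw => hW w (List.mem_cons_of_mem _ hw)
    have h3 : tot (w :: W) a m b = lam (sub a m b w) + tot W a m b := by simp [tot]
    rw [h3, h2, lam, hs_perm h1, h1.length_eq]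
    simp only [h1.mem_iff]
    split_ifs
    · rw [totN, forceN_eq, sub, val_append, val_append, val_flatMap, val_eq]; rfl
    · rfl

theorem mem_words (t : List ℕ) (h : ∀ x ∈ t, x < 5) : t ∈ words t.length := by
  induction t with
  | nil => simp [words]
  | cons x t ih =>
    have hx : x < 5 := h x (by simp)
    rw [List.length_cons, words, List.mem_flatMap]
    refine ⟨x, by interval_cases x <;> simp, List.mem_map.mpr ⟨t, ih fun y hy => h y ?_, rfl⟩⟩
    exact List.mem_cons_of_mem _ hy

theorem allSplits_sound (e : ℕ) (a m0 m1 m2 m3 b : List ℕ)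
    (P : List ℕ → List ℕ → List ℕ → List ℕ → List ℕ → List ℕ → Bool)
    (h : allSplits e (a ++ (m0 ++ (m1 ++ (m2 ++ (m3 ++ b))))) P = true)
    (h0 : m0 ≠ []) (h1 : m1 ≠ []) (h2 : m2 ≠ []) (h3 : m3 ≠ [])
    (hl : a.length + m0.length + m1.length + m2.length + m3.length + b.length = e + 4) :
    P a m0 m1 m2 m3 b = true := by
  have l0 := List.length_pos_iff.mpr h0
  have l1 := List.length_pos_iff.mpr h1
  have l2 := List.length_pos_iff.mpr h2
  have l3 := List.length_pos_iff.mpr h3
  simp only [allSplits, List.all_eq_true, List.mem_range] at h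
  have := h a.length (by omega) (m0.length - 1) (by omega) (m1.length - 1) (by omega)
    (m2.length - 1) (by omega) (m3.length - 1) (by omega)
  rw [Nat.sub_add_cancel l0, Nat.sub_add_cancel l1, Nat.sub_add_cancel l2,
    Nat.sub_add_cancel l3] at this
  simpa only [List.take_left, List.drop_left] using this

theorem onSplit_eq (a m0 m1 m2 m3 b : List ℕ)
    (P : ℕ → (ℕ → ℕ) → (ℕ → ℕ) → ℕ → ℕ → Bool) :
    onSplit a m0 m1 m2 m3 b P = P (val 1 a) (fun i => val 0 (blk m0 m1 m2 m3 i))
      (fun i => 5 ^ (blk m0 m1 m2 m3 i).length) (val 0 b) (5 ^ b.length) := by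
  simp only [onSplit, force_eq]
  congr 1
  · funext i
    rcases i with _ | _ | _ | i <;> rfl
  · funext i
    rcases i with _ | _ | _ | i <;> rfl

theorem sub_base (a m0 m1 m2 m3 b : List ℕ) : sub a (blk m0 m1 m2 m3) b [0, 1, 2, 3] =
    a ++ (m0 ++ (m1 ++ (m2 ++ (m3 ++ b)))) := by
  simp [sub, blk]

theorem sub_cons (a b : List ℕ) (m : ℕ → List ℕ) (i : ℕ) (w : List ℕ) :
    (sub a m b (i :: w)).Perm (sub a m b w ++ m i) := by
  simp only [sub, List.flatMap_cons, List.append_assoc]
  apply List.Perm.append_left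
  rw [← List.append_assoc (List.flatMap m w)]
  exact List.perm_append_comm

theorem okh_long (h l : ℕ) (hl : 7 ≤ l) : okh h l = false := by
  have : Nat.ble l 6 = false := by
    rw [← Bool.not_eq_true, Nat.ble_eq]; omega
  simp [okh, this]

theorem tot_swap (W W' : List (List ℕ)) (f : ℕ → ℕ) (a b : List ℕ) (m m' : ℕ → List ℕ)
    (h : (W.map (List.map f)).Perm W') (hm : ∀ i, m' i = m (f i)) :
    tot W a m' b = tot W' a m b := by
  rw [tot, tot, ← (h.map _).sum_eq, List.map_map]
  congr 1
  apply List.map_congr_left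
  intro w _
  have : m' = m ∘ f := funext hm
  simp only [Function.comp, sub, List.flatMap_map, this]
  rfl

theorem sort4 {α : Type} (k : α → ℕ) (P : α → α → α → α → Prop)
    (s0 : ∀ a b c d, P a b c d → P b a c d) (s1 : ∀ a b c d, P a b c d → P a c b d)
    (s2 : ∀ a b c d, P a b c d → P a b d c)
    (h : ∀ a b c d, k a ≤ k b → k b ≤ k c → k c ≤ k d → P a b c d) : ∀ a b c d, P a b c d := by
  have h3 : ∀ a b c d, k a ≤ k b → k b ≤ k c → P a b c d := by
    intro a b c d h1 h2
    rcases le_total (k c) (k d) with e | e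
    · exact h _ _ _ _ h1 h2 e
    apply s2
    rcases le_total (k b) (k d) with f | f
    · exact h _ _ _ _ h1 f e
    apply s1
    rcases le_total (k a) (k d) with g | g
    · exact h _ _ _ _ g f h2
    apply s0
    exact h _ _ _ _ g h1 h2
  have h2 : ∀ a b c d, k a ≤ k b → P a b c d := by
    intro a b c d h1
    rcases le_total (k b) (k c) with e | e
    · exact h3 _ _ _ _ h1 e
    apply s1
    rcases le_total (k a) (k c) with f | f
    · exact h3 _ _ _ _ f e
    apply s0
    exact h3 _ _ _ _ f h1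
  intro a b c d
  rcases le_total (k a) (k b) with e | e
  · exact h2 _ _ _ _ e
  · exact s0 _ _ _ _ (h2 _ _ _ _ e)

theorem six (a b : List ℕ) : ∀ m0 m1 m2 m3 : List ℕ, m0 ≠ [] → m1 ≠ [] → m2 ≠ [] → m3 ≠ [] →
    a.length + m0.length + m1.length + m2.length + m3.length + b.length = 6 →
    (tot Se a (blk m0 m1 m2 m3) b + 3 * tot So a (blk m0 m1 m2 m3) b) % 4 = 0 := by
  apply sort4 (val 0)
  · intro m0 m1 m2 m3 h h1 h0 h2 h3 hl
    have := h h0 h1 h2 h3 (by omega)
    have hm : ∀ i, blk m1 m0 m2 m3 i = blk m0 m1 m2 m3 (sw 0 i) := by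
      intro i; rcases i with _ | _ | _ | i <;> rfl
    rw [tot_swap _ _ _ a b _ _ (pSw 0 (by omega)).1 hm,
      tot_swap _ _ _ a b _ _ (pSw 0 (by omega)).2 hm]
    omega
  · intro m0 m1 m2 m3 h h0 h2 h1 h3 hl
    have := h h0 h1 h2 h3 (by omega)
    have hm : ∀ i, blk m0 m2 m1 m3 i = blk m0 m1 m2 m3 (sw 1 i) := by
      intro i; rcases i with _ | _ | _ | i <;> rfl
    rw [tot_swap _ _ _ a b _ _ (pSw 1 (by omega)).1 hm,
      tot_swap _ _ _ a b _ _ (pSw 1 (by omega)).2 hm]
    omega
  · intro m0 m1 m2 m3 h h0 h1 h3 h2 hl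
    have := h h0 h1 h2 h3 (by omega)
    have e1 : ∀ W : List (List ℕ), (∀ w ∈ W, w.Perm [0, 1, 2, 3]) →
        tot W a (blk m0 m1 m3 m2) b = tot W a (fun i => blk m0 m1 m2 m3 (sw 2 i)) b := by
      intro W hW
      rw [tot, tot]
      congr 1
      apply List.map_congr_left
      intro w hw
      simp only [sub]
      congr 3
      apply List.flatMap_congr
      intro i hi
      have := (hW w hw).mem_iff.mp hi
      simp only [List.mem_cons, List.not_mem_nil, or_false] at this
      rcases this with rfl | rfl | rfl | rfl <;> rfl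
    rw [e1 Se pSe, e1 So pSo, tot_swap _ _ _ a b _ _ (pSw 2 (by omega)).1 (fun _ => rfl),
      tot_swap _ _ _ a b _ _ (pSw 2 (by omega)).2 (fun _ => rfl)]
    omega
  · intro m0 m1 m2 m3 k0 k1 k2 h0 h1 h2 h3 hl
    rw [tot_eq Se a _ b _ _ pSe (List.Perm.of_eq (sub_base ..)),
      tot_eq So a _ b _ _ pSo (List.Perm.of_eq (sub_base ..))]
    split_ifs with hc
    swap
    · rfl
    obtain ⟨c1, c2⟩ := hc
    have hlen : (a ++ (m0 ++ (m1 ++ (m2 ++ (m3 ++ b))))).length = 6 := by
      simp only [List.length_append]; omega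
    have key : allSplits 2 (a ++ (m0 ++ (m1 ++ (m2 ++ (m3 ++ b))))) P6 = true := by
      generalize a ++ (m0 ++ (m1 ++ (m2 ++ (m3 ++ b)))) = t at c1 c2 hlen
      obtain ⟨x, t, rfl⟩ := List.exists_cons_of_length_eq_add_one hlen
      have ht : t.length = 5 := by simpa using hlen
      have hm := mem_words t fun y hy => c1 y (List.mem_cons_of_mem _ hy)
      rw [ht] at hm
      have := List.all_eq_true.mp (c6 x (c1 x (by simp))) t hm
      rw [hlen] at c2
      simpa [c2] using this
    have := allSplits_sound 2 a m0 m1 m2 m3 b P6 key h0 h1 h2 h3 hl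
    rw [P6, onSplit_eq, Nat.ble_eq_true_of_le k0, Nat.ble_eq_true_of_le k1,
      Nat.ble_eq_true_of_le k2] at this
    simpa using this

theorem tot_append (W W' : List (List ℕ)) (a b : List ℕ) (m : ℕ → List ℕ) :
    tot (W ++ W') a m b = tot W a m b + tot W' a m b := by simp [tot]

theorem wordCheck (a b m0 m1 m2 m3 : List ℕ) (h0 : m0 ≠ []) (h1 : m1 ≠ []) (h2 : m2 ≠ [])
    (h3 : m3 ≠ []) :
    (tot Se a (blk m0 m1 m2 m3) b + 3 * tot So a (blk m0 m1 m2 m3) b +
      2 * tot Gw a (blk m0 m1 m2 m3) b) % 4 = 0 := by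
  have l0 := List.length_pos_iff.mpr h0
  have l1 := List.length_pos_iff.mpr h1
  have l2 := List.length_pos_iff.mpr h2
  have l3 := List.length_pos_iff.mpr h3
  have g : ∀ (W : List (List ℕ)) (i : ℕ), (∀ w ∈ W, w.Perm [i, 0, 1, 2, 3]) → _ := fun W i hW =>
    tot_eq W a (blk m0 m1 m2 m3) b _ _ hW
      ((sub_cons a b _ i _).trans (List.Perm.of_eq (by rw [sub_base])))
  have hlen : (a ++ (m0 ++ (m1 ++ (m2 ++ (m3 ++ b))))).length =
      a.length + m0.length + m1.length + m2.length + m3.length + b.length := by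
    simp only [List.length_append]; omega
  rw [Gw, tot_append, tot_append, tot_append, g G0 0 pG0, g G1 1 pG1, g G2 2 pG2, g G3 3 pG3]
  by_cases h6 : a.length + m0.length + m1.length + m2.length + m3.length + b.length = 6
  · have := six a b m0 m1 m2 m3 h0 h1 h2 h3 h6
    rw [okh_long, okh_long, okh_long, okh_long]
    · simpa using this
    all_goals (rw [List.length_append, hlen]; simp only [blk]; omega)
  rw [tot_eq Se a _ b _ _ pSe (List.Perm.of_eq (sub_base ..)),
    tot_eq So a _ b _ _ pSo (List.Perm.of_eq (sub_base ..))]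
  by_cases h7 : 7 ≤ a.length + m0.length + m1.length + m2.length + m3.length + b.length
  · rw [okh_long, okh_long, okh_long, okh_long, okh_long]
    · simp
    all_goals (first | (rw [List.length_append, hlen]; omega) | (rw [hlen]; omega))
  by_cases c1 : ∀ x ∈ a ++ (m0 ++ (m1 ++ (m2 ++ (m3 ++ b)))), x < 5
  swap
  · have c2 : ∀ u : List ℕ, ¬ ∀ x ∈ a ++ (m0 ++ (m1 ++ (m2 ++ (m3 ++ b)))) ++ u, x < 5 :=
      fun u hu => c1 fun x hx => hu x (List.mem_append_left _ hx)
    simp only [c1, c2, false_and, if_false]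
  have c2 : ∀ i, ∀ x ∈ a ++ (m0 ++ (m1 ++ (m2 ++ (m3 ++ b)))) ++ blk m0 m1 m2 m3 i, x < 5 := by
    intro i x hx
    rcases List.mem_append.mp hx with hx | hx
    · exact c1 x hx
    · apply c1
      rcases i with _ | _ | _ | i <;> simp only [blk] at hx <;> simp [hx]
  obtain ⟨e, he, hl⟩ : ∃ e, e ≤ 1 ∧
      a.length + m0.length + m1.length + m2.length + m3.length + b.length = e + 4 :=
    ⟨a.length + m0.length + m1.length + m2.length + m3.length + b.length - 4, by omega, by omega⟩
  have key : allSplits e (a ++ (m0 ++ (m1 ++ (m2 ++ (m3 ++ b)))))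
      (P5 (hs (a ++ (m0 ++ (m1 ++ (m2 ++ (m3 ++ b)))))) (e + 4)) = true := by
    rw [hl] at hlen
    generalize a ++ (m0 ++ (m1 ++ (m2 ++ (m3 ++ b)))) = t at c1 hlen
    obtain ⟨x, t, rfl⟩ := List.exists_cons_of_length_eq_add_one hlen
    have ht : t.length = e + 3 := by simpa using hlen
    have hm := mem_words t fun y hy => c1 y (List.mem_cons_of_mem _ hy)
    rw [ht] at hm
    have hx := c1 x (by simp)
    have hc : chk5 e x = true := by
      interval_cases e
      exacts [c4 x hx, c5 x hx]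
    have := List.all_eq_true.mp hc t hm
    rwa [force_eq] at this
  have := allSplits_sound e a m0 m1 m2 m3 b _ key h0 h1 h2 h3 hl
  simp only [P5, force_eq, onSplit_eq] at this
  simp only [eq_true c1, eq_true (c2 _), true_and]
  rw [hs_append _ (blk m0 m1 m2 m3 0), hs_append _ (blk m0 m1 m2 m3 1),
    hs_append _ (blk m0 m1 m2 m3 2), hs_append _ (blk m0 m1 m2 m3 3),
    List.length_append (bs := blk m0 m1 m2 m3 0), List.length_append (bs := blk m0 m1 m2 m3 1),
    List.length_append (bs := blk m0 m1 m2 m3 2), List.length_append (bs := blk m0 m1 m2 m3 3),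
    hlen, hl]
  change _ at this
  generalize hs (a ++ (m0 ++ (m1 ++ (m2 ++ (m3 ++ b))))) = h at this ⊢
  have b0 : blk m0 m1 m2 m3 0 = m0 := rfl
  have b1 : blk m0 m1 m2 m3 1 = m1 := rfl
  have b2 : blk m0 m1 m2 m3 2 = m2 := rfl
  have b3 : blk m0 m1 m2 m3 3 = m3 := rfl
  rw [b0, b1, b2, b3]
  generalize okh h (e + 4) = q at this ⊢
  generalize okh (h + hs m0) (e + 4 + m0.length) = q0 at this ⊢
  generalize okh (h + hs m1) (e + 4 + m1.length) = q1 at this ⊢
  generalize okh (h + hs m2) (e + 4 + m2.length) = q2 at this ⊢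
  generalize okh (h + hs m3) (e + 4 + m3.length) = q3 at this ⊢
  cases q <;> cases q0 <;> cases q1 <;> cases q2 <;> cases q3 <;> simpa using this

end Pool.Agent.Lib.helper27.MonicPI
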