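import Mathlib

set_option autoImplicit false

namespace Pool.Agent.Lib.helper27.Rado

def adjR (i j : ℕ) : Prop := Nat.testBit j i = true ∨ Nat.testBit i j = true

lemma adjR_symm {i j : ℕ} : adjR i j ↔ adjR j i := or_comm

def Ext (R : ℕ → ℕ → Prop) : Prop :=
  ∀ (P : ℕ → Prop) (M : ℕ), ∃ z, M ≤ z ∧ ∀ i, i < M → (R z i ↔ P i)

lemma ext_adjR : Ext adjR := by
  classical
  intro P M
  set f : Fin (M + 1) → Bool := fun i => if (i : ℕ) = M then true else decide (P i) with hf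
  have htop : (Nat.ofBits f).testBit M = true := by
    rw [Nat.testBit_ofBits_lt f M (by omega)]
    simp [hf]
  have hge : 2 ^ M ≤ Nat.ofBits f := Nat.ge_two_pow_of_testBit htop
  have hM : M < 2 ^ M := Nat.lt_two_pow_self
  refine ⟨Nat.ofBits f, by omega, fun i hi => ?_⟩
  have h1 : Nat.testBit i (Nat.ofBits f) = false := by
    apply Nat.testBit_lt_two_pow
    have : Nat.ofBits f < 2 ^ Nat.ofBits f := Nat.lt_two_pow_self
    omega
  have h2 : (Nat.ofBits f).testBit i = decide (P i) := by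
    rw [Nat.testBit_ofBits_lt f i (by omega)]
    simp [hf, hi.ne]
  simp [adjR, h1, h2]

def PI (R1 R2 : ℕ → ℕ → Prop) (p : Finset (ℕ × ℕ)) : Prop :=
  ∀ x ∈ p, ∀ y ∈ p, (x.1 = y.1 ↔ x.2 = y.2) ∧ (x.1 ≠ y.1 → (R2 x.2 y.2 ↔ R1 x.1 y.1))

lemma PI.swap {R1 R2 : ℕ → ℕ → Prop} {p : Finset (ℕ × ℕ)} (h : PI R1 R2 p) :
    PI R2 R1 (p.image Prod.swap) := by
  intro x hx y hy
  obtain ⟨a, ha, rfl⟩ := Finset.mem_image.mp hx
  obtain ⟨b, hb, rfl⟩ := Finset.mem_image.mp hy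
  obtain ⟨h1, h2⟩ := h a ha b hb
  exact ⟨h1.symm, fun hne => (h2 (fun e => hne (h1.mp e))).symm⟩

lemma PI.extend {R1 R2 : ℕ → ℕ → Prop} (s1 : ∀ i j, R1 i j ↔ R1 j i) (s2 : ∀ i j, R2 i j ↔ R2 j i)
    (e2 : Ext R2) {p : Finset (ℕ × ℕ)} (h : PI R1 R2 p) (a : ℕ) :
    ∃ q, PI R1 R2 q ∧ p ⊆ q ∧ ∃ b, (a, b) ∈ q := by
  by_cases ha : ∃ b, (a, b) ∈ p
  · exact ⟨p, h, subset_rfl, ha⟩
  · obtain ⟨z, hz, hz2⟩ := e2 (fun i => ∃ x ∈ p, x.2 = i ∧ R1 a x.1) (p.sup Prod.snd + 1)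
    have hlt : ∀ x ∈ p, x.2 < p.sup Prod.snd + 1 := fun x hx =>
      Nat.lt_succ_of_le (Finset.le_sup (f := Prod.snd) hx)
    have key : ∀ x ∈ p, (a = x.1 ↔ z = x.2) ∧ (R2 z x.2 ↔ R1 a x.1) := by
      intro x hx
      constructor
      · constructor
        · intro e; exact absurd ⟨x.2, by rw [e]; exact hx⟩ ha
        · intro e; have := hlt x hx; omega
      · rw [hz2 _ (hlt x hx)]
        constructor
        · rintro ⟨y, hy, h1, h2⟩
          rw [← (h y hy x hx).1.mpr h1]; exact h2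
        · intro h1; exact ⟨x, hx, rfl, h1⟩
    refine ⟨insert (a, z) p, ?_, Finset.subset_insert _ _, z, Finset.mem_insert_self _ _⟩
    intro x hx y hy
    rcases Finset.mem_insert.mp hx with rfl | hx <;> rcases Finset.mem_insert.mp hy with rfl | hy
    · simp
    · exact ⟨(key y hy).1, fun _ => (key y hy).2⟩
    · refine ⟨?_, fun _ => ?_⟩
      · rw [eq_comm, (key x hx).1, eq_comm]
      · rw [s2, s1]; exact (key x hx).2
    · exact h x hx y hy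

lemma PI.extend2 {R1 R2 : ℕ → ℕ → Prop} (s1 : ∀ i j, R1 i j ↔ R1 j i) (s2 : ∀ i j, R2 i j ↔ R2 j i)
    (e1 : Ext R1) (e2 : Ext R2) {p : Finset (ℕ × ℕ)} (h : PI R1 R2 p) (a : ℕ) :
    ∃ q, PI R1 R2 q ∧ p ⊆ q ∧ (∃ b, (a, b) ∈ q) ∧ ∃ b, (b, a) ∈ q := by
  obtain ⟨q, h1, h2, b, h3⟩ := h.extend s1 s2 e2 a
  obtain ⟨q', h4, h5, b', h6⟩ := h1.swap.extend s2 s1 e1 a
  have hsub : q ⊆ q'.image Prod.swap := fun x hx =>
    Finset.mem_image.mpr ⟨x.swap, h5 (Finset.mem_image_of_mem _ hx), Prod.swap_swap x⟩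
  exact ⟨q'.image Prod.swap, h4.swap, h2.trans hsub, ⟨b, hsub h3⟩, b',
    Finset.mem_image.mpr ⟨(a, b'), h6, rfl⟩⟩

theorem back_forth {R1 R2 : ℕ → ℕ → Prop} (s1 : ∀ i j, R1 i j ↔ R1 j i)
    (s2 : ∀ i j, R2 i j ↔ R2 j i) (e1 : Ext R1) (e2 : Ext R2) {p : Finset (ℕ × ℕ)}
    (h : PI R1 R2 p) : ∃ σ : Equiv.Perm ℕ, (∀ x ∈ p, σ x.1 = x.2) ∧
      ∀ i j, i ≠ j → (R2 (σ i) (σ j) ↔ R1 i j) := by
  have hstep : ∀ (q : {q // PI R1 R2 q}) (a : ℕ), ∃ q' : {q // PI R1 R2 q}, q.1 ⊆ q'.1 ∧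
      (∃ b, (a, b) ∈ q'.1) ∧ ∃ b, (b, a) ∈ q'.1 := by
    intro q a
    obtain ⟨q', h1, h2, h3⟩ := q.2.extend2 s1 s2 e1 e2 a
    exact ⟨⟨q', h1⟩, h2, h3⟩
  choose nx hnx1 hnx2 hnx3 using hstep
  let sq : ℕ → {q // PI R1 R2 q} := fun n => Nat.rec ⟨p, h⟩ (fun n q => nx q n) n
  have hsq : ∀ n, sq (n + 1) = nx (sq n) n := fun n => rfl
  have hmono : Monotone (fun n => (sq n).1) :=
    monotone_nat_of_le_succ fun n => by rw [hsq]; exact hnx1 _ _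
  have hpair : ∀ n m x y, x ∈ (sq n).1 → y ∈ (sq m).1 →
      (x.1 = y.1 ↔ x.2 = y.2) ∧ (x.1 ≠ y.1 → (R2 x.2 y.2 ↔ R1 x.1 y.1)) := by
    intro n m x y hx hy
    exact (sq (max n m)).2 x (hmono (le_max_left n m) hx) y (hmono (le_max_right n m) hy)
  choose F hF using fun a => hnx2 (sq a) a
  choose G hG using fun a => hnx3 (sq a) a
  have hF' : ∀ a, (a, F a) ∈ (sq (a + 1)).1 := hF
  have hG' : ∀ a, (G a, a) ∈ (sq (a + 1)).1 := hG
  refine ⟨⟨F, G, fun a => ?_, fun b => ?_⟩, fun x hx => ?_, fun i j hij => ?_⟩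
  · have := (hpair (F a + 1) (a + 1) _ _ (hG' (F a)) (hF' a)).1
    exact this.mpr rfl
  · have := (hpair (G b + 1) (b + 1) _ _ (hF' (G b)) (hG' b)).1
    exact this.mp rfl
  · have := (hpair (x.1 + 1) 0 _ _ (hF' x.1) hx).1
    exact this.mp rfl
  · have := (hpair (i + 1) (j + 1) _ _ (hF' i) (hF' j)).2
    exact this hij

theorem homog {n : ℕ} (u v : Fin n → ℕ) (hu : Function.Injective u) (hv : Function.Injective v)
    (S0 : Set (Fin n))
    (h : ∀ a b, a ≠ b → (adjR (v a) (v b) ↔ (adjR (u a) (u b) ↔ (a ∈ S0 ↔ b ∈ S0)))) :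
    ∃ σ : Equiv.Perm ℕ, (∀ a, σ (u a) = v a) ∧
      ∃ S : Set ℕ, ∀ i j, i ≠ j → (adjR (σ i) (σ j) ↔ (adjR i j ↔ (i ∈ S ↔ j ∈ S))) := by
  set S : Set ℕ := u '' S0 with hS
  have hmem : ∀ a, u a ∈ S ↔ a ∈ S0 := fun a => hu.mem_set_image
  have e1 : Ext (fun i j => adjR i j ↔ (i ∈ S ↔ j ∈ S)) := by
    intro P M
    obtain ⟨z, hz, hz2⟩ := ext_adjR (fun i => P i ↔ i ∉ S) (M + Finset.univ.sup u + 1)
    have hzS : z ∉ S := by
      rintro ⟨a, _, ha⟩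
      have : u a ≤ Finset.univ.sup u := Finset.le_sup (f := u) (Finset.mem_univ a)
      omega
    refine ⟨z, by omega, fun i hi => ?_⟩
    show (adjR z i ↔ (z ∈ S ↔ i ∈ S)) ↔ P i
    rw [hz2 i (by omega)]
    tauto
  have hp : PI (fun i j => adjR i j ↔ (i ∈ S ↔ j ∈ S)) adjR
      (Finset.univ.image fun a => (u a, v a)) := by
    intro x hx y hy
    obtain ⟨a, _, rfl⟩ := Finset.mem_image.mp hx
    obtain ⟨b, _, rfl⟩ := Finset.mem_image.mp hy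
    refine ⟨by simp [hu.eq_iff, hv.eq_iff], fun hne => ?_⟩
    have hab : a ≠ b := fun e => hne (by rw [e])
    show adjR (v a) (v b) ↔ (adjR (u a) (u b) ↔ (u a ∈ S ↔ u b ∈ S))
    rw [h a b hab, hmem, hmem]
  obtain ⟨σ, h1, h2⟩ := back_forth (fun i j => by rw [adjR_symm, iff_comm (a := i ∈ S)])
    (fun i j => adjR_symm) e1 ext_adjR hp
  exact ⟨σ, fun a => h1 (u a, v a) (Finset.mem_image_of_mem _ (Finset.mem_univ a)), S, h2⟩

lemma univ_aux (ρ : ℕ → ℕ → Prop) (n : ℕ) :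
    ∃ u : ℕ → ℕ, ∀ a b, a < b → b < n → u a < u b ∧ (adjR (u b) (u a) ↔ ρ a b) := by
  induction n with
  | zero => exact ⟨id, fun a b _ h => by omega⟩
  | succ n ih =>
    obtain ⟨u, hu⟩ := ih
    obtain ⟨z, hz, hz2⟩ := ext_adjR (fun i => ∃ a, a < n ∧ u a = i ∧ ρ a n)
      ((Finset.range n).sup u + 1)
    have hlt : ∀ a, a < n → u a < (Finset.range n).sup u + 1 := fun a ha =>
      Nat.lt_succ_of_le (Finset.le_sup (f := u) (Finset.mem_range.mpr ha))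
    refine ⟨Function.update u n z, fun a b hab hb => ?_⟩
    rw [Function.update_of_ne (by omega : a ≠ n)]
    rcases Nat.lt_succ_iff_lt_or_eq.mp hb with h | h
    · rw [Function.update_of_ne (by omega : b ≠ n)]
      exact hu a b hab h
    · subst h
      rw [Function.update_self]
      refine ⟨by have := hlt a hab; omega, ?_⟩
      rw [hz2 _ (hlt a hab)]
      constructor
      · rintro ⟨a', h1, h2, h3⟩
        rcases lt_trichotomy a a' with h | h | h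
        · have := (hu a a' h h1).1; omega
        · rw [h]; exact h3
        · have := (hu a' a h hab).1; omega
      · intro h; exact ⟨a, hab, rfl, h⟩

theorem universal {n : ℕ} (g : SimpleGraph (Fin n)) :
    ∃ u : Fin n → ℕ, Function.Injective u ∧ ∀ a b, a ≠ b → (adjR (u a) (u b) ↔ g.Adj a b) := by
  obtain ⟨u, hu⟩ := univ_aux (fun a b => ∃ ha : a < n, ∃ hb : b < n, g.Adj ⟨a, ha⟩ ⟨b, hb⟩) n
  have key : ∀ a b : Fin n, a < b → u a < u b ∧ (adjR (u b) (u a) ↔ g.Adj a b) := by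
    intro a b hab
    obtain ⟨h1, h2⟩ := hu a b hab b.2
    refine ⟨h1, h2.trans ⟨fun ⟨_, _, h⟩ => h, fun h => ⟨a.2, b.2, h⟩⟩⟩
  refine ⟨fun a => u a, ?_, fun a b hab => ?_⟩
  · intro a b h
    have h' : u a = u b := h
    rcases lt_trichotomy a b with h1 | h1 | h1
    · have := (key a b h1).1; omega
    · exact h1
    · have := (key b a h1).1; omega
  · rcases lt_or_gt_of_ne hab with h1 | h1
    · rw [adjR_symm]; exact (key a b h1).2
    · rw [g.adj_comm]; exact (key b a h1).2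

end Pool.Agent.Lib.helper27.Rado
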