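import Mathlib

set_option autoImplicit false

namespace Pool.Agent.Lib.helper27.RealClosure

open scoped Matrix

variable {Ω : Type*} [Fintype Ω]

/-- existence of a symmetric kernel reproducing a subspace -/
theorem exists_kernel (W : Submodule ℝ (Ω → ℝ)) :
    ∃ K : Ω → Ω → ℝ, (∀ x y, K x y = K y x) ∧
      (∀ f : Ω → ℝ, (fun x => ∑ y, K x y * f y) ∈ W) ∧
      (∀ f ∈ W, ∀ x, ∑ y, K x y * f y = f x) := by
  classical
  let e : EuclideanSpace ℝ Ω ≃ₗ[ℝ] (Ω → ℝ) := (EuclideanSpace.equiv Ω ℝ).toLinearEquiv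
  let W' : Submodule ℝ (EuclideanSpace ℝ Ω) := W.comap e.toLinearMap
  let P := W'.starProjection
  have key : ∀ f : Ω → ℝ, ∀ x, ∑ y, (P (EuclideanSpace.single y 1)) x * f y
      = (P (e.symm f)) x := by
    intro f x
    have h1 : e.symm f = ∑ y, f y • EuclideanSpace.single y (1 : ℝ) := by
      ext z
      simp [e, Pi.single_apply]
    rw [h1, map_sum]
    simp [mul_comm]
  refine ⟨fun x y => (P (EuclideanSpace.single y 1)) x, ?_, ?_, ?_⟩
  · intro x y
    have h := Submodule.inner_starProjection_left_eq_right W'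
      (EuclideanSpace.single x (1 : ℝ)) (EuclideanSpace.single y (1 : ℝ))
    simp only [EuclideanSpace.inner_single_left, EuclideanSpace.inner_single_right] at h
    simpa [P] using h.symm
  · intro f
    have h : P (e.symm f) ∈ W' := Submodule.starProjection_apply_mem W' _
    have h2 : (fun x => ∑ y, (P (EuclideanSpace.single y 1)) x * f y) = e (P (e.symm f)) := by
      funext x; rw [key]; rfl
    rw [h2]; exact h
  · intro f hf x
    rw [key]
    have h : P (e.symm f) = e.symm f := by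
      apply Submodule.starProjection_eq_self_iff.mpr
      show e (e.symm f) ∈ W
      simpa using hf
    rw [h]; rfl

theorem kernel_unique (W : Submodule ℝ (Ω → ℝ)) (K L : Ω → Ω → ℝ)
    (hK : ∀ x y, K x y = K y x) (hK1 : ∀ f : Ω → ℝ, (fun x => ∑ y, K x y * f y) ∈ W)
    (hK2 : ∀ f ∈ W, ∀ x, ∑ y, K x y * f y = f x)
    (hL : ∀ x y, L x y = L y x) (hL1 : ∀ f : Ω → ℝ, (fun x => ∑ y, L x y * f y) ∈ W)
    (hL2 : ∀ f ∈ W, ∀ x, ∑ y, L x y * f y = f x) : ∀ x y, K x y = L x y := by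
  classical
  have cK : ∀ z, (fun x => K x z) ∈ W := by
    intro z
    have := hK1 (fun y => if y = z then 1 else 0)
    simpa using this
  have cL : ∀ z, (fun x => L x z) ∈ W := by
    intro z
    have := hL1 (fun y => if y = z then 1 else 0)
    simpa using this
  intro x y
  have h1 := hL2 _ (cK y) x
  have h2 := hK2 _ (cL x) y
  rw [← h1, hL x y, ← h2]
  apply Finset.sum_congr rfl
  intro z _
  rw [hL x z, hK z y, mul_comm]

theorem closure_of_pairs (G : Subgroup (Equiv.Perm Ω)) (σ : Equiv.Perm Ω)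
    (h : ∀ a b : Ω, ∃ g ∈ G, ({g a, g b} : Set Ω) = {σ a, σ b})
    (W : Submodule ℝ (Ω → ℝ)) (hW : ∀ g ∈ G, ∀ f ∈ W, (fun x => f (g x)) ∈ W) :
    ∀ f ∈ W, (fun x => f (σ x)) ∈ W := by
  classical
  obtain ⟨K, hK, hK1, hK2⟩ := exists_kernel W
  have inv : ∀ g ∈ G, ∀ x y, K (g x) (g y) = K x y := by
    intro g hg
    apply kernel_unique W (fun x y => K (g x) (g y)) K (fun x y => hK _ _) _ _ hK hK1 hK2
    · intro f
      have h1 := hW g hg _ (hK1 (fun y => f (g⁻¹ y)))
      have h2 : (fun x => ∑ y, K (g x) (g y) * f y) =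
          (fun x => ∑ y, K (g x) y * f (g⁻¹ y)) := by
        funext x
        rw [← Equiv.sum_comp g (fun y => K (g x) y * f (g⁻¹ y))]
        simp
      rw [h2]; exact h1
    · intro f hf x
      have h1 := hK2 _ (hW g⁻¹ (G.inv_mem hg) f hf) (g x)
      rw [← Equiv.sum_comp g (fun y => K (g x) y * f (g⁻¹ y))] at h1
      simpa using h1
  have invσ : ∀ x y, K (σ x) (σ y) = K x y := by
    intro x y
    obtain ⟨g, hg, hs⟩ := h x y
    rw [← inv g hg x y]
    rcases Set.pair_eq_pair_iff.mp hs with ⟨h1, h2⟩ | ⟨h1, h2⟩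
    · rw [h1, h2]
    · rw [h1, h2, hK]
  intro f hf
  have h1 := hK1 (fun y => f (σ y))
  have h2 : (fun x => f (σ x)) = (fun x => ∑ y, K x y * f (σ y)) := by
    funext x
    rw [← hK2 f hf (σ x), ← Equiv.sum_comp σ (fun y => K (σ x) y * f y)]
    simp [invσ]
  rw [h2]; exact h1

theorem pairs_of_closure (G : Subgroup (Equiv.Perm Ω)) (σ : Equiv.Perm Ω)
    (h : ∀ W : Submodule ℝ (Ω → ℝ), (∀ g ∈ G, ∀ f ∈ W, (fun x => f (g x)) ∈ W) →
      ∀ f ∈ W, (fun x => f (σ x)) ∈ W) (a b : Ω) :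
    ∃ g ∈ G, ({g a, g b} : Set Ω) = {σ a, σ b} := by
  classical
  let A : Matrix Ω Ω ℝ := fun x y => if ∃ g ∈ G, ({g a, g b} : Set Ω) = {x, y} then 1 else 0
  have hA : A.IsHermitian := by
    ext x y
    simp only [A, Matrix.conjTranspose_apply, star_trivial, Set.pair_comm y x]
  have hAinv : ∀ g ∈ G, ∀ x y, A (g x) (g y) = A x y := by
    intro g hg x y
    have : (∃ k ∈ G, ({k a, k b} : Set Ω) = {g x, g y}) ↔
        (∃ k ∈ G, ({k a, k b} : Set Ω) = {x, y}) := by
      constructor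
      · rintro ⟨k, hk, hs⟩
        refine ⟨g⁻¹ * k, G.mul_mem (G.inv_mem hg) hk, ?_⟩
        have := congrArg (Set.image (g⁻¹ : Equiv.Perm Ω)) hs
        simpa [Set.image_pair] using this
      · rintro ⟨k, hk, hs⟩
        refine ⟨g * k, G.mul_mem hg hk, ?_⟩
        have := congrArg (Set.image (g : Equiv.Perm Ω)) hs
        simpa [Set.image_pair] using this
    simp only [A, this]
  have comm : ∀ g ∈ G, ∀ f : Ω → ℝ, A *ᵥ (fun x => f (g x)) = fun x => (A *ᵥ f) (g x) := by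
    intro g hg f
    funext x
    simp only [Matrix.mulVec, dotProduct]
    rw [← Equiv.sum_comp g (fun y => A (g x) y * f y)]
    simp [hAinv g hg]
  have eig : ∀ (μ : ℝ) (f : Ω → ℝ), A *ᵥ f = μ • f →
      A *ᵥ (fun x => f (σ x)) = fun x => (A *ᵥ f) (σ x) := by
    intro μ f hf
    let W : Submodule ℝ (Ω → ℝ) := LinearMap.ker (Matrix.mulVecLin A - μ • LinearMap.id)
    have memW : ∀ u, u ∈ W ↔ A *ᵥ u = μ • u := by
      intro u
      simp [W, sub_eq_zero]
    have h1 := h W (by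
      intro g hg u hu
      rw [memW] at hu ⊢
      rw [comm g hg, hu]; rfl) f ((memW f).mpr hf)
    rw [memW] at h1
    rw [h1, hf]; rfl
  let S : (Ω → ℝ) →ₗ[ℝ] (Ω → ℝ) := LinearMap.funLeft ℝ ℝ σ
  let e : EuclideanSpace ℝ Ω ≃ₗ[ℝ] (Ω → ℝ) := (EuclideanSpace.equiv Ω ℝ).toLinearEquiv
  have all : (Matrix.mulVecLin A) ∘ₗ S = S ∘ₗ (Matrix.mulVecLin A) := by
    apply (hA.eigenvectorBasis.toBasis.map e).ext
    intro j
    have h1 := hA.mulVec_eigenvectorBasis j
    exact eig _ _ h1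
  have h2 := congrFun (LinearMap.congr_fun all (fun y => if y = σ b then 1 else 0)) a
  have h3 : A (σ a) (σ b) = A a b := by
    simpa [S, LinearMap.funLeft, Matrix.mulVec, dotProduct] using h2.symm
  have h4 : A a b = 1 := by
    have : ∃ g ∈ G, ({g a, g b} : Set Ω) = {a, b} := ⟨1, G.one_mem, rfl⟩
    simp only [A, this, if_true]
  by_contra hne
  have : A (σ a) (σ b) = 0 := by simp only [A, hne, if_false]
  rw [this, h4] at h3
  exact zero_ne_one h3

theorem points_of_pairs (h3 : 3 ≤ Fintype.card Ω) (G : Subgroup (Equiv.Perm Ω))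
    (σ : Equiv.Perm Ω)
    (h : ∀ a b : Ω, a ≠ b → ∃ g ∈ G, ({g a, g b} : Set Ω) = {σ a, σ b}) (a b : Ω) :
    ∃ g ∈ G, ({g a, g b} : Set Ω) = {σ a, σ b} := by
  classical
  by_cases hab : a = b
  swap
  · exact h a b hab
  subst hab
  suffices hs : ∃ g ∈ G, g a = σ a by
    obtain ⟨g, hg, hs⟩ := hs
    exact ⟨g, hg, by rw [hs]⟩
  by_contra hne
  push Not at hne
  have step : ∀ y, y ≠ a → ∃ g ∈ G, g a = σ y ∧ g y = σ a := by
    intro y hy
    obtain ⟨g, hg, hs⟩ := h a y hy.symm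
    rcases Set.pair_eq_pair_iff.mp hs with ⟨h1, _⟩ | ⟨h1, h2⟩
    · exact absurd h1 (hne g hg)
    · exact ⟨g, hg, h1, h2⟩
  have fix : ∀ k ∈ G, k a = a := by
    intro k hk
    by_contra hka
    obtain ⟨g, hg, _, h2⟩ := step (k a) hka
    exact hne (g * k) (G.mul_mem hg hk) h2
  have hy : ∀ y, y ≠ a → y = σ⁻¹ a := by
    intro y hy
    obtain ⟨g, hg, h1, _⟩ := step y hy
    rw [fix g hg] at h1
    rw [h1]; simp
  have hsub : (Finset.univ : Finset Ω) ⊆ {a, σ⁻¹ a} := by
    intro y _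
    by_cases hya : y = a
    · simp [hya]
    · simp [hy y hya]
  have := Finset.card_le_card hsub
  have h2 : ({a, σ⁻¹ a} : Finset Ω).card ≤ 2 := Finset.card_le_two
  rw [Finset.card_univ] at this
  omega

end Pool.Agent.Lib.helper27.RealClosure
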