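import Mathlib

set_option autoImplicit false

namespace Pool.Agent.Lib.helper27.SSep

open Set MeasureTheory TopologicalSpace UnitAddTorus Cardinal

theorem kron {d : Type} [Fintype d] (θ : d → ℝ)
    (h : ∀ n : d → ℤ, n ≠ 0 → ∀ k : ℤ, ∑ i, n i * θ i ≠ k) :
    DenseRange fun k : ℤ => k • fun i => (θ i : UnitAddCircle) := by
  letI : MeasureSpace UnitAddCircle := ⟨AddCircle.haarAddCircle⟩
  haveI : Measure.IsAddHaarMeasure (volume : Measure UnitAddCircle) :=
    inferInstanceAs (Measure.IsAddHaarMeasure AddCircle.haarAddCircle)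
  set v : UnitAddTorus d := fun i => (θ i : UnitAddCircle) with hv
  set K := range fun k : ℤ => k • v with hK
  let f : C(UnitAddTorus d, ℂ) := ⟨fun x => (Metric.infDist x K : ℝ),
    Complex.continuous_ofReal.comp (Metric.continuous_infDist_pt K)⟩
  have h1 : ∀ x, f (x + v) = f x := by
    intro x
    have e : (fun y => y + v) '' K = K := by
      ext y
      constructor
      · rintro ⟨_, ⟨k, rfl⟩, rfl⟩; exact ⟨k + 1, by simp [add_smul]⟩
      · rintro ⟨k, rfl⟩; exact ⟨_, ⟨k - 1, rfl⟩, by simp [sub_smul]⟩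
    have := Metric.infDist_image (x := x) (t := K) (isometry_add_right v)
    rw [e] at this
    exact congrArg Complex.ofReal this
  have h2 : ∀ n, n ≠ 0 → mFourierCoeff f n = 0 := by
    intro n hn
    have e1 : ∀ x, mFourier (-n) (x + v) = mFourier (-n) v * mFourier (-n) x := fun x => by
      simp only [mFourier, ContinuousMap.coe_mk, ← Finset.prod_mul_distrib, Pi.add_apply,
        fourier_apply, smul_add, AddCircle.toCircle_add, Circle.coe_mul, mul_comm]
    have e2 := integral_add_right_eq_self (μ := (volume : Measure (UnitAddTorus d)))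
      (fun t => mFourier (-n) t • f t) v
    simp only [h1, e1, smul_eq_mul, mul_assoc, integral_const_mul] at e2
    have e3 : mFourier (-n) v ≠ 1 := by
      intro e
      simp only [mFourier, ContinuousMap.coe_mk, hv, fourier_coe_apply, ← Complex.exp_sum,
        Complex.exp_eq_one_iff] at e
      obtain ⟨k, hk⟩ := e
      refine h (-n) (neg_ne_zero.mpr hn) k (Complex.ofReal_injective
        (mul_right_cancel₀ Complex.two_pi_I_ne_zero ?_))
      push_cast
      rw [← hk, Finset.sum_mul]
      exact Finset.sum_congr rfl fun i _ => by push_cast; ring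
    exact (mul_left_eq_self₀.mp e2).resolve_left e3
  have h3 : ∀ x, f x = mFourierCoeff f 0 := fun x => by
    have := (hasSum_mFourier_series_apply_of_summable
      (summable_of_ne_finset_zero (s := {0}) fun n hn => h2 n (by simpa using hn)) x).unique
      (hasSum_single 0 fun n hn => by rw [h2 n hn, zero_smul])
    simpa [mFourier_zero] using this
  intro x
  have h4 : Metric.infDist x K = Metric.infDist 0 K :=
    Complex.ofReal_injective ((h3 x).trans (h3 0).symm)
  rw [Metric.mem_closure_iff_infDist_zero (range_nonempty _), h4]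
  exact Metric.infDist_zero_of_mem ⟨0, zero_smul _ _⟩

abbrev G : Type := (ℕ → ℝ) ⊕ Bool

abbrev V : Type := ℝ ⊕ G ⊕ G × ℝ

noncomputable abbrev Y (v : V) : MvPolynomial V ℚ := MvPolynomial.X v

theorem indep : ∃ x : V → ℝ, ∀ (P : MvPolynomial V ℚ) (y : V → ℝ),
    MvPolynomial.aeval x P = 0 → MvPolynomial.aeval y P = 0 := by
  obtain ⟨s, hs⟩ := exists_isTranscendenceBasis ℚ ℝ
  have h1 : #V ≤ #s := by
    have h2 : #V = continuum := by
      have h2 : (2 : Cardinal.{0}) ≤ continuum := nat_lt_continuum 2 |>.le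
      simp [mk_real, add_eq_left aleph0_le_continuum h2]
    rw [h2]
    by_contra h
    rcases isEmpty_or_nonempty s with hs0 | hs0
    · haveI := hs.isEmpty_iff_isAlgebraic.mp hs0
      have h3 := Algebra.IsAlgebraic.cardinalMk_le_max ℚ ℝ
      simp only [mk_real, mk_eq_aleph0, max_self] at h3
      exact h3.not_gt aleph0_lt_continuum
    have h3 := hs.lift_cardinalMk_eq_max_lift
    simp only [lift_id, mk_real, mk_eq_aleph0] at h3
    exact h3.not_gt (max_lt (max_lt aleph0_lt_continuum (not_le.mp h)) aleph0_lt_continuum)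
  obtain ⟨e⟩ := h1
  refine ⟨Subtype.val ∘ e, fun P y hP => ?_⟩
  rw [(hs.1.comp e e.injective).eq_zero_of_aeval_eq_zero P hP, map_zero]

def supp : G → Set ℝ
  | .inl s => range s
  | .inr _ => univ

open Classical in
noncomputable def mo {R : Type} [CommRing R] (x : V → R) (g : G) (i : ℝ) : R :=
  if i ∈ supp g then x (.inr (.inl g)) * x (.inl i) else x (.inr (.inr (g, i)))

noncomputable def F {R : Type} [CommRing R] (m : ℝ → R) : (ℝ →₀ ℤ) →+ R :=
  Finsupp.liftAddHom fun i => zmultiplesHom R (m i)

theorem F_eq {R : Type} [CommRing R] (m : ℝ → R) (a : ℝ →₀ ℤ) :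
    F m a = ∑ i ∈ a.support, a i * m i := by
  simp [F, Finsupp.sum]

theorem key {x : V → ℝ} (hx : ∀ (P : MvPolynomial V ℚ) (y : V → ℝ),
    MvPolynomial.aeval x P = 0 → MvPolynomial.aeval y P = 0) (a : ℝ →₀ ℤ) (ha : a ≠ 0)
    (I : Finset G) (n : I → ℤ) (hn : n ≠ 0) (k : ℤ) : ∑ g, n g * F (mo x g) a ≠ k := by
  classical
  intro h
  have h1 : ∀ y : V → ℝ, ∑ g, n g * F (mo y g) a = k := by
    intro y
    have e : ∀ y : V → ℝ, MvPolynomial.aeval y
        (∑ g, (n g : MvPolynomial V ℚ) * F (mo Y g) a - (k : MvPolynomial V ℚ)) =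
        ∑ g, n g * F (mo y g) a - k := fun y => by
      simp [F_eq, mo, apply_ite (MvPolynomial.aeval y)]
    have := hx _ y ((e x).trans (sub_eq_zero.mpr h))
    rwa [e, sub_eq_zero] at this
  obtain ⟨g, hg⟩ := Function.ne_iff.mp hn
  obtain ⟨i, hi⟩ := Finsupp.support_nonempty_iff.mpr ha
  have h2 := h1 0
  have h3 := h1 fun v => if v = .inl i ∨ v = .inr (.inl g) ∨ v = .inr (.inr (g, i)) then 1 else 0
  have h4 : (k : ℝ) = 0 := by simpa [F_eq, mo] using h2.symm
  rw [h4, Finset.sum_eq_single g, F_eq, Finset.sum_eq_single i] at h3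
  · simp [mo, Finsupp.mem_support_iff.mp hi] at h3
    exact hg h3
  · intro j _ hj
    simp [mo, hj]
  · exact fun h => absurd hi h
  · intro g' _ hg'
    simp [F_eq, mo, Subtype.coe_ne_coe.mpr hg']
  · simp

theorem core : ∃ (H : Type) (_ : TopologicalSpace H) (_ : Group H), IsTopologicalGroup H ∧
    T2Space H ∧ (∀ K : Subgroup H, IsClosed (K : Set H) → SeparableSpace K) ∧
    ∃ L : Subgroup (Multiplicative ℝ × H), IsClosed (L : Set (Multiplicative ℝ × H)) ∧
      ¬ SeparableSpace L := by
  classical
  obtain ⟨x, hx⟩ := indep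
  let j : (ℝ →₀ ℤ) →+ (G → UnitAddCircle) :=
    AddMonoidHom.pi fun g => (QuotientAddGroup.mk' _).comp (F (mo x g))
  have hj : ∀ a g, j a g = (F (mo x g) a : ℝ) := fun _ _ => rfl
  let c : G → Multiplicative ℝ × Multiplicative j.range → UnitAddCircle := fun g p =>
    ((x (.inr (.inl g)) * p.1.toAdd : ℝ) : UnitAddCircle) - p.2.toAdd.1 g
  have hc : ∀ g, Continuous (c g) := fun g =>
    ((AddCircle.continuous_mk' 1).comp (continuous_const.mul (continuous_toAdd.comp
      continuous_fst))).sub ((continuous_apply g).comp (continuous_subtype_val.comp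
        (continuous_toAdd.comp continuous_snd)))
  have hF : ∀ (g : G) (a : ℝ →₀ ℤ), (∀ i ∈ a.support, i ∈ supp g) →
      F (mo x g) a = x (.inr (.inl g)) * F (fun i => x (.inl i)) a := by
    intro g a h
    rw [F_eq, F_eq, Finset.mul_sum]
    exact Finset.sum_congr rfl fun i hi => by rw [mo, if_pos (h i hi)]; ring
  let L : Subgroup (Multiplicative ℝ × Multiplicative j.range) :=
    { carrier := {p | ∀ b, c (.inr b) p = 0}
      one_mem' := fun b => by simp [c]
      mul_mem' := fun {p q} hp hq b => by
        have := congrArg₂ (· + ·) (hp b) (hq b)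
        simp only [c, add_zero] at this
        rw [← this]
        simp only [c, Prod.fst_mul, Prod.snd_mul, toAdd_mul, mul_add, AddCircle.coe_add,
          AddSubgroup.coe_add, Pi.add_apply]
        abel
      inv_mem' := fun {p} hp b => by
        have := congrArg Neg.neg (hp b)
        simp only [c, neg_zero] at this
        rw [← this]
        simp only [c, Prod.fst_inv, Prod.snd_inv, toAdd_inv, mul_neg, AddCircle.coe_neg,
          AddSubgroup.coe_neg, Pi.neg_apply]
        abel }
  refine ⟨Multiplicative j.range, inferInstance, inferInstance, inferInstance,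
    inferInstanceAs (T2Space j.range), fun K hK => ?_, L, ?_, fun hL => ?_⟩
  · by_cases h : ∀ p ∈ K, p = 1
    · haveI : Subsingleton K := ⟨fun p q => Subtype.ext ((h _ p.2).trans (h _ q.2).symm)⟩
      infer_instance
    push Not at h
    obtain ⟨p, hp, hp1⟩ := h
    obtain ⟨a, ha⟩ := p.toAdd.2
    have ha0 : a ≠ 0 := fun e => hp1 (Multiplicative.toAdd.injective (Subtype.ext (by
      rw [← ha, e, map_zero]; rfl)))
    have hI : Topology.IsInducing fun q : K => q.1.toAdd.1 :=
      Topology.IsInducing.subtypeVal.comp Topology.IsInducing.subtypeVal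
    refine DenseRange.separableSpace (f := fun k : ℤ => (⟨p ^ k, K.zpow_mem hp k⟩ : K))
      (hI.dense_iff.mpr fun q => mem_closure_iff_nhds.mpr fun U hU => ?_)
      continuous_of_discreteTopology
    rw [nhds_pi, Filter.mem_pi'] at hU
    obtain ⟨I, t, ht, hU⟩ := hU
    obtain ⟨_, h1, k, rfl⟩ := mem_closure_iff_nhds.mp (kron (fun g : I => F (mo x g) a)
      (key hx a ha0 I) fun g => q.1.toAdd.1 g) _ (set_pi_mem_nhds finite_univ fun g _ => ht g)
    refine ⟨_, hU fun g hg => ?_, _, ⟨k, rfl⟩, rfl⟩
    have := h1 ⟨g, hg⟩ trivial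
    simpa [← ha, hj] using this
  · show IsClosed {p | ∀ b, c (.inr b) p = 0}
    rw [ofPred_forall]
    exact isClosed_iInter fun b => isClosed_eq (hc _) continuous_const
  · obtain ⟨D, hD, hD'⟩ := hL.exists_countable_dense
    choose a ha using fun p : L => p.1.2.toAdd.2
    have h1 : ∀ p : L, p.1.1.toAdd = F (fun i => x (.inl i)) (a p) := by
      intro p
      have h2 : ∀ b, ∃ k : ℤ, x (.inr (.inl (.inr b))) *
          (p.1.1.toAdd - F (fun i => x (.inl i)) (a p)) = k := by
        intro b
        have := p.2 b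
        simp only [c] at this
        rw [← ha, hj, hF (.inr b) _ fun _ _ => trivial, ← AddCircle.coe_sub, ← mul_sub,
          AddCircle.coe_eq_zero_iff] at this
        obtain ⟨k, hk⟩ := this
        exact ⟨k, by rw [← hk]; simp⟩
      obtain ⟨k, hk⟩ := h2 true
      obtain ⟨l, hl⟩ := h2 false
      have h3 := hx ((k : MvPolynomial V ℚ) * Y (.inr (.inl (.inr false))) -
        (l : MvPolynomial V ℚ) * Y (.inr (.inl (.inr true))))
        (fun v => if v = .inr (.inl (.inr false)) then 1 else 0) (by
          simp only [map_sub, map_mul, map_intCast, MvPolynomial.aeval_X]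
          rw [← hk, ← hl]; ring)
      have h4 : x (.inr (.inl (.inr true))) ≠ 0 := fun e => by
        simpa using hx (Y (.inr (.inl (.inr true)))) 1 (by simpa using e)
      have h5 : (k : ℝ) = 0 := by simpa using h3
      exact sub_eq_zero.mp ((mul_eq_zero.mp (hk.trans h5)).resolve_left h4)
    obtain ⟨s, hs⟩ := ((hD.biUnion fun p _ => (a p).support.countable_toSet).insert
      0).exists_eq_range (insert_nonempty _ _)
    obtain ⟨i, hi⟩ : ∃ i, i ∉ range s := by
      by_contra h
      push Not at h
      exact not_countable_univ ((countable_range s).mono fun i _ => h i)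
    have h6 : ∀ p : L, c (.inl s) p.1 = 0 := by
      refine fun p => closure_minimal (fun p hp => ?_) (isClosed_eq ((hc _).comp
        continuous_subtype_val) continuous_const) (hD' p)
      show c (.inl s) p.1 = 0
      simp only [c]
      rw [← ha, hj, hF (.inl s) _ fun i hi => hs.subset (mem_insert_of_mem _
        (mem_biUnion hp hi)), h1, sub_self]
    have h7 := h6 ⟨(Multiplicative.ofAdd (x (.inl i)),
      Multiplicative.ofAdd ⟨j (Finsupp.single i 1), _, rfl⟩), fun b => by
        simp [c, hj, F, mo, supp]⟩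
    simp only [c, toAdd_ofAdd, hj, F, Finsupp.liftAddHom_apply_single, zmultiplesHom_apply,
      one_smul, mo, supp, if_neg hi, ← AddCircle.coe_sub, AddCircle.coe_eq_zero_iff] at h7
    obtain ⟨k, hk⟩ := h7
    have h8 := fun y => hx (Y (.inr (.inl (.inl s))) * Y (.inl i) -
      Y (.inr (.inr (.inl s, i))) - (k : MvPolynomial V ℚ)) y (by simp [← hk])
    have h9 := h8 0
    have h10 := h8 fun v => if v = .inr (.inr (.inl s, i)) then 1 else 0
    simp at h9
    simp [h9] at h10

end Pool.Agent.Lib.helper27.SSep
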