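import Mathlib

set_option autoImplicit false

namespace Pool.Agent.Lib.helper27.Smooth

open MeasureTheory Filter Topology Set unitInterval

theorem ekeland {X : Type*} [MetricSpace X] [CompleteSpace X] [Nonempty X] (F : X → ℝ)
    (hF : Continuous F) (hb : BddBelow (range F)) (ε : ℝ) (hε : 0 < ε) :
    ∃ x, ∀ y, F x ≤ F y + ε * dist x y := by
  let S : X → Set X := fun x => {y | F y + ε * dist x y ≤ F x}
  have hS : ∀ x, x ∈ S x := fun x => by simp [S]
  have htr : ∀ x y z, y ∈ S x → z ∈ S y → z ∈ S x := by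
    intro x y z h1 h2
    have := dist_triangle x y z
    simp only [S, mem_ofPred_eq] at *
    nlinarith
  have step : ∀ (n : ℕ) (x : X), ∃ y ∈ S x, ∀ z ∈ S x, F y ≤ F z + 1 / ((n : ℝ) + 1) := by
    intro n x
    have hbd : BddBelow (F '' S x) := hb.mono (image_subset_range _ _)
    have hne : (F '' S x).Nonempty := ⟨_, x, hS x, rfl⟩
    have hp : (0 : ℝ) < 1 / ((n : ℝ) + 1) := by positivity
    obtain ⟨_, ⟨y, hy, rfl⟩, hlt⟩ := exists_lt_of_csInf_lt hne (lt_add_of_pos_right _ hp)
    exact ⟨y, hy, fun z hz => by linarith [csInf_le hbd ⟨z, hz, rfl⟩]⟩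
  choose g hg1 hg2 using step
  let x : ℕ → X := fun n => Nat.rec (Classical.arbitrary X) (fun n y => g n y) n
  have hx : ∀ n, x (n + 1) = g n (x n) := fun n => rfl
  have hmono : ∀ n m, n ≤ m → x m ∈ S (x n) := by
    intro n m h
    induction h with
    | refl => exact hS _
    | step _ ih => exact htr _ _ _ ih (hg1 _ _)
  have hd : ∀ n z, z ∈ S (x (n + 1)) → dist (x (n + 1)) z ≤ ε⁻¹ * (1 / ((n : ℝ) + 1)) := by
    intro n z hz
    have h1 := hg2 n (x n) z (htr _ _ _ (hg1 n (x n)) hz)
    rw [← hx] at h1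
    have h2 : F z + ε * dist (x (n + 1)) z ≤ F (x (n + 1)) := hz
    rw [le_inv_mul_iff₀ hε]; linarith
  have hlim0 : Tendsto (fun n : ℕ => ε⁻¹ * (1 / ((n : ℝ) + 1))) atTop (𝓝 0) := by
    simpa using tendsto_one_div_add_atTop_nhds_zero_nat.const_mul ε⁻¹
  have hc : CauchySeq fun n => x (n + 1) :=
    cauchySeq_of_le_tendsto_0' _ (fun n m h => hd n _ (hmono (n + 1) (m + 1) (by omega))) hlim0
  obtain ⟨a, ha⟩ := cauchySeq_tendsto_of_complete hc
  have haS : ∀ n, a ∈ S (x n) := by
    intro n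
    have hcl : IsClosed (S (x n)) := isClosed_le (by fun_prop) continuous_const
    refine hcl.mem_of_tendsto ha ?_
    filter_upwards [eventually_ge_atTop n] with m hm using hmono n (m + 1) (by omega)
  refine ⟨a, fun y => ?_⟩
  by_contra hcon
  push Not at hcon
  have hy : ∀ n, dist (x (n + 1)) y ≤ ε⁻¹ * (1 / ((n : ℝ) + 1)) :=
    fun n => hd n y (htr _ _ _ (haS (n + 1)) hcon.le)
  have h1 : Tendsto (fun n => dist (x (n + 1)) y) atTop (𝓝 (dist a y)) :=
    ha.dist tendsto_const_nhds
  have h2 : dist a y ≤ 0 := le_of_tendsto_of_tendsto' h1 hlim0 hy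
  have h3 : a = y := dist_le_zero.mp h2
  subst h3
  simp at hcon

abbrev Om := ℕ → I

noncomputable def mu : Measure Om := Measure.infinitePi fun _ => (volume : Measure I)

instance : IsProbabilityMeasure mu := by unfold mu; infer_instance

theorem map_upd (i : ℕ) :
    (mu.prod (volume : Measure I)).map (fun p => Function.update p.1 i p.2) = mu := by
  classical
  have hm : Measurable fun p : Om × I => Function.update p.1 i p.2 := measurable_update'
  refine Measure.eq_infinitePi _ fun s t ht => ?_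
  rw [Measure.map_apply hm (MeasurableSet.pi s.countable_toSet fun j _ => ht j)]
  by_cases hi : i ∈ s
  · have : (fun p : Om × I => Function.update p.1 i p.2) ⁻¹' (Set.pi s t) =
        (Set.pi (s.erase i) t) ×ˢ t i := by
      ext p
      simp only [mem_preimage, Set.mem_pi, Finset.mem_coe, mem_prod, Finset.mem_erase]
      constructor
      · intro h
        refine ⟨fun j hj => ?_, ?_⟩
        · simpa [Function.update_of_ne hj.1] using h j hj.2
        · simpa using h i hi
      · rintro ⟨h1, h2⟩ j hj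
        by_cases hji : j = i
        · subst hji; simpa using h2
        · simpa [Function.update_of_ne hji] using h1 j ⟨hji, hj⟩
    rw [this, Measure.prod_prod, mu, Measure.infinitePi_pi _ (fun j _ => ht j),
      Finset.prod_erase_mul _ _ hi]
  · have : (fun p : Om × I => Function.update p.1 i p.2) ⁻¹' (Set.pi s t) =
        (Set.pi s t) ×ˢ univ := by
      ext p
      simp only [mem_preimage, Set.mem_pi, Finset.mem_coe, mem_prod, mem_univ, and_true]
      refine forall₂_congr fun j hj => ?_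
      rw [Function.update_of_ne (ne_of_mem_of_not_mem hj hi)]
    rw [this, Measure.prod_prod, mu, Measure.infinitePi_pi _ (fun j _ => ht j), measure_univ,
      mul_one]

variable {X : Type} [NormedAddCommGroup X] [NormedSpace ℝ X]

/-- `f` is the Gateaux derivative of the norm at `y` -/
def Gat (y : X) (f : X →L[ℝ] ℝ) : Prop :=
  ‖f‖ ≤ 1 ∧ f y = ‖y‖ ∧ ∀ v, HasLineDerivAt ℝ (fun z : X => ‖z‖) (f v) y v

theorem supp_eq (y v : X) (f : X →L[ℝ] ℝ) (h1 : ‖f‖ ≤ 1) (h2 : f y = ‖y‖) (d : ℝ)
    (hd : HasLineDerivAt ℝ (fun z : X => ‖z‖) d y v) : d = f v := by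
  have h3 : HasDerivAt (fun t : ℝ => ‖y + t • v‖ - (‖y‖ + t * f v)) (d - f v) 0 := by
    refine HasDerivAt.sub hd ?_
    simpa using ((hasDerivAt_id (0 : ℝ)).mul_const (f v)).const_add ‖y‖
  have h4 : IsLocalMin (fun t : ℝ => ‖y + t • v‖ - (‖y‖ + t * f v)) 0 := by
    refine Filter.Eventually.of_forall fun t => ?_
    have h5 : f (y + t • v) ≤ ‖y + t • v‖ := by
      have := f.le_opNorm (y + t • v)
      have h6 := le_abs_self (f (y + t • v))
      rw [Real.norm_eq_abs] at this
      nlinarith [norm_nonneg (y + t • v)]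
    rw [map_add, map_smul, h2, smul_eq_mul] at h5
    simp only [zero_smul, add_zero, zero_mul, sub_self]
    linarith
  exact sub_eq_zero.mp (h4.hasDerivAt_eq_zero h3)

theorem gat_of_dense (y : X) (s : Set X) (hs : Dense s)
    (h : ∀ u ∈ s, LineDifferentiableAt ℝ (fun z : X => ‖z‖) y u) : ∃ f, Gat y f := by
  obtain ⟨f, h1, h2⟩ := exists_dual_vector'' ℝ y
  have h2' : f y = ‖y‖ := h2
  refine ⟨f, h1, h2', fun v => ?_⟩
  rw [hasLineDerivAt_iff_tendsto_slope_zero, Metric.tendsto_nhds]
  intro ε hε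
  obtain ⟨u, hu, huv⟩ := Metric.mem_closure_iff.mp (hs v) (ε / 3) (by positivity)
  have h3 := (h u hu).hasLineDerivAt
  rw [supp_eq y u f h1 h2' _ h3] at h3
  have h4 := Metric.tendsto_nhds.mp h3.tendsto_slope_zero (ε / 3) (by positivity)
  filter_upwards [h4, self_mem_nhdsWithin] with t ht ht0
  have ht0' : t ≠ 0 := ht0
  rw [dist_eq_norm] at huv
  rw [Real.dist_eq] at ht ⊢
  have h5 : |‖y + t • v‖ - ‖y + t • u‖| ≤ |t| * ‖v - u‖ := by
    refine (abs_norm_sub_norm_le _ _).trans_eq ?_
    rw [add_sub_add_left_eq_sub, ← smul_sub, norm_smul, Real.norm_eq_abs]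
  have h6 : |t⁻¹ * (‖y + t • v‖ - ‖y + t • u‖)| ≤ ‖v - u‖ := by
    rw [abs_mul, abs_inv, inv_mul_le_iff₀ (abs_pos.mpr ht0')]; exact h5
  have h7 : |f v - f u| ≤ ‖v - u‖ := by
    rw [← map_sub, ← Real.norm_eq_abs]
    have := f.le_opNorm (v - u)
    nlinarith [norm_nonneg (v - u)]
  simp only [smul_eq_mul] at ht ⊢
  have h8 : t⁻¹ * (‖y + t • v‖ - ‖y‖) - f v = (t⁻¹ * (‖y + t • u‖ - ‖y‖) - f u) +
      t⁻¹ * (‖y + t • v‖ - ‖y + t • u‖) - (f v - f u) := by ring
  rw [h8, abs_lt]
  rw [abs_lt] at ht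
  rw [abs_le] at h6 h7
  constructor <;> linarith

theorem exists_xi [CompleteSpace X] [TopologicalSpace.SeparableSpace X] :
    ∃ ξ : Om → X, Continuous ξ ∧ (∀ ω, ‖ξ ω‖ ≤ 2) ∧ ∀ x : X, ∀ᵐ ω ∂mu, ∃ f, Gat (x + ξ ω) f := by
  borelize X
  let u : ℕ → X := TopologicalSpace.denseSeq X
  let c : ℕ → ℝ := fun i => (1 / 2) ^ i / (‖u i‖ + 1)
  have hc : ∀ i, 0 < c i := fun i => by positivity
  let w : ℕ → X := fun i => c i • u i
  have hw : ∀ i, ‖w i‖ ≤ (1 / 2) ^ i := by
    intro i
    rw [norm_smul, Real.norm_eq_abs, abs_of_pos (hc i), div_mul_eq_mul_div,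
      div_le_iff₀ (by positivity)]
    exact mul_le_mul_of_nonneg_left (by linarith) (by positivity)
  have hb : ∀ (ω : Om) i, ‖(ω i : ℝ) • w i‖ ≤ (1 / 2) ^ i := by
    intro ω i
    rw [norm_smul, Real.norm_eq_abs, abs_of_nonneg (ω i).2.1]
    nlinarith [hw i, (ω i).2.1, (ω i).2.2, norm_nonneg (w i)]
  have hsum : ∀ ω : Om, Summable fun i => (ω i : ℝ) • w i := fun ω =>
    Summable.of_norm_bounded summable_geometric_two (hb ω)
  let ξ : Om → X := fun ω => ∑' i, (ω i : ℝ) • w i
  have hξ : Continuous ξ :=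
    continuous_tsum (fun i => by fun_prop) summable_geometric_two fun i ω => hb ω i
  refine ⟨ξ, hξ, fun ω => tsum_of_norm_bounded hasSum_geometric_two (hb ω), fun x => ?_⟩
  have key : ∀ i, ∀ᵐ ω ∂mu, LineDifferentiableAt ℝ (fun z : X => ‖z‖) (x + ξ ω) (w i) := by
    intro i
    have hms : MeasurableSet {ω | LineDifferentiableAt ℝ (fun z : X => ‖z‖) (x + ξ ω) (w i)} :=
      (measurableSet_lineDifferentiableAt (𝕜 := ℝ) (v := w i) continuous_norm).preimage
        (continuous_const.add hξ).measurable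
    have hm : Measurable fun p : Om × I => Function.update p.1 i p.2 := measurable_update'
    rw [← map_upd i, ae_map_iff hm.aemeasurable hms]
    refine (Measure.ae_prod_iff_ae_ae (hm hms)).mpr (Filter.Eventually.of_forall fun ω => ?_)
    let z : X := x + ξ (Function.update ω i 0)
    have hz : ∀ t : I, x + ξ (Function.update ω i t) = z + (t : ℝ) • w i := by
      intro t
      have h1 : (fun j => ((Function.update ω i t j : I) : ℝ) • w j) = fun j =>
          ((Function.update ω i 0 j : I) : ℝ) • w j + Pi.single (M := fun _ => X) i ((t : ℝ) • w i) j := by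
        funext j
        by_cases hj : j = i
        · subst hj; simp
        · simp [Function.update_of_ne hj, Pi.single_eq_of_ne hj]
      have h2 := (hsum (Function.update ω i 0)).hasSum.add (hasSum_pi_single i ((t : ℝ) • w i))
      simp only [z, ξ]
      rw [h1, h2.tsum_eq, add_assoc]
    have hL : LipschitzWith ‖w i‖₊ fun s : ℝ => ‖z + s • w i‖ := by
      refine LipschitzWith.of_dist_le_mul fun a b => ?_
      rw [Real.dist_eq, Real.dist_eq]
      refine (abs_norm_sub_norm_le _ _).trans_eq ?_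
      rw [add_sub_add_left_eq_sub, ← sub_smul, norm_smul, Real.norm_eq_abs, mul_comm, coe_nnnorm]
    have h3 := measurePreserving_coe.quasiMeasurePreserving.ae
      (ae_restrict_of_ae (s := I) hL.ae_differentiableAt_real)
    filter_upwards [h3] with t ht
    show LineDifferentiableAt ℝ _ (x + ξ (Function.update ω i t)) (w i)
    rw [hz]
    have h4 : (fun s : ℝ => ‖z + (t : ℝ) • w i + s • w i‖) =
        (fun s : ℝ => ‖z + s • w i‖) ∘ fun s => (t : ℝ) + s := by
      funext s; simp only [Function.comp, add_smul, add_assoc]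
    show DifferentiableAt ℝ (fun s : ℝ => ‖z + (t : ℝ) • w i + s • w i‖) 0
    rw [h4]
    refine DifferentiableAt.comp 0 (by simpa using ht) (by fun_prop)
  filter_upwards [ae_all_iff.mpr key] with ω hω
  refine gat_of_dense _ _ (TopologicalSpace.denseRange_denseSeq X) ?_
  rintro _ ⟨i, rfl⟩
  exact (lineDifferentiableAt_smul_iff (hc i).ne').mp (hω i)

theorem core [CompleteSpace X] [TopologicalSpace.SeparableSpace X] (f : X →L[ℝ] ℝ)
    (hf : ‖f‖ ≤ 1) (ε : ℝ) (hε : 0 < ε) :
    ∃ T : Om → X →L[ℝ] ℝ, (∀ v, Measurable fun ω => T ω v) ∧ (∀ ω, ‖T ω‖ ≤ 1) ∧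
      (∀ᵐ ω ∂mu, ∃ y, Gat y (T ω)) ∧ ∀ v, f v - ε * ‖v‖ ≤ ∫ ω, T ω v ∂mu := by
  classical
  borelize X
  obtain ⟨ξ, hξ, hξb, hG⟩ := exists_xi (X := X)
  have hint : ∀ x : X, Integrable (fun ω => ‖x + ξ ω‖) mu := fun x =>
    Integrable.of_bound (by fun_prop : Continuous fun ω => ‖x + ξ ω‖).aestronglyMeasurable
      (‖x‖ + 2) (Filter.Eventually.of_forall fun ω => by
        rw [norm_norm]; exact (norm_add_le _ _).trans (by linarith [hξb ω]))
  let φ : X → ℝ := fun x => ∫ ω, ‖x + ξ ω‖ ∂mu
  have hφL : LipschitzWith 1 φ := by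
    refine LipschitzWith.of_dist_le_mul fun a b => ?_
    rw [Real.dist_eq, ← integral_sub (hint a) (hint b), ← Real.norm_eq_abs]
    refine (norm_integral_le_of_norm_le_const (C := dist a b)
      (Filter.Eventually.of_forall fun ω => ?_)).trans (by simp)
    rw [Real.norm_eq_abs]
    refine (abs_norm_sub_norm_le _ _).trans_eq ?_
    rw [add_sub_add_right_eq_sub, dist_eq_norm]
  obtain ⟨x, hx⟩ := ekeland (fun x => φ x - f x) (hφL.continuous.sub f.continuous) (by
    refine ⟨-2, ?_⟩
    rintro _ ⟨x, rfl⟩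
    have h1 : ∫ _ : Om, (‖x‖ - 2) ∂mu ≤ φ x := by
      refine integral_mono (integrable_const _) (hint x) fun ω => ?_
      have := norm_sub_le (x + ξ ω) (ξ ω)
      rw [add_sub_cancel_right] at this
      show ‖x‖ - 2 ≤ ‖x + ξ ω‖
      linarith [hξb ω]
    have h2 : f x ≤ ‖x‖ := by
      have := f.le_opNorm x
      have h6 := le_abs_self (f x)
      rw [Real.norm_eq_abs] at this
      nlinarith [norm_nonneg x]
    simp only [integral_const, probReal_univ, smul_eq_mul, one_mul] at h1
    show -2 ≤ φ x - f x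
    linarith) ε hε
  let G : Set Om := {ω | ∃ g, Gat (x + ξ ω) g}
  have hGm : MeasurableSet G := by
    have : G = ⋂ i, {ω | LineDifferentiableAt ℝ (fun z : X => ‖z‖) (x + ξ ω)
        (TopologicalSpace.denseSeq X i)} := by
      ext ω
      simp only [G, mem_ofPred_eq, mem_iInter]
      constructor
      · rintro ⟨g, hg⟩ i; exact (hg.2.2 _).lineDifferentiableAt
      · intro h
        refine gat_of_dense _ _ (TopologicalSpace.denseRange_denseSeq X) ?_
        rintro _ ⟨i, rfl⟩; exact h i
    rw [this]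
    exact MeasurableSet.iInter fun i =>
      (measurableSet_lineDifferentiableAt (𝕜 := ℝ) continuous_norm).preimage
        (continuous_const.add hξ).measurable
  let T : Om → X →L[ℝ] ℝ := fun ω => if h : ω ∈ G then h.choose else 0
  have hT : ∀ ω ∈ G, Gat (x + ξ ω) (T ω) := by
    intro ω h
    simp only [T, dif_pos h]; exact h.choose_spec
  have hTm : ∀ v, Measurable fun ω => T ω v := by
    intro v
    have : (fun ω => T ω v) = G.indicator fun ω =>
        lineDeriv ℝ (fun z : X => ‖z‖) (x + ξ ω) v := by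
      funext ω
      by_cases h : ω ∈ G
      · rw [indicator_of_mem h, ((hT ω h).2.2 v).lineDeriv]
      · rw [indicator_of_notMem h]; simp [T, h]
    rw [this]
    exact ((measurable_lineDeriv (𝕜 := ℝ) continuous_norm).comp
      (continuous_const.add hξ).measurable).indicator hGm
  refine ⟨T, hTm, fun ω => ?_, ?_, fun v => ?_⟩
  · by_cases h : ω ∈ G
    · exact (hT ω h).1
    · simp [T, h]
  · filter_upwards [hG x] with ω hω using ⟨_, hT ω hω⟩
  · let t : ℕ → ℝ := fun n => 1 / ((n : ℝ) + 1)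
    have ht : ∀ n, 0 < t n := fun n => by positivity
    have htl : Tendsto t atTop (𝓝[>] 0) :=
      tendsto_nhdsWithin_iff.mpr ⟨tendsto_one_div_add_atTop_nhds_zero_nat,
        Filter.Eventually.of_forall ht⟩
    have hlim := tendsto_integral_of_dominated_convergence (μ := mu)
      (F := fun n ω => (t n)⁻¹ • (‖x + ξ ω + t n • v‖ - ‖x + ξ ω‖)) (f := fun ω => T ω v)
      (fun _ => ‖v‖) (fun n => (by fun_prop : Continuous _).aestronglyMeasurable)
      (integrable_const _) (fun n => Filter.Eventually.of_forall fun ω => by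
        rw [norm_smul, norm_inv, Real.norm_eq_abs, abs_of_pos (ht n), inv_mul_le_iff₀ (ht n),
          Real.norm_eq_abs]
        refine (abs_norm_sub_norm_le _ _).trans_eq ?_
        rw [add_sub_cancel_left, norm_smul, Real.norm_eq_abs, abs_of_pos (ht n)])
      (by
        filter_upwards [hG x] with ω hω
        exact ((hT ω hω).2.2 v).tendsto_slope_zero_right.comp htl)
    refine ge_of_tendsto' hlim fun n => ?_
    have h1 : (fun ω => ‖x + ξ ω + t n • v‖) = fun ω => ‖x + t n • v + ξ ω‖ := by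
      funext ω; rw [add_right_comm]
    rw [integral_smul, integral_sub (by rw [h1]; exact hint _) (hint x), h1, smul_eq_mul,
      le_inv_mul_iff₀ (ht n)]
    have h2 := hx (x + t n • v)
    rw [dist_eq_norm, sub_add_cancel_left, norm_neg, norm_smul, Real.norm_eq_abs,
      abs_of_pos (ht n), map_add, map_smul, smul_eq_mul] at h2
    show _ ≤ φ (x + t n • v) - φ x
    nlinarith

end Pool.Agent.Lib.helper27.Smooth
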