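import Pool.Agent.Lib.helper27.Smooth

set_option autoImplicit false

namespace Pool.Agent.Lib.helper27.Smooth

open MeasureTheory Filter Topology Set

variable {X : Type} [NormedAddCommGroup X] [NormedSpace ℝ X]

theorem norm_le_of_le (f : X →L[ℝ] ℝ) (c : ℝ) (hc : 0 ≤ c) (h : ∀ v, f v ≤ c * ‖v‖) : ‖f‖ ≤ c := by
  refine f.opNorm_le_bound hc fun v => ?_
  rw [Real.norm_eq_abs, abs_le]
  have := h (-v)
  rw [map_neg, norm_neg] at this
  exact ⟨by linarith, h v⟩

theorem sep_of_sep [CompleteSpace X] [TopologicalSpace.SeparableSpace X]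
    (h : TopologicalSpace.IsSeparable {f : X →L[ℝ] ℝ | ∃ y, Gat y f}) :
    TopologicalSpace.SeparableSpace (X →L[ℝ] ℝ) := by
  classical
  obtain ⟨c, hcc, hc⟩ := h
  obtain ⟨g, hg⟩ := (hcc.insert 0).exists_eq_range (insert_nonempty _ _)
  let Y : Submodule ℝ (X →L[ℝ] ℝ) := (Submodule.span ℝ (range g)).topologicalClosure
  have hYc : IsClosed (Y : Set (X →L[ℝ] ℝ)) := Submodule.isClosed_topologicalClosure _
  have hYs : TopologicalSpace.IsSeparable (Y : Set (X →L[ℝ] ℝ)) :=
    ((countable_range _).isSeparable.span).closure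
  have h1 : ∀ f : X →L[ℝ] ℝ, ‖f‖ ≤ 1 → f ∈ Y := by
    intro f hf
    rw [← SetLike.mem_coe, ← hYc.closure_eq, Metric.mem_closure_iff]
    intro ε3 hε3
    let ε := ε3 / 3
    have hε : 0 < ε := by positivity
    obtain ⟨T, hTm, hT1, hTG, hTf⟩ := core f hf ε hε
    let u := TopologicalSpace.denseSeq X
    let A : ℕ → Set Om := fun n => ⋂ k, {ω | T ω (u k) - g n (u k) ≤ ε * ‖u k‖}
    have hA : ∀ n, MeasurableSet (A n) := fun n => MeasurableSet.iInter fun k =>
      measurableSet_le ((hTm _).sub measurable_const) measurable_const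
    have hAn : ∀ n, ∀ ω ∈ A n, ‖T ω - g n‖ ≤ ε := by
      intro n ω hω
      refine norm_le_of_le _ _ hε.le fun v => ?_
      refine (TopologicalSpace.denseRange_denseSeq X).induction_on
        (p := fun v => (T ω - g n) v ≤ ε * ‖v‖) v (isClosed_le (by fun_prop) (by fun_prop)) ?_
      intro k
      exact mem_iInter.mp hω k
    have hp : ∀ ω, ∃ n, ω ∈ A n ∪ (⋃ m, A m)ᶜ := by
      intro ω
      by_cases hω : ω ∈ ⋃ m, A m
      · obtain ⟨n, hn⟩ := mem_iUnion.mp hω
        exact ⟨n, Or.inl hn⟩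
      · exact ⟨0, Or.inr hω⟩
    have hN : Measurable fun ω => Nat.find (hp ω) :=
      measurable_find hp fun k => (hA k).union (MeasurableSet.iUnion hA).compl
    let k : Om → X →L[ℝ] ℝ := fun ω => g (Nat.find (hp ω))
    have hks : StronglyMeasurable k := (StronglyMeasurable.of_discrete (f := g)).comp_measurable hN
    have hkT : ∀ᵐ ω ∂mu, ‖T ω - k ω‖ ≤ ε := by
      filter_upwards [hTG] with ω hω
      rcases Nat.find_spec (hp ω) with h2 | h2
      · exact hAn _ _ h2
      · exfalso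
        apply h2
        obtain ⟨b, hb, hbd⟩ := Metric.mem_closure_iff.mp (hc hω) ε hε
        obtain ⟨n, rfl⟩ : b ∈ range g := hg ▸ mem_insert_of_mem _ hb
        refine mem_iUnion.mpr ⟨n, mem_iInter.mpr fun j => ?_⟩
        rw [dist_eq_norm] at hbd
        have h3 := (T ω - g n).le_opNorm (u j)
        have h4 := le_abs_self ((T ω - g n) (u j))
        rw [Real.norm_eq_abs] at h3
        show (T ω - g n) (u j) ≤ _
        nlinarith [norm_nonneg (u j)]
    have hki : Integrable k mu := by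
      refine Integrable.of_bound hks.aestronglyMeasurable (1 + ε) ?_
      filter_upwards [hkT] with ω hω
      have := norm_sub_le (T ω) (T ω - k ω)
      rw [sub_sub_cancel] at this
      linarith [hT1 ω]
    refine ⟨∫ ω, k ω ∂mu, Y.convex.integral_mem hYc (Filter.Eventually.of_forall fun ω =>
      Submodule.le_topologicalClosure _ (Submodule.subset_span ⟨_, rfl⟩)) hki, ?_⟩
    rw [dist_eq_norm]
    refine (norm_le_of_le _ (2 * ε) (by positivity) fun v => ?_).trans_lt (by simp only [ε]; linarith)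
    have hTi : Integrable (fun ω => T ω v) mu :=
      Integrable.of_bound (hTm v).aestronglyMeasurable ‖v‖ (Filter.Eventually.of_forall fun ω => by
        have := (T ω).le_opNorm v
        nlinarith [hT1 ω, norm_nonneg v])
    have h5 : ∫ ω, T ω v ∂mu ≤ ∫ ω, (k ω v + ε * ‖v‖) ∂mu := by
      refine integral_mono_ae hTi ((hki.apply_continuousLinearMap v).add (integrable_const _)) ?_
      filter_upwards [hkT] with ω hω
      have h3 := (T ω - k ω).le_opNorm v
      have h4 := le_abs_self ((T ω - k ω) v)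
      rw [Real.norm_eq_abs] at h3
      rw [ContinuousLinearMap.sub_apply] at h3 h4
      nlinarith [norm_nonneg v]
    rw [integral_add (hki.apply_continuousLinearMap v) (integrable_const _)] at h5
    simp only [integral_const, probReal_univ, smul_eq_mul, one_mul] at h5
    rw [ContinuousLinearMap.sub_apply, ContinuousLinearMap.integral_apply hki]
    linarith [hTf v]
  have h2 : (Y : Set (X →L[ℝ] ℝ)) = univ := by
    refine eq_univ_of_forall fun f => ?_
    have h3 : (‖f‖ + 1)⁻¹ • f ∈ Y := by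
      apply h1
      rw [norm_smul, norm_inv, Real.norm_eq_abs, abs_of_pos (by positivity),
        inv_mul_le_iff₀ (by positivity)]
      linarith
    have h4 := Y.smul_mem (‖f‖ + 1) h3
    rwa [smul_smul, mul_inv_cancel₀ (by positivity), one_smul] at h4
  rw [h2] at hYs
  exact TopologicalSpace.isSeparable_univ_iff.mp hYs

theorem gat_unit (y : X) (f : X →L[ℝ] ℝ) (h : Gat y f) : f = 0 ∨ ∃ x, ‖x‖ = 1 ∧ Gat x f := by
  by_cases hy : y = 0
  · left
    ext v
    have := supp_eq y v 0 (by simp) (by simp [hy]) _ (h.2.2 v)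
    simpa using this
  · right
    have hn : 0 < ‖y‖ := norm_pos_iff.mpr hy
    have h1 : ‖‖y‖⁻¹ • y‖ = 1 := by
      rw [norm_smul, norm_inv, norm_norm, inv_mul_cancel₀ hn.ne']
    refine ⟨‖y‖⁻¹ • y, h1, h.1, ?_, fun v => ?_⟩
    · rw [h1, map_smul, h.2.1, smul_eq_mul, inv_mul_cancel₀ hn.ne']
    · have h2 : HasDerivAt (fun t : ℝ => ‖y + t • (‖y‖ • v)‖) (f (‖y‖ • v)) 0 := h.2.2 _
      have h3 := h2.const_mul ‖y‖⁻¹
      rw [map_smul, smul_eq_mul, ← mul_assoc, inv_mul_cancel₀ hn.ne', one_mul] at h3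
      have h4 : (fun t : ℝ => ‖y‖⁻¹ * ‖y + t • (‖y‖ • v)‖) = fun t : ℝ => ‖‖y‖⁻¹ • y + t • v‖ := by
        funext t
        have : ‖y‖⁻¹ • y + t • v = ‖y‖⁻¹ • (y + t • (‖y‖ • v)) := by
          rw [smul_add, smul_comm t, smul_smul ‖y‖⁻¹, inv_mul_cancel₀ hn.ne', one_smul]
        rw [this, norm_smul, norm_inv, norm_norm]
      rw [h4] at h3
      exact h3

end Pool.Agent.Lib.helper27.Smooth
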