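import Mathlib
import Pool.Agent.Lib.helper27.Rado

set_option autoImplicit false

namespace Pool.Agent.Lib.helper27.SwA

open Pool.Agent.Lib.helper27.Rado MvPowerSeries

noncomputable section

def Rg : SimpleGraph ℕ where
  Adj i j := i ≠ j ∧ adjR i j
  symm := ⟨fun _ _ h => ⟨h.1.symm, adjR_symm.mp h.2⟩⟩
  loopless := ⟨fun _ h => h.1 rfl⟩

open Classical in
def sg (p : Prop) : ℚ := if p then -1 else 1

lemma sg_pos {p : Prop} (h : p) : sg p = -1 := if_pos h
lemma sg_neg {p : Prop} (h : ¬ p) : sg p = 1 := if_neg h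
lemma sg_congr {p q : Prop} (h : p ↔ q) : sg p = sg q := by rw [propext h]

variable {V : Type} [Fintype V]

lemma ord_prod (r : V → ℕ) (hr : Function.Injective r) (h : V → V → ℚ) (hd : ∀ v, h v v = 1) :
    ∏ v, ∏ w, h v w = ∏ v, ∏ w, if r v < r w then h v w * h w v else 1 := by
  have h1 : ∀ v w, h v w = (if r v < r w then h v w else 1) * (if r w < r v then h v w else 1) := by
    intro v w
    rcases lt_trichotomy (r v) (r w) with a | a | a
    · rw [if_pos a, if_neg (by omega), mul_one]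
    · rw [hr a, hd]; simp
    · rw [if_neg (by omega), if_pos a, one_mul]
  have h2 : ∀ v w, (if r v < r w then h v w * h w v else 1) =
      (if r v < r w then h v w else 1) * (if r v < r w then h w v else 1) := by
    intro v w; split_ifs <;> simp
  rw [Finset.prod_congr rfl (fun v _ => Finset.prod_congr rfl (fun w _ => h1 v w))]
  simp only [h2, Finset.prod_mul_distrib]
  congr 1
  rw [Finset.prod_comm]

def chi (G : SimpleGraph V) (u : V → ℕ) : ℚ :=
  ∏ v, ∏ w, sg (G.Adj v w ∧ u v < u w ∧ Rg.Adj (u v) (u w))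

def cutp (G : SimpleGraph V) (S : Set V) : ℚ := ∏ v, ∏ w, sg (G.Adj v w ∧ v ∈ S)

def Ev (G : SimpleGraph V) : Prop := ∀ S, cutp G S = 1

lemma chi_ord (r : V → ℕ) (hr : Function.Injective r) (G : SimpleGraph V) (u : V → ℕ) :
    chi G u = ∏ v, ∏ w, sg (r v < r w ∧ G.Adj v w ∧ Rg.Adj (u v) (u w)) := by
  unfold chi
  rw [ord_prod r hr _ (fun v => sg_neg (by simp))]
  refine Finset.prod_congr rfl fun v _ => Finset.prod_congr rfl fun w _ => ?_
  split_ifs with h
  · by_cases h1 : G.Adj v w ∧ Rg.Adj (u v) (u w)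
    · rcases lt_or_gt_of_ne h1.2.ne with a | a
      · rw [sg_pos ⟨h1.1, a, h1.2⟩, sg_neg (fun x => by omega), sg_pos ⟨h, h1⟩]; simp
      · rw [sg_neg (fun x => by omega), sg_pos ⟨h1.1.symm, a, h1.2.symm⟩, sg_pos ⟨h, h1⟩]; simp
    · rw [sg_neg (fun x => h1 ⟨x.1, x.2.2⟩), sg_neg (fun x => h1 ⟨x.1.symm, x.2.2.symm⟩),
        sg_neg (fun x => h1 x.2)]; simp
  · rw [sg_neg (fun x => h x.1)]

lemma cutp_ord (r : V → ℕ) (hr : Function.Injective r) (G : SimpleGraph V) (S : Set V) :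
    cutp G S = ∏ v, ∏ w, sg (r v < r w ∧ G.Adj v w ∧ ¬ (v ∈ S ↔ w ∈ S)) := by
  unfold cutp
  rw [ord_prod r hr _ (fun v => sg_neg (by simp))]
  refine Finset.prod_congr rfl fun v _ => Finset.prod_congr rfl fun w _ => ?_
  split_ifs with h
  · by_cases h1 : G.Adj v w
    · have h2 := h1.symm
      by_cases a : v ∈ S <;> by_cases b : w ∈ S <;> simp [sg, h, h1, h2, a, b]
    · have h2 : ¬ G.Adj w v := fun x => h1 x.symm
      simp [sg, h1, h2]
  · rw [sg_neg (fun x => h x.1)]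

lemma chi_switch (G : SimpleGraph V) (hG : Ev G) (σ : Equiv.Perm ℕ) (S : Set ℕ)
    (hσ : ∀ i j, i ≠ j → (adjR (σ i) (σ j) ↔ (adjR i j ↔ (i ∈ S ↔ j ∈ S)))) (u : V → ℕ) :
    chi G (fun v => σ (u v)) = chi G u := by
  obtain ⟨r, hr⟩ := Countable.exists_injective_nat V
  rw [← mul_one (chi G u), ← hG (u ⁻¹' S), chi_ord r hr, chi_ord r hr, cutp_ord r hr,
    ← Finset.prod_mul_distrib]
  refine Finset.prod_congr rfl fun v _ => ?_
  rw [← Finset.prod_mul_distrib]
  refine Finset.prod_congr rfl fun w _ => ?_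
  by_cases h0 : r v < r w ∧ G.Adj v w
  · by_cases h1 : u v = u w
    · simp [sg, h1]
    · have h2 := hσ _ _ h1
      have h3 : σ (u v) ≠ σ (u w) := fun e => h1 (σ.injective e)
      have h4 : Rg.Adj (σ (u v)) (σ (u w)) ↔ adjR (σ (u v)) (σ (u w)) := ⟨fun x => x.2, fun x => ⟨h3, x⟩⟩
      have h5 : Rg.Adj (u v) (u w) ↔ adjR (u v) (u w) := ⟨fun x => x.2, fun x => ⟨h1, x⟩⟩
      simp only [h4, h5, h2, Set.mem_preimage, h0.1, h0.2, true_and]
      by_cases a : adjR (u v) (u w) <;> by_cases b : (u v ∈ S ↔ u w ∈ S) <;> simp [sg, a, b]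
  · rw [sg_neg (fun x => h0 ⟨x.1, x.2.1⟩), sg_neg (fun x => h0 ⟨x.1, x.2.1⟩),
      sg_neg (fun x => h0 ⟨x.1, x.2.1⟩)]; simp

variable {W : Type} [Fintype W]

lemma chi_iso {G : SimpleGraph V} {H : SimpleGraph W} (φ : G ≃g H) (w : W → ℕ) :
    chi G (fun v => w (φ v)) = chi H w := by
  unfold chi
  refine Fintype.prod_equiv φ.toEquiv _ _ fun a => Fintype.prod_equiv φ.toEquiv _ _ fun b => ?_
  apply sg_congr
  simp [φ.map_adj_iff]

lemma Ev.iso {G : SimpleGraph V} {H : SimpleGraph W} (φ : G ≃g H) (h : Ev G) : Ev H := by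
  intro S
  rw [← h (φ ⁻¹' S)]
  unfold cutp
  symm
  refine Fintype.prod_equiv φ.toEquiv _ _ fun a => Fintype.prod_equiv φ.toEquiv _ _ fun b => ?_
  apply sg_congr
  simp [φ.map_adj_iff]

def D (u : V → ℕ) : ℕ →₀ ℕ := ∑ v, Finsupp.single (u v) 1

lemma D_apply (u : V → ℕ) (i : ℕ) : D u i = (Finset.univ.filter fun v => u v = i).card := by
  simp only [D, Finsupp.finsetSum_apply, Finsupp.single_apply]
  rw [Finset.card_filter]

lemma mem_supp_D (u : V → ℕ) (i : ℕ) : i ∈ (D u).support ↔ ∃ v, u v = i := by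
  rw [Finsupp.mem_support_iff, D_apply, Ne, Finset.card_eq_zero, Finset.filter_eq_empty_iff]
  simp

lemma D_equiv (β : V ≃ W) (w : W → ℕ) : D (fun v => w (β v)) = D w :=
  Fintype.sum_equiv β _ _ fun _ => rfl

lemma D_perm (σ : Equiv.Perm ℕ) (u : V → ℕ) :
    Finsupp.equivMapDomain σ (D u) = D (fun v => σ (u v)) := by
  ext i
  simp only [Finsupp.equivMapDomain_apply, D_apply]
  congr 1
  ext v
  simp [Equiv.eq_symm_apply]

lemma D_deg (u : V → ℕ) : (D u).sum (fun _ e => e) = Fintype.card V := by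
  unfold D
  rw [← Finsupp.sum_finsetSum_index (fun _ => rfl) (fun _ _ _ => rfl)]
  simp

lemma D_inj_iff (u : V → ℕ) : (∀ i, D u i ≤ 1) ↔ Function.Injective u := by
  simp only [D_apply, Finset.card_le_one, Finset.mem_filter, Finset.mem_univ, true_and]
  exact ⟨fun h a b e => h (u b) a e b rfl, fun h i a ha b hb => h (ha.trans hb.symm)⟩

open Classical in
def fib (V : Type) [Fintype V] (s : ℕ →₀ ℕ) : Finset (V → ℕ) :=
  (Fintype.piFinset fun _ => s.support).filter fun u => D u = s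

lemma mem_fib {s : ℕ →₀ ℕ} {u : V → ℕ} : u ∈ fib V s ↔ D u = s := by
  classical
  unfold fib
  simp only [Finset.mem_filter, Fintype.mem_piFinset, and_iff_right_iff_imp]
  rintro rfl v
  exact (mem_supp_D u _).mpr ⟨v, rfl⟩

def Phi (G : SimpleGraph V) : MvPowerSeries ℕ ℚ := fun s => ∑ u ∈ fib V s, chi G u

lemma coeff_Phi (G : SimpleGraph V) (s : ℕ →₀ ℕ) :
    coeff s (Phi G) = ∑ u ∈ fib V s, chi G u := rfl

lemma Phi_iso {G : SimpleGraph V} {H : SimpleGraph W} (φ : G ≃g H) : Phi G = Phi H := by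
  ext s
  rw [coeff_Phi, coeff_Phi]
  symm
  refine Finset.sum_nbij' (fun w v => w (φ v)) (fun u w => u (φ.symm w)) ?_ ?_ ?_ ?_ ?_
  · intro w hw
    rw [mem_fib] at hw ⊢
    rw [← hw]; exact D_equiv φ.toEquiv w
  · intro w hw
    rw [mem_fib] at hw ⊢
    rw [← hw]; exact D_equiv φ.symm.toEquiv w
  · intro w _; funext a; simp
  · intro w _; funext a; simp
  · intro w _; exact (chi_iso φ w).symm

lemma Phi_deg (G : SimpleGraph V) (s : ℕ →₀ ℕ) (h : coeff s (Phi G) ≠ 0) :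
    s.sum (fun _ e => e) = Fintype.card V := by
  rw [coeff_Phi] at h
  obtain ⟨u, hu, _⟩ := Finset.exists_ne_zero_of_sum_ne_zero h
  rw [← mem_fib.mp hu, D_deg]

lemma Phi_inv (G : SimpleGraph V) (hG : Ev G) (σ : Equiv.Perm ℕ) (S : Set ℕ)
    (hσ : ∀ i j, i ≠ j → (adjR (σ i) (σ j) ↔ (adjR i j ↔ (i ∈ S ↔ j ∈ S)))) (s : ℕ →₀ ℕ) :
    coeff (Finsupp.equivMapDomain σ s) (Phi G) = coeff s (Phi G) := by
  rw [coeff_Phi, coeff_Phi]
  symm
  refine Finset.sum_nbij' (fun u v => σ (u v)) (fun u v => σ.symm (u v)) ?_ ?_ ?_ ?_ ?_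
  · intro w hw
    rw [mem_fib] at hw ⊢
    rw [← hw, D_perm]
  · intro w hw
    rw [mem_fib] at hw ⊢
    rw [← D_perm, hw, ← Finsupp.equivMapDomain_trans]
    simp
  · intro w _; funext a; simp
  · intro w _; funext a; simp
  · intro w _; exact (chi_switch G hG σ S hσ w).symm

lemma coeff_Phi_inj (G : SimpleGraph V) [DecidableEq V] [DecidableEq W] (u : W → ℕ)
    (hu : Function.Injective u) :
    coeff (D u) (Phi G) = ∑ β : V ≃ W, chi G (fun v => u (β v)) := by
  rw [coeff_Phi]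
  symm
  refine Finset.sum_bij (fun β _ v => u (β v)) ?_ ?_ ?_ ?_
  · intro β _
    rw [mem_fib, D_equiv]
  · intro β _ β' _ h
    ext v
    exact hu (congrFun h v)
  · intro w hw
    rw [mem_fib] at hw
    have h1 : ∀ v, ∃ a, u a = w v := fun v =>
      (mem_supp_D u _).mp (hw ▸ (mem_supp_D w _).mpr ⟨v, rfl⟩)
    choose β hβ using h1
    have hw1 : Function.Injective w := (D_inj_iff w).mp (hw ▸ (D_inj_iff u).mpr hu)
    have hb : Function.Bijective β := by
      constructor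
      · intro a b e
        apply hw1
        rw [← hβ, ← hβ, e]
      · intro a
        obtain ⟨v, hv⟩ := (mem_supp_D w _).mp (hw ▸ (mem_supp_D u _).mpr ⟨a, rfl⟩)
        exact ⟨v, hu (by rw [hβ, hv])⟩
    exact ⟨Equiv.ofBijective β hb, Finset.mem_univ _, funext fun v => hβ v⟩
  · intro β _; rfl

open Classical in
def PhiA (A : Finset ℕ) (G : SimpleGraph V) : MvPowerSeries ℕ ℚ :=
  ∑ u ∈ Fintype.piFinset (fun _ : V => A), monomial (D u) (chi G u)

lemma coeff_PhiA (A : Finset ℕ) (G : SimpleGraph V) (s : ℕ →₀ ℕ) (h : s.support ⊆ A) :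
    coeff s (PhiA A G) = coeff s (Phi G) := by
  classical
  rw [coeff_Phi]
  unfold PhiA
  rw [map_sum]
  simp only [coeff_monomial]
  rw [← Finset.sum_filter]
  refine Finset.sum_congr ?_ fun _ _ => rfl
  ext u
  simp only [Finset.mem_filter, Fintype.mem_piFinset, mem_fib]
  constructor
  · rintro ⟨_, h⟩; exact h.symm
  · rintro rfl
    exact ⟨fun v => h ((mem_supp_D u _).mpr ⟨v, rfl⟩), rfl⟩

lemma coeff_prod_congr {B : Type} (A : Finset ℕ) (t : Finset B) (f g : B → MvPowerSeries ℕ ℚ)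
    (h : ∀ b, ∀ s : ℕ →₀ ℕ, s.support ⊆ A → coeff s (f b) = coeff s (g b)) :
    ∀ s : ℕ →₀ ℕ, s.support ⊆ A → coeff s (∏ b ∈ t, f b) = coeff s (∏ b ∈ t, g b) := by
  classical
  induction t using Finset.induction_on with
  | empty => intro s _; rfl
  | insert b t hb ih =>
    intro s hs
    rw [Finset.prod_insert hb, Finset.prod_insert hb, coeff_mul, coeff_mul]
    refine Finset.sum_congr rfl fun p hp => ?_
    rw [Finset.HasAntidiagonal.mem_antidiagonal] at hp
    have h1 : p.1.support ⊆ A := (Finsupp.support_mono (hp ▸ le_self_add)).trans hs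
    have h2 : p.2.support ⊆ A := (Finsupp.support_mono (hp ▸ le_add_self)).trans hs
    rw [h b _ h1, ih _ h2]

section Sig

variable {B : Type} {X : B → Type}

def sigG (C : ∀ b, SimpleGraph (X b)) : SimpleGraph (Σ b, X b) where
  Adj x y := ∃ b v w, x = ⟨b, v⟩ ∧ y = ⟨b, w⟩ ∧ (C b).Adj v w
  symm := ⟨fun _ _ ⟨b, v, w, h1, h2, h3⟩ => ⟨b, w, v, h2, h1, h3.symm⟩⟩
  loopless := ⟨fun _ ⟨b, v, w, h1, h2, h3⟩ => by
    have h := h1.symm.trans h2
    simp only [Sigma.mk.injEq, heq_eq_eq, true_and] at h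
    exact h3.ne h⟩

lemma sig_same (C : ∀ b, SimpleGraph (X b)) (b : B) (v w : X b) :
    (sigG C).Adj ⟨b, v⟩ ⟨b, w⟩ ↔ (C b).Adj v w := by
  constructor
  · rintro ⟨b', v', w', h1, h2, h3⟩
    obtain ⟨rfl, h4⟩ := Sigma.mk.inj_iff.mp h1
    obtain ⟨_, h5⟩ := Sigma.mk.inj_iff.mp h2
    rw [eq_of_heq h4, eq_of_heq h5]; exact h3
  · intro h; exact ⟨b, v, w, rfl, rfl, h⟩

lemma sig_fst {C : ∀ b, SimpleGraph (X b)} {x y : Σ b, X b} (h : (sigG C).Adj x y) : x.1 = y.1 := by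
  obtain ⟨b, v, w, rfl, rfl, _⟩ := h
  rfl

variable [Fintype B] [∀ b, Fintype (X b)]

lemma sig_prod (C : ∀ b, SimpleGraph (X b)) (F : (Σ b, X b) → (Σ b, X b) → Prop) :
    ∏ x, ∏ y, sg ((sigG C).Adj x y ∧ F x y) =
      ∏ b, ∏ v, ∏ w, sg ((C b).Adj v w ∧ F ⟨b, v⟩ ⟨b, w⟩) := by
  rw [Fintype.prod_sigma]
  refine Finset.prod_congr rfl fun b _ => Finset.prod_congr rfl fun v _ => ?_
  rw [Fintype.prod_sigma, Finset.prod_eq_single b]
  · simp only [sig_same]
  · intro b' _ hb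
    exact Finset.prod_eq_one fun w _ => sg_neg fun x => hb (sig_fst x.1).symm
  · simp

lemma chi_sig (C : ∀ b, SimpleGraph (X b)) (u : (Σ b, X b) → ℕ) :
    chi (sigG C) u = ∏ b, chi (C b) (fun v => u ⟨b, v⟩) :=
  sig_prod C _

lemma Ev.sig {C : ∀ b, SimpleGraph (X b)} (h : Ev (sigG C)) (b : B) : Ev (C b) := by
  intro S
  have := h (Sigma.mk b '' S)
  unfold cutp at this
  rw [sig_prod C (fun x _ => x ∈ Sigma.mk b '' S), Finset.prod_eq_single b] at this
  · rw [← this]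
    unfold cutp
    simp only [sigma_mk_injective.mem_set_image]
  · intro b' _ hb
    refine Finset.prod_eq_one fun v _ => Finset.prod_eq_one fun w _ => sg_neg ?_
    rintro ⟨_, a, _, ha⟩
    exact hb (congrArg Sigma.fst ha).symm
  · simp

lemma Phi_sig (C : ∀ b, SimpleGraph (X b)) : Phi (sigG C) = ∏ b, Phi (C b) := by
  classical
  ext s
  rw [← coeff_PhiA s.support _ s subset_rfl,
    ← coeff_prod_congr s.support Finset.univ (fun b => PhiA s.support (C b)) _
      (fun b t ht => coeff_PhiA _ _ t ht) s subset_rfl]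
  congr 1
  unfold PhiA
  rw [Finset.prod_univ_sum]
  refine Finset.sum_nbij' (fun u b v => u ⟨b, v⟩) (fun U x => U x.1 x.2) ?_ ?_ ?_ ?_ ?_
  · intro u hu
    simp only [Fintype.mem_piFinset] at hu ⊢
    exact fun b v => hu _
  · intro u hu
    simp only [Fintype.mem_piFinset] at hu ⊢
    exact fun x => hu _ _
  · intro u _; rfl
  · intro u _; rfl
  · intro u _
    rw [prod_monomial, chi_sig]
    congr 1
    unfold D
    rw [Fintype.sum_sigma]

end Sig

end

end Pool.Agent.Lib.helper27.SwA
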