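import Mathlib
import Pool.Agent.Lib.helper27.SwA

set_option autoImplicit false

namespace Pool.Agent.Lib.helper27.SwB

open Pool.Agent.Lib.helper27.Rado Pool.Agent.Lib.helper27.SwA MvPowerSeries
open scoped symmDiff

noncomputable section

variable {n : ℕ}

def pair (H g : SimpleGraph (Fin n)) : ℚ :=
  ∏ a : Fin n, ∏ b : Fin n, sg ((a : ℕ) < b ∧ H.Adj a b ∧ g.Adj a b)

lemma pair_comm (H g : SimpleGraph (Fin n)) : pair H g = pair g H := by
  unfold pair
  simp only [and_comm (a := H.Adj _ _)]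

lemma sd_adj (g k : SimpleGraph (Fin n)) (a b : Fin n) :
    (g ∆ k).Adj a b ↔ ¬ (g.Adj a b ↔ k.Adj a b) := by
  simp only [symmDiff_def, SimpleGraph.sup_adj, SimpleGraph.sdiff_adj]
  tauto

lemma pair_sd (H g k : SimpleGraph (Fin n)) : pair H (g ∆ k) = pair H g * pair H k := by
  unfold pair
  rw [← Finset.prod_mul_distrib]
  refine Finset.prod_congr rfl fun a _ => ?_
  rw [← Finset.prod_mul_distrib]
  refine Finset.prod_congr rfl fun b _ => ?_
  rw [sd_adj]
  by_cases h1 : (a : ℕ) < b <;> by_cases h2 : H.Adj a b <;> by_cases h3 : g.Adj a b <;>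
    by_cases h4 : k.Adj a b <;> simp [sg, h1, h2, h3, h4]

lemma chi_pair (H : SimpleGraph (Fin n)) (w : Fin n → ℕ) : chi H w = pair H (Rg.comap w) :=
  chi_ord Fin.val Fin.val_injective H w

def cutG (S : Set (Fin n)) : SimpleGraph (Fin n) where
  Adj a b := ¬ (a ∈ S ↔ b ∈ S)
  symm := ⟨fun _ _ h x => h x.symm⟩
  loopless := ⟨fun _ h => h Iff.rfl⟩

lemma pair_cut (H : SimpleGraph (Fin n)) (S : Set (Fin n)) : pair H (cutG S) = cutp H S :=
  (cutp_ord Fin.val Fin.val_injective H S).symm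

lemma sum_sd (k : SimpleGraph (Fin n)) (F : SimpleGraph (Fin n) → ℚ) :
    ∑ g, F (g ∆ k) = ∑ g, F g :=
  Equiv.sum_comp (symmDiff_left_involutive k).toPerm F

lemma orth (H : SimpleGraph (Fin n)) (hH : H ≠ ⊥) : ∑ g, pair H g = 0 := by
  obtain ⟨a, b, hlt, hab⟩ : ∃ a b : Fin n, (a : ℕ) < b ∧ H.Adj a b := by
    obtain ⟨a, b, h⟩ := SimpleGraph.ne_bot_iff_exists_adj.mp hH
    rcases lt_or_gt_of_ne h.ne with h1 | h1
    · exact ⟨a, b, h1, h⟩
    · exact ⟨b, a, h1, h.symm⟩
  have hk : pair H (SimpleGraph.edge a b) = -1 := by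
    unfold pair
    rw [Finset.prod_eq_single a, Finset.prod_eq_single b]
    · exact sg_pos ⟨hlt, hab, by rw [SimpleGraph.edge_adj]; exact ⟨Or.inl ⟨rfl, rfl⟩, hab.ne⟩⟩
    · intro c _ hc
      refine sg_neg fun x => ?_
      rcases (SimpleGraph.edge_adj _ _ _ _).mp x.2.2 with ⟨⟨_, h⟩ | ⟨h, _⟩, _⟩
      · exact hc h
      · exact hab.ne h
    · simp
    · intro c _ hc
      refine Finset.prod_eq_one fun d _ => sg_neg fun x => ?_
      rcases (SimpleGraph.edge_adj _ _ _ _).mp x.2.2 with ⟨⟨h, _⟩ | ⟨h, h'⟩, _⟩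
      · exact hc h
      · have := x.1
        rw [h, h'] at this
        omega
    · simp
  have h := sum_sd (SimpleGraph.edge a b) (pair H)
  simp only [pair_sd, hk, mul_neg, mul_one, Finset.sum_neg_distrib] at h
  linarith

def NN (n : ℕ) : ℚ := Fintype.card (SimpleGraph (Fin n))

lemma NN_pos (n : ℕ) : 0 < NN n := by
  unfold NN
  exact_mod_cast Fintype.card_pos

open Classical in
lemma orth2 (H H' : SimpleGraph (Fin n)) :
    ∑ g, pair H g * pair H' g = if H = H' then NN n else 0 := by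
  have h1 : ∀ g, pair H g * pair H' g = pair (H ∆ H') g := by
    intro g; rw [pair_comm (H ∆ H'), pair_sd, pair_comm g, pair_comm g]
  simp only [h1]
  split_ifs with h
  · subst h
    simp [pair, sg, NN]
  · exact orth _ (fun x => h (symmDiff_eq_bot.mp x))

def emb (g : SimpleGraph (Fin n)) : Fin n → ℕ := (universal g).choose

lemma emb_inj (g : SimpleGraph (Fin n)) : Function.Injective (emb g) := (universal g).choose_spec.1

lemma emb_adj (g : SimpleGraph (Fin n)) (a b : Fin n) (h : a ≠ b) :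
    adjR (emb g a) (emb g b) ↔ g.Adj a b := (universal g).choose_spec.2 a b h

lemma comap_emb (g : SimpleGraph (Fin n)) : Rg.comap (emb g) = g := by
  ext a b
  constructor
  · rintro ⟨h1, h2⟩
    exact (emb_adj g a b fun e => h1 (by rw [e])).mp h2
  · intro h
    exact ⟨fun e => h.ne (emb_inj g e), (emb_adj g a b h.ne).mpr h⟩

def Inv (f : MvPowerSeries ℕ ℚ) : Prop :=
  ∀ σ : Equiv.Perm ℕ,
    (∃ S : Set ℕ, ∀ i j, i ≠ j → (adjR (σ i) (σ j) ↔ (adjR i j ↔ (i ∈ S ↔ j ∈ S)))) →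
    ∀ s : ℕ →₀ ℕ, coeff (Finsupp.equivMapDomain σ s) f = coeff s f

lemma Inv.eq {f : MvPowerSeries ℕ ℚ} (hf : Inv f) (u v : Fin n → ℕ) (hu : Function.Injective u)
    (hv : Function.Injective v) (S0 : Set (Fin n))
    (h : ∀ a b, a ≠ b → (adjR (v a) (v b) ↔ (adjR (u a) (u b) ↔ (a ∈ S0 ↔ b ∈ S0)))) :
    coeff (D v) f = coeff (D u) f := by
  obtain ⟨σ, h1, h2⟩ := homog u v hu hv S0 h
  rw [← hf σ h2 (D u), D_perm]
  simp only [h1]

lemma span_deg {f : MvPowerSeries ℕ ℚ} (hf : Inv f) (n : ℕ) :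
    ∃ a : SimpleGraph (Fin n) → ℚ, (∀ H, a H ≠ 0 → Ev H) ∧
      ∀ u : Fin n → ℕ, Function.Injective u →
        coeff (D u) f = ∑ H, a H * coeff (D u) (Phi H) := by
  classical
  set F : SimpleGraph (Fin n) → ℚ := fun g => coeff (D (emb g)) f with hF
  set c : SimpleGraph (Fin n) → ℚ := fun H => ∑ g, F g * pair H g with hc
  have hF1 : ∀ g S, F (g ∆ cutG S) = F g := by
    intro g S
    refine hf.eq _ _ (emb_inj _) (emb_inj _) S fun a b hab => ?_
    rw [emb_adj _ _ _ hab, emb_adj _ _ _ hab, sd_adj]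
    show ¬ (g.Adj a b ↔ ¬ (a ∈ S ↔ b ∈ S)) ↔ _
    tauto
  have hF2 : ∀ u : Fin n → ℕ, Function.Injective u → coeff (D u) f = F (Rg.comap u) := by
    intro u hu
    refine hf.eq _ _ (emb_inj _) hu ∅ fun a b hab => ?_
    rw [emb_adj _ _ _ hab]
    simp only [Set.mem_empty_iff_false, iff_true]
    exact ⟨fun x => ⟨fun e => hab (hu e), x⟩, fun x => x.2⟩
  have hinv : ∀ g, ∑ H, c H * pair H g = NN n * F g := by
    intro g
    simp only [hc, Finset.sum_mul]
    rw [Finset.sum_comm]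
    have : ∀ g', ∑ H, F g' * pair H g' * pair H g = F g' * if g' = g then NN n else 0 := by
      intro g'
      rw [← orth2, Finset.mul_sum]
      exact Finset.sum_congr rfl fun H _ => by rw [pair_comm g', pair_comm g]; ring
    simp only [this]
    simp [mul_comm]
  have hcard : (0 : ℚ) < Fintype.card (Fin n ≃ Fin n) := by exact_mod_cast Fintype.card_pos
  refine ⟨fun H => c H / (NN n * Fintype.card (Fin n ≃ Fin n)), fun H hH S => ?_, fun u hu => ?_⟩
  · have h0 : c H ≠ 0 := fun x => hH (by simp [x])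
    have h1 : c H = c H * cutp H S := by
      conv_lhs => simp only [hc]
      rw [← sum_sd (cutG S)]
      simp only [hF1, pair_sd, pair_cut, hc, Finset.sum_mul, mul_assoc]
    exact (mul_eq_left₀ h0).mp h1.symm
  · simp only [coeff_Phi_inj _ u hu, chi_pair, Finset.mul_sum]
    rw [Finset.sum_comm]
    have : ∀ β : Fin n ≃ Fin n, ∑ H, c H / (NN n * Fintype.card (Fin n ≃ Fin n)) *
        pair H (Rg.comap fun v => u (β v)) = coeff (D u) f / Fintype.card (Fin n ≃ Fin n) := by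
      intro β
      simp only [div_mul_eq_mul_div]
      rw [← Finset.sum_div, hinv, ← hF2 (fun v => u (β v)) (hu.comp β.injective), D_equiv β u]
      have := NN_pos n
      field_simp
    simp only [this, Finset.sum_const, Finset.card_univ, nsmul_eq_mul]
    field_simp

lemma exists_D (s : ℕ →₀ ℕ) (hs : ∀ i, s i ≤ 1) :
    ∃ d, ∃ u : Fin d → ℕ, Function.Injective u ∧ D u = s := by
  refine ⟨s.support.card, s.support.orderEmbOfFin rfl, (s.support.orderEmbOfFin rfl).injective, ?_⟩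
  ext i
  have h1 := (D_inj_iff _).mpr (s.support.orderEmbOfFin rfl).injective i
  have h2 : i ∈ (D (s.support.orderEmbOfFin rfl)).support ↔ i ∈ s.support := by
    rw [mem_supp_D]
    have := Finset.range_orderEmbOfFin s.support rfl
    rw [← Finset.mem_coe, ← this]; rfl
  simp only [Finsupp.mem_support_iff] at h2
  have := hs i
  omega

def K0 : Ideal (MvPowerSeries ℕ ℚ) where
  carrier := {f | ∀ s : ℕ →₀ ℕ, (∀ i, s i ≤ 1) → coeff s f = 0}
  add_mem' := fun {f g} hf hg s hs => by rw [map_add, hf s hs, hg s hs, add_zero]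
  zero_mem' := fun s _ => by simp
  smul_mem' := fun c f hf s hs => by
    classical
    rw [smul_eq_mul, coeff_mul]
    refine Finset.sum_eq_zero fun p hp => ?_
    rw [Finset.HasAntidiagonal.mem_antidiagonal] at hp
    rw [hf p.2 fun i => le_trans (by rw [← hp]; simp) (hs i), mul_zero]

lemma span_all {f : MvPowerSeries ℕ ℚ} (hf : Inv f) (N : ℕ)
    (hN : ∀ s : ℕ →₀ ℕ, N ≤ s.sum (fun _ e => e) → coeff s f = 0) :
    ∃ a : ∀ n, SimpleGraph (Fin n) → ℚ, (∀ n H, a n H ≠ 0 → Ev H) ∧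
      f - ∑ n ∈ Finset.range N, ∑ H, a n H • Phi H ∈ K0 := by
  choose a h1 h2 using span_deg hf
  refine ⟨a, h1, fun s hs => ?_⟩
  obtain ⟨d, u, hu, rfl⟩ := exists_D s hs
  have hz : ∀ n, n ≠ d → ∀ H : SimpleGraph (Fin n), coeff (D u) (Phi H) = 0 := by
    intro n hn H
    by_contra h
    have := Phi_deg H _ h
    rw [D_deg, Fintype.card_fin, Fintype.card_fin] at this
    exact hn this.symm
  simp only [map_sub, map_sum, map_smul, smul_eq_mul]
  by_cases hd : d < N
  · rw [Finset.sum_eq_single d, ← h2 d u hu, sub_self]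
    · intro n _ hn
      simp [hz n hn]
    · intro h; exact absurd (Finset.mem_range.mpr hd) h
  · rw [hN _ (by rw [D_deg, Fintype.card_fin]; omega), zero_sub, neg_eq_zero]
    refine Finset.sum_eq_zero fun n hn => ?_
    have := Finset.mem_range.mp hn
    simp [hz n (by omega)]

open Classical in
lemma Lam {V : Type} [Fintype V] (G : SimpleGraph V) (H0 : SimpleGraph (Fin n)) :
    ∑ g, pair H0 g * coeff (D (emb g)) (Phi G) =
      ∑ β : V ≃ Fin n, if H0 = G.comap β.symm then NN n else 0 := by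
  have h1 : ∀ (g : SimpleGraph (Fin n)) (β : V ≃ Fin n),
      chi G (fun v => emb g (β v)) = pair (G.comap β.symm) g := by
    intro g β
    have := chi_iso (SimpleGraph.Iso.comap β.symm G).symm (emb g)
    rw [chi_pair, comap_emb] at this
    exact this
  simp only [coeff_Phi_inj _ _ (emb_inj _), h1, Finset.mul_sum]
  rw [Finset.sum_comm]
  exact Finset.sum_congr rfl fun β _ => orth2 _ _

lemma sig_reach {B : Type} {X : B → Type} {C : ∀ b, SimpleGraph (X b)}
    (hC : ∀ b, (C b).Connected) (x y : Σ b, X b) : (sigG C).Reachable x y ↔ x.1 = y.1 := by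
  constructor
  · rintro ⟨p⟩
    induction p with
    | nil => rfl
    | cons h _ ih => exact (sig_fst h).trans ih
  · obtain ⟨b, v⟩ := x
    obtain ⟨b', w⟩ := y
    rintro rfl
    exact ((hC b).preconnected v w).map
      (⟨Sigma.mk b, fun h => (sig_same C b _ _).mpr h⟩ : C b →g sigG C)

lemma sig_iso {B B' : Type} {X : B → Type} {X' : B' → Type} {C : ∀ b, SimpleGraph (X b)}
    {C' : ∀ b, SimpleGraph (X' b)} (hC : ∀ b, (C b).Connected) (hC' : ∀ b, (C' b).Connected)
    (φ : sigG C ≃g sigG C') : ∃ e : B ≃ B', ∀ b, Nonempty (C b ≃g C' (e b)) := by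
  have h1 : ∀ x y, (φ x).1 = (φ y).1 ↔ x.1 = y.1 := by
    intro x y
    rw [← sig_reach hC, ← sig_reach hC', SimpleGraph.Iso.reachable_iff]
  set f : B → B' := fun b => (φ ⟨b, (hC b).nonempty.some⟩).1 with hf
  have h2 : ∀ x, (φ x).1 = f x.1 := fun x => (h1 _ _).mpr rfl
  have hb : Function.Bijective f := by
    constructor
    · intro a b h
      exact (h1 _ _).mp h
    · intro b'
      refine ⟨(φ.symm ⟨b', (hC' b').nonempty.some⟩).1, ?_⟩
      rw [← h2]; simp
  refine ⟨Equiv.ofBijective f hb, fun b => ?_⟩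
  have h3 : ∀ v : X b, ∃ w : X' (f b), φ ⟨b, v⟩ = ⟨f b, w⟩ := by
    intro v
    have := h2 ⟨b, v⟩
    generalize φ ⟨b, v⟩ = z at this
    obtain ⟨c, w⟩ := z
    cases this
    exact ⟨w, rfl⟩
  choose t ht using h3
  have htb : Function.Bijective t := by
    constructor
    · intro v w h
      have : φ ⟨b, v⟩ = φ ⟨b, w⟩ := by rw [ht, ht, h]
      exact sigma_mk_injective (φ.injective this)
    · intro w
      have h4 : (φ.symm ⟨f b, w⟩).1 = b := by
        apply hb.1
        rw [← h2]; simp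
      have h5 : φ (φ.symm ⟨f b, w⟩) = ⟨f b, w⟩ := by simp
      generalize φ.symm ⟨f b, w⟩ = z at h4 h5
      obtain ⟨c, v⟩ := z
      cases h4
      exact ⟨v, sigma_mk_injective ((ht v).symm.trans h5)⟩
  refine ⟨⟨Equiv.ofBijective t htb, fun {v w} => ?_⟩⟩
  show (C' (f b)).Adj (t v) (t w) ↔ _
  rw [← sig_same C', ← ht, ← ht, φ.map_adj_iff, sig_same]

def compIso {V : Type} (G : SimpleGraph V) :
    sigG (fun c : G.ConnectedComponent => c.toSimpleGraph) ≃g G where
  toFun x := x.2.1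
  invFun v := ⟨G.connectedComponentMk v, ⟨v, rfl⟩⟩
  left_inv := by
    rintro ⟨c, v, hv⟩
    cases hv
    rfl
  right_inv v := rfl
  map_rel_iff' := by
    rintro ⟨c, v, hv⟩ ⟨c', w, hw⟩
    constructor
    · intro h
      have h' : G.Adj v w := h
      cases hv
      have : G.connectedComponentMk v = c' :=
        (SimpleGraph.ConnectedComponent.connectedComponentMk_eq_of_adj h').trans hw
      subst this
      exact (sig_same _ _ _ _).mpr h'
    · intro h
      have h1 : c = c' := sig_fst h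
      subst h1
      exact (sig_same _ _ _ _).mp h

def CG : Type := Σ n : ℕ, {G : SimpleGraph (Fin n) // G.Connected ∧ Ev G}

instance : Setoid CG where
  r x y := Nonempty (x.2.1 ≃g y.2.1)
  iseqv := ⟨fun _ => ⟨SimpleGraph.Iso.refl⟩, fun ⟨a⟩ => ⟨a.symm⟩, fun ⟨a⟩ ⟨b⟩ => ⟨a.trans b⟩⟩

def Cl : Type := Quotient (inferInstance : Setoid CG)

def sz (i : Cl) : ℕ := (Quotient.out i).1

def rep (i : Cl) : SimpleGraph (Fin (sz i)) := (Quotient.out i).2.1

lemma rep_conn (i : Cl) : (rep i).Connected := (Quotient.out i).2.2.1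

lemma rep_ev (i : Cl) : Ev (rep i) := (Quotient.out i).2.2.2

lemma rep_inj {i j : Cl} (h : Nonempty (rep i ≃g rep j)) : i = j := by
  rw [← Quotient.out_eq i, ← Quotient.out_eq j]
  exact Quotient.sound h

lemma exists_cl {V : Type} [Fintype V] (C : SimpleGraph V) (h1 : C.Connected) (h2 : Ev C) :
    ∃ i : Cl, Phi C = Phi (rep i) := by
  set φ := SimpleGraph.Iso.comap (Fintype.equivFin V).symm C
  set x : CG := ⟨Fintype.card V, C.comap (Fintype.equivFin V).symm, φ.connected_iff.mpr h1,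
    h2.iso φ.symm⟩
  obtain ⟨ψ⟩ : Nonempty (rep (Quotient.mk _ x) ≃g x.2.1) := Quotient.mk_out x
  exact ⟨Quotient.mk _ x, (Phi_iso (ψ.trans φ)).symm⟩

def gen (i : Cl) : MvPowerSeries ℕ ℚ ⧸ K0 := Ideal.Quotient.mk K0 (Phi (rep i))

lemma Phi_mem {V : Type} [Fintype V] (G : SimpleGraph V) (hG : Ev G) :
    Ideal.Quotient.mk K0 (Phi G) ∈ Algebra.adjoin ℚ (Set.range gen) := by
  classical
  letI : Fintype G.ConnectedComponent := Fintype.ofFinite _
  letI : ∀ c : G.ConnectedComponent, Fintype c := fun c => Fintype.ofFinite _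
  rw [← Phi_iso (compIso G), Phi_sig, map_prod]
  refine Subalgebra.prod_mem _ fun c _ => ?_
  obtain ⟨i, hi⟩ := exists_cl c.toSimpleGraph c.connected_toSimpleGraph
    (Ev.sig (hG.iso (compIso G).symm) c)
  rw [hi]
  exact Algebra.subset_adjoin ⟨i, rfl⟩

abbrev Bm (m : Cl →₀ ℕ) : Type := Σ i : m.support, Fin (m i)

def Gm (m : Cl →₀ ℕ) : SimpleGraph (Σ b : Bm m, Fin (sz b.1.1)) := sigG fun b : Bm m => rep b.1.1

lemma Bm_sum (m : Cl →₀ ℕ) : ∑ b : Bm m, Finsupp.single b.1.1 1 = m := by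
  rw [Fintype.sum_sigma]
  simp only [Finset.sum_const, Finset.card_univ, Fintype.card_fin, Finsupp.smul_single,
    smul_eq_mul, mul_one]
  rw [Finset.sum_coe_sort m.support (fun i => Finsupp.single i (m i))]
  exact Finsupp.sum_single m

lemma Gm_inj {m m' : Cl →₀ ℕ} (φ : Gm m ≃g Gm m') : m = m' := by
  obtain ⟨e, he⟩ := sig_iso (fun b : Bm m => rep_conn b.1.1) (fun b : Bm m' => rep_conn b.1.1) φ
  rw [← Bm_sum m, ← Bm_sum m']
  exact Fintype.sum_equiv e _ _ fun b => by rw [rep_inj (he b)]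

lemma Phi_Gm (m : Cl →₀ ℕ) :
    Ideal.Quotient.mk K0 (Phi (Gm m)) = ∏ i ∈ m.support, gen i ^ m i := by
  unfold Gm
  rw [Phi_sig, map_prod, Fintype.prod_sigma]
  rw [← Finset.prod_coe_sort m.support (fun i => gen i ^ m i)]
  refine Finset.prod_congr rfl fun i _ => ?_
  show ∏ _j : Fin (m i), gen i = _
  rw [Finset.prod_const, Finset.card_univ, Fintype.card_fin]

theorem gen_indep : AlgebraicIndependent ℚ gen := by
  classical
  rw [algebraicIndependent_iff]
  intro p hp
  have h1 : Ideal.Quotient.mk K0 (∑ m ∈ p.support, p.coeff m • Phi (Gm m)) = 0 := by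
    rw [← hp, MvPolynomial.aeval_def, MvPolynomial.eval₂_eq, map_sum]
    refine Finset.sum_congr rfl fun m _ => ?_
    rw [← Phi_Gm, ← Algebra.smul_def]
    rfl
  have h2 := Ideal.Quotient.eq_zero_iff_mem.mp h1
  by_contra hne
  obtain ⟨m0, hm0⟩ := MvPolynomial.support_nonempty.mpr hne
  set β0 := Fintype.equivFin (Σ b : Bm m0, Fin (sz b.1.1))
  set H0 := (Gm m0).comap β0.symm with hH0
  have h3 : ∑ g, pair H0 g * coeff (D (emb g)) (∑ m ∈ p.support, p.coeff m • Phi (Gm m)) = 0 :=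
    Finset.sum_eq_zero fun g _ => by
      rw [h2 _ ((D_inj_iff _).mpr (emb_inj g)), mul_zero]
  simp only [map_sum, map_smul, smul_eq_mul, Finset.mul_sum] at h3
  rw [Finset.sum_comm] at h3
  simp only [mul_left_comm _ (p.coeff _), ← Finset.mul_sum, Lam] at h3
  rw [Finset.sum_eq_single m0] at h3
  · rcases mul_eq_zero.mp h3 with h | h
    · exact MvPolynomial.mem_support_iff.mp hm0 h
    · refine absurd h (ne_of_gt ?_)
      refine Finset.sum_pos' (fun β _ => ?_) ⟨β0, by simp, ?_⟩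
      · split_ifs
        · exact (NN_pos _).le
        · exact le_rfl
      · rw [if_pos rfl]; exact NN_pos _
  · intro m _ hm
    rw [Finset.sum_eq_zero, mul_zero]
    intro β _
    rw [if_neg]
    intro h
    apply hm
    have φ1 := SimpleGraph.Iso.comap β0.symm (Gm m0)
    have φ2 := SimpleGraph.Iso.comap β.symm (Gm m)
    rw [← hH0] at φ1
    rw [← h] at φ2
    exact Gm_inj (φ2.symm.trans φ1)
  · intro h; exact absurd hm0 h

theorem mk_mem {f : MvPowerSeries ℕ ℚ} (hf : Inv f) (N : ℕ)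
    (hN : ∀ s : ℕ →₀ ℕ, N ≤ s.sum (fun _ e => e) → coeff s f = 0) :
    Ideal.Quotient.mk K0 f ∈ Algebra.adjoin ℚ (Set.range gen) := by
  obtain ⟨a, h1, h2⟩ := span_all hf N hN
  rw [Ideal.Quotient.eq.mpr h2, map_sum]
  refine Subalgebra.sum_mem _ fun n _ => ?_
  rw [map_sum]
  refine Subalgebra.sum_mem _ fun H _ => ?_
  by_cases h : a n H = 0
  · rw [h, zero_smul, map_zero]; exact Subalgebra.zero_mem _
  · exact Subalgebra.smul_mem _ (Phi_mem H (h1 n H h)) (a n H)

lemma inv_rep (i : Cl) : Inv (Phi (rep i)) := fun σ ⟨S, hS⟩ s => Phi_inv _ (rep_ev i) σ S hS s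

end

end Pool.Agent.Lib.helper27.SwB
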