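import Mathlib

namespace Pool.Agent.Lib.helper27.WInf

open MvPolynomial

variable {F : Type} [Field F]

abbrev A (F : Type) [Field F] := MvPolynomial ℕ F
abbrev Der (F : Type) [Field F] := Derivation F (A F) (A F)

abbrev W (d : Der F) : Prop := Set.Finite {i : ℕ | d (X i) ≠ 0}

theorem W_zero : W (0 : Der F) := by simp [W]

theorem W_add {d e : Der F} (hd : W d) (he : W e) : W (d + e) := by
  refine (hd.union he).subset fun i hi => ?_
  by_contra h
  simp only [Set.mem_union, Set.mem_ofPred_eq, not_or, not_not] at h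
  exact hi (by simp [h.1, h.2])

theorem W_smul (f : A F) {d : Der F} (hd : W d) : W (f • d) := by
  refine hd.subset fun i hi => ?_
  intro h
  exact hi (by simp [h])

theorem W_csmul (c : F) {d : Der F} (hd : W d) : W (c • d) := by
  refine hd.subset fun i hi => ?_
  intro h
  exact hi (by simp [h])

theorem W_sub {d e : Der F} (hd : W d) (he : W e) : W (d - e) := by
  refine (hd.union he).subset fun i hi => ?_
  by_contra h
  simp only [Set.mem_union, Set.mem_ofPred_eq, not_or, not_not] at h
  exact hi (by simp [h.1, h.2])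

theorem lneg (d e : Der F) : ⁅d, -e⁆ = -⁅d, e⁆ :=
  Derivation.ext fun x => by
    simp only [Derivation.commutator_apply, Derivation.neg_apply, map_neg]; ring

theorem lsub (d e e' : Der F) : ⁅d, e - e'⁆ = ⁅d, e⁆ - ⁅d, e'⁆ :=
  Derivation.ext fun x => by
    simp only [Derivation.commutator_apply, Derivation.sub_apply, map_sub]; ring

theorem ladd (d e e' : Der F) : ⁅d, e + e'⁆ = ⁅d, e⁆ + ⁅d, e'⁆ :=
  Derivation.ext fun x => by
    simp only [Derivation.commutator_apply, Derivation.add_apply, map_add]; ring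

theorem lzero (d : Der F) : ⁅d, (0 : Der F)⁆ = 0 :=
  Derivation.ext fun x => by
    simp [Derivation.commutator_apply]

theorem lsmul (d e : Der F) (c : F) : ⁅d, c • e⁆ = c • ⁅d, e⁆ :=
  Derivation.ext fun x => by
    simp only [Derivation.commutator_apply, Derivation.smul_apply, Derivation.map_smul, smul_sub]

theorem lskew (d e : Der F) : ⁅d, e⁆ = -⁅e, d⁆ :=
  Derivation.ext fun x => by
    simp only [Derivation.commutator_apply, Derivation.neg_apply]; ring

theorem lsum (d : Der F) {T : Finset ℕ} (g : ℕ → Der F) :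
    ⁅d, ∑ i ∈ T, g i⁆ = ∑ i ∈ T, ⁅d, g i⁆ := by
  classical
  induction T using Finset.induction_on with
  | empty => simpa using lzero d
  | insert a T ha ih => rw [Finset.sum_insert ha, Finset.sum_insert ha, ladd, ih]

theorem nsm (d : Der F) : (-1 : F) • d = -d :=
  Derivation.ext fun x => by simp

theorem snsm (c : F) (d : Der F) : c • (-1 : F) • d = -(c • d) :=
  Derivation.ext fun x => by simp

theorem ssub (f g : A F) (d : Der F) : (f - g) • d = f • d - g • d :=
  Derivation.ext fun x => by simp [sub_mul]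

theorem csub (c : F) (d e : Der F) : c • (d - e) = c • d - c • e :=
  Derivation.ext fun x => by simp [smul_sub]

theorem W_lie {d e : Der F} (hd : W d) (he : W e) : W ⁅d, e⁆ := by
  refine (hd.union he).subset fun i hi => ?_
  by_contra h
  simp only [Set.mem_union, Set.mem_ofPred_eq, not_or, not_not] at h
  exact hi (by simp [Derivation.commutator_apply, h.1, h.2])

theorem W_pd (j : ℕ) : W (pderiv j : Der F) := by
  refine (Set.finite_singleton j).subset fun i hi => ?_
  by_contra h
  exact hi (pderiv_X_of_ne h)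

theorem W_sum {T : Finset ℕ} {g : ℕ → Der F} (h : ∀ i, W (g i)) : W (∑ i ∈ T, g i) := by
  classical
  induction T using Finset.induction_on with
  | empty => simpa using W_zero
  | insert a T ha ih => rw [Finset.sum_insert ha]; exact W_add (h a) ih

theorem der_sum_apply {T : Finset ℕ} (g : ℕ → Der F) (x : A F) :
    (∑ i ∈ T, g i) x = ∑ i ∈ T, g i x := by
  classical
  induction T using Finset.induction_on with
  | empty => simp
  | insert a T ha ih => rw [Finset.sum_insert ha, Finset.sum_insert ha, Derivation.add_apply, ih]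

theorem expand {d : Der F} (hd : W d) : d = ∑ i ∈ hd.toFinset, d (X i) • (pderiv i : Der F) := by
  classical
  apply derivation_ext
  intro k
  rw [der_sum_apply, Finset.sum_eq_single k]
  · simp
  · intro i _ hik
    simp [pderiv_X_of_ne (Ne.symm hik)]
  · intro hk
    have : d (X k) = 0 := by simpa using hk
    simp [this]

theorem lie_smul' (d e : Der F) (f : A F) : ⁅d, f • e⁆ = d f • e + f • ⁅d, e⁆ := by
  refine Derivation.ext fun x => ?_
  simp only [Derivation.commutator_apply, Derivation.smul_apply, Derivation.add_apply,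
    smul_eq_mul, Derivation.leibniz]
  ring

theorem der_pd_X (d : Der F) (j i : ℕ) : d (pderiv j (X i : A F)) = 0 := by
  by_cases h : i = j
  · subst h; simp
  · rw [pderiv_X_of_ne h, map_zero]

theorem lie_pd_X (j : ℕ) (d : Der F) (i : ℕ) :
    ⁅(pderiv j : Der F), d⁆ (X i) = pderiv j (d (X i)) := by
  rw [Derivation.commutator_apply, der_pd_X, sub_zero]

theorem lie_pd_pd (j i : ℕ) : ⁅(pderiv j : Der F), (pderiv i : Der F)⁆ = 0 := by
  apply derivation_ext
  intro k
  rw [lie_pd_X, der_pd_X]; rfl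

theorem lie_pd_smul (j i : ℕ) (f : A F) :
    ⁅(pderiv j : Der F), f • (pderiv i : Der F)⁆ = pderiv j f • (pderiv i : Der F) := by
  rw [lie_smul', lie_pd_pd, smul_zero, add_zero]

theorem lie_euler (k i : ℕ) :
    ⁅(X k : A F) • (pderiv k : Der F), (pderiv i : Der F)⁆ =
      (if k = i then (-1 : F) else 0) • (pderiv i : Der F) := by
  rw [lskew, lie_pd_smul]
  split_ifs with h
  · subst h; simp [nsm]
  · rw [pderiv_X_of_ne h]; simp

theorem deg_pderiv {p : A F} {n : ℕ} (h : p.totalDegree ≤ n + 1) (j : ℕ) :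
    (pderiv j p).totalDegree ≤ n := by
  rw [totalDegree, Finset.sup_le_iff]
  intro m hm
  rw [mem_support_iff, coeff_pderiv] at hm
  have h1 : m + Finsupp.single j 1 ∈ p.support := mem_support_iff.mpr (left_ne_zero_of_mul hm)
  have h2 := (le_totalDegree h1).trans h
  rw [Finsupp.sum_add_index' (fun _ => rfl) (fun _ _ _ => rfl),
    Finsupp.sum_single_index rfl] at h2
  omega

variable [CharZero F]

theorem pderiv_ne_zero {p : A F} {n : ℕ} (h : n ∈ p.vars) : pderiv n p ≠ 0 := by
  classical
  obtain ⟨m, hm, hn⟩ := (mem_vars_iff_mem_support n).mp h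
  intro h0
  have h1 := congrArg (coeff (m - Finsupp.single n 1)) h0
  have e : m - Finsupp.single n 1 + Finsupp.single n 1 = m := by
    apply tsub_add_cancel_of_le
    rw [Finsupp.single_le_iff]
    exact Nat.one_le_iff_ne_zero.mpr (Finsupp.mem_support_iff.mp hn)
  rw [coeff_pderiv, e, coeff_zero] at h1
  rcases mul_eq_zero.mp h1 with h2 | h2
  · exact mem_support_iff.mp hm h2
  · exact Nat.cast_add_one_ne_zero _ h2

theorem const_of_pderiv {p : A F} (h : ∀ j, pderiv j p = 0) : ∃ c : F, p = C c := by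
  have : p.vars = ∅ := by
    rw [Finset.eq_empty_iff_forall_notMem]
    exact fun n hn => pderiv_ne_zero hn (h n)
  exact ⟨_, vars_eq_empty_iff_eq_C.mp this⟩

/-- the hypotheses on a Lie automorphism of the finitary vector fields -/
structure IsAut (θ : Der F → Der F) : Prop where
  mem : ∀ d, W d → W (θ d)
  surj : ∀ e, W e → ∃ d, W d ∧ θ d = e
  inj : ∀ d e, W d → W e → θ d = θ e → d = e
  add : ∀ d e, W d → W e → θ (d + e) = θ d + θ e
  lie : ∀ d e, W d → W e → θ ⁅d, e⁆ = ⁅θ d, θ e⁆
  smul : ∀ (c : F) d, W d → θ (c • d) = c • θ d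

namespace IsAut

variable {θ : Der F → Der F} (h : IsAut θ)
include h

theorem zero : θ 0 = 0 := by
  have := h.smul 0 0 W_zero
  rwa [zero_smul, zero_smul] at this

theorem sum {T : Finset ℕ} {g : ℕ → Der F} (hg : ∀ i, W (g i)) :
    θ (∑ i ∈ T, g i) = ∑ i ∈ T, θ (g i) := by
  classical
  induction T using Finset.induction_on with
  | empty => simpa using h.zero
  | insert a T ha ih =>
    rw [Finset.sum_insert ha, Finset.sum_insert ha, h.add _ _ (hg a) (W_sum hg), ih]

theorem DD (j i : ℕ) : ⁅θ (pderiv j), θ (pderiv i)⁆ = 0 := by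
  rw [← h.lie _ _ (W_pd j) (W_pd i), lie_pd_pd, h.zero]

theorem D_ne (j : ℕ) : θ (pderiv j) ≠ 0 := by
  intro h0
  have := h.inj _ _ (W_pd j) W_zero (h0.trans h.zero.symm)
  have h1 := congrArg (fun d : Der F => d (X j)) this
  simp at h1

theorem tf (j : ℕ) {f : A F} (hf : f • θ (pderiv j) = 0) : f = 0 := by
  by_contra h0
  apply h.D_ne j
  refine Derivation.ext fun x => ?_
  have := congrArg (fun d : Der F => d x) hf
  simp only [Derivation.smul_apply, smul_eq_mul, Derivation.zero_apply, mul_eq_zero] at this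
  rw [this.resolve_left h0]; rfl

theorem HD (k i : ℕ) : ⁅θ ((X k : A F) • (pderiv k : Der F)), θ (pderiv i)⁆ =
    (if k = i then (-1 : F) else 0) • θ (pderiv i) := by
  rw [← h.lie _ _ (W_smul _ (W_pd k)) (W_pd i), lie_euler, h.smul _ _ (W_pd i)]

theorem DE (j k i : ℕ) : ⁅θ (pderiv j), θ ((X k : A F) • (pderiv i : Der F))⁆ =
    if j = k then θ (pderiv i) else 0 := by
  rw [← h.lie _ _ (W_pd j) (W_smul _ (W_pd i)), lie_pd_smul]
  split_ifs with hjk
  · subst hjk; simp
  · rw [pderiv_X_of_ne (Ne.symm hjk), zero_smul, h.zero]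

theorem cent {e : Der F} (he : W e) (hc : ∀ j, ⁅θ (pderiv j), e⁆ = 0) :
    ∃ (c : ℕ → F) (T : Finset ℕ), e = ∑ i ∈ T, c i • θ (pderiv i) ∧ (∀ k, k ∉ T → c k = 0) ∧
      ∀ k, ⁅θ ((X k : A F) • (pderiv k : Der F)), e⁆ = -(c k • θ (pderiv k)) := by
  classical
  obtain ⟨d, hd, rfl⟩ := h.surj e he
  have h1 : ∀ i, ∃ c : F, d (X i) = C c := fun i => const_of_pderiv fun j => by
    have := h.inj _ _ (W_lie (W_pd j) hd) W_zero
      (by rw [h.lie _ _ (W_pd j) hd, hc, h.zero])
    rw [← lie_pd_X, this]; rfl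
  choose c hc' using h1
  have e1 : θ d = ∑ i ∈ hd.toFinset, c i • θ (pderiv i) := by
    conv_lhs => rw [expand hd]
    rw [h.sum (fun i => W_smul _ (W_pd i))]
    refine Finset.sum_congr rfl fun i _ => ?_
    rw [← h.smul _ _ (W_pd i), hc']
    congr 1
    refine Derivation.ext fun x => ?_
    simp [smul_eq_C_mul]
  have e2 : ∀ k, k ∉ hd.toFinset → c k = 0 := fun k hk => by
    have : d (X k) = 0 := by simpa using hk
    rw [hc'] at this
    simpa using this
  refine ⟨c, _, e1, e2, fun k => ?_⟩
  rw [e1, lsum, Finset.sum_eq_single k]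
  · rw [lsmul, h.HD, if_pos rfl, snsm]
  · intro i _ hik
    rw [lsmul, h.HD, if_neg (Ne.symm hik)]; simp
  · intro hk
    rw [e2 k hk, zero_smul, lzero]

theorem wt {e : Der F} (he : W e) (hc : ∀ j, ⁅θ (pderiv j), e⁆ = 0) (k : ℕ) (a : F)
    (ha : ⁅θ ((X k : A F) • (pderiv k : Der F)), e⁆ = a • e) (h0 : a ≠ 0) (h1 : a + 1 ≠ 0) :
    e = 0 := by
  obtain ⟨c, T, -, -, h3⟩ := h.cent he hc
  have h4 : ⁅θ ((X k : A F) • (pderiv k : Der F)), ⁅θ ((X k : A F) • (pderiv k : Der F)), e⁆⁆ =
      -⁅θ ((X k : A F) • (pderiv k : Der F)), e⁆ := by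
    rw [h3, lneg, lsmul, h.HD, if_pos rfl, snsm]
  rw [ha, lsmul, ha, smul_smul] at h4
  have h5 : (a * (a + 1)) • e = 0 := by
    rw [mul_add, mul_one, add_smul, h4, neg_add_cancel]
  exact (smul_eq_zero.mp h5).resolve_left (mul_ne_zero h0 h1)

theorem wt0 {e : Der F} (he : W e) (hc : ∀ j, ⁅θ (pderiv j), e⁆ = 0)
    (ha : ∀ k, ⁅θ ((X k : A F) • (pderiv k : Der F)), e⁆ = 0) : e = 0 := by
  obtain ⟨c, T, h1, -, h3⟩ := h.cent he hc
  rw [h1]
  refine Finset.sum_eq_zero fun i _ => ?_
  have := h3 i
  rw [ha] at this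
  exact neg_eq_zero.mp this.symm

theorem lie_D_smul (j i : ℕ) (f : A F) :
    ⁅θ (pderiv j), f • θ (pderiv i)⁆ = θ (pderiv j) f • θ (pderiv i) := by
  rw [lie_smul', h.DD, smul_zero, add_zero]

theorem const {b : A F} (hb : ∀ j, θ (pderiv j) b = 0) : ∃ c : F, b = C c := by
  have hW : ∀ f : A F, W (f • θ (pderiv 0)) := fun f => W_smul _ (h.mem _ (W_pd 0))
  obtain ⟨c, T, h1, h2, h3⟩ := h.cent (hW b) (fun j => by rw [h.lie_D_smul, hb, zero_smul])
  have hH : ∀ i, i ≠ 0 → ∀ f : A F, ⁅θ ((X i : A F) • (pderiv i : Der F)), f • θ (pderiv 0)⁆ =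
      θ ((X i : A F) • (pderiv i : Der F)) f • θ (pderiv 0) := fun i hi f => by
    rw [lie_smul', h.HD, if_neg hi]; simp
  have hc : ∀ i, i ≠ 0 → c i • θ (pderiv i) = 0 := by
    intro i hi
    set H := θ ((X i : A F) • (pderiv i : Der F)) with hHd
    have e1 : H b • θ (pderiv 0) = -(c i • θ (pderiv i)) := by rw [← hH i hi, h3]
    have e2 : ∀ j, θ (pderiv j) (H b) = 0 := fun j => h.tf 0 (by
      rw [← h.lie_D_smul, e1, lneg, lsmul, h.DD]; simp)
    have e3 : H (H b) = -H b := by
      have : (H (H b) + H b) • θ (pderiv 0) = 0 := by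
        rw [add_smul, ← hH i hi, e1, lneg, lsmul, h.HD, if_pos rfl, snsm, neg_add_cancel]
      exact eq_neg_of_add_eq_zero_left (h.tf 0 this)
    have e4 : (H b * H b) • θ (pderiv 0) = 0 := by
      refine h.wt (hW _) (fun j => ?_) i (-2) ?_ (by norm_num) (by norm_num)
      · rw [h.lie_D_smul, Derivation.leibniz, e2]; simp
      · rw [hH i hi, Derivation.leibniz, e3]
        refine Derivation.ext fun x => ?_
        simp only [Derivation.smul_apply, smul_eq_mul, neg_smul, two_smul]
        ring_nf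
    have e5 : H b = 0 := mul_self_eq_zero.mp (h.tf 0 e4)
    rw [e5, zero_smul] at e1
    exact neg_eq_zero.mp e1.symm
  have e : b • θ (pderiv 0) = c 0 • θ (pderiv 0) := by
    rw [h1, Finset.sum_eq_single 0 (fun i _ hi => hc i hi) (fun h0 => by rw [h2 0 h0, zero_smul])]
  refine ⟨c 0, sub_eq_zero.mp (h.tf 0 ?_)⟩
  rw [ssub, e, sub_eq_zero]
  refine Derivation.ext fun x => ?_
  simp [smul_eq_C_mul]

theorem descend (n : ℕ) : ∀ (P : Der F) (f : A F), W P → (∀ i, (P (X i)).totalDegree ≤ n) →
    θ P = f • θ (pderiv 0) → (∃ c : F, f = C c) ∨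
      ∃ (g : A F) (j : ℕ), θ (pderiv j) g ≠ 0 ∧ ∀ l, ∃ c : F, θ (pderiv l) g = C c := by
  have step : ∀ (P : Der F) (f : A F), W P → θ P = f • θ (pderiv 0) → ∀ j,
      θ ⁅(pderiv j : Der F), P⁆ = θ (pderiv j) f • θ (pderiv 0) := fun P f hP hf j => by
    rw [h.lie _ _ (W_pd j) hP, hf, h.lie_D_smul]
  induction n with
  | zero =>
    intro P f hP hd hf
    left
    refine h.const fun j => h.tf 0 ?_
    rw [← step P f hP hf j]
    have : ⁅(pderiv j : Der F), P⁆ = 0 := by
      apply derivation_ext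
      intro i
      rw [lie_pd_X, (totalDegree_eq_zero_iff_eq_C).mp (Nat.le_zero.mp (hd i)), pderiv_C]; rfl
    rw [this, h.zero]
  | succ n ih =>
    intro P f hP hd hf
    by_cases h1 : ∀ l, ∃ c : F, θ (pderiv l) f = C c
    · by_cases h2 : ∀ j, θ (pderiv j) f = 0
      · exact Or.inl (h.const h2)
      · push Not at h2
        obtain ⟨j, hj⟩ := h2
        exact Or.inr ⟨f, j, hj, h1⟩
    · push Not at h1
      obtain ⟨l, hl⟩ := h1
      rcases ih _ _ (W_lie (W_pd l) hP) (fun i => by rw [lie_pd_X]; exact deg_pderiv (hd i) l)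
        (step P f hP hf l) with ⟨c, hc⟩ | h3
      · exact absurd hc (hl c)
      · exact Or.inr h3

theorem slices : ∃ y : ℕ → A F, (∀ j k, θ (pderiv j) (y k) = if j = k then 1 else 0) ∧
    ∀ j k, θ ((X j : A F) • (pderiv j : Der F)) (y k) = if j = k then y k else 0 := by
  obtain ⟨P, hP, hf⟩ := h.surj _ (W_smul (X 0) (h.mem _ (W_pd 0)))
  obtain ⟨g, j0, hg0, hg⟩ : ∃ (g : A F) (j : ℕ), θ (pderiv j) g ≠ 0 ∧
      ∀ l, ∃ c : F, θ (pderiv l) g = C c := by
    refine (h.descend (hP.toFinset.sup fun i => (P (X i)).totalDegree) P _ hP (fun i => ?_)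
      hf).resolve_left ?_
    · by_cases hi : i ∈ hP.toFinset
      · exact Finset.le_sup (f := fun i => (P (X i)).totalDegree) hi
      · have : P (X i) = 0 := by simpa using hi
        rw [this]; simp
    · rintro ⟨c, hc⟩
      have := congrArg (pderiv 0) hc
      simp at this
  have comm : ∀ (j k i : ℕ) (f : A F), θ (pderiv j) (θ ((X k : A F) • (pderiv i : Der F)) f) =
      θ ((X k : A F) • (pderiv i : Der F)) (θ (pderiv j) f) +
        if j = k then θ (pderiv i) f else 0 := fun j k i f => by
    have := congrArg (fun d : Der F => d f) (h.DE j k i)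
    simp only [Derivation.commutator_apply] at this
    rw [sub_eq_iff_eq_add'] at this
    rw [this]
    split_ifs <;> rfl
  obtain ⟨c, hc⟩ := hg j0
  have hc0 : c ≠ 0 := fun h0 => hg0 (by rw [hc, h0, map_zero])
  let z : ℕ → A F := fun k => c⁻¹ • θ ((X k : A F) • (pderiv j0 : Der F)) g
  have hz : ∀ j k, θ (pderiv j) (z k) = if j = k then 1 else 0 := fun j k => by
    obtain ⟨c', hc'⟩ := hg j
    simp only [z]
    rw [Derivation.map_smul, comm, hc', derivation_C, zero_add, hc]
    split_ifs
    · rw [smul_eq_C_mul, ← map_mul, inv_mul_cancel₀ hc0, map_one]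
    · simp
  have one0 : ∀ (d : Der F) (j k : ℕ), d (if j = k then 1 else 0) = 0 := fun d j k => by
    split_ifs <;> simp
  let y : ℕ → A F := fun k => θ ((X k : A F) • (pderiv k : Der F)) (z k)
  have hy : ∀ j k, θ (pderiv j) (y k) = if j = k then 1 else 0 := fun j k => by
    simp only [y]
    rw [comm, hz, one0, zero_add, hz, if_pos rfl]
  have hyy : ∀ k, θ ((X k : A F) • (pderiv k : Der F)) (y k) = y k := fun k => by
    obtain ⟨c', hc'⟩ := h.const (b := y k - z k) (fun j => by rw [map_sub, hy, hz, sub_self])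
    have := congrArg (θ ((X k : A F) • (pderiv k : Der F))) hc'
    rw [map_sub, derivation_C, sub_eq_zero] at this
    exact this
  refine ⟨y, hy, fun j k => ?_⟩
  split_ifs with hjk
  · subst hjk; exact hyy j
  · obtain ⟨c', hc'⟩ := h.const (b := θ ((X j : A F) • (pderiv j : Der F)) (y k)) (fun l => by
      rw [comm, hy, one0, hy, if_neg hjk]; simp)
    have h0 : ⁅(X j : A F) • (pderiv j : Der F), (X k : A F) • (pderiv k : Der F)⁆ = 0 := by
      rw [lie_smul', lie_euler, if_neg hjk, Derivation.smul_apply, pderiv_X_of_ne (Ne.symm hjk)]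
      simp
    have h1 := h.lie _ _ (W_smul (X j) (W_pd j)) (W_smul (X k) (W_pd k))
    rw [h0, h.zero] at h1
    have h2 := congrArg (fun d : Der F => d (y k)) h1
    simp only [Derivation.commutator_apply, Derivation.zero_apply] at h2
    rw [hyy, hc', derivation_C, sub_zero] at h2
    rw [hc', h2]

end IsAut

omit [CharZero F] in
theorem intertwine (y : ℕ → A F) (D d : Der F) (hD : ∀ k, D (y k) = aeval y (d (X k)))
    (p : A F) : D (aeval y p) = aeval y (d p) := by
  induction p using MvPolynomial.induction_on with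
  | C a => simp
  | add p q hp hq => rw [map_add, map_add, hp, hq, map_add, map_add]
  | mul_X p k hp =>
    rw [map_mul, Derivation.leibniz, Derivation.leibniz, hp, aeval_X, hD, map_add, smul_eq_mul,
      smul_eq_mul, smul_eq_mul, smul_eq_mul, map_mul, map_mul, aeval_X]

theorem IsAut.main {θ : Der F → Der F} (h : IsAut θ) :
    ∃ φ : A F ≃ₐ[F] A F, ∀ d, W d → ∀ f, θ d (φ f) = φ (d f) := by
  classical
  obtain ⟨y, hy, hH⟩ := h.slices
  have hD : ∀ j p, θ (pderiv j) (aeval y p) = aeval y (pderiv j p) := fun j =>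
    intertwine y _ _ fun k => by
      rw [hy]
      split_ifs with hjk
      · subst hjk; simp
      · rw [pderiv_X_of_ne (Ne.symm hjk), map_zero]
  have hE : ∀ j p, θ ((X j : A F) • (pderiv j : Der F)) (aeval y p) =
      aeval y (((X j : A F) • (pderiv j : Der F)) p) := fun j =>
    intertwine y _ _ fun k => by
      rw [hH]
      split_ifs with hjk
      · subst hjk; simp
      · rw [Derivation.smul_apply, pderiv_X_of_ne (Ne.symm hjk)]; simp
  have csm : ∀ (c : F) (f : A F) (d : Der F), (c • f) • d = c • (f • d) := fun c f d =>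
    smul_assoc c f d
  have mono : ∀ (n : ℕ) (m : ℕ →₀ ℕ), m.degree = n → ∀ i,
      θ ((monomial m 1 : A F) • (pderiv i : Der F)) =
        aeval y (monomial m 1 : A F) • θ (pderiv i) := by
    intro n
    induction n using Nat.strong_induction_on with
    | _ n ih =>
    intro m hm i
    by_cases hm0 : m = 0
    · subst hm0
      have : (monomial (0 : ℕ →₀ ℕ) 1 : A F) = 1 := rfl
      rw [this, map_one, one_smul, one_smul]
    rw [← sub_eq_zero]
    have hW : W (θ ((monomial m 1 : A F) • (pderiv i : Der F)) -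
        aeval y (monomial m 1 : A F) • θ (pderiv i)) :=
      W_sub (h.mem _ (W_smul _ (W_pd i))) (W_smul _ (h.mem _ (W_pd i)))
    have hc : ∀ j, ⁅θ (pderiv j), θ ((monomial m 1 : A F) • (pderiv i : Der F)) -
        aeval y (monomial m 1 : A F) • θ (pderiv i)⁆ = 0 := fun j => by
      rw [lsub, ← h.lie _ _ (W_pd j) (W_smul _ (W_pd i)), lie_pd_smul, h.lie_D_smul, hD,
        pderiv_monomial, sub_eq_zero]
      by_cases hj : m j = 0
      · simp [hj, h.zero]
      · have e1 : (monomial (m - Finsupp.single j 1) (1 * (m j : F)) : A F) =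
            (m j : F) • monomial (m - Finsupp.single j 1) 1 := by
          rw [smul_monomial]; simp
        have e2 : m - Finsupp.single j 1 + Finsupp.single j 1 = m := by
          apply tsub_add_cancel_of_le
          rw [Finsupp.single_le_iff]
          exact Nat.one_le_iff_ne_zero.mpr hj
        have e3 := congrArg Finsupp.degree e2
        rw [map_add, Finsupp.degree_single, hm] at e3
        rw [e1, csm, h.smul _ _ (W_smul _ (W_pd i)), ih _ (by omega) _ rfl, map_smul, csm]
    have hw : ∀ k, ⁅θ ((X k : A F) • (pderiv k : Der F)),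
        θ ((monomial m 1 : A F) • (pderiv i : Der F)) -
        aeval y (monomial m 1 : A F) • θ (pderiv i)⁆ =
        ((m k : F) + if k = i then -1 else 0) • (θ ((monomial m 1 : A F) • (pderiv i : Der F)) -
        aeval y (monomial m 1 : A F) • θ (pderiv i)) := fun k => by
      have e1 : ((X k : A F) • (pderiv k : Der F)) (monomial m 1) =
          (m k : F) • (monomial m 1 : A F) := by
        rw [Derivation.smul_apply, smul_eq_mul, X_mul_pderiv_monomial, Nat.cast_smul_eq_nsmul]
      rw [lsub, ← h.lie _ _ (W_smul _ (W_pd k)) (W_smul _ (W_pd i)), lie_smul', lie_smul',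
        h.HD, hE, e1, lie_euler, map_smul, csm, csm, smul_comm (monomial m 1 : A F), ← add_smul,
        h.smul _ _ (W_smul _ (W_pd i)), smul_comm (aeval y (monomial m 1 : A F)), ← add_smul,
        csub]
    by_cases hi : m i = 0
    · obtain ⟨k, hk⟩ := Finsupp.support_nonempty_iff.mpr hm0
      have hk' : m k ≠ 0 := Finsupp.mem_support_iff.mp hk
      have hki : k ≠ i := fun e => hk' (e ▸ hi)
      refine h.wt hW hc k _ (hw k) ?_ ?_
      · rw [if_neg hki, add_zero]; exact Nat.cast_ne_zero.mpr hk'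
      · rw [if_neg hki, add_zero]; exact Nat.cast_add_one_ne_zero _
    · by_cases h0 : ∀ k, ((m k : F) + if k = i then -1 else 0) = 0
      · exact h.wt0 hW hc fun k => by rw [hw, h0, zero_smul]
      · push Not at h0
        obtain ⟨k, hk⟩ := h0
        refine h.wt hW hc k _ (hw k) hk ?_
        split_ifs with hki
        · subst hki
          rw [neg_add_cancel_right]; exact Nat.cast_ne_zero.mpr hi
        · rw [add_zero]; exact Nat.cast_add_one_ne_zero _
  have gen : ∀ (f : A F) i, θ (f • (pderiv i : Der F)) = aeval y f • θ (pderiv i) := by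
    intro f i
    induction f using MvPolynomial.induction_on' with
    | monomial m a =>
      have e1 : (monomial m a : A F) = a • monomial m 1 := by rw [smul_monomial]; simp
      rw [e1, csm, h.smul _ _ (W_smul _ (W_pd i)), mono _ m rfl, map_smul, csm]
    | add p q hp hq =>
      rw [add_smul, h.add _ _ (W_smul _ (W_pd i)) (W_smul _ (W_pd i)), hp, hq, map_add, add_smul]
  have key : ∀ d, W d → ∀ f, θ d (aeval y f) = aeval y (d f) := by
    intro d hd f
    conv_lhs => rw [expand hd]
    conv_rhs => rw [expand hd]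
    rw [h.sum (fun i => W_smul _ (W_pd i)), der_sum_apply, der_sum_apply, map_sum]
    refine Finset.sum_congr rfl fun i _ => ?_
    rw [gen, Derivation.smul_apply, Derivation.smul_apply, hD, smul_eq_mul, smul_eq_mul, map_mul]
  have hinj : Function.Injective (aeval y : A F →ₐ[F] A F) := by
    rw [injective_iff_map_eq_zero]
    intro f hf
    have h1 := gen f 0
    rw [hf, zero_smul, ← h.zero] at h1
    have h2 := congrArg (fun d : Der F => d (X 0)) (h.inj _ _ (W_smul _ (W_pd 0)) W_zero h1)
    simpa using h2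
  have hsurj : Function.Surjective (aeval y : A F →ₐ[F] A F) := by
    intro f
    obtain ⟨d, hd, he⟩ := h.surj _ (W_smul f (h.mem _ (W_pd 0)))
    refine ⟨d (X 0), ?_⟩
    rw [← key d hd, he, aeval_X, Derivation.smul_apply, hy]
    simp
  exact ⟨AlgEquiv.ofBijective _ ⟨hinj, hsurj⟩, key⟩

end Pool.Agent.Lib.helper27.WInf
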